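import Pool.Agent.KS.Defs

/-! Project KS, row BIA: algebra of birational maps. -/

set_option autoImplicit false

namespace Pool.Agent.KS

open scoped Topology
open Filter

/-- Polynomials in two variables. -/
abbrev P2 := MvPolynomial (Fin 2) ℂ

/-- The polynomials as rational functions. -/
noncomputable abbrev toK : P2 →+* K2 := algebraMap P2 K2

theorem toK_inj : Function.Injective toK := IsFractionRing.injective P2 K2

theorem toK_eq_zero {p : P2} : toK p = 0 ↔ p = 0 := by
  rw [← map_zero toK]; exact toK_inj.eq_iff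

/-- The rational function `z` is regular at `w` with value `a`. -/
def Val (w : C2) (z : K2) (a : ℂ) : Prop :=
  ∃ p r : P2, MvPolynomial.eval (crd w) r ≠ 0 ∧ z = toK p / toK r ∧
    a = MvPolynomial.eval (crd w) p / MvPolynomial.eval (crd w) r

theorem restr_iff {f : K2 ≃ₐ[ℂ] K2} {τ : C2 → C2} {V : Set C2} :
    Restr f τ V ↔ ∀ w ∈ V, ∀ i, Val w (f (toK (MvPolynomial.X i))) (crd (τ w) i) := Iff.rfl

section Val

variable {w : C2} {z z' : K2} {a a' : ℂ}

theorem ne_of_eval {r : P2} (h : MvPolynomial.eval (crd w) r ≠ 0) : toK r ≠ 0 := by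
  intro h0
  rw [toK_eq_zero] at h0
  rw [h0, map_zero] at h
  exact h rfl

theorem Val.unique (h : Val w z a) (h' : Val w z a') : a = a' := by
  obtain ⟨p, r, hr, hz, ha⟩ := h
  obtain ⟨p', r', hr', hz', ha'⟩ := h'
  have h1 : toK p / toK r = toK p' / toK r' := by rw [← hz, hz']
  rw [div_eq_div_iff (ne_of_eval hr) (ne_of_eval hr'), ← map_mul, ← map_mul] at h1
  have h2 := toK_inj h1
  have h3 := congrArg (MvPolynomial.eval (crd w)) h2
  rw [map_mul, map_mul] at h3
  rw [ha, ha', div_eq_div_iff hr hr']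
  exact h3

theorem val_poly (w : C2) (p : P2) : Val w (toK p) (MvPolynomial.eval (crd w) p) :=
  ⟨p, 1, by simp, by simp, by simp⟩

theorem Val.add (h : Val w z a) (h' : Val w z' a') : Val w (z + z') (a + a') := by
  obtain ⟨p, r, hr, hz, ha⟩ := h
  obtain ⟨p', r', hr', hz', ha'⟩ := h'
  refine ⟨p * r' + r * p', r * r', ?_, ?_, ?_⟩
  · rw [map_mul]; exact mul_ne_zero hr hr'
  · rw [hz, hz', div_add_div _ _ (ne_of_eval hr) (ne_of_eval hr')]
    simp only [map_add, map_mul]
  · rw [ha, ha', div_add_div _ _ hr hr']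
    simp only [map_add, map_mul]

theorem Val.mul (h : Val w z a) (h' : Val w z' a') : Val w (z * z') (a * a') := by
  obtain ⟨p, r, hr, hz, ha⟩ := h
  obtain ⟨p', r', hr', hz', ha'⟩ := h'
  refine ⟨p * p', r * r', ?_, ?_, ?_⟩
  · rw [map_mul]; exact mul_ne_zero hr hr'
  · rw [hz, hz', div_mul_div_comm]
    simp only [map_mul]
  · rw [ha, ha', div_mul_div_comm]
    simp only [map_mul]

theorem Val.div (h : Val w z a) (h' : Val w z' a') (h0 : a' ≠ 0) :
    Val w (z / z') (a / a') := by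
  obtain ⟨p, r, hr, hz, ha⟩ := h
  obtain ⟨p', r', hr', hz', ha'⟩ := h'
  have hp' : MvPolynomial.eval (crd w) p' ≠ 0 := by
    intro h1
    rw [h1, zero_div] at ha'
    exact h0 ha'
  refine ⟨p * r', r * p', ?_, ?_, ?_⟩
  · rw [map_mul]; exact mul_ne_zero hr hp'
  · rw [hz, hz', div_div_div_eq]
    simp only [map_mul]
  · rw [ha, ha', div_div_div_eq]
    simp only [map_mul]

theorem val_algebraMap (w : C2) (c : ℂ) : Val w (algebraMap ℂ K2 c) c := by
  have h := val_poly w (MvPolynomial.C c)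
  rw [MvPolynomial.eval_C] at h
  have e : toK (MvPolynomial.C c) = algebraMap ℂ K2 c := by
    rw [IsScalarTower.algebraMap_apply ℂ P2 K2, MvPolynomial.algebraMap_eq]
  rwa [e] at h

end Val

/-- Substitution into a polynomial. -/
theorem Restr.val_poly {f : K2 ≃ₐ[ℂ] K2} {τ : C2 → C2} {V : Set C2} (h : Restr f τ V)
    {w : C2} (hw : w ∈ V) (p : P2) :
    Val w (f (toK p)) (MvPolynomial.eval (crd (τ w)) p) := by
  induction p using MvPolynomial.induction_on with
  | C c =>
    have e : toK (MvPolynomial.C c) = algebraMap ℂ K2 c := by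
      rw [IsScalarTower.algebraMap_apply ℂ P2 K2, MvPolynomial.algebraMap_eq]
    rw [e, AlgEquiv.commutes, MvPolynomial.eval_C]
    exact val_algebraMap w c
  | add p q hp hq =>
    rw [map_add, map_add, map_add]
    exact hp.add hq
  | mul_X p i hp =>
    rw [map_mul, map_mul, map_mul, MvPolynomial.eval_X]
    exact hp.mul (restr_iff.mp h w hw i)

/-- Substitution into a rational function. -/
theorem Restr.val {f : K2 ≃ₐ[ℂ] K2} {τ : C2 → C2} {V : Set C2} (h : Restr f τ V)
    {w : C2} (hw : w ∈ V) {z : K2} {a : ℂ} (hz : Val (τ w) z a) : Val w (f z) a := by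
  obtain ⟨p, r, hr, hz, ha⟩ := hz
  rw [hz, ha, map_div₀]
  exact (h.val_poly hw p).div (h.val_poly hw r) hr

theorem restr_mono {f : K2 ≃ₐ[ℂ] K2} {τ : C2 → C2} {V V' : Set C2} (h : Restr f τ V)
    (hV : V' ⊆ V) : Restr f τ V' := fun w hw i => h w (hV hw) i

theorem restr_congr {f : K2 ≃ₐ[ℂ] K2} {τ τ' : C2 → C2} {V : Set C2} (h : Restr f τ V)
    (he : ∀ w ∈ V, τ w = τ' w) : Restr f τ' V := by
  intro w hw i
  rw [← he w hw]
  exact h w hw i

theorem restr_id : Restr AlgEquiv.refl id Set.univ := by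
  rw [restr_iff]
  intro w _ i
  have h := _root_.Pool.Agent.KS.val_poly w (MvPolynomial.X i)
  rw [MvPolynomial.eval_X] at h
  exact h

theorem restr_comp {f g : K2 ≃ₐ[ℂ] K2} {τ τ' : C2 → C2} {V V' : Set C2} (h : Restr f τ V)
    (h' : Restr g τ' V') (hm : Set.MapsTo τ V V') : Restr (g.trans f) (τ' ∘ τ) V := by
  rw [restr_iff]
  intro w hw i
  exact h.val hw (restr_iff.mp h' (τ w) (hm hw) i)

/-- Two polynomials which agree at all the points of the plane are equal. -/
theorem poly_ext {p q : P2} (h : ∀ x : Fin 2 → ℂ, MvPolynomial.eval x p =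
    MvPolynomial.eval x q) : p = q := MvPolynomial.funext h

theorem crd_surj (x : Fin 2 → ℂ) : ∃ w : C2, crd w = x :=
  ⟨(x 0, x 1), by funext i; fin_cases i <;> rfl⟩

theorem eval_bind (t : Fin 2 → P2) (x : Fin 2 → ℂ) (p : P2) :
    MvPolynomial.eval x (MvPolynomial.bind₁ t p) =
      MvPolynomial.eval (fun i => MvPolynomial.eval x (t i)) p :=
  MvPolynomial.eval₂Hom_bind₁ (RingHom.id ℂ) x t p

/-- The birational map of a polynomial map with a rational inverse. -/
theorem mk_equiv (t : Fin 2 → P2) (h : P2) (hh : h ≠ 0)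
    (hs : ∀ y : Fin 2 → ℂ, MvPolynomial.eval y h ≠ 0 →
      ∃ x : Fin 2 → ℂ, ∀ i, MvPolynomial.eval x (t i) = y i)
    (hz : ∀ i, ∃ p r : P2, MvPolynomial.bind₁ t r ≠ 0 ∧
      MvPolynomial.bind₁ t p = MvPolynomial.X i * MvPolynomial.bind₁ t r) :
    ∃ f : K2 ≃ₐ[ℂ] K2, ∀ i, f (toK (MvPolynomial.X i)) = toK (t i) := by
  have hinj0 : Function.Injective (MvPolynomial.bind₁ t : P2 →ₐ[ℂ] P2) := by
    rw [injective_iff_map_eq_zero]
    intro p hp
    have h1 : h * p = 0 := by
      apply poly_ext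
      intro y
      rw [map_mul, map_zero]
      by_cases hy : MvPolynomial.eval y h = 0
      · rw [hy, zero_mul]
      · obtain ⟨x, hx⟩ := hs y hy
        have h2 : MvPolynomial.eval x (MvPolynomial.bind₁ t p) = 0 := by rw [hp, map_zero]
        have h4 : (fun i => MvPolynomial.eval x (t i)) = y := funext hx
        rw [eval_bind, h4] at h2
        rw [h2, mul_zero]
    exact (mul_eq_zero.mp h1).resolve_left hh
  let g : P2 →ₐ[ℂ] K2 := (IsScalarTower.toAlgHom ℂ P2 K2).comp (MvPolynomial.bind₁ t)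
  have hg : Function.Injective g := toK_inj.comp hinj0
  have hgv : ∀ p, g p = toK (MvPolynomial.bind₁ t p) := fun p => rfl
  let F : K2 →ₐ[ℂ] K2 := IsFractionRing.liftAlgHom hg
  have hF : ∀ p : P2, F (toK p) = toK (MvPolynomial.bind₁ t p) := by
    intro p
    have := IsFractionRing.lift_algebraMap (K := K2) (g := (g : P2 →+* K2)) hg p
    exact this
  have hsurj : Function.Surjective F := by
    have hX : ∀ i, ∃ z, F z = toK (MvPolynomial.X i) := by
      intro i
      obtain ⟨p, r, hr, he⟩ := hz i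
      refine ⟨toK p / toK r, ?_⟩
      rw [map_div₀, hF, hF, he, map_mul, mul_div_cancel_right₀]
      exact fun h0 => hr (toK_eq_zero.mp h0)
    have hP : ∀ p : P2, ∃ z, F z = toK p := by
      intro p
      induction p using MvPolynomial.induction_on with
      | C c =>
        refine ⟨algebraMap ℂ K2 c, ?_⟩
        rw [AlgHom.commutes, IsScalarTower.algebraMap_apply ℂ P2 K2,
          MvPolynomial.algebraMap_eq]
      | add p q hp hq =>
        obtain ⟨z, hz⟩ := hp
        obtain ⟨z', hz'⟩ := hq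
        exact ⟨z + z', by rw [map_add, hz, hz', map_add]⟩
      | mul_X p i hp =>
        obtain ⟨z, hz⟩ := hp
        obtain ⟨z', hz'⟩ := hX i
        exact ⟨z * z', by rw [map_mul, hz, hz', map_mul]⟩
    intro y
    obtain ⟨p, r, hr, rfl⟩ := IsFractionRing.div_surjective (A := P2) y
    obtain ⟨z, hz⟩ := hP p
    obtain ⟨z', hz'⟩ := hP r
    exact ⟨z / z', by rw [map_div₀, hz, hz']⟩
  refine ⟨AlgEquiv.ofBijective F ⟨F.toRingHom.injective, hsurj⟩, ?_⟩
  intro i
  change F (toK (MvPolynomial.X i)) = _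
  rw [hF, MvPolynomial.bind₁_X_right]

/-- A polynomial map with a rational inverse is birational. -/
theorem restr_of_poly (t : Fin 2 → P2) (h : P2) (hh : h ≠ 0)
    (hs : ∀ y : Fin 2 → ℂ, MvPolynomial.eval y h ≠ 0 →
      ∃ x : Fin 2 → ℂ, ∀ i, MvPolynomial.eval x (t i) = y i)
    (hz : ∀ i, ∃ p r : P2, MvPolynomial.bind₁ t r ≠ 0 ∧
      MvPolynomial.bind₁ t p = MvPolynomial.X i * MvPolynomial.bind₁ t r)
    {τ : C2 → C2} (hτ : ∀ w i, crd (τ w) i = MvPolynomial.eval (crd w) (t i)) :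
    ∃ f, Restr f τ Set.univ := by
  obtain ⟨f, hf⟩ := mk_equiv t h hh hs hz
  refine ⟨f, ?_⟩
  rw [restr_iff]
  intro w _ i
  rw [hf, hτ]
  exact val_poly w (t i)

theorem crd_zero (w : C2) : crd w 0 = w.1 := rfl

theorem crd_one (w : C2) : crd w 1 = w.2 := rfl

open MvPolynomial in
theorem restr_lin (L : C2 ≃L[ℂ] C2) : ∃ f, Restr f L Set.univ := by
  have hL : ∀ (M : C2 ≃L[ℂ] C2) (w : C2), M w =
      ((M (1, 0)).1 * w.1 + (M (0, 1)).1 * w.2, (M (1, 0)).2 * w.1 + (M (0, 1)).2 * w.2) := by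
    intro M w
    have h1 : w = w.1 • ((1, 0) : C2) + w.2 • ((0, 1) : C2) := by
      ext <;> simp
    conv_lhs => rw [h1, map_add, map_smul, map_smul]
    ext
    · simp [mul_comm]
    · simp [mul_comm]
  let t : (C2 ≃L[ℂ] C2) → Fin 2 → P2 := fun M =>
    ![C (M (1, 0)).1 * X 0 + C (M (0, 1)).1 * X 1, C (M (1, 0)).2 * X 0 + C (M (0, 1)).2 * X 1]
  have ht : ∀ (M : C2 ≃L[ℂ] C2) (w : C2) (i : Fin 2),
      crd (M w) i = eval (crd w) (t M i) := by
    intro M w i
    rw [hL M w]
    fin_cases i <;> simp [t, crd]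
  refine restr_of_poly (t L) 1 one_ne_zero ?_ ?_ (ht L)
  · intro y _
    obtain ⟨w, hw⟩ := crd_surj y
    refine ⟨crd (L.symm w), fun i => ?_⟩
    rw [← ht, L.apply_symm_apply, hw]
  · intro i
    refine ⟨t L.symm i, 1, by simp, ?_⟩
    rw [map_one, mul_one]
    apply poly_ext
    intro x
    obtain ⟨w, rfl⟩ := crd_surj x
    rw [eval_bind]
    have h1 : (fun i => eval (crd w) (t L i)) = crd (L w) := by
      funext i
      rw [ht]
    rw [h1, ← ht, L.symm_apply_apply, eval_X]

open MvPolynomial in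
theorem restr_add (a : C2) : ∃ f, Restr f (fun w => w + a) Set.univ := by
  refine restr_of_poly ![X 0 + C a.1, X 1 + C a.2] 1 one_ne_zero ?_ ?_ ?_
  · intro y _
    refine ⟨![y 0 - a.1, y 1 - a.2], fun i => ?_⟩
    fin_cases i <;> simp
  · intro i
    refine ⟨![X 0 - C a.1, X 1 - C a.2] i, 1, by simp, ?_⟩
    fin_cases i <;> simp
  · intro w i
    fin_cases i <;> simp [crd]

open MvPolynomial in
theorem restr_b1 : ∃ f, Restr f b1 Set.univ := by
  refine restr_of_poly ![X 0, X 0 * X 1] (X 0) (X_ne_zero 0) ?_ ?_ ?_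
  · intro y hy
    rw [eval_X] at hy
    refine ⟨![y 0, y 1 / y 0], fun i => ?_⟩
    fin_cases i
    · simp
    · simp; field_simp
  · intro i
    fin_cases i
    · exact ⟨X 0, 1, by simp, by simp⟩
    · exact ⟨X 1, X 0, by simp [X_ne_zero], by simp; ring⟩
  · intro w i
    fin_cases i <;> simp [crd, b1]

theorem restr_PiL (Ls : List (C2 ≃L[ℂ] C2)) : ∃ f, Restr f (PiL Ls) Set.univ := by
  induction Ls with
  | nil => exact ⟨AlgEquiv.refl, restr_id⟩
  | cons L Ls ih =>
    obtain ⟨f, hf⟩ := ih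
    obtain ⟨g, hg⟩ := restr_lin L
    obtain ⟨k, hk⟩ := restr_b1
    have h1 := restr_comp hk hg (Set.mapsTo_univ _ _)
    have h2 := restr_comp hf h1 (Set.mapsTo_univ _ _)
    exact ⟨_, h2⟩

open MvPolynomial in
theorem restr_shear (c : ℂ) (m : ℕ) :
    ∃ f, Restr f (fun w => (w.1, w.2 + c * w.1 ^ m)) Set.univ := by
  refine restr_of_poly ![X 0, X 1 + C c * X 0 ^ m] 1 one_ne_zero ?_ ?_ ?_
  · intro y _
    refine ⟨![y 0, y 1 - c * y 0 ^ m], fun i => ?_⟩
    fin_cases i <;> simp
  · intro i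
    refine ⟨![X 0, X 1 - C c * X 0 ^ m] i, 1, by simp, ?_⟩
    fin_cases i <;> simp
  · intro w i
    fin_cases i <;> simp [crd]

open MvPolynomial in
theorem restr_jonq (c : ℂ) (m : ℕ) (hm : 0 < m) :
    ∃ f, Restr f (fun w => (w.1, w.2 * (1 + c * w.1 ^ m))) Set.univ := by
  have hne : (1 + C c * X 0 ^ m : P2) ≠ 0 := by
    intro h0
    have h1 := congrArg (eval (0 : Fin 2 → ℂ)) h0
    simp [hm.ne'] at h1
  refine restr_of_poly ![X 0, X 1 * (1 + C c * X 0 ^ m)] (1 + C c * X 0 ^ m) hne ?_ ?_ ?_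
  · intro y hy
    refine ⟨![y 0, y 1 / (1 + c * y 0 ^ m)], fun i => ?_⟩
    have hy' : 1 + c * y 0 ^ m ≠ 0 := by simpa using hy
    fin_cases i
    · simp
    · simp only [Fin.mk_one, Matrix.cons_val_one, Matrix.cons_val_fin_one, map_mul, eval_X,
        map_add, map_one, eval_C, map_pow, Matrix.cons_val_zero]
      rw [div_mul_cancel₀ _ hy']
  · intro i
    fin_cases i
    · exact ⟨X 0, 1, by simp, by simp⟩
    · refine ⟨X 1, 1 + C c * X 0 ^ m, by simpa using hne, by simp⟩
  · intro w i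
    fin_cases i <;> simp [crd]

open MvPolynomial in
theorem restr_enoki (a t : ℂ) (ha : a ≠ 0) (ht : t ≠ 0) (n : ℕ) (P : Polynomial ℂ) :
    ∃ f, Restr f (fun w => (a * w.2 ^ n * w.1 + P.eval w.2, t * w.2)) Set.univ := by
  have hev : ∀ (x : Fin 2 → ℂ) (q : P2),
      eval x (Polynomial.aeval q P) = P.eval (eval x q) := by
    intro x q
    have h1 := Polynomial.aeval_algHom_apply (MvPolynomial.aeval x : P2 →ₐ[ℂ] ℂ) q P
    have h2 : ∀ q : P2, MvPolynomial.aeval x q = eval x q := fun q => by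
      rw [MvPolynomial.aeval_def, Algebra.algebraMap_self]; rfl
    rw [h2, h2] at h1
    rw [← h1, Polynomial.coe_aeval_eq_eval]
  refine restr_of_poly ![C a * X 1 ^ n * X 0 + Polynomial.aeval (X 1) P, C t * X 1] (X 1)
    (X_ne_zero 1) ?_ ?_ ?_
  · intro y hy
    rw [eval_X] at hy
    refine ⟨![(y 0 - P.eval (y 1 / t)) / (a * (y 1 / t) ^ n), y 1 / t], fun i => ?_⟩
    have hne : a * (y 1 / t) ^ n ≠ 0 := mul_ne_zero ha (pow_ne_zero _ (div_ne_zero hy ht))
    fin_cases i
    · simp only [Fin.zero_eta, Matrix.cons_val_zero, map_add, map_mul, eval_C, map_pow, eval_X,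
        Matrix.cons_val_one, Matrix.cons_val_fin_one, hev]
      rw [mul_div_cancel₀ _ hne]
      ring
    · simp only [Fin.mk_one, Matrix.cons_val_one, Matrix.cons_val_fin_one, map_mul, eval_C,
        eval_X]
      field_simp
  · intro i
    fin_cases i
    · refine ⟨X 0 - Polynomial.aeval (C t⁻¹ * X 1) P, C a * (C t⁻¹ * X 1) ^ n, ?_, ?_⟩
      · intro h0
        have h1 := congrArg (eval (fun _ => (1 : ℂ))) h0
        rw [eval_bind] at h1
        simp [ha, ht] at h1
      · apply poly_ext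
        intro x
        rw [map_mul, eval_bind, eval_bind]
        simp only [map_sub, eval_X, hev, map_mul, eval_C, map_pow, Matrix.cons_val_zero,
          Matrix.cons_val_one, Matrix.cons_val_fin_one, map_add, Fin.zero_eta]
        rw [inv_mul_cancel_left₀ ht]
        ring
    · refine ⟨C t⁻¹ * X 1, 1, by simp, ?_⟩
      apply poly_ext
      intro x
      rw [map_mul (eval x), eval_bind, eval_bind]
      simp only [map_mul, eval_C, eval_X, Matrix.cons_val_one, Matrix.cons_val_fin_one, map_one,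
        mul_one, Fin.mk_one]
      rw [inv_mul_cancel_left₀ ht]
  · intro w i
    fin_cases i
    · simp only [Fin.zero_eta, crd_zero, Matrix.cons_val_zero, map_add, map_mul, eval_C, map_pow,
        eval_X, crd_one, hev]
    · simp only [Fin.mk_one, crd_one, Matrix.cons_val_one, Matrix.cons_val_fin_one, map_mul,
        eval_C, eval_X]

/-- The evaluation of a polynomial at the points of the plane is continuous. -/
theorem cont_eval (p : P2) : Continuous fun w : C2 => MvPolynomial.eval (crd w) p := by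
  have h1 : Continuous fun w : C2 => crd w := by
    apply continuous_pi
    intro i
    fin_cases i
    · exact continuous_fst
    · exact continuous_snd
  exact (MvPolynomial.continuous_eval p).comp h1

/-- A polynomial which vanishes on a nonempty open set is zero. -/
theorem poly_zero_of_open {p : P2} {V : Set C2} (hV : IsOpen V) (hne : V.Nonempty)
    (h : ∀ w ∈ V, MvPolynomial.eval (crd w) p = 0) : p = 0 := by
  obtain ⟨w0, hw0⟩ := hne
  obtain ⟨ρ, hρ, hball⟩ := Metric.isOpen_iff.mp hV w0 hw0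
  have hinf : ∀ a : ℂ, (Metric.ball a ρ).Infinite := fun a =>
    infinite_of_mem_nhds a (Metric.ball_mem_nhds a hρ)
  apply MvPolynomial.funext_set (fun i => Metric.ball (crd w0 i) ρ) (fun i => hinf _)
  intro x hx
  rw [map_zero]
  obtain ⟨w, rfl⟩ := crd_surj x
  apply h
  apply hball
  have h0 := hx 0 (Set.mem_univ _)
  have h1 := hx 1 (Set.mem_univ _)
  simp only [crd_zero, crd_one, Metric.mem_ball] at h0 h1
  rw [Metric.mem_ball, Prod.dist_eq]
  exact max_lt h0 h1

theorem equiv_ext {f g : K2 ≃ₐ[ℂ] K2}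
    (h : ∀ i, f (toK (MvPolynomial.X i)) = g (toK (MvPolynomial.X i))) : f = g := by
  have hP : ∀ p : P2, f (toK p) = g (toK p) := by
    intro p
    induction p using MvPolynomial.induction_on with
    | C c =>
      have e : toK (MvPolynomial.C c) = algebraMap ℂ K2 c := by
        rw [IsScalarTower.algebraMap_apply ℂ P2 K2, MvPolynomial.algebraMap_eq]
      rw [e, AlgEquiv.commutes, AlgEquiv.commutes]
    | add p q hp hq => rw [map_add, map_add, map_add, hp, hq]
    | mul_X p i hp => rw [map_mul, map_mul, map_mul, hp, h i]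
  ext z
  obtain ⟨p, r, _, rfl⟩ := IsFractionRing.div_surjective (A := P2) z
  rw [map_div₀, map_div₀]
  exact congrArg₂ (· / ·) (hP p) (hP r)

theorem restr_unique {f g : K2 ≃ₐ[ℂ] K2} {τ : C2 → C2} {V : Set C2} (hV : IsOpen V)
    (hne : V.Nonempty) (h : Restr f τ V) (h' : Restr g τ V) : f = g := by
  obtain ⟨w0, hw0⟩ := hne
  apply equiv_ext
  intro i
  obtain ⟨p, r, hr, hz, _⟩ := restr_iff.mp h w0 hw0 i
  obtain ⟨p', r', hr', hz', _⟩ := restr_iff.mp h' w0 hw0 i
  have hopen : IsOpen (V ∩ ({w : C2 | MvPolynomial.eval (crd w) r ≠ 0} ∩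
      {w : C2 | MvPolynomial.eval (crd w) r' ≠ 0})) := by
    refine hV.inter (IsOpen.inter ?_ ?_)
    · exact isOpen_ne_fun (cont_eval r) continuous_const
    · exact isOpen_ne_fun (cont_eval r') continuous_const
  have h0 : p * r' - p' * r = 0 := by
    apply poly_zero_of_open hopen ⟨w0, hw0, hr, hr'⟩
    rintro w ⟨hw, hwr, hwr'⟩
    have e1 : Val w (f (toK (MvPolynomial.X i)))
        (MvPolynomial.eval (crd w) p / MvPolynomial.eval (crd w) r) := ⟨p, r, hwr, hz, rfl⟩
    have e2 : Val w (g (toK (MvPolynomial.X i)))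
        (MvPolynomial.eval (crd w) p' / MvPolynomial.eval (crd w) r') := ⟨p', r', hwr', hz', rfl⟩
    have e3 := e1.unique (restr_iff.mp h w hw i)
    have e4 := e2.unique (restr_iff.mp h' w hw i)
    rw [← e4, div_eq_div_iff hwr hwr'] at e3
    rw [map_sub, map_mul, map_mul, e3, sub_self]
  rw [hz, hz', div_eq_div_iff (ne_of_eval hr) (ne_of_eval hr'), ← map_mul, ← map_mul,
    sub_eq_zero.mp h0]

end Pool.Agent.KS
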