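import Pool.Agent.KS.Bia

/-! Project KS, row BIB: regularity of a birational map which has a continuous extension. -/

set_option autoImplicit false

namespace Pool.Agent.KS

open scoped Topology
open Filter

/-- The maximal ideal of a point. -/
noncomputable def mId (w : C2) : Ideal P2 := RingHom.ker (MvPolynomial.eval (crd w))

theorem mem_mId {w : C2} {p : P2} : p ∈ mId w ↔ MvPolynomial.eval (crd w) p = 0 :=
  RingHom.mem_ker

theorem mId_prime (w : C2) : (mId w).IsPrime := RingHom.ker_isPrime _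

theorem mId_inj {w w' : C2} (h : mId w = mId w') : w = w' := by
  have key : ∀ i, crd w i = crd w' i := by
    intro i
    have h1 : (MvPolynomial.X i - MvPolynomial.C (crd w i) : P2) ∈ mId w := by
      rw [mem_mId]; simp
    rw [h, mem_mId] at h1
    simp only [map_sub, MvPolynomial.eval_X, MvPolynomial.eval_C] at h1
    exact (sub_eq_zero.mp h1).symm
  exact Prod.ext (key 0) (key 1)

/-- Two coprime polynomials in two variables have finitely many common zeros. -/
theorem finite_zeros {a b : P2} (hb : b ≠ 0) (hab : IsRelPrime a b) :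
    {w : C2 | MvPolynomial.eval (crd w) a = 0 ∧ MvPolynomial.eval (crd w) b = 0}.Finite := by
  classical
  have hfin := Ideal.finite_minimalPrimes_of_isNoetherianRing P2 (Ideal.span {a, b})
  refine Set.Finite.of_finite_image (f := mId) (hfin.subset ?_) (fun w _ w' _ h => mId_inj h)
  rintro _ ⟨w, ⟨ha0, hb0⟩, rfl⟩
  have hle : Ideal.span {a, b} ≤ mId w := by
    rw [Ideal.span_le]
    rintro x (rfl | rfl)
    · exact mem_mId.mpr ha0
    · exact mem_mId.mpr hb0
  refine ⟨⟨mId_prime w, hle⟩, ?_⟩
  rintro P ⟨hP, hIP⟩ hPM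
  by_contra hcon
  have hlt3 : P < mId w := lt_of_le_not_ge hPM hcon
  have haP : a ∈ P := hIP (Ideal.subset_span (by simp))
  have hbP : b ∈ P := hIP (Ideal.subset_span (by simp))
  obtain ⟨f, hf, hfb⟩ := UniqueFactorizationMonoid.exists_prime_factors b hb
  have hfP : f.prod ∈ P := by
    obtain ⟨u, hu⟩ := hfb.symm
    rw [← hu]
    exact P.mul_mem_right _ hbP
  obtain ⟨q, hq, hqP⟩ := (hP.multiset_prod_mem_iff_exists_mem f).mp hfP
  have hqprime := hf q hq
  have hqb : q ∣ b := (Multiset.dvd_prod hq).trans hfb.dvd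
  have hqa : ¬ q ∣ a := fun h => hqprime.not_isUnit (hab h hqb)
  have hlt1 : (⊥ : Ideal P2) < Ideal.span {q} := by
    rw [bot_lt_iff_ne_bot, Ne, Ideal.span_singleton_eq_bot]
    exact hqprime.ne_zero
  have hlt2 : Ideal.span {q} < P := by
    refine lt_of_le_not_ge ?_ ?_
    · rw [Ideal.span_singleton_le_iff_mem]; exact hqP
    · intro h
      exact hqa (Ideal.mem_span_singleton.mp (h haP))
  have hqp : (Ideal.span {q} : Ideal P2).IsPrime :=
    (Ideal.span_singleton_prime hqprime.ne_zero).mpr hqprime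
  let s : LTSeries (PrimeSpectrum P2) :=
    { length := 3
      toFun := ![⟨⊥, Ideal.isPrime_bot⟩, ⟨Ideal.span {q}, hqp⟩, ⟨P, hP⟩, ⟨mId w, mId_prime w⟩]
      step := by
        intro i
        fin_cases i
        · exact hlt1
        · exact hlt2
        · exact hlt3 }
  have h1 : ((3 : ℕ) : WithBot ℕ∞) ≤ ringKrullDim P2 := Order.LTSeries.length_le_krullDim s
  rw [MvPolynomial.ringKrullDim_of_isNoetherianRing, ringKrullDim_eq_zero_of_field] at h1
  simp only [Nat.card_eq_fintype_card, Fintype.card_fin, zero_add] at h1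
  have h2 : (3 : ℕ) ≤ 2 := by exact_mod_cast h1
  omega

theorem cont_eval2 (b : P2) :
    Continuous fun z : ℂ × ℂ => MvPolynomial.eval (crd (z.1, z.2)) b := cont_eval b

theorem diff_eval (b : P2) (x : ℂ) :
    Differentiable ℂ fun y : ℂ => MvPolynomial.eval (crd (x, y)) b := by
  induction b using MvPolynomial.induction_on with
  | C c => simp only [MvPolynomial.eval_C]; exact differentiable_const c
  | add p q hp hq => simp only [map_add]; exact hp.add hq
  | mul_X p i hp =>
    simp only [map_mul, MvPolynomial.eval_X]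
    refine hp.mul ?_
    fin_cases i
    · exact differentiable_const x
    · exact differentiable_id

/-- The zeros of a polynomial near one of its zeros are infinite in number. -/
theorem infinite_zeros {b : P2} {V : Set C2} (hV : IsOpen V) {w0 : C2} (hw0 : w0 ∈ V)
    (hb0 : MvPolynomial.eval (crd w0) b = 0) :
    {w : C2 | w ∈ V ∧ MvPolynomial.eval (crd w) b = 0}.Infinite := by
  obtain ⟨x0, y0⟩ := w0
  set g : ℂ → ℂ → ℂ := fun x y => MvPolynomial.eval (crd (x, y)) b with hg
  have hgc : Continuous fun z : ℂ × ℂ => g z.1 z.2 := cont_eval2 b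
  have hgd : ∀ x, Differentiable ℂ (g x) := fun x => diff_eval b x
  have hVn : V ∈ 𝓝 ((x0, y0) : C2) := hV.mem_nhds hw0
  obtain ⟨A, hA, B, hB, hAB⟩ := mem_nhds_prod_iff.mp hVn
  have hana : AnalyticAt ℂ (g x0) y0 := (hgd x0).analyticAt y0
  rcases hana.eventually_eq_zero_or_eventually_ne_zero with h | h
  · -- a whole vertical segment of zeros
    have h1 : ({y : ℂ | g x0 y = 0} ∩ B) ∈ 𝓝 y0 := inter_mem h hB
    have h2 : ({y : ℂ | g x0 y = 0} ∩ B).Infinite := infinite_of_mem_nhds y0 h1
    have h3 : ((fun y => ((x0, y) : C2)) '' ({y : ℂ | g x0 y = 0} ∩ B)).Infinite :=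
      h2.image (fun y _ y' _ hyy => (Prod.ext_iff.mp hyy).2)
    refine h3.mono ?_
    rintro _ ⟨y, ⟨hy, hyB⟩, rfl⟩
    exact ⟨hAB ⟨mem_of_mem_nhds hA, hyB⟩, hy⟩
  · -- zeros on the neighbouring vertical lines
    rw [eventually_nhdsWithin_iff] at h
    obtain ⟨ρ, hρ, hρs⟩ := Metric.eventually_nhds_iff_ball.mp (h.and hB)
    have hρ2 : 0 < ρ / 2 := by linarith
    have hsp : ∀ y ∈ Metric.sphere y0 (ρ / 2), g x0 y ≠ 0 := by
      intro y hy
      have h1 : dist y y0 = ρ / 2 := hy
      refine (hρs y ?_).1 ?_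
      · rw [Metric.mem_ball, h1]; linarith
      · intro h2
        rw [Set.mem_singleton_iff.mp h2, dist_self] at h1
        linarith
    have hcpt : IsCompact (Metric.sphere y0 (ρ / 2)) := isCompact_sphere y0 (ρ / 2)
    have hne : (Metric.sphere y0 (ρ / 2)).Nonempty := NormedSpace.sphere_nonempty.mpr hρ2.le
    obtain ⟨y1, hy1, hmin⟩ := hcpt.exists_isMinOn hne
      ((hgd x0).continuous.norm.continuousOn (s := Metric.sphere y0 (ρ / 2)))
    set m : ℝ := ‖g x0 y1‖ with hm
    have hm0 : 0 < m := norm_pos_iff.mpr (hsp y1 hy1)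
    have hE1 : ∀ᶠ x in 𝓝 x0, ∀ y ∈ Metric.sphere y0 (ρ / 2), m / 2 < ‖g x y‖ := by
      apply hcpt.eventually_forall_of_forall_eventually
      intro y hy
      have h1 : m / 2 < ‖g x0 y‖ := by
        have : m ≤ ‖g x0 y‖ := hmin hy
        linarith
      exact (hgc.norm.continuousAt (x := (x0, y))).eventually_const_lt h1
    have hE2 : ∀ᶠ x in 𝓝 x0, ‖g x y0‖ < m / 2 := by
      have h1 : Continuous fun x => ‖g x y0‖ :=
        (hgc.comp (Continuous.prodMk continuous_id continuous_const)).norm
      refine (h1.continuousAt (x := x0)).eventually_lt_const ?_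
      have h2 : g x0 y0 = 0 := hb0
      change ‖g x0 y0‖ < m / 2
      rw [h2, norm_zero]
      linarith
    have hE3 : ∀ᶠ x in 𝓝 x0, ∃ y, ((x, y) : C2) ∈ V ∧ g x y = 0 := by
      filter_upwards [hE1, hE2, hA] with x h1 h2 hxA
      by_contra hcon
      push Not at hcon
      have hnz : ∀ y ∈ Metric.closedBall y0 (ρ / 2), g x y ≠ 0 := by
        intro y hy
        apply hcon y
        apply hAB
        refine ⟨hxA, (hρs y ?_).2⟩
        have : dist y y0 ≤ ρ / 2 := hy
        rw [Metric.mem_ball]; linarith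
      have hd : DiffContOnCl ℂ (fun y => (g x y)⁻¹) (Metric.ball y0 (ρ / 2)) := by
        constructor
        · intro y hy
          exact ((hgd x y).inv (hnz y (Metric.ball_subset_closedBall hy))).differentiableWithinAt
        · rw [closure_ball y0 hρ2.ne']
          intro y hy
          exact ((hgd x).continuous.continuousAt.inv₀ (hnz y hy)).continuousWithinAt
      have h3 : ‖(g x y0)⁻¹‖ ≤ 2 / m := by
        refine Complex.norm_le_of_forall_mem_frontier_norm_le Metric.isBounded_ball hd ?_
          (subset_closure (Metric.mem_ball_self hρ2))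
        intro y hy
        rw [frontier_ball y0 hρ2.ne'] at hy
        have h4 := h1 y hy
        rw [norm_inv, inv_le_comm₀ (by linarith) (by positivity), inv_div]
        exact h4.le
      have h5 : 0 < ‖g x y0‖ :=
        norm_pos_iff.mpr (hnz y0 (Metric.mem_closedBall_self hρ2.le))
      rw [norm_inv, inv_le_comm₀ h5 (by positivity), inv_div] at h3
      linarith
    have hinf : {x : ℂ | ∃ y, ((x, y) : C2) ∈ V ∧ g x y = 0}.Infinite :=
      infinite_of_mem_nhds x0 hE3
    intro hfin
    apply hinf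
    refine (hfin.image Prod.fst).subset ?_
    rintro x ⟨y, hy1, hy2⟩
    exact ⟨(x, y), ⟨hy1, hy2⟩, rfl⟩

theorem restr_solve {f g : K2 ≃ₐ[ℂ] K2} {τ h B : C2 → C2} {V V' : Set C2} (hV : IsOpen V)
    (hτ : ContinuousOn τ V) (hm : Set.MapsTo τ V V') (hB : Restr g B V') (hh : Restr f h V)
    (he : ∀ w ∈ V, B (τ w) = h w) : Restr (g.symm.trans f) τ V := by
  classical
  rw [restr_iff]
  intro w0 hw0 i
  -- `g.symm X_i = p / r`
  obtain ⟨p, r, hr, hpr⟩ := IsFractionRing.div_surjective (A := P2)
    (g.symm (toK (MvPolynomial.X i)))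
  have hr0 : r ≠ 0 := nonZeroDivisors.ne_zero hr
  have hrK : toK r ≠ 0 := fun h0 => hr0 (toK_eq_zero.mp h0)
  have hgp : g (toK p) = toK (MvPolynomial.X i) * g (toK r) := by
    have h1 : toK p = g.symm (toK (MvPolynomial.X i)) * toK r := by
      rw [← hpr, div_mul_cancel₀ _ hrK]
    rw [h1, map_mul, AlgEquiv.apply_symm_apply]
  have hval : ∀ y ∈ V', MvPolynomial.eval (crd (B y)) p =
      crd y i * MvPolynomial.eval (crd (B y)) r := by
    intro y hy
    have h1 := hB.val_poly hy p
    have h2 := (val_poly y (MvPolynomial.X i)).mul (hB.val_poly hy r)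
    rw [← hgp, MvPolynomial.eval_X] at h2
    exact h1.unique h2
  -- `f (p / r) = a / b` with coprime polynomials
  set z : K2 := (g.symm.trans f) (toK (MvPolynomial.X i)) with hz
  obtain ⟨a, b, hab, hzab⟩ := IsFractionRing.exists_reduced_fraction (A := P2) z
  have hb0 : (b : P2) ≠ 0 := nonZeroDivisors.ne_zero b.2
  have hbK : toK (b : P2) ≠ 0 := fun h0 => hb0 (toK_eq_zero.mp h0)
  have hz' : z = toK a / toK (b : P2) := by
    rw [← hzab, IsFractionRing.mk'_eq_div]
  have hz'' : z * f (toK r) = f (toK p) := by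
    have h1 : z = f (toK p / toK r) := by rw [hz, hpr]; rfl
    have h2 : f (toK r) ≠ 0 := fun h0 => hrK (by
      rw [← map_zero f] at h0; exact f.injective h0)
    rw [h1, map_div₀, div_mul_cancel₀ _ h2]
  have hid : toK a * f (toK r) = f (toK p) * toK (b : P2) := by
    rw [← hz'', hz']
    field_simp
  -- the identity of the values
  have hv : ∀ w ∈ V, MvPolynomial.eval (crd w) a * MvPolynomial.eval (crd (h w)) r =
      crd (τ w) i * MvPolynomial.eval (crd w) (b : P2) * MvPolynomial.eval (crd (h w)) r := by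
    intro w hw
    have h1 := (val_poly w a).mul (hh.val_poly hw r)
    have h2 := (hh.val_poly hw p).mul (val_poly w (b : P2))
    rw [← hid] at h2
    have h3 := h1.unique h2
    have h4 := hval (τ w) (hm hw)
    rw [he w hw] at h4
    rw [h3, h4]
    ring
  -- the values of `r (h w)` are not zero on a dense set
  have hdense : ∀ U : Set C2, IsOpen U → U.Nonempty → U ⊆ V →
      ∃ w ∈ U, MvPolynomial.eval (crd (h w)) r ≠ 0 := by
    intro U hU hUne hUV
    by_contra hcon
    push Not at hcon
    obtain ⟨w1, hw1⟩ := hUne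
    obtain ⟨c, d, hd, hcd, _⟩ := hh.val_poly (hUV hw1) r
    have hopen : IsOpen (U ∩ {w : C2 | MvPolynomial.eval (crd w) d ≠ 0}) :=
      hU.inter (isOpen_ne_fun (cont_eval d) continuous_const)
    have hc0 : c = 0 := by
      apply poly_zero_of_open hopen ⟨w1, hw1, hd⟩
      rintro w ⟨hw, hwd⟩
      have e1 : Val w (f (toK r)) (MvPolynomial.eval (crd w) c / MvPolynomial.eval (crd w) d) :=
        ⟨c, d, hwd, hcd, rfl⟩
      have e2 := e1.unique (hh.val_poly (hUV hw) r)
      rw [hcon w hw, div_eq_zero_iff] at e2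
      exact e2.resolve_right hwd
    rw [hc0, map_zero, zero_div] at hcd
    apply hrK
    rw [← map_zero f] at hcd
    exact f.injective hcd
  -- `τ_i b = a` on `V`
  have hcτ : ContinuousOn (fun w => crd (τ w) i) V := by
    fin_cases i
    · exact continuous_fst.comp_continuousOn hτ
    · exact continuous_snd.comp_continuousOn hτ
  have hEq : ∀ w ∈ V, MvPolynomial.eval (crd w) a =
      crd (τ w) i * MvPolynomial.eval (crd w) (b : P2) := by
    intro w hw
    by_contra hne
    have hc : ContinuousOn (fun w => MvPolynomial.eval (crd w) a -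
        crd (τ w) i * MvPolynomial.eval (crd w) (b : P2)) V :=
      (cont_eval a).continuousOn.sub (hcτ.mul (cont_eval (b : P2)).continuousOn)
    have hop : IsOpen (V ∩ (fun w => MvPolynomial.eval (crd w) a -
        crd (τ w) i * MvPolynomial.eval (crd w) (b : P2)) ⁻¹' {0}ᶜ) :=
      hc.isOpen_inter_preimage hV isOpen_compl_singleton
    obtain ⟨w', ⟨hw'V, hw'⟩, hr'⟩ := hdense _ hop ⟨w, hw, fun h0 => hne (sub_eq_zero.mp h0)⟩
      Set.inter_subset_left
    apply hw'
    have h5 := hv w' hw'V
    have h6 := mul_right_cancel₀ hr' h5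
    exact sub_eq_zero.mpr h6
  -- `b w0 ≠ 0`
  have hbw : MvPolynomial.eval (crd w0) (b : P2) ≠ 0 := by
    intro h0
    have hinf := infinite_zeros hV hw0 h0
    apply hinf
    refine (finite_zeros hb0 hab).subset ?_
    rintro w ⟨hwV, hwb⟩
    refine ⟨?_, hwb⟩
    rw [hEq w hwV, hwb, mul_zero]
  refine ⟨a, b, hbw, hz', ?_⟩
  rw [hEq w0 hw0, mul_div_cancel_right₀ _ hbw]

end Pool.Agent.KS
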