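import Pool.Agent.KS.Defs

/-! Row CHA of project KS: holomorphic charts of a surface. -/

set_option autoImplicit false

namespace Pool.Agent.KS

open scoped Manifold ContDiff Topology
open Filter

namespace Cha

theorem mem_hol {X : Surf} {c : OpenPartialHomeomorph X.carrier C2} :
    c ∈ Hol X ↔ ContMDiffOn 𝓘(ℂ, C2) 𝓘(ℂ, C2) ω c c.source ∧
      ContMDiffOn 𝓘(ℂ, C2) 𝓘(ℂ, C2) ω c.symm c.target :=
  IsManifold.mem_maximalAtlas_iff_contMDiffOn c

theorem cmd_of_an {f : C2 → C2} {s : Set C2} (h : AnalyticOnNhd ℂ f s) :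
    ContMDiffOn 𝓘(ℂ, C2) 𝓘(ℂ, C2) ω f s := by
  rw [contMDiffOn_iff_contDiffOn]
  intro x hx
  exact (h x hx).contDiffAt.contDiffWithinAt

theorem an_of_cmd {f : C2 → C2} {x : C2} (h : ContMDiffAt 𝓘(ℂ, C2) 𝓘(ℂ, C2) ω f x) :
    AnalyticAt ℂ f x := by
  rw [contMDiffAt_iff_contDiffAt] at h
  exact h.analyticAt

/-- The derivative of a map with a local inverse is bijective. -/
theorem bij_of_inv {f g : C2 → C2} {x : C2} (hf : DifferentiableAt ℂ f x)
    (hg : DifferentiableAt ℂ g (f x)) (h1 : ∀ᶠ y in 𝓝 x, g (f y) = y)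
    (h2 : ∀ᶠ y in 𝓝 (f x), f (g y) = y) : Function.Bijective (fderiv ℂ f x) := by
  have hx : g (f x) = x := h1.self_of_nhds
  have e1 : (fderiv ℂ g (f x)).comp (fderiv ℂ f x) = ContinuousLinearMap.id ℂ C2 := by
    have a1 := fderiv_comp x hg hf
    have a2 : fderiv ℂ (g ∘ f) x = fderiv ℂ id x :=
      Filter.EventuallyEq.fderiv_eq (h1.mono fun y hy => hy)
    rw [← a1, a2, fderiv_id]
  have hf' : DifferentiableAt ℂ f (g (f x)) := by rw [hx]; exact hf
  have e2 : (fderiv ℂ f x).comp (fderiv ℂ g (f x)) = ContinuousLinearMap.id ℂ C2 := by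
    have a1 := fderiv_comp (f x) hf' hg
    have a2 : fderiv ℂ (f ∘ g) (f x) = fderiv ℂ id (f x) :=
      Filter.EventuallyEq.fderiv_eq (h2.mono fun y hy => hy)
    rw [hx] at a1
    rw [← a1, a2, fderiv_id]
  refine Function.bijective_iff_has_inverse.2 ⟨fderiv ℂ g (f x), fun v => ?_, fun v => ?_⟩
  · exact congrArg (fun L : C2 →L[ℂ] C2 => L v) e1
  · exact congrArg (fun L : C2 →L[ℂ] C2 => L v) e2

end Cha

theorem hol_trans {X : Surf} {c : OpenPartialHomeomorph X.carrier C2} (hc : c ∈ Hol X)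
    (e : OpenPartialHomeomorph C2 C2) (he : AnalyticOnNhd ℂ e e.source)
    (he' : AnalyticOnNhd ℂ e.symm e.target) : c.trans e ∈ Hol X := by
  rw [Cha.mem_hol] at hc ⊢
  refine ⟨?_, ?_⟩
  · exact (Cha.cmd_of_an he).comp (hc.1.mono (by simp))
      (by intro y hy; simp only [OpenPartialHomeomorph.trans_source] at hy; exact hy.2)
  · exact hc.2.comp ((Cha.cmd_of_an he').mono
      (by simp))
      (by intro y hy; simp only [OpenPartialHomeomorph.trans_target] at hy; exact hy.2)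

theorem hol_restr {X : Surf} {c : OpenPartialHomeomorph X.carrier C2} (hc : c ∈ Hol X)
    {s : Set X.carrier} (hs : IsOpen s) : c.restrOpen s hs ∈ Hol X := by
  rw [Cha.mem_hol] at hc ⊢
  refine ⟨hc.1.mono ?_, hc.2.mono ?_⟩
  · intro y hy
    exact hy.1
  · intro y hy
    have h1 : (c.restrOpen s hs).symm y ∈ (c.restrOpen s hs).source :=
      (c.restrOpen s hs).map_target hy
    have h2 : (c.restrOpen s hs) ((c.restrOpen s hs).symm y) = y :=
      (c.restrOpen s hs).right_inv hy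
    have h3 : (c.restrOpen s hs).symm y ∈ c.source := h1.1
    rw [← h2]
    exact c.map_source h3

theorem hol_cover {X : Surf} (x : X.carrier) : ∃ c ∈ Hol X, x ∈ c.source ∧ c x = 0 := by
  set c0 : OpenPartialHomeomorph X.carrier C2 := chartAt C2 x with hc0
  set e : OpenPartialHomeomorph C2 C2 :=
    (Homeomorph.addRight (-(c0 x))).toOpenPartialHomeomorph with he
  refine ⟨c0.trans e, hol_trans (IsManifold.chart_mem_maximalAtlas x) e ?_ ?_, ?_, ?_⟩
  · intro y _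
    have : (e : C2 → C2) = fun y => y + -(c0 x) := rfl
    rw [this]
    fun_prop
  · intro y _
    have : (e.symm : C2 → C2) = fun y => y + - -(c0 x) := rfl
    rw [this]
    fun_prop
  · simp [he, hc0]
  · simp [he]

/-- Coordinate changes. -/
theorem hol_change {X : Surf} {c c' : OpenPartialHomeomorph X.carrier C2} (hc : c ∈ Hol X)
    (hc' : c' ∈ Hol X) {x : X.carrier} (hx : x ∈ c.source) (hx' : x ∈ c'.source) :
    AnalyticAt ℂ (c' ∘ c.symm) (c x) ∧ Function.Bijective (fderiv ℂ (c' ∘ c.symm) (c x)) := by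
  have key : ∀ (c c' : OpenPartialHomeomorph X.carrier C2), c ∈ Hol X → c' ∈ Hol X →
      ∀ x, x ∈ c.source → x ∈ c'.source → AnalyticAt ℂ (c' ∘ c.symm) (c x) := by
    intro c c' hc hc' x hx hx'
    apply Cha.an_of_cmd
    have h1 : ContMDiffAt 𝓘(ℂ, C2) 𝓘(ℂ, C2) ω c.symm (c x) :=
      contMDiffAt_symm_of_mem_maximalAtlas hc (c.map_source hx)
    have h2 : ContMDiffAt 𝓘(ℂ, C2) 𝓘(ℂ, C2) ω c' (c.symm (c x)) := by
      rw [c.left_inv hx]
      exact contMDiffAt_of_mem_maximalAtlas hc' hx'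
    exact h2.comp (c x) h1
  have inv : ∀ (c c' : OpenPartialHomeomorph X.carrier C2), ∀ x, x ∈ c.source → x ∈ c'.source →
      ∀ᶠ y in 𝓝 (c x), (c ∘ c'.symm) ((c' ∘ c.symm) y) = y := by
    intro c c' x hx hx'
    have h1 : ∀ᶠ y in 𝓝 (c x), y ∈ c.target := c.open_target.mem_nhds (c.map_source hx)
    have h2 : ∀ᶠ y in 𝓝 (c x), c.symm y ∈ c'.source := by
      have : ContinuousAt c.symm (c x) := c.continuousAt_symm (c.map_source hx)
      refine this.eventually_mem ?_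
      rw [c.left_inv hx]
      exact c'.open_source.mem_nhds hx'
    filter_upwards [h1, h2] with y hy1 hy2
    simp only [Function.comp]
    rw [c'.left_inv hy2, c.right_inv hy1]
  refine ⟨key c c' hc hc' x hx hx', ?_⟩
  have e1 : (c' ∘ c.symm) (c x) = c' x := by simp [c.left_inv hx]
  refine Cha.bij_of_inv (g := c ∘ c'.symm) (key c c' hc hc' x hx hx').differentiableAt ?_
    (inv c c' x hx hx') ?_
  · rw [e1]
    exact (key c' c hc' hc x hx' hx).differentiableAt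
  · rw [e1]
    exact inv c' c x hx' hx

/-- A local biholomorphism pushes charts forward. -/
theorem lbi_push {M X : Surf} {f : M.carrier → X.carrier} {x : M.carrier} (hf : LBi f x)
    {c : OpenPartialHomeomorph M.carrier C2} (hc : c ∈ Hol M) (hx : x ∈ c.source) :
    ∃ (s : Set M.carrier) (e : OpenPartialHomeomorph X.carrier C2), IsOpen s ∧ x ∈ s ∧
      s ⊆ c.source ∧ Set.InjOn f s ∧ e ∈ Hol X ∧ e.source = f '' s ∧ ∀ y ∈ s, e (f y) = c y := by
  obtain ⟨Φ, hxΦ, hfΦ⟩ := hf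
  set φ := Φ.toOpenPartialHomeomorph with hφ
  have hfφ : ∀ y ∈ φ.source, f y = φ y := fun y hy => hfΦ hy
  refine ⟨φ.source ∩ c.source, φ.symm.trans c, φ.open_source.inter c.open_source, ⟨hxΦ, hx⟩,
    Set.inter_subset_right, ?_, ?_, ?_, ?_⟩
  · intro y hy z hz hyz
    rw [hfφ y hy.1, hfφ z hz.1] at hyz
    exact φ.injOn hy.1 hz.1 hyz
  · rw [Cha.mem_hol] at hc ⊢
    have a1 : ContMDiffOn 𝓘(ℂ, C2) 𝓘(ℂ, C2) ω φ φ.source := Φ.contMDiffOn_toFun
    have a2 : ContMDiffOn 𝓘(ℂ, C2) 𝓘(ℂ, C2) ω φ.symm φ.target := Φ.contMDiffOn_invFun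
    refine ⟨?_, ?_⟩
    · exact hc.1.comp (a2.mono (by intro y hy; exact hy.1)) (by intro y hy; exact hy.2)
    · refine a1.comp (hc.2.mono ?_) ?_
      · intro y hy
        exact hy.1
      · intro y hy
        exact hy.2
  · ext y
    constructor
    · rintro ⟨hy1, hy2⟩
      refine ⟨φ.symm y, ⟨φ.map_target hy1, hy2⟩, ?_⟩
      rw [hfφ _ (φ.map_target hy1)]
      exact φ.right_inv hy1
    · rintro ⟨z, ⟨hz1, hz2⟩, rfl⟩
      rw [hfφ z hz1]
      refine ⟨φ.map_source hz1, ?_⟩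
      change φ.symm (φ z) ∈ c.source
      rw [φ.left_inv hz1]
      exact hz2
  · rintro y ⟨hy1, hy2⟩
    rw [hfφ y hy1]
    change c (φ.symm (φ y)) = c y
    rw [φ.left_inv hy1]

/-- A local biholomorphism pulls charts back. -/
theorem lbi_pull {M X : Surf} {f : M.carrier → X.carrier} {x : M.carrier} (hf : LBi f x)
    {c : OpenPartialHomeomorph X.carrier C2} (hc : c ∈ Hol X) (hx : f x ∈ c.source) :
    ∃ e ∈ Hol M, x ∈ e.source ∧ ∀ y ∈ e.source, f y ∈ c.source ∧ e y = c (f y) := by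
  obtain ⟨Φ, hxΦ, hfΦ⟩ := hf
  set φ := Φ.toOpenPartialHomeomorph with hφ
  have hfφ : ∀ y ∈ φ.source, f y = φ y := fun y hy => hfΦ hy
  refine ⟨φ.trans c, ?_, ?_, ?_⟩
  · rw [Cha.mem_hol] at hc ⊢
    have a1 : ContMDiffOn 𝓘(ℂ, C2) 𝓘(ℂ, C2) ω φ φ.source := Φ.contMDiffOn_toFun
    have a2 : ContMDiffOn 𝓘(ℂ, C2) 𝓘(ℂ, C2) ω φ.symm φ.target := Φ.contMDiffOn_invFun
    refine ⟨?_, ?_⟩
    · exact hc.1.comp (a1.mono (by intro y hy; exact hy.1)) (by intro y hy; exact hy.2)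
    · exact a2.comp (hc.2.mono (by intro y hy; exact hy.1)) (by intro y hy; exact hy.2)
  · refine ⟨hxΦ, ?_⟩
    change φ x ∈ c.source
    rw [← hfφ x hxΦ]
    exact hx
  · rintro y ⟨hy1, hy2⟩
    have hy2' : φ y ∈ c.source := hy2
    rw [hfφ y hy1]
    exact ⟨hy2', rfl⟩

/-- A local biholomorphism from the plane, in a chart. -/
theorem lbi_plane {M : Surf} {σ : C2 → M.carrier} {x : C2} (h : LBi σ x)
    {c : OpenPartialHomeomorph M.carrier C2} (hc : c ∈ Hol M) (hx : σ x ∈ c.source) :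
    AnalyticAt ℂ (c ∘ σ) x ∧ Function.Bijective (fderiv ℂ (c ∘ σ) x) := by
  obtain ⟨Φ, hxΦ, hfΦ⟩ := h
  set φ := Φ.toOpenPartialHomeomorph with hφ
  have hfφ : ∀ y ∈ φ.source, σ y = φ y := fun y hy => hfΦ hy
  have hxφ : x ∈ φ.source := hxΦ
  have hx' : φ x ∈ c.source := by rw [← hfφ x hxφ]; exact hx
  have ev : ∀ᶠ y in 𝓝 x, (c ∘ σ) y = (c ∘ φ) y := by
    filter_upwards [φ.open_source.mem_nhds hxφ] with y hy
    simp [hfφ y hy]
  have a1 : ContMDiffAt 𝓘(ℂ, C2) 𝓘(ℂ, C2) ω φ x :=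
    (Φ.contMDiffOn_toFun x hxΦ).contMDiffAt (Φ.open_source.mem_nhds hxΦ)
  have a2 : ContMDiffAt 𝓘(ℂ, C2) 𝓘(ℂ, C2) ω φ.symm (φ x) :=
    (Φ.contMDiffOn_invFun (φ x) (φ.map_source hxφ)).contMDiffAt
      (Φ.open_target.mem_nhds (φ.map_source hxφ))
  have b1 : ContMDiffAt 𝓘(ℂ, C2) 𝓘(ℂ, C2) ω c (φ x) := contMDiffAt_of_mem_maximalAtlas hc hx'
  have b2 : ContMDiffAt 𝓘(ℂ, C2) 𝓘(ℂ, C2) ω c.symm (c (φ x)) :=
    contMDiffAt_symm_of_mem_maximalAtlas hc (c.map_source hx')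
  have d1 : AnalyticAt ℂ (c ∘ φ) x := Cha.an_of_cmd (b1.comp x a1)
  have d2 : AnalyticAt ℂ (φ.symm ∘ c.symm) (c (φ x)) := by
    apply Cha.an_of_cmd
    have : ContMDiffAt 𝓘(ℂ, C2) 𝓘(ℂ, C2) ω φ.symm (c.symm (c (φ x))) := by
      rw [c.left_inv hx']
      exact a2
    exact this.comp (c (φ x)) b2
  refine ⟨d1.congr (ev.mono fun y hy => hy.symm), ?_⟩
  rw [Filter.EventuallyEq.fderiv_eq ev]
  refine Cha.bij_of_inv (g := φ.symm ∘ c.symm) d1.differentiableAt d2.differentiableAt ?_ ?_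
  · have h1 : ∀ᶠ y in 𝓝 x, y ∈ φ.source := φ.open_source.mem_nhds hxφ
    have h2 : ∀ᶠ y in 𝓝 x, φ y ∈ c.source :=
      (φ.continuousAt hxφ).eventually_mem (c.open_source.mem_nhds hx')
    filter_upwards [h1, h2] with y hy1 hy2
    simp only [Function.comp]
    rw [c.left_inv hy2, φ.left_inv hy1]
  · have h1 : ∀ᶠ y in 𝓝 (c (φ x)), y ∈ c.target := c.open_target.mem_nhds (c.map_source hx')
    have h2 : ∀ᶠ y in 𝓝 (c (φ x)), c.symm y ∈ φ.target := by
      refine (c.continuousAt_symm (c.map_source hx')).eventually_mem ?_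
      rw [c.left_inv hx']
      exact φ.open_target.mem_nhds (φ.map_source hxφ)
    filter_upwards [h1, h2] with y hy1 hy2
    simp only [Function.comp]
    rw [φ.right_inv hy2, c.right_inv hy1]

/-- A local biholomorphism to the plane is a chart. -/
theorem lbi_chart {M : Surf} {π : M.carrier → C2} {x : M.carrier} (h : LBi π x) :
    ∃ e ∈ Hol M, x ∈ e.source ∧ ∀ y ∈ e.source, e y = π y := by
  obtain ⟨Φ, hxΦ, hfΦ⟩ := h
  exact ⟨Φ.toOpenPartialHomeomorph, Cha.mem_hol.2 ⟨Φ.contMDiffOn_toFun, Φ.contMDiffOn_invFun⟩,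
    hxΦ, fun y hy => (hfΦ hy).symm⟩

end Pool.Agent.KS
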