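import Pool.Agent.KS.Mod
import Pool.Agent.KS.Cha
import Pool.Agent.KS.Bib

/-!
# Project KS, row BLO: birational structures go to blowing ups
-/

set_option autoImplicit false

namespace Pool.Agent.KS

open scoped Manifold ContDiff Topology
open Filter Asymptotics

namespace Blo

/-- Two charts, which are related by birational maps to charts with a birational transition, have
a birational transition. -/
theorem change {X X' : Surf} {ρ : X'.carrier → X.carrier} (hρ : Continuous ρ)
    {e e' : OpenPartialHomeomorph X'.carrier C2} {c c' : OpenPartialHomeomorph X.carrier C2}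
    {B B' : C2 → C2} {g g' : K2 ≃ₐ[ℂ] K2} (hB : Restr g B Set.univ)
    (hB' : Restr g' B' Set.univ)
    (he : ∀ y ∈ e.source, ρ y ∈ c.source ∧ c (ρ y) = B (e y))
    (he' : ∀ y ∈ e'.source, ρ y ∈ c'.source ∧ c' (ρ y) = B' (e' y))
    {x : X'.carrier} (hx : x ∈ e.source ∩ e'.source)
    (hch : ∃ f, ∃ V ∈ 𝓝 (c (ρ x)), Restr f (c' ∘ c.symm) V) :
    ∃ f, ∃ V ∈ 𝓝 (e x), Restr f (e' ∘ e.symm) V := by
  obtain ⟨f, V, hV, hf⟩ := hch
  -- the neighbourhood
  have hxt : e x ∈ e.target := e.map_source hx.1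
  have c1 : ContinuousAt (fun w => c (ρ (e.symm w))) (e x) := by
    have a1 : ContinuousAt e.symm (e x) := e.continuousAt_symm hxt
    have a2 : ContinuousAt (fun w => ρ (e.symm w)) (e x) := hρ.continuousAt.comp a1
    have a3 : ContinuousAt c (ρ (e.symm (e x))) := by
      rw [e.left_inv hx.1]
      exact c.continuousAt (he x hx.1).1
    exact ContinuousAt.comp (f := fun w => ρ (e.symm w)) a3 a2
  have n1 : ∀ᶠ w in 𝓝 (e x), c (ρ (e.symm w)) ∈ V := by
    apply c1.eventually_mem
    simp only [e.left_inv hx.1]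
    exact hV
  have n2 : ∀ᶠ w in 𝓝 (e x), w ∈ e.target := e.open_target.mem_nhds hxt
  have n3 : ∀ᶠ w in 𝓝 (e x), e.symm w ∈ e'.source := by
    apply (e.continuousAt_symm hxt).eventually_mem
    rw [e.left_inv hx.1]
    exact e'.open_source.mem_nhds hx.2
  obtain ⟨W, hWs, hWo, hWx⟩ := eventually_nhds_iff.1 (n1.and (n2.and n3))
  refine ⟨g'.symm.trans (f.trans g), W, hWo.mem_nhds hWx, ?_⟩
  have hBW : ∀ w ∈ W, B w = c (ρ (e.symm w)) := by
    intro w hw
    have h2 := (hWs w hw).2.1
    rw [(he _ (e.map_target h2)).2, e.right_inv h2]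
  have hmB : Set.MapsTo B W V := by
    intro w hw
    rw [hBW w hw]
    exact (hWs w hw).1
  refine restr_solve hWo ?_ (Set.mapsTo_univ _ _) hB'
    (restr_comp (restr_mono hB (Set.subset_univ W)) hf hmB) ?_
  · intro w hw
    have h2 := (hWs w hw).2.1
    have h3 := (hWs w hw).2.2
    exact ((e'.continuousAt h3).comp (e.continuousAt_symm h2)).continuousWithinAt
  · intro w hw
    have h2 := (hWs w hw).2.1
    have h3 := (hWs w hw).2.2
    simp only [Function.comp_apply]
    rw [hBW w hw, ← (he' _ h3).2, c.left_inv (he _ (e.map_target h2)).1]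

end Blo

theorem loc_blow {X X' : Surf} {ρ : X'.carrier → X.carrier} {p : X.carrier}
    (h : IsBlowUp ρ p) (hX : LocBir X) : LocBir X' := by
  obtain ⟨A, hA, hcov, hch⟩ := hX
  refine ⟨{e | e ∈ Hol X' ∧ ∃ c ∈ A, ∃ (B : C2 → C2) (g : K2 ≃ₐ[ℂ] K2), Restr g B Set.univ ∧
    ∀ y ∈ e.source, ρ y ∈ c.source ∧ c (ρ y) = B (e y)}, fun e he => he.1, fun x => ?_, ?_⟩
  · obtain ⟨c, hcA, hxc⟩ := hcov (ρ x)
    by_cases hx : ρ x = p
    · -- over the point
      set t : OpenPartialHomeomorph C2 C2 :=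
        (Homeomorph.addRight (-(c p))).toOpenPartialHomeomorph with ht
      have ht1 : AnalyticOnNhd ℂ t t.source := fun w _ => by
        have : AnalyticAt ℂ (fun w : C2 => w + -(c p)) w := analyticAt_id.add analyticAt_const
        exact this
      have ht2 : AnalyticOnNhd ℂ t.symm t.target := fun w _ => by
        have : AnalyticAt ℂ (fun w : C2 => w + -(-(c p))) w := analyticAt_id.add analyticAt_const
        exact this
      have hpc : p ∈ c.source := hx ▸ hxc
      have hct := hol_trans (hA hcA) t ht1 ht2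
      have hps : p ∈ (c.trans t).source := by
        simp [hpc, ht]
      have hp0 : (c.trans t) p = 0 := by
        simp [ht]
      obtain ⟨L, e, he, hxe, -, hey⟩ := blow_chart h hct hps hp0 x hx
      obtain ⟨f1, hf1⟩ := restr_b1
      obtain ⟨f2, hf2⟩ := restr_lin L
      obtain ⟨f3, hf3⟩ := restr_add (c p)
      have hR := restr_comp (restr_comp hf1 hf2 (Set.mapsTo_univ _ _)) hf3 (Set.mapsTo_univ _ _)
      refine ⟨e, ⟨he, c, hcA, _, _, hR, fun y hy => ?_⟩, hxe⟩
      obtain ⟨h1, h2⟩ := hey y hy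
      have h1' : ρ y ∈ c.source := by
        rw [OpenPartialHomeomorph.trans_source] at h1
        exact h1.1
      refine ⟨h1', ?_⟩
      simp only [Function.comp_apply]
      rw [← h2]
      simp [ht]
    · obtain ⟨e, he, hxe, hey⟩ := lbi_pull (h.loc x hx) (hA hcA) hxc
      exact ⟨e, ⟨he, c, hcA, id, _, restr_id, fun y hy => ⟨(hey y hy).1, (hey y hy).2.symm⟩⟩, hxe⟩
  · rintro e ⟨he, c, hcA, B, g, hB, hce⟩ e' ⟨he', c', hcA', B', g', hB', hce'⟩ x hx
    exact Blo.change (blow_cont h) hB hB' hce hce' hx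
      (hch c hcA c' hcA' (ρ x) ⟨(hce x hx.1).1, (hce' x hx.2).1⟩)

end Pool.Agent.KS
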