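import Pool.Agent.KS.Div
import Pool.Agent.KS.Cha

/-!
# Charts of a blowing up (row MOD, first part)
-/

set_option autoImplicit false

namespace Pool.Agent.KS

open scoped Manifold ContDiff Topology
open Filter Asymptotics

theorem lbi_contAt {M N : Surf} {f : M.carrier → N.carrier} {x : M.carrier} (h : LBi f x) :
    ContinuousAt f x := by
  obtain ⟨Φ, hx, he⟩ := h
  have h1 : ContinuousAt Φ x := Φ.toOpenPartialHomeomorph.continuousAt hx
  exact h1.congr ((he.eventuallyEq_of_mem (Φ.open_source.mem_nhds hx)).symm)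

theorem blw_cont {M' M : Surf} {ρ : M'.carrier → M.carrier}
    {κ : OpenPartialHomeomorph M.carrier C2} {κ1 : OpenPartialHomeomorph M'.carrier C2}
    {b : C2 → C2} (hb : Continuous b)
    (h : ∀ y ∈ κ1.source, ρ y ∈ κ.source ∧ κ (ρ y) = b (κ1 y)) {x : M'.carrier}
    (hx : x ∈ κ1.source) : ContinuousAt ρ x := by
  have h1 : ρ =ᶠ[𝓝 x] fun y => κ.symm (b (κ1 y)) := by
    filter_upwards [κ1.open_source.mem_nhds hx] with y hy
    rw [← (h y hy).2, κ.left_inv (h y hy).1]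
  refine ContinuousAt.congr ?_ h1.symm
  have h2 : b (κ1 x) ∈ κ.target := by
    rw [← (h x hx).2]
    exact κ.map_source (h x hx).1
  have h3 : ContinuousAt (fun y => b (κ1 y)) x := hb.continuousAt.comp (κ1.continuousAt hx)
  exact ContinuousAt.comp (g := κ.symm) (κ.continuousAt_symm h2) h3

theorem cont_b1 : Continuous b1 := by
  unfold b1
  fun_prop

theorem cont_b2 : Continuous b2 := by
  unfold b2
  fun_prop

theorem blow_cont {M' M : Surf} {ρ : M'.carrier → M.carrier} {p : M.carrier}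
    (h : IsBlowUp ρ p) : Continuous ρ := by
  rw [continuous_iff_continuousAt]
  intro x
  by_cases hx : ρ x = p
  · obtain ⟨κ, hκ, κ1, hκ1, κ2, hκ2, hp, h0, hU, ⟨ht1, he1⟩, ⟨ht2, he2⟩⟩ := h.chart
    have hxU : x ∈ κ1.source ∪ κ2.source := by
      rw [← hU]
      change ρ x ∈ κ.source
      rw [hx]
      exact hp
    have hm : ∀ y ∈ κ1.source ∪ κ2.source, ρ y ∈ κ.source := by
      intro y hy
      rw [← hU] at hy
      exact hy
    rcases hxU with hx1 | hx2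
    · exact blw_cont cont_b1 (fun y hy => ⟨hm y (Or.inl hy), he1 y hy⟩) hx1
    · exact blw_cont cont_b2 (fun y hy => ⟨hm y (Or.inr hy), he2 y hy⟩) hx2
  · exact lbi_contAt (h.loc x hx)

/-- A linear map which sends the first basis vector to a given nonzero vector. -/
theorem blw_lin (d : C2) (hd : d ≠ 0) : ∃ L : C2 ≃L[ℂ] C2, L (1, 0) = d := by
  by_cases h1 : d.1 = 0
  · have h2 : d.2 ≠ 0 := fun h => hd (Prod.ext h1 h)
    set A : C2 →L[ℂ] C2 := (ContinuousLinearMap.snd ℂ ℂ ℂ).prod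
      (d.2 • ContinuousLinearMap.fst ℂ ℂ ℂ) with hA
    obtain ⟨L, hL⟩ := div_equiv (A := A) (div_bij (fun v hv => by
      have hv1 := congrArg Prod.fst hv
      have hv2 := congrArg Prod.snd hv
      simp [hA, h2] at hv1 hv2
      exact Prod.ext hv2 hv1))
    refine ⟨L, ?_⟩
    have h3 : L (1, 0) = A (1, 0) := DFunLike.congr_fun hL _
    rw [h3, hA]
    refine Prod.ext ?_ ?_
    · simp [h1]
    · simp
  · set A : C2 →L[ℂ] C2 := (d.1 • ContinuousLinearMap.fst ℂ ℂ ℂ).prod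
      (d.2 • ContinuousLinearMap.fst ℂ ℂ ℂ + ContinuousLinearMap.snd ℂ ℂ ℂ) with hA
    obtain ⟨L, hL⟩ := div_equiv (A := A) (div_bij (fun v hv => by
      have hv1 := congrArg Prod.fst hv
      have hv2 := congrArg Prod.snd hv
      simp [hA, h1] at hv1 hv2
      rw [hv1] at hv2
      simp at hv2
      exact Prod.ext hv1 hv2))
    refine ⟨L, ?_⟩
    have h3 : L (1, 0) = A (1, 0) := DFunLike.congr_fun hL _
    rw [h3, hA]
    refine Prod.ext ?_ ?_
    · simp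
    · simp

theorem blw_aux {M' M : Surf} {ρ : M'.carrier → M.carrier} (hρ : Continuous ρ)
    {κ c : OpenPartialHomeomorph M.carrier C2} {κ1 : OpenPartialHomeomorph M'.carrier C2}
    (hκ1 : κ1 ∈ Hol M') {b : C2 → C2}
    (hb : ∀ y ∈ κ1.source, ρ y ∈ κ.source ∧ κ (ρ y) = b (κ1 y)) {x : M'.carrier}
    (hx : x ∈ κ1.source) (hxc : ρ x ∈ c.source) {θ' : C2 → C2} {L : C2 ≃L[ℂ] C2}
    (ha : AnalyticAt ℂ θ' (κ1 x)) (h0 : θ' (κ1 x) = 0)
    (hbij : Function.Bijective (fderiv ℂ θ' (κ1 x)))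
    (he : ∀ᶠ w in 𝓝 (κ1 x), L (b1 (θ' w)) = c (κ.symm (b w))) :
    ∃ e ∈ Hol M', x ∈ e.source ∧ e x = 0 ∧
      ∀ y ∈ e.source, ρ y ∈ c.source ∧ c (ρ y) = L (b1 (e y)) := by
  obtain ⟨e', h1, h2, h3, h4, _⟩ := dif_homeo ha hbij
  have hE : κ1.trans e' ∈ Hol M' := hol_trans hκ1 e' h3 h4
  have hev : ∀ᶠ y in 𝓝 x, ρ y ∈ c.source ∧ L (b1 (θ' (κ1 y))) = c (κ.symm (b (κ1 y))) :=
    (hρ.continuousAt.eventually (c.open_source.mem_nhds hxc)).and
      ((κ1.continuousAt hx).eventually he)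
  obtain ⟨s, hs1, hs2, hs3⟩ := eventually_nhds_iff.1 hev
  refine ⟨(κ1.trans e').restrOpen s hs2, hol_restr hE hs2, ?_, ?_, ?_⟩
  · rw [OpenPartialHomeomorph.restrOpen_source, OpenPartialHomeomorph.trans_source]
    exact ⟨⟨hx, h1⟩, hs3⟩
  · change e' (κ1 x) = 0
    rw [h2 _ h1, h0]
  · intro y hy
    rw [OpenPartialHomeomorph.restrOpen_source, OpenPartialHomeomorph.trans_source] at hy
    obtain ⟨⟨hy1, hy2⟩, hy3⟩ := hy
    refine ⟨(hs1 y hy3).1, ?_⟩
    change c (ρ y) = L (b1 (e' (κ1 y)))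
    rw [h2 _ hy2, (hs1 y hy3).2, ← (hb y hy1).2, κ.left_inv (hb y hy1).1]

/-- The charts over the blown up point. -/
theorem blow_chart {M' M : Surf} {ρ : M'.carrier → M.carrier} {p : M.carrier}
    (h : IsBlowUp ρ p) {c : OpenPartialHomeomorph M.carrier C2} (hc : c ∈ Hol M)
    (hp : p ∈ c.source) (h0 : c p = 0) (x : M'.carrier) (hx : ρ x = p) :
    ∃ (L : C2 ≃L[ℂ] C2), ∃ e ∈ Hol M', x ∈ e.source ∧ e x = 0 ∧
      ∀ y ∈ e.source, ρ y ∈ c.source ∧ c (ρ y) = L (b1 (e y)) := by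
  have hρ := blow_cont h
  obtain ⟨κ, hκ, κ1, hκ1, κ2, hκ2, hpκ, h0κ, hU, ⟨ht1, he1⟩, ⟨ht2, he2⟩⟩ := h.chart
  have hxU : x ∈ κ1.source ∪ κ2.source := by
    rw [← hU]
    change ρ x ∈ κ.source
    rw [hx]
    exact hpκ
  have hm : ∀ y ∈ κ1.source ∪ κ2.source, ρ y ∈ κ.source := by
    intro y hy
    rw [← hU] at hy
    exact hy
  obtain ⟨ha, hb⟩ := hol_change hκ hc hpκ hp
  rw [h0κ] at ha hb
  have hθ : Dif (c ∘ κ.symm) := by
    refine ⟨ha, ?_, hb⟩
    have h1 : κ.symm 0 = p := by rw [← h0κ, κ.left_inv hpκ]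
    change c (κ.symm 0) = 0
    rw [h1, h0]
  have hxc : ρ x ∈ c.source := by rw [hx]; exact hp
  rcases hxU with hx1 | hx2
  · have h1 : b1 (κ1 x) = 0 := by rw [← he1 x hx1, hx, h0κ]
    have hu : (κ1 x).1 = 0 := congrArg Prod.fst h1
    set v0 := (κ1 x).2 with hv0
    have hκx : κ1 x = (0, v0) := Prod.ext hu rfl
    have hd : fderiv ℂ (c ∘ κ.symm) 0 (1, v0) ≠ 0 := by
      intro h2
      have h3 := hb.1 (h2.trans (map_zero _).symm)
      exact one_ne_zero (congrArg Prod.fst h3)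
    obtain ⟨L, hL⟩ := blw_lin _ hd
    have hθ1 : Dif (L.symm ∘ (c ∘ κ.symm)) := dif_comp (dif_lin L.symm) hθ
    have hdir : (fderiv ℂ (L.symm ∘ (c ∘ κ.symm)) 0 (1, v0)).2 = 0 := by
      rw [fderiv_comp _ L.symm.differentiableAt ha.differentiableAt, L.symm.fderiv,
        ContinuousLinearMap.comp_apply, ← hL]
      simp
    obtain ⟨θ', h2, h3, h4, h5⟩ := lift_b1 hθ1 v0 hdir
    refine ⟨L, blw_aux (κ := κ) hρ hκ1 (fun y hy => ⟨hm y (Or.inl hy), he1 y hy⟩) hx1 hxc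
      (θ' := θ') ?_ ?_ ?_ ?_⟩
    · rw [hκx]
      exact h2
    · rw [hκx]
      exact h3
    · rw [hκx]
      exact h4
    · rw [hκx]
      filter_upwards [h5] with w hw
      rw [hw]
      simp
  · have h1 : b2 (κ2 x) = 0 := by rw [← he2 x hx2, hx, h0κ]
    have hu : (κ2 x).2 = 0 := congrArg Prod.snd h1
    set u0 := (κ2 x).1 with hu0
    have hκx : κ2 x = (u0, 0) := Prod.ext rfl hu
    have hd : fderiv ℂ (c ∘ κ.symm) 0 (u0, 1) ≠ 0 := by
      intro h2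
      have h3 := hb.1 (h2.trans (map_zero _).symm)
      exact one_ne_zero (congrArg Prod.snd h3)
    obtain ⟨L, hL⟩ := blw_lin _ hd
    have hθ1 : Dif (L.symm ∘ (c ∘ κ.symm)) := dif_comp (dif_lin L.symm) hθ
    have hdir : (fderiv ℂ (L.symm ∘ (c ∘ κ.symm)) 0 (u0, 1)).2 = 0 := by
      rw [fderiv_comp _ L.symm.differentiableAt ha.differentiableAt, L.symm.fderiv,
        ContinuousLinearMap.comp_apply, ← hL]
      simp
    obtain ⟨θ', h2, h3, h4, h5⟩ := lift_b2 hθ1 u0 hdir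
    refine ⟨L, blw_aux (κ := κ) hρ hκ2 (fun y hy => ⟨hm y (Or.inr hy), he2 y hy⟩) hx2 hxc
      (θ' := θ') ?_ ?_ ?_ ?_⟩
    · rw [hκx]
      exact h2
    · rw [hκx]
      exact h3
    · rw [hκx]
      exact h4
    · rw [hκx]
      filter_upwards [h5] with w hw
      rw [hw]
      simp

end Pool.Agent.KS
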