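import Pool.Agent.KS.Defs

/-!
# Contractions
-/

set_option autoImplicit false

namespace Pool.Agent.KS

open scoped Manifold ContDiff Topology
open Filter Asymptotics

namespace Con

/-- The adapted norm. -/
noncomputable def NN (D : C2 →L[ℂ] C2) (κ : ℝ) (m : ℕ) (w : C2) : ℝ :=
  ∑ j ∈ Finset.range m, (κ⁻¹) ^ j * ‖(D ^ j) w‖

theorem NN_cont (D : C2 →L[ℂ] C2) (κ : ℝ) (m : ℕ) : Continuous (NN D κ m) := by
  unfold NN
  refine continuous_finsetSum _ fun j _ => ?_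
  exact continuous_const.mul (ContinuousLinearMap.continuous _).norm

theorem NN_zero (D : C2 →L[ℂ] C2) (κ : ℝ) (m : ℕ) : NN D κ m 0 = 0 := by
  unfold NN
  refine Finset.sum_eq_zero fun j _ => ?_
  simp

theorem NN_add (D : C2 →L[ℂ] C2) {κ : ℝ} (hκ : 0 < κ) (m : ℕ) (a b : C2) :
    NN D κ m (a + b) ≤ NN D κ m a + NN D κ m b := by
  unfold NN
  rw [← Finset.sum_add_distrib]
  refine Finset.sum_le_sum fun j _ => ?_
  rw [← mul_add, map_add]
  exact mul_le_mul_of_nonneg_left (norm_add_le _ _) (by positivity)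

theorem norm_le_NN (D : C2 →L[ℂ] C2) {κ : ℝ} (hκ : 0 < κ) {m : ℕ} (hm : 0 < m) (w : C2) :
    ‖w‖ ≤ NN D κ m w := by
  unfold NN
  have h := Finset.single_le_sum (s := Finset.range m)
    (f := fun j => (κ⁻¹) ^ j * ‖(D ^ j) w‖) (fun j _ => by positivity)
    (Finset.mem_range.2 hm)
  simpa using h

theorem NN_le (D : C2 →L[ℂ] C2) {κ : ℝ} (hκ : 0 < κ) (m : ℕ) (w : C2) :
    NN D κ m w ≤ (∑ j ∈ Finset.range m, (κ⁻¹) ^ j * ‖D ^ j‖) * ‖w‖ := by
  unfold NN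
  rw [Finset.sum_mul]
  refine Finset.sum_le_sum fun j _ => ?_
  rw [mul_assoc]
  exact mul_le_mul_of_nonneg_left (ContinuousLinearMap.le_opNorm _ _) (by positivity)

theorem NN_D (D : C2 →L[ℂ] C2) {κ : ℝ} (hκ : 0 < κ) (m : ℕ) (hD : ‖D ^ m‖ ≤ κ ^ m) (w : C2) :
    NN D κ m (D w) ≤ κ * NN D κ m w := by
  have h1 : NN D κ m (D w) = κ * ∑ j ∈ Finset.range m, (κ⁻¹) ^ (j + 1) * ‖(D ^ (j + 1)) w‖ := by
    unfold NN
    rw [Finset.mul_sum]
    refine Finset.sum_congr rfl fun j _ => ?_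
    have : (D ^ j) (D w) = (D ^ (j + 1)) w := by
      rw [pow_succ]; rfl
    rw [this, pow_succ (κ⁻¹) j]
    have hk : κ * κ⁻¹ = 1 := mul_inv_cancel₀ hκ.ne'
    calc (κ⁻¹) ^ j * ‖(D ^ (j + 1)) w‖ = (κ * κ⁻¹) * ((κ⁻¹) ^ j * ‖(D ^ (j + 1)) w‖) := by
          rw [hk, one_mul]
      _ = κ * ((κ⁻¹) ^ j * κ⁻¹ * ‖(D ^ (j + 1)) w‖) := by ring
  rw [h1]
  refine mul_le_mul_of_nonneg_left ?_ hκ.le
  have h2 : ∑ j ∈ Finset.range (m + 1), (κ⁻¹) ^ j * ‖(D ^ j) w‖ =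
      (∑ j ∈ Finset.range m, (κ⁻¹) ^ (j + 1) * ‖(D ^ (j + 1)) w‖) +
        (κ⁻¹) ^ 0 * ‖(D ^ 0) w‖ := Finset.sum_range_succ' _ _
  have h3 := Finset.sum_range_succ (fun j => (κ⁻¹) ^ j * ‖(D ^ j) w‖) m
  have h4 : (κ⁻¹) ^ m * ‖(D ^ m) w‖ ≤ (κ⁻¹) ^ 0 * ‖(D ^ 0) w‖ := by
    have : ‖(D ^ m) w‖ ≤ κ ^ m * ‖w‖ :=
      (ContinuousLinearMap.le_opNorm _ _).trans (mul_le_mul_of_nonneg_right hD (norm_nonneg _))
    calc (κ⁻¹) ^ m * ‖(D ^ m) w‖ ≤ (κ⁻¹) ^ m * (κ ^ m * ‖w‖) :=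
          mul_le_mul_of_nonneg_left this (by positivity)
      _ = (κ⁻¹) ^ 0 * ‖(D ^ 0) w‖ := by
          rw [← mul_assoc, ← mul_pow, inv_mul_cancel₀ hκ.ne']
          simp
  unfold NN
  linarith

/-- The contraction in the adapted norm. -/
theorem key {F : C2 → C2} (hF : AnalyticAt ℂ F 0) (h0 : F 0 = 0)
    (hD : ∃ m : ℕ, ‖(fderiv ℂ F 0) ^ m‖ < 1) :
    ∃ (N : C2 → ℝ) (C κ ε : ℝ), Continuous N ∧ N 0 = 0 ∧ 0 < C ∧ 0 < κ ∧ κ < 1 ∧ 0 < ε ∧
      (∀ w, ‖w‖ ≤ N w) ∧ (∀ w, N w ≤ C * ‖w‖) ∧ ∀ w, N w < ε → N (F w) ≤ κ * N w := by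
  obtain ⟨m, hm⟩ := hD
  set D := fderiv ℂ F 0 with hDdef
  have hm0 : 0 < m := by
    rcases Nat.eq_zero_or_pos m with h | h
    · exfalso
      rw [h, pow_zero] at hm
      have : ‖(1 : C2 →L[ℂ] C2)‖ = 1 := norm_one
      rw [this] at hm
      exact lt_irrefl _ hm
    · exact h
  -- a number below one
  obtain ⟨κ, hκ0, hκ1, hκm⟩ : ∃ κ : ℝ, 0 < κ ∧ κ < 1 ∧ ‖D ^ m‖ ≤ κ ^ m := by
    have hc : Tendsto (fun κ : ℝ => κ ^ m) (𝓝[<] 1) (𝓝 ((1 : ℝ) ^ m)) :=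
      ((continuous_pow m).tendsto 1).mono_left nhdsWithin_le_nhds
    rw [one_pow] at hc
    have h1 : ∀ᶠ κ : ℝ in 𝓝[<] 1, ‖D ^ m‖ < κ ^ m := hc.eventually (lt_mem_nhds hm)
    have h2 : ∀ᶠ κ : ℝ in 𝓝[<] 1, κ ∈ Set.Ioo (0 : ℝ) 1 :=
      Ioo_mem_nhdsLT one_pos
    obtain ⟨κ, ha, hb⟩ := (h1.and h2).exists
    exact ⟨κ, hb.1, hb.2, ha.le⟩
  set C := ∑ j ∈ Finset.range m, (κ⁻¹) ^ j * ‖D ^ j‖ with hC
  have hC0 : 0 ≤ C := Finset.sum_nonneg fun j _ => by positivity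
  obtain ⟨κ', hκκ', hκ'1⟩ := exists_between hκ1
  -- the remainder
  have hder : HasFDerivAt F D 0 := hF.differentiableAt.hasFDerivAt
  have hη : 0 < (κ' - κ) / (C + 1) := div_pos (sub_pos.2 hκκ') (by linarith)
  have hlit := (hder.isLittleO.def hη)
  obtain ⟨ε, hε, hball⟩ := Metric.eventually_nhds_iff_ball.1 hlit
  refine ⟨NN D κ m, C + 1, κ', ε, NN_cont D κ m, NN_zero D κ m, by linarith, hκ0.trans hκκ',
    hκ'1, hε, norm_le_NN D hκ0 hm0, fun w => (NN_le D hκ0 m w).trans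
      (mul_le_mul_of_nonneg_right (by rw [← hC]; linarith) (norm_nonneg _)), fun w hw => ?_⟩
  have hwn : ‖w‖ < ε := (norm_le_NN D hκ0 hm0 w).trans_lt hw
  have h1 := hball w (by simpa using hwn)
  rw [h0, sub_zero, sub_zero] at h1
  have h2 : NN D κ m (F w) ≤ NN D κ m (D w) + NN D κ m (F w - D w) := by
    have := NN_add D hκ0 m (D w) (F w - D w)
    rwa [add_sub_cancel] at this
  have h3 := NN_D D hκ0 m hκm w
  have h4 : NN D κ m (F w - D w) ≤ C * ‖F w - D w‖ := NN_le D hκ0 m _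
  have h5 : C * ‖F w - D w‖ ≤ (κ' - κ) * ‖w‖ := by
    calc C * ‖F w - D w‖ ≤ (C + 1) * ((κ' - κ) / (C + 1) * ‖w‖) := by
          apply mul_le_mul (by linarith) h1 (norm_nonneg _) (by linarith)
      _ = (κ' - κ) * ‖w‖ := by
          have : C + 1 ≠ 0 := by linarith
          field_simp
  have h6 := norm_le_NN D hκ0 hm0 w
  have h7 : (κ' - κ) * ‖w‖ ≤ (κ' - κ) * NN D κ m w :=
    mul_le_mul_of_nonneg_left h6 (sub_pos.2 hκκ').le
  linarith

end Con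

theorem contr_est {F : C2 → C2} (hF : AnalyticAt ℂ F 0) (h0 : F 0 = 0)
    (hD : ∃ m : ℕ, ‖(fderiv ℂ F 0) ^ m‖ < 1) :
    (∃ ε C κ : ℝ, 0 < ε ∧ 0 < C ∧ 0 < κ ∧ κ < 1 ∧ ∀ w : C2, ‖w‖ < ε → ∀ k : ℕ,
      ‖F^[k] w‖ ≤ C * κ ^ k * ‖w‖) ∧
    ∀ V ∈ 𝓝 (0 : C2), ∃ W : Set C2, IsOpen W ∧ 0 ∈ W ∧ W ⊆ V ∧ Set.MapsTo F W W := by
  obtain ⟨N, C, κ, ε, hNc, hN0, hC, hκ0, hκ1, hε, hN1, hN2, hN3⟩ := Con.key hF h0 hD
  refine ⟨⟨ε / C, C, κ, by positivity, hC, hκ0, hκ1, fun w hw k => ?_⟩, fun V hV => ?_⟩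
  · have hw' : N w < ε := by
      refine (hN2 w).trans_lt ?_
      rw [lt_div_iff₀ hC] at hw
      linarith
    have hk : ∀ k : ℕ, N (F^[k] w) ≤ κ ^ k * N w := by
      intro k
      induction k with
      | zero => simp
      | succ k ih =>
        have hN0' : 0 ≤ N w := (norm_nonneg _).trans (hN1 w)
        have h1 : N (F^[k] w) < ε := by
          refine ih.trans_lt (lt_of_le_of_lt ?_ hw')
          exact mul_le_of_le_one_left hN0' (pow_le_one₀ hκ0.le hκ1.le)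
        rw [Function.iterate_succ_apply']
        refine (hN3 _ h1).trans ?_
        rw [pow_succ']
        rw [mul_assoc]
        exact mul_le_mul_of_nonneg_left ih hκ0.le
    calc ‖F^[k] w‖ ≤ N (F^[k] w) := hN1 _
      _ ≤ κ ^ k * N w := hk k
      _ ≤ κ ^ k * (C * ‖w‖) := mul_le_mul_of_nonneg_left (hN2 w) (by positivity)
      _ = C * κ ^ k * ‖w‖ := by ring
  · obtain ⟨r, hr, hrV⟩ := Metric.mem_nhds_iff.1 hV
    refine ⟨{w | N w < min ε r}, isOpen_lt hNc continuous_const, ?_, ?_, ?_⟩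
    · change N 0 < min ε r
      rw [hN0]
      exact lt_min hε hr
    · intro w hw
      apply hrV
      rw [mem_ball_zero_iff]
      exact (hN1 w).trans_lt (lt_of_lt_of_le hw (min_le_right _ _))
    · intro w hw
      have h1 : N w < min ε r := hw
      have hN0' : 0 ≤ N w := (norm_nonneg _).trans (hN1 w)
      have h2 := hN3 w (h1.trans_le (min_le_left _ _))
      change N (F w) < min ε r
      refine h2.trans_lt (lt_of_le_of_lt ?_ h1)
      exact mul_le_of_le_one_left hN0' hκ1.le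

namespace Con

theorem iter_mapsTo {F : C2 → C2} {U : Set C2} (hm : Set.MapsTo F U U) (k : ℕ) :
    Set.MapsTo (F^[k]) U U := by
  induction k with
  | zero => intro x hx; exact hx
  | succ k ih =>
    intro x hx
    rw [Function.iterate_succ_apply']
    exact hm (ih hx)

theorem iter_diff {F : C2 → C2} {U : Set C2} (hF : DifferentiableOn ℂ F U)
    (hm : Set.MapsTo F U U) (k : ℕ) : DifferentiableOn ℂ (F^[k]) U := by
  induction k with
  | zero => exact differentiableOn_id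
  | succ k ih =>
    rw [Function.iterate_succ']
    exact hF.comp ih (iter_mapsTo hm k)

theorem iter_zero {F : C2 → C2} (h0 : F 0 = 0) (k : ℕ) : F^[k] 0 = 0 :=
  Function.iterate_fixed h0 k

theorem iter_fderiv {F : C2 → C2} {U : Set C2} (hU : IsOpen U) (h0U : (0 : C2) ∈ U)
    (hF : DifferentiableOn ℂ F U) (hm : Set.MapsTo F U U) (h0 : F 0 = 0) (k : ℕ) :
    HasFDerivAt (F^[k]) ((fderiv ℂ F 0) ^ k) 0 := by
  have hd : HasFDerivAt F (fderiv ℂ F 0) 0 :=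
    (hF.differentiableAt (hU.mem_nhds h0U)).hasFDerivAt
  induction k with
  | zero => exact hasFDerivAt_id 0
  | succ k ih =>
    rw [Function.iterate_succ', pow_succ']
    have h1 : HasFDerivAt F (fderiv ℂ F 0) (F^[k] 0) := by
      rw [iter_zero h0]; exact hd
    exact h1.comp 0 ih

theorem opNorm_le_two (T : C2 →L[ℂ] C2) : ‖T‖ ≤ ‖T (1, 0)‖ + ‖T (0, 1)‖ := by
  refine ContinuousLinearMap.opNorm_le_bound _ (by positivity) fun w => ?_
  have h1 : w = w.1 • ((1, 0) : C2) + w.2 • ((0, 1) : C2) := by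
    ext <;> simp
  have h2 : T w = w.1 • T (1, 0) + w.2 • T (0, 1) := by
    conv_lhs => rw [h1]
    rw [map_add, map_smul, map_smul]
  have ha : ‖w.1‖ ≤ ‖w‖ := norm_fst_le w
  have hb : ‖w.2‖ ≤ ‖w‖ := norm_snd_le w
  rw [h2]
  calc ‖w.1 • T (1, 0) + w.2 • T (0, 1)‖ ≤ ‖w.1 • T (1, 0)‖ + ‖w.2 • T (0, 1)‖ := norm_add_le _ _
    _ = ‖w.1‖ * ‖T (1, 0)‖ + ‖w.2‖ * ‖T (0, 1)‖ := by rw [norm_smul, norm_smul]
    _ ≤ ‖w‖ * ‖T (1, 0)‖ + ‖w‖ * ‖T (0, 1)‖ := by gcongr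
    _ = (‖T (1, 0)‖ + ‖T (0, 1)‖) * ‖w‖ := by ring

/-- The derivatives of the iterates tend to zero along each direction. -/
theorem dir_tendsto {F : C2 → C2} {U : Set C2} (hU : IsOpen U) (h0U : (0 : C2) ∈ U)
    (hb : Bornology.IsBounded U) (hF : DifferentiableOn ℂ F U) (hm : Set.MapsTo F U U)
    (h0 : F 0 = 0) (hc : ∀ w ∈ U, Tendsto (fun k : ℕ => F^[k] w) atTop (𝓝 0)) (v : C2)
    (hv : ‖v‖ ≤ 1) : Tendsto (fun k : ℕ => ((fderiv ℂ F 0) ^ k) v) atTop (𝓝 0) := by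
  obtain ⟨R, hR, hRU⟩ : ∃ R : ℝ, 0 < R ∧ Metric.closedBall (0 : C2) R ⊆ U := by
    obtain ⟨r, hr, hrU⟩ := Metric.mem_nhds_iff.1 (hU.mem_nhds h0U)
    refine ⟨r / 2, by linarith, fun x hx => hrU ?_⟩
    rw [Metric.mem_closedBall] at hx
    rw [Metric.mem_ball]
    linarith
  obtain ⟨B, hB⟩ := hb.exists_norm_le
  have hmem : ∀ z : ℂ, ‖z‖ ≤ R → z • v ∈ U := by
    intro z hz
    apply hRU
    rw [mem_closedBall_zero_iff, norm_smul]
    calc ‖z‖ * ‖v‖ ≤ R * 1 := mul_le_mul hz hv (norm_nonneg _) hR.le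
      _ = R := mul_one R
  -- Cauchy formula
  have hcauchy : ∀ k : ℕ, ((fderiv ℂ F 0) ^ k) v = (2 * (Real.pi : ℂ) * Complex.I)⁻¹ •
      ∮ z in C(0, R), (1 / (z - 0) ^ 2) • F^[k] (z • v) := by
    intro k
    have hd : DifferentiableOn ℂ (fun z : ℂ => F^[k] (z • v)) (Metric.closedBall 0 R) := by
      refine (iter_diff hF hm k).comp ?_ ?_
      · exact (differentiable_id.smul_const v).differentiableOn
      · intro z hz
        exact hmem z (by simpa using hz)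
    have hdc : DiffContOnCl ℂ (fun z : ℂ => F^[k] (z • v)) (Metric.ball 0 R) := by
      apply DifferentiableOn.diffContOnCl
      rw [closure_ball (0 : ℂ) hR.ne']
      exact hd
    have h1 := hdc.deriv_eq_smul_circleIntegral hR
    have hne : (2 * (Real.pi : ℂ) * Complex.I) ≠ 0 := Complex.two_pi_I_ne_zero
    rw [h1, smul_smul, inv_mul_cancel₀ hne, one_smul]
    have h2 : HasFDerivAt (F^[k]) ((fderiv ℂ F 0) ^ k) ((0 : ℂ) • v) := by
      rw [zero_smul]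
      exact iter_fderiv hU h0U hF hm h0 k
    have h3 : HasDerivAt (fun z : ℂ => z • v) ((1 : ℂ) • v) 0 :=
      (hasDerivAt_id (0 : ℂ)).smul_const v
    have h4 := h2.comp_hasDerivAt (0 : ℂ) h3
    rw [one_smul] at h4
    exact h4.deriv.symm
  simp_rw [hcauchy]
  rw [show (0 : C2) = (2 * (Real.pi : ℂ) * Complex.I)⁻¹ • (0 : C2) by simp]
  refine Tendsto.const_smul ?_ _
  have h5 : ∀ k : ℕ, (∮ z in C(0, R), (1 / (z - 0) ^ 2) • F^[k] (z • v)) =
      ∫ θ in (0 : ℝ)..2 * Real.pi, deriv (circleMap 0 R) θ •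
        ((1 / (circleMap 0 R θ - 0) ^ 2) • F^[k] (circleMap 0 R θ • v)) := fun k => rfl
  simp_rw [h5]
  have h6 : (0 : C2) = ∫ _θ in (0 : ℝ)..2 * Real.pi, (0 : C2) := by simp
  rw [h6]
  have hcm : ∀ θ : ℝ, ‖circleMap 0 R θ‖ = R := by
    intro θ
    rw [norm_circleMap_zero, abs_of_pos hR]
  refine intervalIntegral.tendsto_integral_filter_of_dominated_convergence
    (fun _ => R * (1 / R ^ 2 * B)) ?_ ?_ ?_ ?_
  · refine Eventually.of_forall fun k => ?_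
    apply Continuous.aestronglyMeasurable
    have hF' : Continuous fun θ : ℝ => F^[k] (circleMap 0 R θ • v) := by
      have h7 : ContinuousOn (F^[k]) U := (iter_diff hF hm k).continuousOn
      refine h7.comp_continuous ?_ ?_
      · exact (continuous_circleMap 0 R).smul continuous_const
      · intro θ
        exact hmem _ (hcm θ).le
    have hne : ∀ θ : ℝ, circleMap 0 R θ - 0 ≠ 0 := by
      intro θ
      rw [sub_zero]
      intro h
      have := hcm θ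
      rw [h, norm_zero] at this
      exact hR.ne this
    have ha : Continuous fun θ : ℝ => deriv (circleMap 0 R) θ := by
      simp only [deriv_circleMap]
      exact (continuous_circleMap 0 R).mul continuous_const
    have hb' : Continuous fun θ : ℝ => 1 / (circleMap 0 R θ - 0) ^ 2 := by
      refine Continuous.div continuous_const ?_ fun θ => pow_ne_zero 2 (hne θ)
      exact ((continuous_circleMap 0 R).sub continuous_const).pow 2
    exact ha.smul (hb'.smul hF')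
  · refine Eventually.of_forall fun k => ?_
    refine Eventually.of_forall fun θ _ => ?_
    rw [norm_smul, norm_smul, deriv_circleMap, norm_mul, Complex.norm_I, mul_one, norm_div,
      norm_one, norm_pow, sub_zero, hcm θ]
    gcongr
    exact hB _ (iter_mapsTo hm k (hmem _ (hcm θ).le))
  · exact intervalIntegrable_const
  · refine Eventually.of_forall fun θ _ => ?_
    have h8 := hc _ (hmem _ (hcm θ).le)
    have h9 := (h8.const_smul (1 / (circleMap 0 R θ - 0) ^ 2)).const_smul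
      (deriv (circleMap 0 R) θ)
    simpa using h9

end Con

theorem deriv_small {F : C2 → C2} {U : Set C2} (hU : IsOpen U) (h0U : 0 ∈ U)
    (hb : Bornology.IsBounded U) (hF : DifferentiableOn ℂ F U) (hm : Set.MapsTo F U U)
    (h0 : F 0 = 0) (hc : ∀ w ∈ U, Tendsto (fun k : ℕ => F^[k] w) atTop (𝓝 0)) :
    ∃ m : ℕ, ‖(fderiv ℂ F 0) ^ m‖ < 1 := by
  have h1 := Con.dir_tendsto hU h0U hb hF hm h0 hc (1, 0) (by simp)
  have h2 := Con.dir_tendsto hU h0U hb hF hm h0 hc (0, 1) (by simp)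
  have h3 : Tendsto (fun k : ℕ => ‖((fderiv ℂ F 0) ^ k) (1, 0)‖ +
      ‖((fderiv ℂ F 0) ^ k) (0, 1)‖) atTop (𝓝 (‖(0 : C2)‖ + ‖(0 : C2)‖)) := h1.norm.add h2.norm
  rw [norm_zero, add_zero] at h3
  obtain ⟨k, hk⟩ := (h3.eventually (gt_mem_nhds one_pos)).exists
  exact ⟨k, (Con.opNorm_le_two _).trans_lt hk⟩

end Pool.Agent.KS
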