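import Mathlib

/-!
# Birational structures on Kato surfaces: definitions
-/

set_option autoImplicit false

namespace Pool.Agent.KS

open scoped Manifold ContDiff Topology
open Filter

/-- The model space. -/
abbrev C2 := ℂ × ℂ

/-- A Hausdorff complex surface. -/
structure Surf where
  carrier : Type
  [top : TopologicalSpace carrier]
  [t2 : T2Space carrier]
  [cs : ChartedSpace C2 carrier]
  [mf : IsManifold 𝓘(ℂ, C2) ω carrier]

attribute [instance] Surf.top Surf.t2 Surf.cs Surf.mf

/-- The surface of an open subset of `ℂ²`. -/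
noncomputable def Surf.ofOpen (U : TopologicalSpace.Opens C2) : Surf where
  carrier := U

/-- The holomorphic charts of a surface. -/
def Hol (X : Surf) : Set (OpenPartialHomeomorph X.carrier C2) :=
  IsManifold.maximalAtlas 𝓘(ℂ, C2) ω X.carrier

/-- `f` is a local biholomorphism at `x`. -/
def LBi {M N : Type} [TopologicalSpace M] [ChartedSpace C2 M] [TopologicalSpace N]
    [ChartedSpace C2 N] (f : M → N) (x : M) : Prop :=
  IsLocalDiffeomorphAt 𝓘(ℂ, C2) 𝓘(ℂ, C2) ω f x

/-- The first chart of the blowing up of the origin. -/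
def b1 (w : C2) : C2 := (w.1, w.1 * w.2)

/-- The second chart of the blowing up of the origin. -/
def b2 (w : C2) : C2 := (w.1 * w.2, w.2)

/-- `ρ : M' → M` is the blowing up of the point `p` of `M`: it is biholomorphic outside `p`, and
there are a chart `κ` at `p` and two charts `κ1`, `κ2` which cover the inverse image of its domain
and in which `ρ` is `(u, v) ↦ (u, u v)` and `(u, v) ↦ (u v, v)`. -/
structure IsBlowUp {M' M : Surf} (ρ : M'.carrier → M.carrier) (p : M.carrier) : Prop where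
  bij : Set.BijOn ρ (ρ ⁻¹' {p})ᶜ {p}ᶜ
  loc : ∀ x, ρ x ≠ p → LBi ρ x
  chart : ∃ κ ∈ Hol M, ∃ κ1 ∈ Hol M', ∃ κ2 ∈ Hol M', p ∈ κ.source ∧ κ p = 0 ∧
    ρ ⁻¹' κ.source = κ1.source ∪ κ2.source ∧
    (κ1.target = b1 ⁻¹' κ.target ∧ ∀ x ∈ κ1.source, κ (ρ x) = b1 (κ1 x)) ∧
    (κ2.target = b2 ⁻¹' κ.target ∧ ∀ x ∈ κ2.source, κ (ρ x) = b2 (κ2 x))

/-- `π : M → ℂ²` is obtained from the inclusion of the open set `U` by blowing up `n` times a point
over the origin. -/
inductive Modif (U : TopologicalSpace.Opens C2) : ℕ → (M : Surf) → (M.carrier → C2) → Prop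
  | base : Modif U 0 (Surf.ofOpen U) (fun x => x.1)
  | step {n : ℕ} {M M' : Surf} {π : M.carrier → C2} (ρ : M'.carrier → M.carrier)
      (p : M.carrier) : Modif U n M π → π p = 0 → IsBlowUp ρ p → Modif U (n + 1) M' (π ∘ ρ)

/-- Kato's construction. `U` is a bounded open neighbourhood of the origin of `ℂ²`, `π : M → U` is a
composition of `n ≥ 0` blowing ups of points over the origin, `σ` maps `U` biholomorphically onto
an open subset of `M` and `σ 0` lies over the origin; `π ∘ σ` contracts `U` to the origin; `X` is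
the quotient of `M` without the point `σ 0` by the relation generated by `x ∼ σ (π x)`. If `n = 0`
these are the primary Hopf surfaces; if `n ≥ 1` they contain all the minimal surfaces with a global
spherical shell and second Betti number `n`. -/
structure KatoData (X : Surf) where
  U : TopologicalSpace.Opens C2
  n : ℕ
  M : Surf
  π : M.carrier → C2
  σ : C2 → M.carrier
  q : M.carrier → X.carrier
  hM : Modif U n M π
  zero_mem : (0 : C2) ∈ U
  bdd : Bornology.IsBounded (U : Set C2)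
  inj : Set.InjOn σ U
  lbi : ∀ x ∈ U, LBi σ x
  fix : π (σ 0) = 0
  contr : ∀ x ∈ U, Tendsto (fun k : ℕ => (π ∘ σ)^[k] x) atTop (𝓝 0)
  q_lbi : ∀ x, x ≠ σ 0 → LBi q x
  q_surj : ∀ y, ∃ x, x ≠ σ 0 ∧ q x = y
  q_iff : ∀ x y, x ≠ σ 0 → y ≠ σ 0 →
    (q x = q y ↔ ∃ k : ℕ, (σ ∘ π)^[k] x = y ∨ (σ ∘ π)^[k] y = x)

/-- The surfaces with a global spherical shell: those of Kato's construction and their
blowing ups. -/
inductive IsGSS : Surf → Prop
  | kato {X : Surf} : KatoData X → IsGSS X
  | blow {X X' : Surf} (ρ : X'.carrier → X.carrier) (p : X.carrier) :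
      IsGSS X → IsBlowUp ρ p → IsGSS X'

/-! ### Birational structures -/

/-- The field of the rational functions in two variables. -/
abbrev K2 := FractionRing (MvPolynomial (Fin 2) ℂ)

/-- The coordinates of a point. -/
def crd (w : C2) : Fin 2 → ℂ := ![w.1, w.2]

/-- The birational self-map of the plane given by the automorphism `f` of the field of rational
functions is regular on `V` and equal to `τ` on `V`. -/
def Restr (f : K2 ≃ₐ[ℂ] K2) (τ : C2 → C2) (V : Set C2) : Prop :=
  ∀ w ∈ V, ∀ i, ∃ p r : MvPolynomial (Fin 2) ℂ, MvPolynomial.eval (crd w) r ≠ 0 ∧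
    f (algebraMap (MvPolynomial (Fin 2) ℂ) K2 (MvPolynomial.X i)) =
      algebraMap (MvPolynomial (Fin 2) ℂ) K2 p / algebraMap (MvPolynomial (Fin 2) ℂ) K2 r ∧
    crd (τ w) i = MvPolynomial.eval (crd w) p / MvPolynomial.eval (crd w) r

/-- A birational structure: an atlas of holomorphic charts with values in `ℂ² ⊆ ℙ²` whose changes
of charts are restrictions of birational self-maps of the plane. -/
def BirStr (X : Surf) : Prop :=
  ∃ A : Set (OpenPartialHomeomorph X.carrier C2), A ⊆ Hol X ∧ (∀ x, ∃ c ∈ A, x ∈ c.source) ∧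
    ∀ c ∈ A, ∀ c' ∈ A, ∃ f, Restr f (c' ∘ c.symm) (c.symm.trans c').source

/-- The local form of a birational structure. -/
def LocBir (X : Surf) : Prop :=
  ∃ A : Set (OpenPartialHomeomorph X.carrier C2), A ⊆ Hol X ∧ (∀ x, ∃ c ∈ A, x ∈ c.source) ∧
    ∀ c ∈ A, ∀ c' ∈ A, ∀ x ∈ c.source ∩ c'.source, ∃ f, ∃ V ∈ 𝓝 (c x),
      Restr f (c' ∘ c.symm) V

/-! ### Germs -/

/-- `φ` is a local biholomorphism at the origin which fixes the origin. -/
structure Dif (φ : C2 → C2) : Prop where
  an : AnalyticAt ℂ φ 0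
  zero : φ 0 = 0
  inv : Function.Bijective (fderiv ℂ φ 0)

/-- The map `L₁ ∘ b1 ∘ L₂ ∘ b1 ∘ ⋯ ∘ Lₙ ∘ b1`. -/
noncomputable def PiL : List (C2 ≃L[ℂ] C2) → C2 → C2
  | [] => id
  | L :: Ls => fun w => L (b1 (PiL Ls w))

/-- The inverse of `b1`. -/
noncomputable def ib1 (w : C2) : C2 := (w.1, w.2 / w.1)

/-- The inverse of `PiL`. -/
noncomputable def iPi : List (C2 ≃L[ℂ] C2) → C2 → C2
  | [] => id
  | L :: Ls => fun w => iPi Ls (ib1 (L.symm w))

/-- The germ `F` is conjugate to a germ which is the restriction of a birational map. -/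
def ConjBir (F : C2 → C2) : Prop :=
  ∃ (φ G : C2 → C2) (f : K2 ≃ₐ[ℂ] K2), Dif φ ∧ (∃ V ∈ 𝓝 (0 : C2), Restr f G V) ∧
    ContinuousAt G 0 ∧ ∀ᶠ w in 𝓝 (0 : C2), φ (F w) = G (φ w)

end Pool.Agent.KS
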