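import Pool.Agent.KS.Osg

/-!
# Local inverses and lifts to the blowing up (row DIV)
-/

set_option autoImplicit false

namespace Pool.Agent.KS

open scoped Manifold ContDiff Topology
open Filter Asymptotics


/-- A bijective continuous linear map is an equivalence. -/
theorem div_equiv {A : C2 →L[ℂ] C2} (h : Function.Bijective A) :
    ∃ L : C2 ≃L[ℂ] C2, (L : C2 →L[ℂ] C2) = A :=
  ⟨ContinuousLinearEquiv.ofBijective A (LinearMap.ker_eq_bot.2 h.1)
    (LinearMap.range_eq_top.2 h.2), ContinuousLinearEquiv.coe_ofBijective _ _ _⟩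

theorem div_near {θ : C2 → C2} {x : C2} (ha : AnalyticAt ℂ θ x)
    (hb : Function.Bijective (fderiv ℂ θ x)) :
    ∀ᶠ y in 𝓝 x, AnalyticAt ℂ θ y ∧ ∃ L : C2 ≃L[ℂ] C2, (L : C2 →L[ℂ] C2) = fderiv ℂ θ y := by
  obtain ⟨L, hL⟩ := div_equiv hb
  have h1 : ∀ᶠ y in 𝓝 x, AnalyticAt ℂ θ y := ha.eventually_analyticAt
  have h2 : ContinuousAt (fderiv ℂ θ) x := ha.fderiv.continuousAt
  have h3 : {A : C2 →L[ℂ] C2 | ∃ L : C2 ≃L[ℂ] C2, (L : C2 →L[ℂ] C2) = A} ∈
      𝓝 (fderiv ℂ θ x) := by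
    rw [← hL]
    exact L.nhds
  exact h1.and (h2.eventually h3)

theorem dif_homeo {θ : C2 → C2} {x : C2} (ha : AnalyticAt ℂ θ x)
    (hb : Function.Bijective (fderiv ℂ θ x)) :
    ∃ e : OpenPartialHomeomorph C2 C2, x ∈ e.source ∧ (∀ y ∈ e.source, e y = θ y) ∧
      AnalyticOnNhd ℂ e e.source ∧ AnalyticOnNhd ℂ e.symm e.target ∧
      ∀ y ∈ e.source, Function.Bijective (fderiv ℂ θ y) := by
  obtain ⟨L, hL⟩ := div_equiv hb
  have hs : HasStrictFDerivAt θ (L : C2 →L[ℂ] C2) x := by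
    rw [hL]
    exact ha.hasStrictFDerivAt
  obtain ⟨s, hs1, hs2, hs3⟩ := eventually_nhds_iff.1 (div_near ha hb)
  set e := (hs.toOpenPartialHomeomorph θ).restrOpen s hs2 with he
  have hco : (e : C2 → C2) = θ := by
    rw [he]
    simp
  have hsrc : e.source = (hs.toOpenPartialHomeomorph θ).source ∩ s := by
    rw [he]
    simp
  refine ⟨e, ?_, ?_, ?_, ?_, ?_⟩
  · rw [hsrc]
    exact ⟨hs.mem_toOpenPartialHomeomorph_source, hs3⟩
  · intro y _
    rw [hco]
  · intro y hy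
    rw [hco]
    rw [hsrc] at hy
    exact (hs1 y hy.2).1
  · intro a ha'
    have h1 := e.map_target ha'
    rw [hsrc] at h1
    obtain ⟨h2, M, hM⟩ := hs1 _ h1.2
    refine e.analyticAt_symm (i := M) ha' ?_ ?_
    · rw [hco]
      exact h2
    · rw [hco, hM]
  · intro y hy
    rw [hsrc] at hy
    obtain ⟨_, M, hM⟩ := hs1 y hy.2
    rw [← hM]
    exact M.bijective

theorem dif_comp {φ ψ : C2 → C2} (h : Dif φ) (h' : Dif ψ) : Dif (φ ∘ ψ) := by
  have ha : AnalyticAt ℂ φ (ψ 0) := by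
    rw [h'.zero]
    exact h.an
  refine ⟨ha.comp h'.an, by simp [h.zero, h'.zero], ?_⟩
  rw [fderiv_comp _ ha.differentiableAt h'.an.differentiableAt, h'.zero]
  exact h.inv.comp h'.inv

theorem dif_lin (L : C2 ≃L[ℂ] C2) : Dif L := by
  refine ⟨L.analyticAt 0, by simp, ?_⟩
  rw [L.fderiv]
  exact L.bijective

theorem dif_inv {φ : C2 → C2} (h : Dif φ) : ∃ ψ, Dif ψ ∧ (∀ᶠ w in 𝓝 (0 : C2), ψ (φ w) = w) ∧
    ∀ᶠ w in 𝓝 (0 : C2), φ (ψ w) = w := by
  obtain ⟨e, h1, h2, h3, h4, h5⟩ := dif_homeo h.an h.inv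
  have h0 : e 0 = 0 := by rw [h2 0 h1, h.zero]
  have ht : (0 : C2) ∈ e.target := by
    have := e.map_source h1
    rwa [h0] at this
  have hs0 : e.symm 0 = 0 := by
    have := e.left_inv h1
    rwa [h0] at this
  have ha : ∀ᶠ w in 𝓝 (0 : C2), e.symm (φ w) = w := by
    filter_upwards [e.open_source.mem_nhds h1] with w hw
    rw [← h2 w hw, e.left_inv hw]
  have hb : ∀ᶠ w in 𝓝 (0 : C2), φ (e.symm w) = w := by
    filter_upwards [e.open_target.mem_nhds ht] with w hw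
    rw [← h2 _ (e.map_target hw), e.right_inv hw]
  refine ⟨e.symm, ⟨h4 0 ht, hs0, ?_⟩, ha, hb⟩
  have hda : (fderiv ℂ e.symm 0).comp (fderiv ℂ φ 0) = ContinuousLinearMap.id ℂ C2 := by
    have h6 : fderiv ℂ (e.symm ∘ φ) 0 = ContinuousLinearMap.id ℂ C2 := by
      have h7 : (e.symm ∘ φ) =ᶠ[𝓝 (0 : C2)] id := ha
      rw [h7.fderiv_eq]
      exact fderiv_id
    rw [← h6, fderiv_comp _ (by rw [h.zero]; exact (h4 0 ht).differentiableAt)
      h.an.differentiableAt, h.zero]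
  have hdb : (fderiv ℂ φ 0).comp (fderiv ℂ e.symm 0) = ContinuousLinearMap.id ℂ C2 := by
    have h6 : fderiv ℂ (φ ∘ e.symm) 0 = ContinuousLinearMap.id ℂ C2 := by
      have h7 : (φ ∘ e.symm) =ᶠ[𝓝 (0 : C2)] id := hb
      rw [h7.fderiv_eq]
      exact fderiv_id
    rw [← h6, fderiv_comp _ (by rw [hs0]; exact h.an.differentiableAt)
      (h4 0 ht).differentiableAt, hs0]
  refine Function.bijective_iff_has_inverse.2 ⟨fderiv ℂ φ 0, fun v => ?_, fun v => ?_⟩
  · exact DFunLike.congr_fun hdb v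
  · exact DFunLike.congr_fun hda v

theorem an_b1 (w : C2) : AnalyticAt ℂ b1 w := by
  unfold b1
  exact analyticAt_fst.prod (analyticAt_fst.mul analyticAt_snd)

theorem an_b2 (w : C2) : AnalyticAt ℂ b2 w := by
  unfold b2
  exact (analyticAt_fst.mul analyticAt_snd).prod analyticAt_snd

theorem fd_b1 (w v : C2) : fderiv ℂ b1 w v = (v.1, w.1 * v.2 + v.1 * w.2) := by
  have h1 : HasFDerivAt (fun w : C2 => w.1) (ContinuousLinearMap.fst ℂ ℂ ℂ) w := hasFDerivAt_fst
  have h2 : HasFDerivAt (fun w : C2 => w.2) (ContinuousLinearMap.snd ℂ ℂ ℂ) w := hasFDerivAt_snd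
  have h := h1.prodMk (h1.mul h2)
  have h' : HasFDerivAt b1 _ w := h
  rw [h'.fderiv]
  simp [mul_comm]

/-- Division by the first coordinate. -/
theorem div_b1 {E : Type} [NormedAddCommGroup E] [NormedSpace ℂ E] [CompleteSpace E]
    {θ : C2 → E} (hθ : AnalyticAt ℂ θ 0) (h0 : θ 0 = 0) (v0 : ℂ) :
    ∃ α : C2 → E, AnalyticAt ℂ α (0, v0) ∧ (∀ᶠ v in 𝓝 v0, α (0, v) = fderiv ℂ θ 0 (1, v)) ∧
      ∀ᶠ w in 𝓝 ((0, v0) : C2), θ (b1 w) = w.1 • α w := by
  have hb0 : ∀ v : ℂ, b1 (0, v) = 0 := by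
    intro v
    simp [b1]
  set g : C2 → E := fun w => θ (b1 w) with hg
  have hga : AnalyticAt ℂ g (0, v0) := by
    have : AnalyticAt ℂ θ (b1 (0, v0)) := by
      rw [hb0]
      exact hθ
    exact this.comp (an_b1 _)
  obtain ⟨r, hr, hball⟩ := Metric.eventually_nhds_iff_ball.1 hga.eventually_analyticAt
  set U : Set C2 := Metric.ball ((0, v0) : C2) r with hU
  have hUo : IsOpen U := Metric.isOpen_ball
  have hmem : ∀ w ∈ U, ∀ s ∈ Set.Icc (0 : ℝ) 1, (((s : ℂ) * w.1, w.2) : C2) ∈ U := by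
    intro w hw s hs
    rw [hU, ← ball_prod_same] at hw ⊢
    refine ⟨?_, hw.2⟩
    have h1 := hw.1
    simp only [mem_ball_zero_iff, norm_mul, Complex.norm_real, Real.norm_eq_abs] at h1 ⊢
    rw [abs_of_nonneg hs.1]
    calc s * ‖w.1‖ ≤ 1 * ‖w.1‖ := by gcongr; exact hs.2
      _ < r := by rw [one_mul]; exact h1
  have hgU : AnalyticOnNhd ℂ g U := fun w hw => hball w hw
  have hg' : AnalyticOnNhd ℂ (fderiv ℂ g) U := hgU.fderiv_of_isOpen hUo
  set α : C2 → E := fun w => ∫ s in (0 : ℝ)..1, fderiv ℂ g ((s : ℂ) * w.1, w.2) (1, 0) with hα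
  have hαa : AnalyticOnNhd ℂ α U := by
    apply analytic_of_diff hUo
    apply diff_integral hUo (g := fun s w => fderiv ℂ g ((s : ℂ) * w.1, w.2) (1, 0))
    · have h1 : ContinuousOn (fun p : ℝ × C2 => ((((p.1 : ℂ) * p.2.1, p.2.2)) : C2))
          (Set.Icc (0 : ℝ) 1 ×ˢ U) := by
        apply Continuous.continuousOn
        fun_prop
      have h2 : ContinuousOn (fun p : ℝ × C2 => fderiv ℂ g ((p.1 : ℂ) * p.2.1, p.2.2))
          (Set.Icc (0 : ℝ) 1 ×ˢ U) := by
        refine hg'.continuousOn.comp h1 ?_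
        rintro ⟨s, w⟩ ⟨hs, hw⟩
        exact hmem w hw s hs
      exact h2.clm_apply continuousOn_const
    · intro s hs
      have h1 : DifferentiableOn ℂ (fun w : C2 => (((s : ℂ) * w.1, w.2) : C2)) U := by
        apply Differentiable.differentiableOn
        fun_prop
      have h2 : DifferentiableOn ℂ (fun w : C2 => fderiv ℂ g ((s : ℂ) * w.1, w.2)) U :=
        hg'.differentiableOn.comp h1 (fun w hw => hmem w hw s hs)
      exact h2.clm_apply (differentiableOn_const _)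
  have h0U : ((0, v0) : C2) ∈ U := Metric.mem_ball_self hr
  refine ⟨α, hαa _ h0U, ?_, ?_⟩
  · refine Eventually.of_forall fun v => ?_
    have h1 : fderiv ℂ g (0, v) (1, 0) = fderiv ℂ θ 0 (1, v) := by
      have h2 : DifferentiableAt ℂ θ (b1 (0, v)) := by
        rw [hb0]
        exact hθ.differentiableAt
      have h3 : fderiv ℂ g (0, v) = (fderiv ℂ θ (b1 (0, v))).comp (fderiv ℂ b1 (0, v)) :=
        fderiv_comp _ h2 (an_b1 _).differentiableAt
      rw [h3, ContinuousLinearMap.comp_apply, fd_b1, hb0]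
      simp
    rw [hα]
    simp [h1]
  · filter_upwards [hUo.mem_nhds h0U] with w hw
    have h1 : ∀ s ∈ Set.uIcc (0 : ℝ) 1, HasDerivAt (fun s : ℝ => g ((s : ℂ) * w.1, w.2))
        (fderiv ℂ g ((s : ℂ) * w.1, w.2) (w.1, 0)) s := by
      intro s hs
      rw [Set.uIcc_of_le zero_le_one] at hs
      have h2 : HasFDerivAt g (fderiv ℂ g ((s : ℂ) * w.1, w.2)) ((s : ℂ) * w.1, w.2) :=
        (hgU _ (hmem w hw s hs)).differentiableAt.hasFDerivAt
      have h3 : HasDerivAt (fun s : ℝ => (((s : ℂ) * w.1, w.2) : C2)) (w.1, 0) s := by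
        have h4 : HasDerivAt (fun s : ℝ => (s : ℂ) * w.1) (1 * w.1) s :=
          (Complex.ofRealCLM.hasDerivAt (x := s)).mul_const w.1
        have h5 : HasDerivAt (fun _ : ℝ => w.2) 0 s := hasDerivAt_const _ _
        have h6 := h4.prodMk h5
        simpa using h6
      exact (h2.restrictScalars ℝ).comp_hasDerivAt s h3
    have h7 : ContinuousOn (fun s : ℝ => fderiv ℂ g ((s : ℂ) * w.1, w.2) (w.1, 0))
        (Set.uIcc (0 : ℝ) 1) := by
      rw [Set.uIcc_of_le zero_le_one]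
      have h8 : ContinuousOn (fun s : ℝ => (((s : ℂ) * w.1, w.2) : C2)) (Set.Icc (0 : ℝ) 1) := by
        apply Continuous.continuousOn
        fun_prop
      exact (hg'.continuousOn.comp h8 (fun s hs => hmem w hw s hs)).clm_apply continuousOn_const
    have h9 := intervalIntegral.integral_eq_sub_of_hasDerivAt h1 h7.intervalIntegrable
    have h10 : g (((0 : ℝ) : ℂ) * w.1, w.2) = 0 := by
      simp only [hg]
      rw [Complex.ofReal_zero, zero_mul, hb0, h0]
    have h11 : g (((1 : ℝ) : ℂ) * w.1, w.2) = θ (b1 w) := by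
      simp only [hg]
      rw [Complex.ofReal_one, one_mul]
    rw [h10, h11, sub_zero] at h9
    rw [← h9, hα]
    simp only
    rw [← intervalIntegral.integral_smul]
    congr 1
    ext s
    rw [← map_smul]
    simp

/-- An injective linear self-map of the plane is bijective. -/
theorem div_bij {A : C2 →L[ℂ] C2} (h : ∀ v, A v = 0 → v = 0) : Function.Bijective A := by
  have h1 : Function.Injective (A : C2 →ₗ[ℂ] C2) := by
    rw [← LinearMap.ker_eq_bot, LinearMap.ker_eq_bot']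
    exact h
  exact ⟨h1, LinearMap.surjective_of_injective h1⟩

theorem lift_b1 {θ : C2 → C2} (hθ : Dif θ) (v0 : ℂ) (hdir : (fderiv ℂ θ 0 (1, v0)).2 = 0) :
    ∃ θ' : C2 → C2, AnalyticAt ℂ θ' (0, v0) ∧ θ' (0, v0) = 0 ∧
      Function.Bijective (fderiv ℂ θ' (0, v0)) ∧
      ∀ᶠ w in 𝓝 ((0, v0) : C2), b1 (θ' w) = θ (b1 w) := by
  obtain ⟨α, hα, hα0, hαe⟩ := div_b1 hθ.an hθ.zero v0
  have hα1 : AnalyticAt ℂ (fun w => (α w).1) (0, v0) := analyticAt_fst.comp hα
  have hα2 : AnalyticAt ℂ (fun w => (α w).2) (0, v0) := analyticAt_snd.comp hα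
  have h2 : (α (0, v0)).2 = 0 := by rw [hα0.self_of_nhds, hdir]
  have h1 : (α (0, v0)).1 ≠ 0 := by
    intro h
    have h3 : fderiv ℂ θ 0 (1, v0) = fderiv ℂ θ 0 0 := by
      rw [map_zero, ← hα0.self_of_nhds]
      exact Prod.ext h h2
    have h4 := hθ.inv.1 h3
    exact one_ne_zero (congrArg Prod.fst h4)
  have hne : ∀ᶠ w in 𝓝 ((0, v0) : C2), (α w).1 ≠ 0 := hα1.continuousAt.eventually_ne h1
  have ha1 : AnalyticAt ℂ (fun w : C2 => w.1 * (α w).1) (0, v0) := analyticAt_fst.mul hα1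
  have hai : AnalyticAt ℂ (fun w : C2 => ((α w).1)⁻¹) (0, v0) := hα1.inv h1
  have ha2 : AnalyticAt ℂ (fun w : C2 => (α w).2 * ((α w).1)⁻¹) (0, v0) := hα2.mul hai
  refine ⟨fun w => (w.1 * (α w).1, (α w).2 * ((α w).1)⁻¹), ha1.prod ha2, ?_, ?_, ?_⟩
  · simp [h2]
  · -- the derivative
    have hd1 : HasFDerivAt (fun w : C2 => w.1) (ContinuousLinearMap.fst ℂ ℂ ℂ) ((0, v0) : C2) :=
      hasFDerivAt_fst
    have hd2 := hα1.differentiableAt.hasFDerivAt
    have hd3 := hα2.differentiableAt.hasFDerivAt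
    have hd4 := (hd1.mul hd2).prodMk (hd3.mul hai.differentiableAt.hasFDerivAt)
    have hd5 : fderiv ℂ (fun w : C2 => (w.1 * (α w).1, (α w).2 * ((α w).1)⁻¹)) (0, v0) = _ :=
      hd4.fderiv
    rw [hd5]
    apply div_bij
    intro v hv
    have hv1 := congrArg Prod.fst hv
    have hv2 := congrArg Prod.snd hv
    simp [h2, h1] at hv1 hv2
    -- the derivative of the second component along the exceptional line
    have hd6 : fderiv ℂ (fun w : C2 => (α w).2) (0, v0) (0, 1) = (fderiv ℂ θ 0 (0, 1)).2 := by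
      have hl : HasDerivAt (fun v : ℂ => ((0, v) : C2)) (0, 1) v0 :=
        (hasDerivAt_const _ _).prodMk (hasDerivAt_id _)
      have hl1 : HasDerivAt (fun v : ℂ => (α (0, v)).2)
          (fderiv ℂ (fun w : C2 => (α w).2) (0, v0) (0, 1)) v0 := hd3.comp_hasDerivAt v0 hl
      have hl2 : (fun v : ℂ => (α (0, v)).2) =ᶠ[𝓝 v0] fun v : ℂ =>
          (fderiv ℂ θ 0 (1, 0)).2 + v * (fderiv ℂ θ 0 (0, 1)).2 := by
        filter_upwards [hα0] with v hv
        rw [hv]
        have : ((1, v) : C2) = (1, 0) + v • (0, 1) := by simp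
        rw [this, map_add, map_smul]
        simp
      have hl3 : HasDerivAt (fun v : ℂ =>
          (fderiv ℂ θ 0 (1, 0)).2 + v * (fderiv ℂ θ 0 (0, 1)).2)
          (1 * (fderiv ℂ θ 0 (0, 1)).2) v0 :=
        ((hasDerivAt_id v0).mul_const _).const_add _
      have hl4 := (hl3.congr_of_eventuallyEq hl2).unique hl1
      rw [← hl4, one_mul]
    have hc : (fderiv ℂ θ 0 (0, 1)).2 ≠ 0 := by
      intro hc
      set x := (fderiv ℂ θ 0 (0, 1)).1 with hx
      have h3 : fderiv ℂ θ 0 ((α (0, v0)).1 • (0, 1) - x • (1, v0)) = fderiv ℂ θ 0 0 := by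
        rw [map_zero, map_sub, map_smul, map_smul, ← hα0.self_of_nhds]
        refine Prod.ext ?_ ?_
        · simp [hx, mul_comm]
        · simp [hc, h2]
      have h4 := hθ.inv.1 h3
      have h5 := congrArg Prod.fst h4
      have h6 := congrArg Prod.snd h4
      simp at h5 h6
      rw [h5] at h6
      simp at h6
      exact h1 h6
    refine Prod.ext ?_ ?_
    · simp [hv1]
    · have hv3 : v = v.2 • ((0, 1) : C2) := by
        refine Prod.ext ?_ ?_
        · simp [hv1]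
        · simp
      rw [hv3, map_smul, hd6] at hv2
      simp at hv2
      rcases hv2 with h | h
      · simp [h]
      · exact absurd h hc
  · filter_upwards [hαe, hne] with w hw hw'
    rw [hw]
    simp only [b1]
    refine Prod.ext ?_ ?_
    · simp
    · simp
      field_simp

theorem lift_b2 {θ : C2 → C2} (hθ : Dif θ) (u0 : ℂ) (hdir : (fderiv ℂ θ 0 (u0, 1)).2 = 0) :
    ∃ θ' : C2 → C2, AnalyticAt ℂ θ' (u0, 0) ∧ θ' (u0, 0) = 0 ∧
      Function.Bijective (fderiv ℂ θ' (u0, 0)) ∧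
      ∀ᶠ w in 𝓝 ((u0, 0) : C2), b1 (θ' w) = θ (b2 w) := by
  set S : C2 ≃L[ℂ] C2 := ContinuousLinearEquiv.prodComm ℂ ℂ ℂ with hS
  have hSa : ∀ w : C2, S w = (w.2, w.1) := fun w => rfl
  have hd : Dif (θ ∘ S) := dif_comp hθ (dif_lin S)
  have hf : ∀ v : C2, fderiv ℂ (θ ∘ S) 0 v = fderiv ℂ θ 0 (v.2, v.1) := by
    intro v
    have h1 : DifferentiableAt ℂ θ (S 0) := by
      rw [map_zero]
      exact hθ.an.differentiableAt
    rw [fderiv_comp _ h1 S.differentiableAt, ContinuousLinearMap.comp_apply, S.fderiv, map_zero]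
    rfl
  obtain ⟨θ', h1, h2, h3, h4⟩ := lift_b1 hd u0 (by rw [hf]; exact hdir)
  have h1' : AnalyticAt ℂ θ' (S (u0, 0)) := h1
  refine ⟨θ' ∘ S, h1'.comp (S.analyticAt _), h2, ?_, ?_⟩
  · rw [fderiv_comp _ h1'.differentiableAt S.differentiableAt, S.fderiv]
    exact h3.comp S.bijective
  · have h5 : Tendsto S (𝓝 ((u0, 0) : C2)) (𝓝 (0, u0)) := S.continuous.tendsto _
    filter_upwards [h5.eventually h4] with w hw
    simp only [Function.comp_apply] at hw ⊢
    rw [hw]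
    simp [hSa, b1, b2, mul_comm]

end Pool.Agent.KS
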