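import Pool.Agent.KS.Defs

/-!
# Project KS, row PIN: the maps `PiL` and their inverses
-/

set_option autoImplicit false

namespace Pool.Agent.KS

open scoped Manifold ContDiff Topology
open Filter Asymptotics

namespace Pin

theorem b1_diff : Differentiable ℂ b1 := by
  unfold b1
  exact differentiable_fst.prodMk (differentiable_fst.mul differentiable_snd)

theorem b1_an (w : C2) : AnalyticAt ℂ b1 w := by
  unfold b1
  exact analyticAt_fst.prod (analyticAt_fst.mul analyticAt_snd)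

theorem b1_zero : b1 0 = 0 := by simp [b1]

theorem b1_eq_zero {w : C2} : b1 w = 0 ↔ w.1 = 0 := by
  constructor
  · intro h
    have := congrArg Prod.fst h
    simpa [b1] using this
  · intro h
    simp [b1, h]

theorem ib1_b1 {w : C2} (h : w.1 ≠ 0) : ib1 (b1 w) = w := by
  ext
  · simp [ib1, b1]
  · simp only [ib1, b1]
    field_simp

theorem b1_ib1 {w : C2} (h : w.1 ≠ 0) : b1 (ib1 w) = w := by
  ext
  · simp [ib1, b1]
  · simp only [ib1, b1]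
    field_simp

theorem ib1_diff {w : C2} (h : w.1 ≠ 0) : DifferentiableAt ℂ ib1 w := by
  unfold ib1
  refine DifferentiableAt.prodMk differentiableAt_fst ?_
  simp only [div_eq_mul_inv]
  exact DifferentiableAt.mul differentiableAt_snd (DifferentiableAt.inv differentiableAt_fst h)

end Pin

theorem pi_an (Ls : List (C2 ≃L[ℂ] C2)) (w : C2) : AnalyticAt ℂ (PiL Ls) w := by
  induction Ls generalizing w with
  | nil => exact analyticAt_id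
  | cons L Ls ih =>
    have h1 : AnalyticAt ℂ (b1 ∘ PiL Ls) w := (Pin.b1_an _).comp (ih w)
    exact (L.toContinuousLinearMap.analyticAt _).comp h1

theorem pi_map_zero (Ls : List (C2 ≃L[ℂ] C2)) : PiL Ls 0 = 0 := by
  induction Ls with
  | nil => rfl
  | cons L Ls ih => simp [PiL, ih, Pin.b1_zero]

namespace Pin

theorem pi_diff (Ls : List (C2 ≃L[ℂ] C2)) : Differentiable ℂ (PiL Ls) :=
  fun w => (pi_an Ls w).differentiableAt

/-- In every nonempty open set there is a point whose first coordinate is not zero. -/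
theorem exists_fst_ne {V : Set C2} (hV : IsOpen V) (hne : V.Nonempty) : ∃ w ∈ V, w.1 ≠ 0 := by
  obtain ⟨w, hw⟩ := hne
  have hc : Continuous fun t : ℂ => ((w.1 + t, w.2) : C2) := by fun_prop
  have ho : IsOpen ((fun t : ℂ => ((w.1 + t, w.2) : C2)) ⁻¹' V) := hV.preimage hc
  have h0 : (0 : ℂ) ∈ (fun t : ℂ => ((w.1 + t, w.2) : C2)) ⁻¹' V := by simpa using hw
  have h1 : ∀ᶠ t in 𝓝 (0 : ℂ), ((w.1 + t, w.2) : C2) ∈ V := ho.mem_nhds h0
  have h2 : ∀ᶠ t in 𝓝[≠] (0 : ℂ), w.1 + t ≠ 0 := by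
    by_cases hw0 : w.1 = 0
    · filter_upwards [self_mem_nhdsWithin] with t ht
      simpa [hw0] using ht
    · have : ∀ᶠ t in 𝓝 (0 : ℂ), w.1 + t ≠ 0 := by
        have hc' : ContinuousAt (fun t : ℂ => w.1 + t) 0 := by fun_prop
        exact hc'.eventually_ne (by simpa using hw0)
      exact this.filter_mono nhdsWithin_le_nhds
  obtain ⟨t, ht1, ht2⟩ := ((h1.filter_mono nhdsWithin_le_nhds).and h2).exists
  exact ⟨_, ht1, ht2⟩

/-- The image of a nonempty open set contains a nonempty open set. -/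
theorem pi_open (Ls : List (C2 ≃L[ℂ] C2)) : ∀ V : Set C2, IsOpen V → V.Nonempty →
    ∃ V' : Set C2, IsOpen V' ∧ V'.Nonempty ∧ V' ⊆ PiL Ls '' V := by
  induction Ls with
  | nil => exact fun V hV hne => ⟨V, hV, hne, fun w hw => ⟨w, hw, rfl⟩⟩
  | cons L Ls ih =>
    intro V hV hne
    obtain ⟨W, hW, hWne, hWs⟩ := ih V hV hne
    obtain ⟨y, hy, hy0⟩ := exists_fst_ne hW hWne
    have hopen : IsOpen {z : C2 | z.1 ≠ 0} := isOpen_ne_fun continuous_fst continuous_const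
    have hc : ContinuousOn ib1 {z : C2 | z.1 ≠ 0} := fun z hz =>
      (ib1_diff hz).continuousAt.continuousWithinAt
    have ho : IsOpen ({z : C2 | z.1 ≠ 0} ∩ ib1 ⁻¹' W) := hc.isOpen_inter_preimage hopen hW
    refine ⟨L.symm ⁻¹' ({z : C2 | z.1 ≠ 0} ∩ ib1 ⁻¹' W), ho.preimage L.symm.continuous,
      ⟨L (b1 y), ?_⟩, ?_⟩
    · simp only [Set.mem_preimage, ContinuousLinearEquiv.symm_apply_apply, Set.mem_inter_iff,
        Set.mem_ofPred_eq]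
      refine ⟨by simpa [b1] using hy0, ?_⟩
      rw [ib1_b1 hy0]; exact hy
    · rintro z ⟨hz1, hz2⟩
      obtain ⟨w, hw, hwz⟩ := hWs hz2
      refine ⟨w, hw, ?_⟩
      simp only [PiL]
      rw [hwz, b1_ib1 hz1]
      simp

end Pin

theorem pi_zero (Ls : List (C2 ≃L[ℂ] C2)) (hL : Ls ≠ []) : ∃ h : C2 → ℂ,
    Differentiable ℂ h ∧ (∀ w, PiL Ls w = 0 ↔ h w = 0) ∧
    ∀ V : Set C2, IsOpen V → V.Nonempty → ∃ w ∈ V, h w ≠ 0 := by
  cases Ls with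
  | nil => exact absurd rfl hL
  | cons L Ls =>
    refine ⟨fun w => (PiL Ls w).1, differentiable_fst.comp (Pin.pi_diff Ls), fun w => ?_,
      fun V hV hne => ?_⟩
    · simp only [PiL, map_eq_zero_iff L L.injective, Pin.b1_eq_zero]
    · obtain ⟨W, hW, hWne, hWs⟩ := Pin.pi_open Ls V hV hne
      obtain ⟨y, hy, hy0⟩ := Pin.exists_fst_ne hW hWne
      obtain ⟨w, hw, rfl⟩ := hWs hy
      exact ⟨w, hw, hy0⟩

namespace Pin

theorem norm_L (L : C2 ≃L[ℂ] C2) (w : C2) : ‖L w‖ ≤ ‖(L : C2 →L[ℂ] C2)‖ * ‖w‖ :=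
  (L : C2 →L[ℂ] C2).le_opNorm w

/-- The estimate for one step. -/
theorem step_est {P z z' : C2} (hP : ‖P‖ ≤ 1) (hu : P.1 ≠ 0) (hz : ‖z - b1 P‖ ≤ ‖P.1‖ / 2)
    (hz' : ‖z' - b1 P‖ ≤ ‖P.1‖ / 2) (hy' : ‖ib1 z' - P‖ ≤ 1) :
    z.1 ≠ 0 ∧ ‖ib1 z - ib1 z'‖ * ‖P.1‖ ≤ 6 * ‖z - z'‖ := by
  have hu0 : 0 < ‖P.1‖ := norm_pos_iff.2 hu
  have hfst : ∀ x : C2, ‖x - b1 P‖ ≤ ‖P.1‖ / 2 → ‖P.1‖ / 2 ≤ ‖x.1‖ := by
    intro x hx
    have h1 : ‖x.1 - P.1‖ ≤ ‖P.1‖ / 2 := by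
      have h := norm_fst_le (x - b1 P)
      simp only [Prod.fst_sub, b1] at h
      exact h.trans hx
    have h2 : ‖P.1‖ ≤ ‖x.1‖ + ‖x.1 - P.1‖ := by
      have := norm_sub_le x.1 (x.1 - P.1)
      simpa using this
    linarith
  have hz1 : z.1 ≠ 0 := by
    intro h
    have := hfst z hz
    rw [h, norm_zero] at this
    linarith
  have hz1' : z'.1 ≠ 0 := by
    intro h
    have := hfst z' hz'
    rw [h, norm_zero] at this
    linarith
  refine ⟨hz1, ?_⟩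
  have hP1 : ‖P.1‖ ≤ 1 := (norm_fst_le P).trans hP
  have hP2 : ‖P.2‖ ≤ 1 := (norm_snd_le P).trans hP
  have hy2 : ‖z'.2 / z'.1‖ ≤ 2 := by
    have h := (norm_snd_le (ib1 z' - P)).trans hy'
    simp only [Prod.snd_sub, ib1] at h
    have h2 : ‖z'.2 / z'.1‖ ≤ ‖z'.2 / z'.1 - P.2‖ + ‖P.2‖ := by
      have := norm_add_le (z'.2 / z'.1 - P.2) P.2
      simpa using this
    linarith
  have e1 : ‖z.1 - z'.1‖ ≤ ‖z - z'‖ := by
    have := norm_fst_le (z - z')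
    simpa using this
  have e2 : ‖z.2 - z'.2‖ ≤ ‖z - z'‖ := by
    have := norm_snd_le (z - z')
    simpa using this
  have hm : ‖ib1 z - ib1 z'‖ = max ‖z.1 - z'.1‖ ‖z.2 / z.1 - z'.2 / z'.1‖ := by
    simp [ib1, Prod.norm_def]
  rw [hm]
  have hnn : 0 ≤ ‖z - z'‖ := norm_nonneg _
  have hb : ‖z.2 / z.1 - z'.2 / z'.1‖ * ‖P.1‖ ≤ 6 * ‖z - z'‖ := by
    have hid : (z.2 / z.1 - z'.2 / z'.1) * z.1 = (z.2 - z'.2) - (z'.2 / z'.1) * (z.1 - z'.1) := by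
      field_simp
      ring
    have h3 : ‖z.2 / z.1 - z'.2 / z'.1‖ * ‖z.1‖ ≤ 3 * ‖z - z'‖ := by
      rw [← norm_mul, hid]
      calc ‖(z.2 - z'.2) - (z'.2 / z'.1) * (z.1 - z'.1)‖
          ≤ ‖z.2 - z'.2‖ + ‖(z'.2 / z'.1) * (z.1 - z'.1)‖ := norm_sub_le _ _
        _ = ‖z.2 - z'.2‖ + ‖z'.2 / z'.1‖ * ‖z.1 - z'.1‖ := by rw [norm_mul]
        _ ≤ ‖z - z'‖ + 2 * ‖z - z'‖ := by
            gcongr
        _ = 3 * ‖z - z'‖ := by ring
    have h4 := hfst z hz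
    have h5 : ‖z.2 / z.1 - z'.2 / z'.1‖ * (‖P.1‖ / 2) ≤ ‖z.2 / z.1 - z'.2 / z'.1‖ * ‖z.1‖ :=
      mul_le_mul_of_nonneg_left h4 (norm_nonneg _)
    linarith
  have ha : ‖z.1 - z'.1‖ * ‖P.1‖ ≤ 6 * ‖z - z'‖ := by
    have : ‖z.1 - z'.1‖ * ‖P.1‖ ≤ ‖z - z'‖ * 1 :=
      mul_le_mul e1 hP1 (norm_nonneg _) hnn
    linarith
  rcases max_cases ‖z.1 - z'.1‖ ‖z.2 / z.1 - z'.2 / z'.1‖ with ⟨h, _⟩ | ⟨h, _⟩
  · rw [h]; exact ha
  · rw [h]; exact hb

/-- The estimate for one step, relative to the base point. -/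
theorem step_est' {P z : C2} (hP : ‖P‖ ≤ 1) (hu : P.1 ≠ 0) (hz : ‖z - b1 P‖ ≤ ‖P.1‖ / 2) :
    ‖ib1 z - P‖ * ‖P.1‖ ≤ 6 * ‖z - b1 P‖ := by
  have h := (step_est (z := z) (z' := b1 P) hP hu hz (by rw [sub_self, norm_zero]; positivity)
    (by rw [ib1_b1 hu]; simp)).2
  rwa [ib1_b1 hu] at h

end Pin

theorem pi_inv (Ls : List (C2 ≃L[ℂ] C2)) : ∃ r c C : ℝ, 0 < r ∧ 0 < c ∧ 0 < C ∧
    ∀ w : C2, ‖w‖ < r → PiL Ls w ≠ 0 → ∀ y : C2,
      ‖y - PiL Ls w‖ ≤ c * ‖PiL Ls w‖ ^ (Ls.length + 1) →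
      PiL Ls (iPi Ls y) = y ∧ DifferentiableAt ℂ (iPi Ls) y ∧
      ‖iPi Ls y - w‖ * ‖PiL Ls w‖ ^ Ls.length ≤ C * ‖y - PiL Ls w‖ ∧
      ∀ y' : C2, ‖y' - PiL Ls w‖ ≤ c * ‖PiL Ls w‖ ^ (Ls.length + 1) →
        ‖iPi Ls y - iPi Ls y'‖ * ‖PiL Ls w‖ ^ Ls.length ≤ C * ‖y - y'‖ := by
  induction Ls with
  | nil =>
    refine ⟨1, 1, 1, one_pos, one_pos, one_pos, fun w _ _ y _ => ⟨rfl, differentiableAt_id, ?_,
      fun y' _ => ?_⟩⟩
    · simp [iPi, PiL]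
    · simp [iPi, PiL]
  | cons L Ls ih =>
    obtain ⟨r, c, C, hr, hc, hC, H⟩ := ih
    -- the radius
    have hcont : ContinuousAt (PiL Ls) 0 := (pi_an Ls 0).continuousAt
    have hev : ∀ᶠ w in 𝓝 (0 : C2), ‖PiL Ls w‖ < 1 := by
      have h1 : Tendsto (fun w => ‖PiL Ls w‖) (𝓝 0) (𝓝 0) := by
        have := hcont.norm
        unfold ContinuousAt at this
        simpa [pi_map_zero] using this
      exact h1.eventually_lt_const one_pos
    obtain ⟨r1, hr1, hball⟩ := Metric.eventually_nhds_iff.1 hev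
    set n := Ls.length with hn
    set A : ℝ := max ‖(L : C2 →L[ℂ] C2)‖ 1 with hA
    set B : ℝ := max ‖(L.symm : C2 →L[ℂ] C2)‖ 1 with hB
    have hA1 : 1 ≤ A := le_max_right _ _
    have hB1 : 1 ≤ B := le_max_right _ _
    have hA0 : 0 < A := lt_of_lt_of_le one_pos hA1
    have hB0 : 0 < B := lt_of_lt_of_le one_pos hB1
    have hLA : ∀ x : C2, ‖L x‖ ≤ A * ‖x‖ := fun x =>
      (Pin.norm_L L x).trans (mul_le_mul_of_nonneg_right (le_max_left _ _) (norm_nonneg _))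
    have hLB : ∀ x : C2, ‖L.symm x‖ ≤ B * ‖x‖ := fun x =>
      (Pin.norm_L L.symm x).trans (mul_le_mul_of_nonneg_right (le_max_left _ _) (norm_nonneg _))
    have hAB : 0 < B * A ^ (n + 2) := by positivity
    set c1 : ℝ := min (min c 1 / (6 * (B * A ^ (n + 2)))) (1 / (2 * (B * A ^ (n + 2)))) with hc1
    have hc10 : 0 < c1 := by
      refine lt_min (div_pos (lt_min hc one_pos) (by positivity)) (by positivity)
    have hc1a : 6 * (B * A ^ (n + 2)) * c1 ≤ min c 1 := by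
      have : c1 ≤ min c 1 / (6 * (B * A ^ (n + 2))) := min_le_left _ _
      rw [le_div_iff₀ (by positivity)] at this
      linarith [mul_comm c1 (6 * (B * A ^ (n + 2)))]
    have hc1b : (B * A ^ (n + 2)) * c1 ≤ 1 / 2 := by
      have : c1 ≤ 1 / (2 * (B * A ^ (n + 2))) := min_le_right _ _
      rw [le_div_iff₀ (by positivity)] at this
      nlinarith [mul_comm c1 (B * A ^ (n + 2))]
    refine ⟨min r r1, c1, 6 * C * B * A ^ (n + 1), lt_min hr hr1, hc10, by positivity, ?_⟩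
    intro w hw hne
    have hwr : ‖w‖ < r := hw.trans_le (min_le_left _ _)
    have hwr1 : ‖w‖ < r1 := hw.trans_le (min_le_right _ _)
    set P := PiL Ls w with hP
    have hP' : PiL (L :: Ls) w = L (b1 P) := rfl
    rw [hP'] at hne ⊢
    have hu : P.1 ≠ 0 := by
      intro h
      apply hne
      rw [Pin.b1_eq_zero.2 h, map_zero]
    have hPne : P ≠ 0 := by
      intro h
      exact hu (by rw [h]; rfl)
    have hP1 : ‖P‖ ≤ 1 := (hball (by simpa using hwr1)).le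
    have hu0 : 0 < ‖P.1‖ := norm_pos_iff.2 hu
    have hu1 : ‖P.1‖ ≤ ‖P‖ := norm_fst_le P
    have hb : ‖b1 P‖ ≤ ‖P.1‖ := by
      rw [Prod.norm_def]
      refine max_le le_rfl ?_
      simp only [b1, norm_mul]
      have : ‖P.2‖ ≤ 1 := (norm_snd_le P).trans hP1
      nlinarith [norm_nonneg P.1]
    set T : ℝ := ‖L (b1 P)‖ with hT
    have hT0 : 0 < T := norm_pos_iff.2 hne
    have hTu : T ≤ A * ‖P.1‖ := (hLA _).trans (mul_le_mul_of_nonneg_left hb hA0.le)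
    have hTP : T ≤ A * ‖P‖ := hTu.trans (mul_le_mul_of_nonneg_left hu1 hA0.le)
    have hlen : (L :: Ls).length = n + 1 := by simp [hn]
    rw [hlen]
    have hTn1 : T ^ (n + 1) ≤ A ^ (n + 1) * (‖P.1‖ * ‖P‖ ^ n) := by
      calc T ^ (n + 1) = T * T ^ n := by ring
        _ ≤ (A * ‖P.1‖) * (A * ‖P‖) ^ n := by gcongr
        _ = A ^ (n + 1) * (‖P.1‖ * ‖P‖ ^ n) := by ring
    have hTn2 : T ^ (n + 2) ≤ A ^ (n + 2) * (‖P.1‖ * ‖P‖ ^ (n + 1)) := by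
      calc T ^ (n + 2) = T * T ^ (n + 1) := by ring
        _ ≤ (A * ‖P.1‖) * (A * ‖P‖) ^ (n + 1) := by gcongr
        _ = A ^ (n + 2) * (‖P.1‖ * ‖P‖ ^ (n + 1)) := by ring
    have hPn : ‖P‖ ^ (n + 1) ≤ 1 := pow_le_one₀ (norm_nonneg _) hP1
    -- every admissible point
    have key : ∀ y : C2, ‖y - L (b1 P)‖ ≤ c1 * T ^ (n + 1 + 1) →
        ‖L.symm y - b1 P‖ ≤ ‖P.1‖ / 2 ∧ ‖ib1 (L.symm y) - P‖ ≤ min c 1 * ‖P‖ ^ (n + 1) := by
      intro y hy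
      have h1 : ‖L.symm y - b1 P‖ ≤ B * ‖y - L (b1 P)‖ := by
        have := hLB (y - L (b1 P))
        rwa [map_sub, L.symm_apply_apply] at this
      have h2 : ‖L.symm y - b1 P‖ ≤ B * A ^ (n + 2) * c1 * (‖P.1‖ * ‖P‖ ^ (n + 1)) := by
        calc ‖L.symm y - b1 P‖ ≤ B * ‖y - L (b1 P)‖ := h1
          _ ≤ B * (c1 * T ^ (n + 2)) := by gcongr
          _ ≤ B * (c1 * (A ^ (n + 2) * (‖P.1‖ * ‖P‖ ^ (n + 1)))) := by gcongr
          _ = B * A ^ (n + 2) * c1 * (‖P.1‖ * ‖P‖ ^ (n + 1)) := by ring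
      have h3 : ‖L.symm y - b1 P‖ ≤ ‖P.1‖ / 2 := by
        calc ‖L.symm y - b1 P‖ ≤ B * A ^ (n + 2) * c1 * (‖P.1‖ * ‖P‖ ^ (n + 1)) := h2
          _ ≤ (1 / 2) * (‖P.1‖ * 1) := by gcongr
          _ = ‖P.1‖ / 2 := by ring
      refine ⟨h3, ?_⟩
      have h4 := Pin.step_est' hP1 hu h3
      have h5 : ‖ib1 (L.symm y) - P‖ * ‖P.1‖ ≤ (min c 1 * ‖P‖ ^ (n + 1)) * ‖P.1‖ := by
        calc ‖ib1 (L.symm y) - P‖ * ‖P.1‖ ≤ 6 * ‖L.symm y - b1 P‖ := h4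
          _ ≤ 6 * (B * A ^ (n + 2) * c1 * (‖P.1‖ * ‖P‖ ^ (n + 1))) := by gcongr
          _ = (6 * (B * A ^ (n + 2)) * c1) * (‖P.1‖ * ‖P‖ ^ (n + 1)) := by ring
          _ ≤ min c 1 * (‖P.1‖ * ‖P‖ ^ (n + 1)) := by gcongr
          _ = (min c 1 * ‖P‖ ^ (n + 1)) * ‖P.1‖ := by ring
      exact le_of_mul_le_mul_right h5 hu0
    intro y hy
    obtain ⟨k1, k2⟩ := key y hy
    have k2c : ‖ib1 (L.symm y) - P‖ ≤ c * ‖P‖ ^ (n + 1) :=
      k2.trans (mul_le_mul_of_nonneg_right (min_le_left _ _) (by positivity))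
    have k21 : ‖ib1 (L.symm y) - P‖ ≤ 1 := by
      refine k2.trans ?_
      calc min c 1 * ‖P‖ ^ (n + 1) ≤ 1 * 1 := by
            gcongr
            exact min_le_right _ _
        _ = 1 := one_mul 1
    have hz1 : (L.symm y).1 ≠ 0 := (Pin.step_est hP1 hu k1 k1 k21).1
    obtain ⟨g1, g2, g3, g4⟩ := H w hwr hPne (ib1 (L.symm y)) k2c
    refine ⟨?_, ?_, ?_, ?_⟩
    · change L (b1 (PiL Ls (iPi Ls (ib1 (L.symm y))))) = y
      rw [g1, Pin.b1_ib1 hz1, L.apply_symm_apply]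
    · change DifferentiableAt ℂ (fun w => iPi Ls (ib1 (L.symm w))) y
      have d1 : DifferentiableAt ℂ (fun w => ib1 (L.symm w)) y :=
        (Pin.ib1_diff hz1).comp y L.symm.differentiableAt
      exact DifferentiableAt.comp y g2 d1
    · change ‖iPi Ls (ib1 (L.symm y)) - w‖ * T ^ (n + 1) ≤ 6 * C * B * A ^ (n + 1) * ‖y - L (b1 P)‖
      have h1 : ‖L.symm y - b1 P‖ ≤ B * ‖y - L (b1 P)‖ := by
        have := hLB (y - L (b1 P))
        rwa [map_sub, L.symm_apply_apply] at this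
      have h4 := Pin.step_est' hP1 hu k1
      calc ‖iPi Ls (ib1 (L.symm y)) - w‖ * T ^ (n + 1)
          ≤ ‖iPi Ls (ib1 (L.symm y)) - w‖ * (A ^ (n + 1) * (‖P.1‖ * ‖P‖ ^ n)) := by gcongr
        _ = A ^ (n + 1) * ‖P.1‖ * (‖iPi Ls (ib1 (L.symm y)) - w‖ * ‖P‖ ^ n) := by ring
        _ ≤ A ^ (n + 1) * ‖P.1‖ * (C * ‖ib1 (L.symm y) - P‖) := by gcongr
        _ = A ^ (n + 1) * C * (‖ib1 (L.symm y) - P‖ * ‖P.1‖) := by ring
        _ ≤ A ^ (n + 1) * C * (6 * ‖L.symm y - b1 P‖) := by gcongr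
        _ ≤ A ^ (n + 1) * C * (6 * (B * ‖y - L (b1 P)‖)) := by gcongr
        _ = 6 * C * B * A ^ (n + 1) * ‖y - L (b1 P)‖ := by ring
    · intro y' hy'
      obtain ⟨k1', k2'⟩ := key y' hy'
      have k2c' : ‖ib1 (L.symm y') - P‖ ≤ c * ‖P‖ ^ (n + 1) :=
        k2'.trans (mul_le_mul_of_nonneg_right (min_le_left _ _) (by positivity))
      have k21' : ‖ib1 (L.symm y') - P‖ ≤ 1 := by
        refine k2'.trans ?_
        calc min c 1 * ‖P‖ ^ (n + 1) ≤ 1 * 1 := by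
              gcongr
              exact min_le_right _ _
          _ = 1 := one_mul 1
      have h4 := (Pin.step_est hP1 hu k1 k1' k21').2
      have h5 : ‖L.symm y - L.symm y'‖ ≤ B * ‖y - y'‖ := by
        have := hLB (y - y')
        rwa [map_sub] at this
      have h6 := g4 (ib1 (L.symm y')) k2c'
      change ‖iPi Ls (ib1 (L.symm y)) - iPi Ls (ib1 (L.symm y'))‖ * T ^ (n + 1) ≤
        6 * C * B * A ^ (n + 1) * ‖y - y'‖
      calc ‖iPi Ls (ib1 (L.symm y)) - iPi Ls (ib1 (L.symm y'))‖ * T ^ (n + 1)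
          ≤ ‖iPi Ls (ib1 (L.symm y)) - iPi Ls (ib1 (L.symm y'))‖ *
            (A ^ (n + 1) * (‖P.1‖ * ‖P‖ ^ n)) := by gcongr
        _ = A ^ (n + 1) * ‖P.1‖ *
            (‖iPi Ls (ib1 (L.symm y)) - iPi Ls (ib1 (L.symm y'))‖ * ‖P‖ ^ n) := by ring
        _ ≤ A ^ (n + 1) * ‖P.1‖ * (C * ‖ib1 (L.symm y) - ib1 (L.symm y')‖) := by gcongr
        _ = A ^ (n + 1) * C * (‖ib1 (L.symm y) - ib1 (L.symm y')‖ * ‖P.1‖) := by ring
        _ ≤ A ^ (n + 1) * C * (6 * ‖L.symm y - L.symm y'‖) := by gcongr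
        _ ≤ A ^ (n + 1) * C * (6 * (B * ‖y - y'‖)) := by gcongr
        _ = 6 * C * B * A ^ (n + 1) * ‖y - y'‖ := by ring

end Pool.Agent.KS
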