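import Pool.Agent.KS.Div
import Pool.Agent.KS.Pin

/-!
# Project KS, row ENA: germs whose derivative is not nilpotent

If the derivative of `PiL Ls ∘ σ` at the origin is not nilpotent, the first coordinate `s` of `σ`
satisfies `s ∘ F = s θ` and `det DF = s ^ n J` with `θ 0 ≠ 0`, `J 0 ≠ 0`.
-/

set_option autoImplicit false

namespace Pool.Agent.KS.Ena

open scoped Topology
open Filter

/-! ### The determinant on `ℂ × ℂ` -/

theorem det_eq (A : C2 →L[ℂ] C2) :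
    A.det = (A (1, 0)).1 * (A (0, 1)).2 - (A (0, 1)).1 * (A (1, 0)).2 := by
  have h : A.det = (LinearMap.toMatrix (Module.Basis.finTwoProd ℂ) (Module.Basis.finTwoProd ℂ)
      (A : C2 →ₗ[ℂ] C2)).det := by
    rw [LinearMap.det_toMatrix]
  rw [h, Matrix.det_fin_two]
  simp only [LinearMap.toMatrix_apply, Module.Basis.finTwoProd_zero, Module.Basis.finTwoProd_one,
    ContinuousLinearMap.coe_coe, Module.Basis.coe_finTwoProd_repr, Matrix.cons_val_zero,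
    Matrix.cons_val_one]

theorem det_comp (A B : C2 →L[ℂ] C2) : (A.comp B).det = A.det * B.det := by
  change LinearMap.det ((A : C2 →ₗ[ℂ] C2) ∘ₗ (B : C2 →ₗ[ℂ] C2)) = _
  rw [LinearMap.det_comp]

theorem det_ne {A : C2 →L[ℂ] C2} (h : Function.Bijective A) : A.det ≠ 0 := by
  have h1 : IsUnit (A : C2 →ₗ[ℂ] C2) := (Module.End.isUnit_iff _).2 h
  exact (LinearMap.isUnit_iff_isUnit_det _).1 h1 |>.ne_zero

theorem det_analytic {G : C2 → C2 →L[ℂ] C2} {x : C2} (h : AnalyticAt ℂ G x) :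
    AnalyticAt ℂ (fun w => (G w).det) x := by
  have h1 : ∀ v : C2, AnalyticAt ℂ (fun w => G w v) x := fun v =>
    ((ContinuousLinearMap.apply ℂ C2 v).analyticAt (G x)).comp h
  have hf : ∀ v : C2, AnalyticAt ℂ (fun w => (G w v).1) x := fun v =>
    AnalyticAt.comp (g := fun y : C2 => y.1) (f := fun w => G w v)
      ((ContinuousLinearMap.fst ℂ ℂ ℂ).analyticAt (G x v)) (h1 v)
  have hs : ∀ v : C2, AnalyticAt ℂ (fun w => (G w v).2) x := fun v =>
    AnalyticAt.comp (g := fun y : C2 => y.2) (f := fun w => G w v)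
      ((ContinuousLinearMap.snd ℂ ℂ ℂ).analyticAt (G x v)) (h1 v)
  simp only [det_eq]
  exact ((hf _).mul (hs _)).sub ((hf _).mul (hs _))

/-! ### The first coordinate and the determinant of `PiL` -/

/-- The factor of the first coordinate. -/
noncomputable def cc : List (C2 ≃L[ℂ] C2) → C2 → ℂ
  | [] => fun _ => 1
  | L :: Ls => fun x => cc Ls x * (L (1, (PiL Ls x).2)).1

theorem b1_eq (y : C2) : b1 y = y.1 • ((1, y.2) : C2) := by
  unfold b1
  ext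
  · simp
  · simp

theorem pi_cons (L : C2 ≃L[ℂ] C2) (Ls : List (C2 ≃L[ℂ] C2)) (x : C2) :
    PiL (L :: Ls) x = (PiL Ls x).1 • L (1, (PiL Ls x).2) := by
  change L (b1 (PiL Ls x)) = _
  rw [b1_eq, map_smul]

theorem pi_fst (Ls : List (C2 ≃L[ℂ] C2)) (x : C2) : (PiL Ls x).1 = x.1 * cc Ls x := by
  induction Ls with
  | nil => exact (mul_one _).symm
  | cons L Ls ih =>
    rw [pi_cons, Prod.smul_fst, ih, smul_eq_mul]
    change _ = x.1 * (cc Ls x * (L (1, (PiL Ls x).2)).1)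
    ring

theorem pi_cons' (L : C2 ≃L[ℂ] C2) (Ls : List (C2 ≃L[ℂ] C2)) (x : C2) :
    PiL (L :: Ls) x = x.1 • (cc Ls x • L (1, (PiL Ls x).2)) := by
  rw [pi_cons, pi_fst, mul_smul]

theorem vec_an (Ls : List (C2 ≃L[ℂ] C2)) (x : C2) :
    AnalyticAt ℂ (fun x => ((1, (PiL Ls x).2) : C2)) x :=
  analyticAt_const.prod (((ContinuousLinearMap.snd ℂ ℂ ℂ).analyticAt _).comp (pi_an Ls x))

theorem lin_an (L : C2 ≃L[ℂ] C2) (x : C2) : AnalyticAt ℂ L x :=
  (L : C2 →L[ℂ] C2).analyticAt x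

theorem cc_an (Ls : List (C2 ≃L[ℂ] C2)) (x : C2) : AnalyticAt ℂ (cc Ls) x := by
  induction Ls with
  | nil => exact analyticAt_const
  | cons L Ls ih =>
    exact ih.mul (((ContinuousLinearMap.fst ℂ ℂ ℂ).analyticAt _).comp
      ((lin_an L _).comp (vec_an Ls x)))

/-- The cofactor of the determinant. -/
noncomputable def dd : List (C2 ≃L[ℂ] C2) → C2 → ℂ
  | [] => fun _ => 1
  | L :: Ls => fun x => (L : C2 →L[ℂ] C2).det * cc Ls x * dd Ls x

theorem dd_an (Ls : List (C2 ≃L[ℂ] C2)) (x : C2) : AnalyticAt ℂ (dd Ls) x := by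
  induction Ls with
  | nil => exact analyticAt_const
  | cons L Ls ih => exact (analyticAt_const.mul (cc_an Ls x)).mul ih

theorem lin_det_ne (L : C2 ≃L[ℂ] C2) : (L : C2 →L[ℂ] C2).det ≠ 0 := det_ne L.bijective

theorem dd_ne (Ls : List (C2 ≃L[ℂ] C2)) {x : C2} (h : cc Ls x ≠ 0) : dd Ls x ≠ 0 := by
  induction Ls with
  | nil => exact one_ne_zero
  | cons L Ls ih =>
    have h1 : cc Ls x ≠ 0 := fun h2 => h (by
      change cc Ls x * (L (1, (PiL Ls x).2)).1 = 0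
      rw [h2, zero_mul])
    exact mul_ne_zero (mul_ne_zero (lin_det_ne L) h1) (ih h1)

/-- The derivative of `b1`. -/
noncomputable def db1 (y : C2) : C2 →L[ℂ] C2 :=
  (ContinuousLinearMap.fst ℂ ℂ ℂ).prod
    (y.1 • ContinuousLinearMap.snd ℂ ℂ ℂ + y.2 • ContinuousLinearMap.fst ℂ ℂ ℂ)

theorem b1_deriv (y : C2) : HasFDerivAt b1 (db1 y) y := by
  have h1 : HasFDerivAt (fun w : C2 => w.1) (ContinuousLinearMap.fst ℂ ℂ ℂ) y := hasFDerivAt_fst
  have h2 : HasFDerivAt (fun w : C2 => w.2) (ContinuousLinearMap.snd ℂ ℂ ℂ) y := hasFDerivAt_snd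
  exact h1.prodMk (h1.mul h2)

theorem db1_det (y : C2) : (db1 y).det = y.1 := by
  rw [det_eq]
  simp [db1]

theorem pi_det (Ls : List (C2 ≃L[ℂ] C2)) (x : C2) :
    (fderiv ℂ (PiL Ls) x).det = x.1 ^ Ls.length * dd Ls x := by
  induction Ls with
  | nil =>
    have h1 : fderiv ℂ (PiL []) x = ContinuousLinearMap.id ℂ C2 := fderiv_id
    rw [h1, List.length_nil, pow_zero, one_mul]
    change (ContinuousLinearMap.id ℂ C2).det = 1
    exact LinearMap.det_id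
  | cons L Ls ih =>
    have h1 : HasFDerivAt (PiL (L :: Ls))
        ((L : C2 →L[ℂ] C2).comp ((db1 (PiL Ls x)).comp (fderiv ℂ (PiL Ls) x))) x := by
      have h2 := (pi_an Ls x).differentiableAt.hasFDerivAt
      have h3 := (b1_deriv (PiL Ls x)).comp x h2
      exact (L : C2 →L[ℂ] C2).hasFDerivAt.comp x h3
    rw [h1.fderiv, det_comp, det_comp, db1_det, ih, pi_fst, List.length_cons, pow_succ]
    change (L : C2 →L[ℂ] C2).det * (x.1 * cc Ls x * (x.1 ^ Ls.length * dd Ls x)) =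
      x.1 ^ Ls.length * x.1 * ((L : C2 →L[ℂ] C2).det * cc Ls x * dd Ls x)
    ring

end Pool.Agent.KS.Ena

namespace Pool.Agent.KS

open scoped Topology
open Filter

/-- Row ENA. -/
theorem enoki_struct {Ls : List (C2 ≃L[ℂ] C2)} (hL : Ls ≠ []) {σ : C2 → C2} (hσ : Dif σ)
    (hnn : ¬ ∀ v, fderiv ℂ (PiL Ls ∘ σ) 0 (fderiv ℂ (PiL Ls ∘ σ) 0 v) = 0) :
    ∃ (s θ J : C2 → ℂ) (t : ℂ) (n : ℕ), 0 < n ∧ t ≠ 0 ∧ AnalyticAt ℂ s 0 ∧ s 0 = 0 ∧
      fderiv ℂ s 0 ≠ 0 ∧ AnalyticAt ℂ θ 0 ∧ θ 0 = t ∧ AnalyticAt ℂ J 0 ∧ J 0 ≠ 0 ∧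
      (∀ᶠ w in 𝓝 (0 : C2), s (PiL Ls (σ w)) = s w * θ w) ∧
      (∀ᶠ w in 𝓝 (0 : C2), s w = 0 → PiL Ls (σ w) = 0) ∧
      ∀ᶠ w in 𝓝 (0 : C2), (fderiv ℂ (PiL Ls ∘ σ) w).det = s w ^ n * J w := by
  obtain ⟨L, Ls', rfl⟩ : ∃ L Ls', Ls = L :: Ls' := by
    cases Ls with
    | nil => exact absurd rfl hL
    | cons L Ls' => exact ⟨L, Ls', rfl⟩
  set s : C2 → ℂ := fun w => (σ w).1 with hs
  have hsan : AnalyticAt ℂ s 0 := ((ContinuousLinearMap.fst ℂ ℂ ℂ).analyticAt _).comp hσ.an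
  have hs0 : s 0 = 0 := by
    simp only [hs]
    rw [hσ.zero]
    rfl
  have hσd := hσ.an.differentiableAt
  have hsd : HasFDerivAt s ((ContinuousLinearMap.fst ℂ ℂ ℂ).comp (fderiv ℂ σ 0)) 0 :=
    (ContinuousLinearMap.fst ℂ ℂ ℂ).hasFDerivAt.comp 0 hσd.hasFDerivAt
  have hds : fderiv ℂ s 0 ≠ 0 := by
    rw [hsd.fderiv]
    obtain ⟨v, hv⟩ := hσ.inv.2 ((1, 0) : C2)
    intro h
    have h1 := congrArg (fun T : C2 →L[ℂ] ℂ => T v) h
    change (fderiv ℂ σ 0 v).1 = 0 at h1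
    rw [hv] at h1
    exact one_ne_zero h1
  -- the map in the form `s • G`
  set G : C2 → C2 := fun w => Ena.cc Ls' (σ w) • L (1, (PiL Ls' (σ w)).2) with hG
  have hFG : ∀ w, PiL (L :: Ls') (σ w) = s w • G w := fun w => Ena.pi_cons' L Ls' (σ w)
  have hva : AnalyticAt ℂ (fun w => ((1, (PiL Ls' (σ w)).2) : C2)) 0 :=
    AnalyticAt.comp (g := fun x => ((1, (PiL Ls' x).2) : C2)) (f := σ) (Ena.vec_an Ls' _) hσ.an
  have hGan : AnalyticAt ℂ G 0 :=
    ((Ena.cc_an Ls' _).comp hσ.an).smul ((Ena.lin_an L _).comp hva)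
  have hG0 : G 0 = Ena.cc Ls' 0 • L (1, 0) := by
    simp only [hG]
    rw [hσ.zero, pi_map_zero]
    rfl
  have hD : ∀ v, fderiv ℂ (PiL (L :: Ls') ∘ σ) 0 v = fderiv ℂ s 0 v • G 0 := by
    have h1 : PiL (L :: Ls') ∘ σ = fun w => s w • G w := funext hFG
    have h2 : HasFDerivAt (fun w => s w • G w)
        (s 0 • fderiv ℂ G 0 + (fderiv ℂ s 0).smulRight (G 0)) 0 :=
      hsan.differentiableAt.hasFDerivAt.smul hGan.differentiableAt.hasFDerivAt
    intro v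
    rw [h1, h2.fderiv]
    change s 0 • fderiv ℂ G 0 v + fderiv ℂ s 0 v • G 0 = _
    rw [hs0, zero_smul, zero_add]
  set t : ℂ := fderiv ℂ s 0 (G 0) with ht
  have ht0 : t ≠ 0 := by
    intro h
    refine hnn fun v => ?_
    rw [hD v, hD, map_smul, ← ht, h, smul_zero, zero_smul]
  have hcc : Ena.cc Ls' 0 ≠ 0 := by
    intro h
    refine ht0 ?_
    rw [ht, hG0, h, zero_smul, map_zero]
  -- division of `s ∘ L` by the first coordinate
  have hsL : AnalyticAt ℂ (fun x => s (L x)) 0 := by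
    have h1 : AnalyticAt ℂ s (L 0) := by rwa [map_zero]
    exact h1.comp (Ena.lin_an L 0)
  have hsL0 : (fun x => s (L x)) 0 = 0 := by
    change s (L 0) = 0
    rw [map_zero, hs0]
  obtain ⟨α, hα, hα0, hαe⟩ := div_b1 hsL hsL0 0
  set m : C2 → C2 := fun w => PiL Ls' (σ w) with hm
  have hman : AnalyticAt ℂ m 0 := (pi_an Ls' _).comp hσ.an
  have hm0 : m 0 = (0, 0) := by
    simp only [hm]
    rw [hσ.zero, pi_map_zero]
    rfl
  refine ⟨s, fun w => Ena.cc Ls' (σ w) * α (m w), fun w => Ena.dd (L :: Ls') (σ w) *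
    (fderiv ℂ σ w).det, t, (L :: Ls').length, Nat.succ_pos _, ht0, hsan, hs0, hds, ?_, ?_, ?_, ?_,
    ?_, ?_, ?_⟩
  · refine ((Ena.cc_an Ls' _).comp hσ.an).mul ?_
    have h1 : AnalyticAt ℂ α (m 0) := by rwa [hm0]
    exact h1.comp hman
  · change Ena.cc Ls' (σ 0) * α (m 0) = t
    have h1 : α (0, 0) = fderiv ℂ (fun x => s (L x)) 0 (1, 0) := hα0.self_of_nhds
    have h2 : HasFDerivAt (fun x => s (L x)) ((fderiv ℂ s 0).comp (L : C2 →L[ℂ] C2)) 0 := by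
      have h3 : HasFDerivAt s (fderiv ℂ s 0) (L 0) := by
        rw [map_zero]
        exact hsan.differentiableAt.hasFDerivAt
      exact h3.comp 0 (L : C2 →L[ℂ] C2).hasFDerivAt
    rw [hm0, h1, h2.fderiv, ht, hG0, map_smul, hσ.zero]
    rfl
  · exact ((Ena.dd_an (L :: Ls') _).comp hσ.an).mul (Ena.det_analytic hσ.an.fderiv)
  · change Ena.dd (L :: Ls') (σ 0) * (fderiv ℂ σ 0).det ≠ 0
    refine mul_ne_zero ?_ (Ena.det_ne hσ.inv)
    rw [hσ.zero]
    exact mul_ne_zero (mul_ne_zero (Ena.lin_det_ne L) hcc) (Ena.dd_ne Ls' hcc)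
  · have h1 : Tendsto m (𝓝 0) (𝓝 ((0, 0) : C2)) := by
      rw [← hm0]
      exact hman.continuousAt
    filter_upwards [h1.eventually hαe] with w hw
    change s (L (b1 (m w))) = s w * (Ena.cc Ls' (σ w) * α (m w))
    have h2 : s (L (b1 (m w))) = (m w).1 • α (m w) := hw
    have h3 : (m w).1 = s w * Ena.cc Ls' (σ w) := Ena.pi_fst Ls' (σ w)
    rw [h2, h3, smul_eq_mul, mul_assoc]
  · refine Eventually.of_forall fun w hw => ?_
    rw [hFG, hw, zero_smul]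
  · filter_upwards [hσ.an.eventually_analyticAt] with w hw
    have h1 : HasFDerivAt (PiL (L :: Ls') ∘ σ)
        ((fderiv ℂ (PiL (L :: Ls')) (σ w)).comp (fderiv ℂ σ w)) w :=
      (pi_an (L :: Ls') (σ w)).differentiableAt.hasFDerivAt.comp w hw.differentiableAt.hasFDerivAt
    rw [h1.fderiv, Ena.det_comp, Ena.pi_det, mul_assoc]

end Pool.Agent.KS
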