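import Pool.Agent.KS.Osg
import Pool.Agent.KS.Contr
import Pool.Agent.KS.Div

/-!
# The linearisation of the divisor and the coordinates `(z, s)`
-/

set_option autoImplicit false

namespace Pool.Agent.KS

open scoped Manifold ContDiff Topology
open Filter Asymptotics

/-- A cocycle near a contraction is a coboundary up to its value at the fixed point. -/
theorem lin_s {F : C2 → C2} (hF : AnalyticAt ℂ F 0) (h0 : F 0 = 0)
    (hD : ∃ m : ℕ, ‖(fderiv ℂ F 0) ^ m‖ < 1) {θ : C2 → ℂ} {t : ℂ} (hθ : AnalyticAt ℂ θ 0)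
    (ht : θ 0 = t) (ht0 : t ≠ 0) : ∃ c : C2 → ℂ, AnalyticAt ℂ c 0 ∧ c 0 ≠ 0 ∧
      ∀ᶠ w in 𝓝 (0 : C2), c (F w) * θ w = t * c w := by
  obtain ⟨⟨ε, C, κ, hε, hC, hκ0, hκ1, hest⟩, hinv⟩ := contr_est hF h0 hD
  set L : C2 → ℂ := fun w => Complex.log (θ w / t) with hL
  have hq : AnalyticAt ℂ (fun w => θ w / t) 0 := hθ.div_const
  have hq0 : θ 0 / t = 1 := by rw [ht, div_self ht0]
  have hLa : AnalyticAt ℂ L 0 := hq.clog (by rw [hq0]; exact Complex.one_mem_slitPlane)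
  have hL0 : L 0 = 0 := by simp only [hL]; rw [hq0, Complex.log_one]
  obtain ⟨K, hK⟩ := hLa.differentiableAt.isBigO_sub.bound
  have hne : ∀ᶠ w in 𝓝 (0 : C2), θ w / t ≠ 0 :=
    hq.continuousAt.eventually_ne (by rw [hq0]; exact one_ne_zero)
  obtain ⟨W, hWo, hW0, hWV, hWm⟩ := hinv _ ((((hLa.eventually_analyticAt.and hK).and hne).and
    hF.eventually_analyticAt).and (Metric.ball_mem_nhds (0 : C2) hε))
  have hLd : DifferentiableOn ℂ L W := fun w hw =>
    (hWV hw).1.1.1.1.differentiableAt.differentiableWithinAt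
  have hFd : DifferentiableOn ℂ F W := fun w hw =>
    (hWV hw).1.2.differentiableAt.differentiableWithinAt
  have hit : ∀ k : ℕ, DifferentiableOn ℂ F^[k] W ∧ Set.MapsTo F^[k] W W := by
    intro k
    induction k with
    | zero => exact ⟨differentiableOn_id, Set.mapsTo_id _⟩
    | succ k ih =>
      rw [Function.iterate_succ]
      exact ⟨ih.1.comp hFd hWm, ih.2.comp hWm⟩
  have hbound : ∀ (j : ℕ), ∀ w ∈ W, ‖L (F^[j] w)‖ ≤ |K| * (C * κ ^ j * ε) := by
    intro j w hw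
    have h1 := (hWV ((hit j).2 hw)).1.1.1.2
    have h2 : ‖w‖ < ε := by simpa using (hWV hw).2
    have h3 := hest w h2 j
    simp only [hL0, sub_zero] at h1
    calc ‖L (F^[j] w)‖ ≤ K * ‖F^[j] w‖ := h1
      _ ≤ |K| * ‖F^[j] w‖ := mul_le_mul_of_nonneg_right (le_abs_self K) (norm_nonneg _)
      _ ≤ |K| * (C * κ ^ j * ε) := by
        refine mul_le_mul_of_nonneg_left (h3.trans ?_) (abs_nonneg K)
        exact mul_le_mul_of_nonneg_left h2.le (by positivity)
  have hsum : Summable fun j : ℕ => |K| * (C * κ ^ j * ε) :=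
    (((summable_geometric_of_lt_one hκ0.le hκ1).mul_left C).mul_right ε).mul_left |K|
  set S : C2 → ℂ := fun w => ∑' j : ℕ, L (F^[j] w) with hS
  have hSd : DifferentiableOn ℂ S W := by
    refine diff_of_limit hWo (F := fun N w => ∑ j ∈ Finset.range N, L (F^[j] w)) ?_ ?_
    · intro N
      refine DifferentiableOn.fun_sum fun j _ => ?_
      exact hLd.comp (hit j).1 (hit j).2
    · exact (tendstoUniformlyOn_tsum_nat hsum hbound).tendstoLocallyUniformlyOn
  have hSF : ∀ w ∈ W, S (F w) = S w - L w := by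
    intro w hw
    have h1 : Summable fun j : ℕ => L (F^[j] w) :=
      Summable.of_norm_bounded hsum fun j => hbound j w hw
    have h2 := h1.tsum_eq_zero_add
    simp only [hS]
    rw [h2]
    simp only [Function.iterate_zero, id_eq, Function.iterate_succ, Function.comp_apply]
    ring
  refine ⟨fun w => Complex.exp (S w), ?_, Complex.exp_ne_zero _, ?_⟩
  · exact (analytic_of_diff hWo hSd 0 hW0).cexp
  · filter_upwards [hWo.mem_nhds hW0] with w hw
    have h1 : Complex.exp (L w) = θ w / t := Complex.exp_log (hWV hw).1.1.2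
    rw [hSF w hw, Complex.exp_sub, h1]
    have h2 : θ w ≠ 0 := by
      have h3 := (hWV hw).1.1.2
      intro h4
      exact h3 (by simp [h4])
    field_simp

namespace Enb

theorem det_eq (A : C2 →L[ℂ] C2) :
    A.det = (A (1, 0)).1 * (A (0, 1)).2 - (A (0, 1)).1 * (A (1, 0)).2 := by
  rw [ContinuousLinearMap.det, ← LinearMap.det_toMatrix (Module.Basis.finTwoProd ℂ),
    Matrix.det_fin_two]
  simp [LinearMap.toMatrix_apply]

theorem det_comp (A B : C2 →L[ℂ] C2) : (A.comp B).det = A.det * B.det := by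
  simp only [ContinuousLinearMap.det]
  exact LinearMap.det_comp _ _

theorem det_ne_zero {A : C2 →L[ℂ] C2} (h : Function.Bijective A) : A.det ≠ 0 := by
  intro h0
  have h1 : LinearMap.det (A : C2 →ₗ[ℂ] C2) = 0 := h0
  have h2 := LinearMap.bot_lt_ker_of_det_eq_zero h1
  have h3 : LinearMap.ker (A : C2 →ₗ[ℂ] C2) = ⊥ := LinearMap.ker_eq_bot.2 h.1
  rw [h3] at h2
  exact lt_irrefl _ h2

theorem det_analytic {Φ : C2 → C2} {w : C2} (h : AnalyticAt ℂ Φ w) :
    AnalyticAt ℂ (fun x => (fderiv ℂ Φ x).det) w := by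
  have h1 : ∀ v : C2, AnalyticAt ℂ (fun x => fderiv ℂ Φ x v) w := fun v =>
    (ContinuousLinearMap.apply ℂ C2 v).analyticAt _ |>.comp h.fderiv
  simp only [det_eq]
  exact ((analyticAt_fst.comp (h1 _)).mul (analyticAt_snd.comp (h1 _))).sub
    ((analyticAt_fst.comp (h1 _)).mul (analyticAt_snd.comp (h1 _)))

/-- A complement of a linear functional. -/
theorem exists_compl {m : C2 →L[ℂ] ℂ} (h : m ≠ 0) : ∃ l : C2 →L[ℂ] ℂ,
    Function.Bijective (l.prod m) := by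
  have hinj : ∀ l : C2 →L[ℂ] ℂ, (∀ v, l v = 0 → m v = 0 → v = 0) →
      Function.Bijective (l.prod m) := by
    intro l hl
    have h1 : Function.Injective ((l.prod m : C2 →L[ℂ] C2) : C2 →ₗ[ℂ] C2) := by
      rw [← LinearMap.ker_eq_bot, LinearMap.ker_eq_bot']
      intro v hv
      have hv' : ((l v, m v) : C2) = 0 := hv
      exact hl v (congrArg Prod.fst hv') (congrArg Prod.snd hv')
    exact ⟨h1, (LinearMap.injective_iff_surjective (K := ℂ) (V := C2)).1 h1⟩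
  have hdec : ∀ v : C2, m v = v.1 * m (1, 0) + v.2 * m (0, 1) := by
    intro v
    have h4 : v = v.1 • ((1, 0) : C2) + v.2 • ((0, 1) : C2) := by
      ext <;> simp
    conv_lhs => rw [h4]
    rw [map_add, map_smul, map_smul, smul_eq_mul, smul_eq_mul]
  by_cases ha : m (1, 0) = 0
  · have hb : m (0, 1) ≠ 0 := by
      intro hb
      apply h
      refine ContinuousLinearMap.ext fun v => ?_
      rw [hdec, ha, hb]
      simp
    refine ⟨ContinuousLinearMap.fst ℂ ℂ ℂ, hinj _ fun v h1 h2 => ?_⟩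
    have h1' : v.1 = 0 := h1
    rw [hdec, h1', zero_mul, zero_add] at h2
    exact Prod.ext h1' ((mul_eq_zero.1 h2).resolve_right hb)
  · refine ⟨ContinuousLinearMap.snd ℂ ℂ ℂ, hinj _ fun v h1 h2 => ?_⟩
    have h1' : v.2 = 0 := h1
    rw [hdec, h1', zero_mul, add_zero] at h2
    exact Prod.ext ((mul_eq_zero.1 h2).resolve_right ha) h1'

end Enb

/-- The coordinates `(z, s)`. -/
theorem enoki_form {F : C2 → C2} (hF : AnalyticAt ℂ F 0) (h0 : F 0 = 0)
    (hD : ∃ m : ℕ, ‖(fderiv ℂ F 0) ^ m‖ < 1) {s θ J : C2 → ℂ} {t : ℂ} {n : ℕ} (hn : 0 < n)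
    (ht0 : t ≠ 0) (hs : AnalyticAt ℂ s 0) (hs0 : s 0 = 0) (hds : fderiv ℂ s 0 ≠ 0)
    (hθ : AnalyticAt ℂ θ 0) (ht : θ 0 = t) (hJ : AnalyticAt ℂ J 0) (hJ0 : J 0 ≠ 0)
    (h1 : ∀ᶠ w in 𝓝 (0 : C2), s (F w) = s w * θ w)
    (h2 : ∀ᶠ w in 𝓝 (0 : C2), s w = 0 → F w = 0)
    (h3 : ∀ᶠ w in 𝓝 (0 : C2), (fderiv ℂ F w).det = s w ^ n * J w) :
    ‖t‖ < 1 ∧ ∃ (Φ : C2 → C2) (f g : C2 → ℂ), Dif Φ ∧ AnalyticAt ℂ f 0 ∧ AnalyticAt ℂ g 0 ∧
      g 0 ≠ 0 ∧ (∀ᶠ w in 𝓝 (0 : C2), w.2 = 0 → f w = 0) ∧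
      (∀ᶠ w in 𝓝 (0 : C2), fderiv ℂ f w (1, 0) = w.2 ^ n * g w) ∧
      ∀ᶠ w in 𝓝 (0 : C2), Φ (F w) = (f (Φ w), t * (Φ w).2) := by
  obtain ⟨c, hc, hc0, hcF⟩ := lin_s hF h0 hD hθ ht ht0
  set S : C2 → ℂ := fun w => s w * c w with hS
  have hSa : AnalyticAt ℂ S 0 := hs.mul hc
  have hS0 : S 0 = 0 := by simp [hS, hs0]
  have hSF : ∀ᶠ w in 𝓝 (0 : C2), S (F w) = t * S w := by
    filter_upwards [h1, hcF] with w hw1 hw2
    simp only [hS]
    rw [hw1]
    linear_combination s w * hw2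
  have hdS : fderiv ℂ S 0 = c 0 • fderiv ℂ s 0 := by
    have h4 := hs.differentiableAt.hasFDerivAt.mul hc.differentiableAt.hasFDerivAt
    have h5 := h4.fderiv
    rw [hs0, zero_smul ℂ (fderiv ℂ c 0), zero_add] at h5
    exact h5
  have hdS0 : fderiv ℂ S 0 ≠ 0 := by
    rw [hdS]
    exact smul_ne_zero hc0 hds
  have hSa' : HasFDerivAt S (fderiv ℂ S 0) (F 0) := by
    rw [h0]
    exact hSa.differentiableAt.hasFDerivAt
  have hdD : ∀ v, fderiv ℂ S 0 (fderiv ℂ F 0 v) = t * fderiv ℂ S 0 v := by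
    intro v
    have h4 := hSa'.comp (0 : C2) hF.differentiableAt.hasFDerivAt
    have h5 : HasFDerivAt (fun w => t * S w) (t • fderiv ℂ S 0) 0 :=
      hSa.differentiableAt.hasFDerivAt.const_mul t
    have h6 := (h4.congr_of_eventuallyEq (f₁ := fun w => t * S w)
      (hSF.mono fun w hw => hw.symm)).unique h5
    have h7 := congrArg (fun A : C2 →L[ℂ] ℂ => A v) h6
    simpa using h7
  refine ⟨?_, ?_⟩
  · obtain ⟨m, hm⟩ := hD
    have h4 : ∀ k : ℕ, ∀ v, fderiv ℂ S 0 ((fderiv ℂ F 0 ^ k) v) = t ^ k * fderiv ℂ S 0 v := by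
      intro k
      induction k with
      | zero => intro v; simp
      | succ k ih =>
        intro v
        have h8 : (fderiv ℂ F 0 ^ (k + 1)) v = (fderiv ℂ F 0 ^ k) (fderiv ℂ F 0 v) := by
          rw [pow_succ]
          rfl
        rw [h8, ih, hdD, pow_succ]
        ring
    have h5 : ‖t‖ ^ m * ‖fderiv ℂ S 0‖ ≤ ‖fderiv ℂ S 0‖ * ‖fderiv ℂ F 0 ^ m‖ := by
      have h6 : t ^ m • fderiv ℂ S 0 = (fderiv ℂ S 0).comp (fderiv ℂ F 0 ^ m) := by
        refine ContinuousLinearMap.ext fun v => ?_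
        rw [ContinuousLinearMap.comp_apply, h4]
        rfl
      rw [← norm_pow, ← norm_smul, h6]
      exact ContinuousLinearMap.opNorm_comp_le _ _
    have h6 : 0 < ‖fderiv ℂ S 0‖ := norm_pos_iff.2 hdS0
    by_contra hcon
    have h7 : 1 ≤ ‖t‖ ^ m := one_le_pow₀ (not_lt.1 hcon)
    nlinarith
  · obtain ⟨l, hl⟩ := Enb.exists_compl hdS0
    set Φ : C2 → C2 := fun w => (l w, S w) with hΦ
    have hΦd : HasFDerivAt Φ (l.prod (fderiv ℂ S 0)) 0 :=
      l.hasFDerivAt.prodMk hSa.differentiableAt.hasFDerivAt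
    have hΦD : Dif Φ := by
      refine ⟨(l.analyticAt 0).prod hSa, ?_, ?_⟩
      · simp [hΦ, hS0]
      · rw [hΦd.fderiv]
        exact hl
    obtain ⟨Ψ, hΨ, hΨΦ, hΦΨ⟩ := dif_inv hΦD
    have hΨc : Tendsto Ψ (𝓝 0) (𝓝 0) := by
      have := hΨ.an.continuousAt.tendsto
      rwa [hΨ.zero] at this
    have hFc : Tendsto F (𝓝 0) (𝓝 0) := by
      have := hF.continuousAt.tendsto
      rwa [h0] at this
    have hΦc : Tendsto Φ (𝓝 0) (𝓝 0) := by
      have := hΦD.an.continuousAt.tendsto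
      rwa [hΦD.zero] at this
    set G : C2 → C2 := fun w => Φ (F (Ψ w)) with hG
    have hFΨ : AnalyticAt ℂ (fun w => F (Ψ w)) 0 := hF.comp_of_eq hΨ.an hΨ.zero
    have hGa : AnalyticAt ℂ G 0 :=
      hΦD.an.comp_of_eq hFΨ (by rw [hΨ.zero, h0])
    have hG2 : ∀ᶠ w in 𝓝 (0 : C2), (G w).2 = t * w.2 := by
      filter_upwards [hΨc.eventually hSF, hΦΨ] with w hw1 hw2
      have h4 : S (Ψ w) = w.2 := congrArg Prod.snd hw2
      simp only [hG, hΦ]
      rw [hw1, h4]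
    have hcΨ : ∀ᶠ w in 𝓝 (0 : C2), c (Ψ w) ≠ 0 :=
      hΨc.eventually (hc.continuousAt.eventually_ne hc0)
    have hsΨ : ∀ᶠ w in 𝓝 (0 : C2), s (Ψ w) * c (Ψ w) = w.2 := by
      filter_upwards [hΦΨ] with w hw2
      exact congrArg Prod.snd hw2
    refine ⟨Φ, fun w => (G w).1, fun w => (fderiv ℂ Φ (F (Ψ w))).det * J (Ψ w) *
      (fderiv ℂ Ψ w).det / (t * c (Ψ w) ^ n), hΦD, analyticAt_fst.comp hGa, ?_, ?_, ?_, ?_, ?_⟩
    · have h4 : AnalyticAt ℂ (fun w => (fderiv ℂ Φ (F (Ψ w))).det) 0 :=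
        (Enb.det_analytic hΦD.an).comp_of_eq hFΨ (by rw [hΨ.zero, h0])
      have h5 : AnalyticAt ℂ (fun w => J (Ψ w)) 0 := hJ.comp_of_eq hΨ.an hΨ.zero
      have h6 : AnalyticAt ℂ (fun w => c (Ψ w)) 0 := hc.comp_of_eq hΨ.an hΨ.zero
      refine ((h4.mul h5).mul (Enb.det_analytic hΨ.an)).div (analyticAt_const.mul (h6.pow n)) ?_
      rw [hΨ.zero]
      exact mul_ne_zero ht0 (pow_ne_zero n hc0)
    · simp only
      rw [hΨ.zero, h0]
      exact div_ne_zero (mul_ne_zero (mul_ne_zero (Enb.det_ne_zero hΦD.inv) hJ0)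
        (Enb.det_ne_zero hΨ.inv)) (mul_ne_zero ht0 (pow_ne_zero n hc0))
    · filter_upwards [hcΨ, hsΨ, hΨc.eventually h2] with w hw1 hw2 hw3 hw4
      rw [hw4] at hw2
      have h4 : s (Ψ w) = 0 := (mul_eq_zero.1 hw2).resolve_right hw1
      simp only [hG]
      rw [hw3 h4, hΦD.zero]
      rfl
    · have hG2' := hG2.eventually_nhds
      filter_upwards [hcΨ, hsΨ, hΨc.eventually h3, hG2', hGa.eventually_analyticAt,
        hΨ.an.eventually_analyticAt, hΨc.eventually hF.eventually_analyticAt,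
        (hFc.comp hΨc).eventually hΦD.an.eventually_analyticAt] with w hw1 hw2 hw3 hw4 hw5 hw6
        hw7 hw8
      have h4 : HasFDerivAt (fun w => (G w).1)
          ((ContinuousLinearMap.fst ℂ ℂ ℂ).comp (fderiv ℂ G w)) w :=
        (ContinuousLinearMap.fst ℂ ℂ ℂ).hasFDerivAt.comp w hw5.differentiableAt.hasFDerivAt
      have h5 : HasFDerivAt (fun w => (G w).2)
          ((ContinuousLinearMap.snd ℂ ℂ ℂ).comp (fderiv ℂ G w)) w :=
        (ContinuousLinearMap.snd ℂ ℂ ℂ).hasFDerivAt.comp w hw5.differentiableAt.hasFDerivAt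
      have h6 : HasFDerivAt (fun w : C2 => t * w.2) (t • ContinuousLinearMap.snd ℂ ℂ ℂ) w :=
        (ContinuousLinearMap.snd ℂ ℂ ℂ).hasFDerivAt.const_mul t
      have h7 : ∀ v, (fderiv ℂ G w v).2 = t * v.2 := by
        intro v
        have h8 := (h6.congr_of_eventuallyEq hw4).unique h5
        have h9 := congrArg (fun A : C2 →L[ℂ] ℂ => A v) h8
        simpa using h9.symm
      have h10 : (fderiv ℂ G w).det = t * (fderiv ℂ G w (1, 0)).1 := by
        rw [Enb.det_eq, h7, h7]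
        simp
        ring
      have h11 : fderiv ℂ G w = ((fderiv ℂ Φ (F (Ψ w))).comp (fderiv ℂ F (Ψ w))).comp
          (fderiv ℂ Ψ w) := by
        have h12 : HasFDerivAt (fun w => F (Ψ w)) ((fderiv ℂ F (Ψ w)).comp (fderiv ℂ Ψ w)) w :=
          HasFDerivAt.comp w (g := F) hw7.differentiableAt.hasFDerivAt
            hw6.differentiableAt.hasFDerivAt
        have h13 : HasFDerivAt G ((fderiv ℂ Φ (F (Ψ w))).comp
            ((fderiv ℂ F (Ψ w)).comp (fderiv ℂ Ψ w))) w :=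
          HasFDerivAt.comp w (g := Φ) (f := fun w => F (Ψ w))
            (AnalyticAt.differentiableAt hw8).hasFDerivAt h12
        exact h13.fderiv
      have h14 : (fderiv ℂ G w).det = (fderiv ℂ Φ (F (Ψ w))).det *
          (s (Ψ w) ^ n * J (Ψ w)) * (fderiv ℂ Ψ w).det := by
        rw [h11, Enb.det_comp, Enb.det_comp, hw3]
      rw [h4.fderiv]
      change (fderiv ℂ G w (1, 0)).1 = _
      have h15 : t * (fderiv ℂ G w (1, 0)).1 = (fderiv ℂ Φ (F (Ψ w))).det *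
          (s (Ψ w) ^ n * J (Ψ w)) * (fderiv ℂ Ψ w).det := by
        rw [← h10, h14]
      rw [← hw2, mul_pow, mul_div_assoc', eq_div_iff (mul_ne_zero ht0 (pow_ne_zero n hw1))]
      linear_combination c (Ψ w) ^ n * h15
    · have h4 : ∀ᶠ w in 𝓝 (0 : C2), (G (Φ w)).2 = t * (Φ w).2 := hΦc.eventually hG2
      filter_upwards [hΨΦ, h4] with w hw1 hw2
      have h5 : G (Φ w) = Φ (F w) := by
        simp only [hG]
        rw [hw1]
      rw [← h5]
      exact Prod.ext rfl hw2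

end Pool.Agent.KS
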