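import Pool.Agent.KS.Enb

/-!
# Invariant affine structure of the fibres
-/

set_option autoImplicit false

namespace Pool.Agent.KS

open scoped Manifold ContDiff Topology
open Filter Asymptotics

namespace Enc

theorem ball_iff {r : ℝ} {w : C2} : w ∈ Metric.ball (0 : C2) r ↔ ‖w.1‖ < r ∧ ‖w.2‖ < r := by
  rw [mem_ball_zero_iff, Prod.norm_def, max_lt_iff]

/-- The primitive in the first variable. -/
noncomputable def prim (c : C2 → ℂ) (w : C2) : ℂ :=
  w.1 * ∫ τ in (0 : ℝ)..1, c ((τ : ℂ) * w.1, w.2)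

theorem prim_zero (c : C2 → ℂ) (s : ℂ) : prim c (0, s) = 0 := by
  simp [prim]

theorem scale_mem {r : ℝ} {w : C2} (hw : w ∈ Metric.ball (0 : C2) r) {τ : ℝ}
    (hτ : τ ∈ Set.Icc (0 : ℝ) 1) : ((τ : ℂ) * w.1, w.2) ∈ Metric.ball (0 : C2) r := by
  rw [ball_iff] at hw ⊢
  refine ⟨lt_of_le_of_lt ?_ hw.1, hw.2⟩
  rw [norm_mul, Complex.norm_real, Real.norm_of_nonneg hτ.1]
  exact mul_le_of_le_one_left (norm_nonneg _) hτ.2

theorem prim_diff {c : C2 → ℂ} {r : ℝ} (hc : DifferentiableOn ℂ c (Metric.ball 0 r)) :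
    DifferentiableOn ℂ (prim c) (Metric.ball 0 r) := by
  have hmap : ∀ τ : ℝ, Differentiable ℂ (fun w : C2 => (((τ : ℂ) * w.1, w.2) : C2)) := by
    intro τ
    fun_prop
  refine differentiableOn_fst.mul (diff_integral Metric.isOpen_ball
    (g := fun τ w => c ((τ : ℂ) * w.1, w.2)) ?_ ?_)
  · have h1 : ContinuousOn (fun p : ℝ × C2 => (((p.1 : ℂ) * p.2.1, p.2.2) : C2))
        (Set.Icc (0 : ℝ) 1 ×ˢ Metric.ball 0 r) := by
      fun_prop
    exact hc.continuousOn.comp h1 fun p hp => scale_mem hp.2 hp.1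
  · intro τ hτ
    exact hc.comp (hmap τ).differentiableOn fun w hw => scale_mem hw hτ

theorem prim_deriv {c : C2 → ℂ} {r : ℝ} (hc : DifferentiableOn ℂ c (Metric.ball 0 r)) {w : C2}
    (hw : w ∈ Metric.ball (0 : C2) r) : HasDerivAt (fun z => prim c (z, w.2)) (c w) w.1 := by
  have hw' := ball_iff.1 hw
  have h1 : DifferentiableOn ℂ (fun z => c (z, w.2)) (Metric.ball 0 r) := by
    refine hc.comp (f := fun z : ℂ => ((z, w.2) : C2)) (by fun_prop) fun z hz => ?_
    exact ball_iff.2 ⟨by simpa using hz, hw'.2⟩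
  obtain ⟨G, hG⟩ := h1.isExactOn_ball
  have h2 : ∀ z ∈ Metric.ball (0 : ℂ) r, prim c (z, w.2) = G z - G 0 := by
    intro z hz
    have hz' : ‖z‖ < r := by simpa using hz
    have h3 : ∀ τ ∈ Set.uIcc (0 : ℝ) 1,
        HasDerivAt (fun τ : ℝ => G ((τ : ℂ) * z)) (z * c ((τ : ℂ) * z, w.2)) τ := by
      intro τ hτ
      rw [Set.uIcc_of_le zero_le_one] at hτ
      have h4 : (τ : ℂ) * z ∈ Metric.ball (0 : ℂ) r := by
        rw [mem_ball_zero_iff, norm_mul, Complex.norm_real, Real.norm_of_nonneg hτ.1]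
        exact lt_of_le_of_lt (mul_le_of_le_one_left (norm_nonneg _) hτ.2) hz'
      have h5 : HasDerivAt (fun τ : ℂ => G (τ * z)) (c ((τ : ℂ) * z, w.2) * z) (τ : ℂ) := by
        have h6 := hG _ h4
        have h7 : HasDerivAt (fun τ : ℂ => τ * z) z (τ : ℂ) := by
          simpa using (hasDerivAt_id (τ : ℂ)).mul_const z
        exact h6.comp (τ : ℂ) h7
      rw [mul_comm z]
      exact h5.comp_ofReal
    have h8 : IntervalIntegrable (fun τ : ℝ => z * c ((τ : ℂ) * z, w.2))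
        MeasureTheory.volume 0 1 := by
      refine ContinuousOn.intervalIntegrable ?_
      rw [Set.uIcc_of_le zero_le_one]
      refine ContinuousOn.mul continuousOn_const (h1.continuousOn.comp
        (f := fun τ : ℝ => (τ : ℂ) * z) (by fun_prop) fun τ hτ => ?_)
      rw [mem_ball_zero_iff, norm_mul, Complex.norm_real, Real.norm_of_nonneg hτ.1]
      exact lt_of_le_of_lt (mul_le_of_le_one_left (norm_nonneg _) hτ.2) hz'
    have h9 := intervalIntegral.integral_eq_sub_of_hasDerivAt h3 h8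
    rw [intervalIntegral.integral_const_mul] at h9
    simp only [prim]
    rw [h9]
    simp
  have h10 : HasDerivAt (fun z => G z - G 0) (c w) w.1 := by
    have h11 := hG w.1 (by simpa using hw'.1)
    exact h11.sub_const _
  refine h10.congr_of_eventuallyEq ?_
  filter_upwards [Metric.isOpen_ball.mem_nhds (show w.1 ∈ Metric.ball (0 : ℂ) r by
    simpa using hw'.1)] with z hz
  exact h2 z hz

/-- The derivative of the normal form contracts. -/
theorem small {f g : C2 → ℂ} {t : ℂ} {n : ℕ} (hn : 0 < n) (ht : ‖t‖ < 1)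
    (hf : AnalyticAt ℂ f 0) (hd : fderiv ℂ f 0 (1, 0) = (0 : ℂ) ^ n * g 0) :
    ∃ m : ℕ, ‖(fderiv ℂ (fun w : C2 => ((f w, t * w.2) : C2)) 0) ^ m‖ < 1 := by
  set D : C2 →L[ℂ] C2 := fderiv ℂ (fun w : C2 => ((f w, t * w.2) : C2)) 0 with hD
  have h1 : HasFDerivAt (fun w : C2 => ((f w, t * w.2) : C2))
      ((fderiv ℂ f 0).prod (t • ContinuousLinearMap.snd ℂ ℂ ℂ)) 0 := by
    refine HasFDerivAt.prodMk hf.differentiableAt.hasFDerivAt ?_
    exact (ContinuousLinearMap.snd ℂ ℂ ℂ).hasFDerivAt.const_mul t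
  have h2 : ∀ v : C2, D v = (fderiv ℂ f 0 v, t * v.2) := by
    intro v
    rw [hD, h1.fderiv]
    rfl
  rw [zero_pow hn.ne', zero_mul] at hd
  have h3 : ∀ v : C2, fderiv ℂ f 0 v = v.2 * fderiv ℂ f 0 (0, 1) := by
    intro v
    have h4 : v = v.1 • ((1, 0) : C2) + v.2 • ((0, 1) : C2) := by
      ext <;> simp
    conv_lhs => rw [h4]
    rw [map_add, map_smul, map_smul, hd, smul_zero, zero_add, smul_eq_mul]
  have h5 : ∀ v : C2, D (D v) = t • D v := by
    intro v
    rw [h2, h2, h3 (fderiv ℂ f 0 v, t * v.2), h3 v]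
    ext
    · simp only [Prod.smul_fst, smul_eq_mul]
      ring
    · simp only [Prod.smul_snd, smul_eq_mul]
  have h6 : ∀ m : ℕ, D ^ (m + 1) = t ^ m • D := by
    intro m
    induction m with
    | zero => rw [zero_add, pow_one, pow_zero, one_smul]
    | succ m ih =>
      refine ContinuousLinearMap.ext fun v => ?_
      have h8 : (D ^ (m + 1 + 1)) v = (D ^ (m + 1)) (D v) := by
        rw [pow_succ]
        rfl
      rw [h8, ih, smul_apply, h5, smul_apply, smul_smul,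
        ← pow_succ]
  have h7 : Tendsto (fun m : ℕ => ‖t‖ ^ m * ‖D‖) atTop (𝓝 (0 * ‖D‖)) :=
    (tendsto_pow_atTop_nhds_zero_of_lt_one (norm_nonneg t) ht).mul_const _
  rw [zero_mul] at h7
  obtain ⟨m, hm⟩ := (h7.eventually (gt_mem_nhds one_pos)).exists
  refine ⟨m + 1, ?_⟩
  rw [h6, norm_smul, norm_pow]
  exact hm

end Enc

/-- Invariant affine structure of the fibres. -/
theorem aff_form {f g : C2 → ℂ} {t : ℂ} {n : ℕ} (hn : 0 < n) (ht0 : t ≠ 0) (ht : ‖t‖ < 1)
    (hf : AnalyticAt ℂ f 0) (hg : AnalyticAt ℂ g 0) (hg0 : g 0 ≠ 0)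
    (hf0 : ∀ᶠ w in 𝓝 (0 : C2), w.2 = 0 → f w = 0)
    (hd : ∀ᶠ w in 𝓝 (0 : C2), fderiv ℂ f w (1, 0) = w.2 ^ n * g w) :
    ∃ (ψ : C2 → ℂ) (Q : ℂ → ℂ) (a : ℂ), AnalyticAt ℂ ψ 0 ∧ ψ 0 = 0 ∧
      fderiv ℂ ψ 0 (1, 0) ≠ 0 ∧ AnalyticAt ℂ Q 0 ∧ Q 0 = 0 ∧ a ≠ 0 ∧
      ∀ᶠ w in 𝓝 (0 : C2), ψ (f w, t * w.2) = a * w.2 ^ n * ψ w + Q w.2 := by
  have hf00 : f 0 = 0 := hf0.self_of_nhds rfl
  have hF : AnalyticAt ℂ (fun w : C2 => ((f w, t * w.2) : C2)) 0 :=
    hf.prod (analyticAt_const.mul analyticAt_snd)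
  have hF0 : (fun w : C2 => ((f w, t * w.2) : C2)) 0 = 0 := by
    simp [hf00]
  obtain ⟨c, hc, hc0, hcF⟩ := lin_s hF hF0 (Enc.small hn ht hf hd.self_of_nhds) hg rfl hg0
  obtain ⟨r, hr, hcr⟩ := Metric.eventually_nhds_iff_ball.1
    (hc.eventually_analyticAt.mono fun w hw => hw.differentiableAt)
  have hcd : DifferentiableOn ℂ c (Metric.ball 0 r) := fun w hw =>
    (hcr w hw).differentiableWithinAt
  have hψd := Enc.prim_diff hcd
  have hψa : AnalyticAt ℂ (Enc.prim c) 0 :=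
    analytic_of_diff Metric.isOpen_ball hψd 0 (Metric.mem_ball_self hr)
  have hFc : Tendsto (fun w : C2 => ((f w, t * w.2) : C2)) (𝓝 0) (𝓝 0) := by
    have h1 : Tendsto (fun w : C2 => ((f w, t * w.2) : C2)) (𝓝 0)
        (𝓝 ((fun w : C2 => ((f w, t * w.2) : C2)) 0)) := hF.continuousAt
    rw [hF0] at h1
    exact h1
  obtain ⟨ρ, hρ, hall⟩ := Metric.eventually_nhds_iff_ball.1
    (((hFc.eventually (Metric.ball_mem_nhds (0 : C2) hr)).and
      (Metric.ball_mem_nhds (0 : C2) hr)).and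
      ((hf.eventually_analyticAt.and hd).and hcF))
  have hline : AnalyticAt ℂ (fun s : ℂ => ((f (0, s), t * s) : C2)) 0 := by
    have h1 : AnalyticAt ℂ (fun s : ℂ => ((0, s) : C2)) 0 := analyticAt_const.prod analyticAt_id
    have h2 : AnalyticAt ℂ f ((fun s : ℂ => ((0, s) : C2)) 0) := hf
    exact (h2.comp h1).prod (analyticAt_const.mul analyticAt_id)
  have hline0 : (fun s : ℂ => ((f (0, s), t * s) : C2)) 0 = 0 := by
    have : f (0, 0) = 0 := hf00
    simp [this]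
  refine ⟨Enc.prim c, fun s => Enc.prim c (f (0, s), t * s), g 0, hψa, Enc.prim_zero c 0, ?_,
    ?_, ?_, hg0, ?_⟩
  · have h1 := Enc.prim_deriv hcd (w := 0) (Metric.mem_ball_self hr)
    have h2 : HasDerivAt (fun z : ℂ => ((z, 0) : C2)) ((1, 0) : C2) 0 :=
      (hasDerivAt_id (0 : ℂ)).prodMk (hasDerivAt_const _ _)
    have h3 : HasFDerivAt (Enc.prim c) (fderiv ℂ (Enc.prim c) 0) 0 :=
      hψa.differentiableAt.hasFDerivAt
    have h4 := h3.comp_hasDerivAt_of_eq (0 : ℂ) h2 rfl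
    have h5 : fderiv ℂ (Enc.prim c) 0 (1, 0) = c 0 := h4.unique h1
    rw [h5]
    exact hc0
  · exact AnalyticAt.comp_of_eq (g := Enc.prim c) hψa hline hline0
  · change Enc.prim c ((fun s : ℂ => ((f (0, s), t * s) : C2)) 0) = 0
    rw [hline0]
    exact Enc.prim_zero c 0
  · filter_upwards [Metric.ball_mem_nhds (0 : C2) hρ] with w hw
    have hw' := Enc.ball_iff.1 hw
    set s := w.2 with hs
    have hmem : ∀ z ∈ Metric.ball (0 : ℂ) ρ, ((z, s) : C2) ∈ Metric.ball (0 : C2) ρ :=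
      fun z hz => Enc.ball_iff.2 ⟨by simpa using hz, hw'.2⟩
    have hder : ∀ z ∈ Metric.ball (0 : ℂ) ρ,
        HasDerivAt (fun z => Enc.prim c (f (z, s), t * s) - g 0 * s ^ n * Enc.prim c (z, s)) 0
          z := by
      intro z hz
      obtain ⟨⟨h1, h2⟩, ⟨h3, h4⟩, h5⟩ := hall _ (hmem z hz)
      have h6 : HasDerivAt (fun z : ℂ => ((z, s) : C2)) ((1, 0) : C2) z :=
        (hasDerivAt_id z).prodMk (hasDerivAt_const _ _)
      have h7 : HasDerivAt (fun z => f (z, s)) (fderiv ℂ f (z, s) (1, 0)) z :=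
        h3.differentiableAt.hasFDerivAt.comp_hasDerivAt z h6
      have h8 : HasDerivAt (fun x => Enc.prim c (x, t * s)) (c (f (z, s), t * s)) (f (z, s)) :=
        Enc.prim_deriv hcd (w := (f (z, s), t * s)) h1
      have h9 : HasDerivAt (fun z => Enc.prim c (f (z, s), t * s))
          (c (f (z, s), t * s) * fderiv ℂ f (z, s) (1, 0)) z :=
        HasDerivAt.comp z (h₂ := fun x => Enc.prim c (x, t * s)) (h := fun z => f (z, s)) h8 h7
      have h10 := (Enc.prim_deriv hcd (w := (z, s)) h2).const_mul (g 0 * s ^ n)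
      refine (h9.sub h10).congr_deriv ?_
      rw [h4]
      simp only at h5 ⊢
      linear_combination s ^ n * h5
    have hconst : ∀ z ∈ Metric.ball (0 : ℂ) ρ,
        Enc.prim c (f (z, s), t * s) - g 0 * s ^ n * Enc.prim c (z, s) =
          Enc.prim c (f (0, s), t * s) - g 0 * s ^ n * Enc.prim c (0, s) := by
      intro z hz
      exact (convex_ball (0 : ℂ) ρ).is_const_of_fderivWithin_eq_zero
        (fun x hx => (hder x hx).differentiableAt.differentiableWithinAt)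
        (fun x hx => by
          rw [fderivWithin_of_isOpen Metric.isOpen_ball hx, (hder x hx).hasFDerivAt.fderiv]
          ext; simp) hz (Metric.mem_ball_self hρ)
    have h11 := hconst w.1 (by simpa using hw'.1)
    rw [Enc.prim_zero, mul_zero, sub_zero] at h11
    have h12 : ((w.1, s) : C2) = w := rfl
    rw [h12] at h11
    rw [← h11]
    ring

end Pool.Agent.KS
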