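import Pool.Agent.KS.Defs

/-!
# The tail of a power series (row END)
-/

set_option autoImplicit false

namespace Pool.Agent.KS

open scoped Topology
open Filter

namespace End

/-- The terms of the coefficient `h_j`. -/
noncomputable def term (Q : ℕ → ℂ) (a t : ℂ) (n j i : ℕ) : ℂ :=
  a⁻¹ ^ (i + 1) * t ^ (∑ l ∈ Finset.range i, (j + (l + 1) * n)) * Q (j + (i + 1) * n)

/-- The coefficient `h_j`. -/
noncomputable def hj (Q : ℕ → ℂ) (a t : ℂ) (n j : ℕ) : ℂ := ∑' i : ℕ, term Q a t n j i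

/-- The majorant. -/
noncomputable def maj (K τ : ℝ) (i : ℕ) : ℝ := K ^ (i + 1) * τ ^ (∑ l ∈ Finset.range i, l)

theorem maj_summable {K τ : ℝ} (hK : 0 < K) (h0 : 0 < τ) (h1 : τ < 1) : Summable (maj K τ) := by
  have hpos : ∀ i, 0 < maj K τ i := fun i => by unfold maj; positivity
  refine summable_of_ratio_test_tendsto_lt_one (l := 0) zero_lt_one
    (Eventually.of_forall fun i => (hpos i).ne') ?_
  have h2 : ∀ i, ‖maj K τ (i + 1)‖ / ‖maj K τ i‖ = K * τ ^ i := by
    intro i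
    rw [Real.norm_of_nonneg (hpos _).le, Real.norm_of_nonneg (hpos _).le, div_eq_iff (hpos i).ne']
    unfold maj
    rw [Finset.sum_range_succ, pow_add τ, pow_succ K (i + 1)]
    ring
  simp only [h2]
  have h3 := (tendsto_pow_atTop_nhds_zero_of_lt_one h0.le h1).const_mul K
  rwa [mul_zero] at h3

theorem term_le {Q : ℕ → ℂ} {a t : ℂ} {n : ℕ} {C R : ℝ} (hn : 0 < n) (ht : ‖t‖ < 1)
    (hQ : ∀ m, ‖Q m‖ ≤ C * R ^ m) (j i : ℕ) :
    ‖term Q a t n j i‖ ≤ C * R ^ j * maj (‖a⁻¹‖ * R ^ n) ‖t‖ i := by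
  unfold term maj
  rw [norm_mul, norm_mul, norm_pow, norm_pow]
  have h1 : ‖t‖ ^ (∑ l ∈ Finset.range i, (j + (l + 1) * n)) ≤
      ‖t‖ ^ (∑ l ∈ Finset.range i, l) := by
    refine pow_le_pow_of_le_one (norm_nonneg t) ht.le ?_
    refine Finset.sum_le_sum fun l _ => ?_
    have : l + 1 ≤ (l + 1) * n := Nat.le_mul_of_pos_right _ hn
    omega
  have h2 := hQ (j + (i + 1) * n)
  have h3 : 0 ≤ ‖a⁻¹‖ ^ (i + 1) := pow_nonneg (norm_nonneg _) _
  calc ‖a⁻¹‖ ^ (i + 1) * ‖t‖ ^ (∑ l ∈ Finset.range i, (j + (l + 1) * n)) *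
        ‖Q (j + (i + 1) * n)‖
      ≤ ‖a⁻¹‖ ^ (i + 1) * ‖t‖ ^ (∑ l ∈ Finset.range i, l) * (C * R ^ (j + (i + 1) * n)) := by
        gcongr
    _ = _ := by
        rw [mul_pow, ← pow_mul, mul_comm n (i + 1), pow_add R]
        ring

theorem tail_coeff {Q : ℕ → ℂ} {a t : ℂ} {n : ℕ} (hn : 0 < n) (ha : a ≠ 0) (ht0 : t ≠ 0)
    (ht : ‖t‖ < 1) {C R : ℝ} (hR : 0 < R) (hC : 0 ≤ C) (hQ : ∀ m, ‖Q m‖ ≤ C * R ^ m) :
    (∀ j, Q (j + n) + t ^ (j + n) * hj Q a t n (j + n) = a * hj Q a t n j) ∧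
      ∀ j, ‖hj Q a t n j‖ ≤ C * R ^ j * ∑' i, maj (‖a⁻¹‖ * R ^ n) ‖t‖ i := by
  have hK : 0 < ‖a⁻¹‖ * R ^ n := mul_pos (norm_pos_iff.2 (inv_ne_zero ha)) (pow_pos hR n)
  have hms := maj_summable hK (norm_pos_iff.2 ht0) ht
  have hs : ∀ j, Summable (term Q a t n j) := fun j =>
    Summable.of_norm_bounded (hms.mul_left (C * R ^ j)) (term_le hn ht hQ j)
  constructor
  · intro j
    have h1 : hj Q a t n j = a⁻¹ * Q (j + n) + a⁻¹ * t ^ (j + n) * hj Q a t n (j + n) := by
      unfold hj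
      rw [(hs j).tsum_eq_zero_add, ← tsum_mul_left]
      congr 1
      · unfold term
        simp
      · refine tsum_congr fun i => ?_
        unfold term
        rw [Finset.sum_range_succ', show j + (i + 1 + 1) * n = j + n + (i + 1) * n by ring,
          pow_succ a⁻¹ (i + 1)]
        have h2 : ∑ k ∈ Finset.range i, (j + (k + 1 + 1) * n) =
            ∑ l ∈ Finset.range i, (j + n + (l + 1) * n) :=
          Finset.sum_congr rfl fun k _ => by ring
        rw [h2, zero_add, one_mul, pow_add t]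
        ring
    rw [h1]
    field_simp
  · intro j
    have h1 : Summable fun i => C * R ^ j * maj (‖a⁻¹‖ * R ^ n) ‖t‖ i := hms.mul_left _
    rw [← tsum_mul_left]
    exact tsum_of_norm_bounded h1.hasSum (term_le hn ht hQ j)

end End

open End in
/-- Row END (file End.lean): the tail of `Q`. -/
theorem tail {Q : ℂ → ℂ} (hQ : AnalyticAt ℂ Q 0) (h0 : Q 0 = 0) {a t : ℂ} {n : ℕ}
    (hn : 0 < n) (ha : a ≠ 0) (ht0 : t ≠ 0) (ht : ‖t‖ < 1) :
    ∃ (h : ℂ → ℂ) (P : Polynomial ℂ), AnalyticAt ℂ h 0 ∧ h 0 = 0 ∧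
      ∀ᶠ s in 𝓝 (0 : ℂ), Q s + h (t * s) - a * s ^ n * h s = P.eval s := by
  obtain ⟨p, hp⟩ := hQ
  set q : ℕ → ℂ := fun m => p.coeff m with hq
  have hsum : ∀ᶠ z in 𝓝 (0 : ℂ), HasSum (fun m => q m * z ^ m) (Q z) := by
    have := (hasFPowerSeriesAt_iff.1 hp)
    filter_upwards [this] with z hz
    rw [zero_add] at hz
    have h1 : (fun m => q m * z ^ m) = fun m => z ^ m • p.coeff m := by
      funext m
      rw [smul_eq_mul, mul_comm]
    rw [h1]
    exact hz
  -- bound of the coefficients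
  obtain ⟨C, R, hR, hC, hqb⟩ : ∃ C R : ℝ, 0 < R ∧ 0 ≤ C ∧ ∀ m, ‖q m‖ ≤ C * R ^ m := by
    obtain ⟨δ, hδ, hδs⟩ := Metric.eventually_nhds_iff.1 hsum
    have h1 : HasSum (fun m => q m * ((δ / 2 : ℝ) : ℂ) ^ m) (Q ((δ / 2 : ℝ) : ℂ)) := by
      refine hδs ?_
      rw [dist_zero_right, Complex.norm_real, Real.norm_of_nonneg (by positivity)]
      linarith
    have h2 := h1.summable.tendsto_atTop_zero
    obtain ⟨C, hC⟩ := (h2.norm).bddAbove_range
    have h3 : ∀ m, ‖q m * ((δ / 2 : ℝ) : ℂ) ^ m‖ ≤ C := fun m => hC ⟨m, rfl⟩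
    have hC0 : 0 ≤ C := (norm_nonneg _).trans (h3 0)
    refine ⟨C, (δ / 2)⁻¹, by positivity, hC0, fun m => ?_⟩
    have h4 := h3 m
    rw [norm_mul, norm_pow, Complex.norm_real, Real.norm_of_nonneg (by positivity)] at h4
    rw [inv_pow, ← div_eq_mul_inv, le_div_iff₀ (by positivity)]
    exact h4
  obtain ⟨hrec, hbd⟩ := tail_coeff (Q := q) (a := a) (t := t) hn ha ht0 ht hR hC hqb
  set U : ℝ := ∑' i, maj (‖a⁻¹‖ * R ^ n) ‖t‖ i with hU
  set c : ℕ → ℂ := fun j => if j = 0 then 0 else hj q a t n j with hc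
  have hU0 : 0 ≤ C * U := by
    have := (norm_nonneg _).trans (hbd 0)
    simpa using this
  have hcb : ∀ j, ‖c j‖ ≤ C * U * R ^ j := by
    intro j
    simp only [hc]
    split_ifs
    · rw [norm_zero]
      positivity
    · calc ‖hj q a t n j‖ ≤ C * R ^ j * U := hbd j
        _ = C * U * R ^ j := by ring
  have hterm : ∀ (j : ℕ) (s : ℂ), ‖s‖ < (2 * R)⁻¹ → ‖c j * s ^ j‖ ≤ C * U * (1 / 2) ^ j := by
    intro j s hs
    rw [norm_mul, norm_pow]
    have h1 : R ^ j * ‖s‖ ^ j ≤ (1 / 2) ^ j := by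
      rw [← mul_pow]
      refine pow_le_pow_left₀ (by positivity) ?_ j
      have : R * ‖s‖ ≤ R * (2 * R)⁻¹ := mul_le_mul_of_nonneg_left hs.le hR.le
      refine this.trans (le_of_eq ?_)
      field_simp
    calc ‖c j‖ * ‖s‖ ^ j ≤ C * U * R ^ j * ‖s‖ ^ j := by
          gcongr
          exact hcb j
      _ = C * U * (R ^ j * ‖s‖ ^ j) := by ring
      _ ≤ C * U * (1 / 2) ^ j := mul_le_mul_of_nonneg_left h1 hU0
  have hgs : Summable fun j : ℕ => C * U * (1 / 2 : ℝ) ^ j :=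
    (summable_geometric_of_lt_one (by norm_num) (by norm_num)).mul_left _
  have hcs : ∀ s : ℂ, ‖s‖ < (2 * R)⁻¹ → Summable fun j => c j * s ^ j := fun s hs =>
    Summable.of_norm_bounded hgs fun j => hterm j s hs
  set h : ℂ → ℂ := fun s => ∑' j, c j * s ^ j with hh
  have hρ : 0 < (2 * R)⁻¹ := by positivity
  have hdiff : DifferentiableOn ℂ h (Metric.ball 0 (2 * R)⁻¹) := by
    refine Complex.differentiableOn_tsum_of_summable_norm hgs (fun j => ?_) Metric.isOpen_ball ?_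
    · exact ((differentiable_const _).mul (differentiable_id.pow j)).differentiableOn
    · intro j s hs
      rw [mem_ball_zero_iff] at hs
      exact hterm j s hs
  refine ⟨h, ∑ m ∈ Finset.range (n + 1), Polynomial.C (q m + t ^ m * c m) * Polynomial.X ^ m,
    hdiff.analyticAt (Metric.ball_mem_nhds _ hρ), ?_, ?_⟩
  · simp only [hh]
    rw [tsum_eq_single 0]
    · simp [hc]
    · intro j hj
      rw [zero_pow hj, mul_zero]
  have hball : ∀ᶠ s in 𝓝 (0 : ℂ), ‖s‖ < (2 * R)⁻¹ := by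
    filter_upwards [Metric.ball_mem_nhds (0 : ℂ) hρ] with s hs
    rwa [mem_ball_zero_iff] at hs
  filter_upwards [hsum, hball] with s hs hsR
  have e1 : HasSum (fun j => c j * s ^ j) (h s) := (hcs s hsR).hasSum
  have hts : ‖t * s‖ < (2 * R)⁻¹ := by
    rw [norm_mul]
    have : ‖t‖ * ‖s‖ ≤ 1 * ‖s‖ := mul_le_mul_of_nonneg_right ht.le (norm_nonneg _)
    linarith
  have e2 : HasSum (fun j => t ^ j * c j * s ^ j) (h (t * s)) := by
    have h2 : HasSum (fun j => c j * (t * s) ^ j) (h (t * s)) := (hcs (t * s) hts).hasSum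
    have h1 : (fun j => c j * (t * s) ^ j) = fun j => t ^ j * c j * s ^ j := by
      funext j
      rw [mul_pow]
      ring
    rwa [h1] at h2
  have e3 : HasSum (fun m => if n ≤ m then a * c (m - n) * s ^ m else 0) (a * s ^ n * h s) := by
    have h1 := e1.mul_left (a * s ^ n)
    have h2 : Function.Injective fun j : ℕ => j + n := fun i j hij => Nat.add_right_cancel hij
    rw [← Function.Injective.hasSum_iff h2]
    · have h3 : ((fun m => if n ≤ m then a * c (m - n) * s ^ m else 0) ∘ fun j => j + n) =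
          fun j => a * s ^ n * (c j * s ^ j) := by
        funext j
        simp only [Function.comp_apply]
        rw [if_pos (by omega), Nat.add_sub_cancel, pow_add]
        ring
      rw [h3]
      exact h1
    · intro m hm
      rw [if_neg]
      intro h3
      exact hm ⟨m - n, Nat.sub_add_cancel h3⟩
  have e4 := (hs.add e2).sub e3
  have e5 : HasSum (fun m => q m * s ^ m + t ^ m * c m * s ^ m -
      (if n ≤ m then a * c (m - n) * s ^ m else 0))
      (∑ m ∈ Finset.range (n + 1), (q m * s ^ m + t ^ m * c m * s ^ m -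
      (if n ≤ m then a * c (m - n) * s ^ m else 0))) := by
    refine hasSum_sum_of_ne_finset_zero ?_
    intro m hm
    rw [Finset.mem_range, not_lt] at hm
    have h1 : c m = hj q a t n m := by
      simp only [hc]
      rw [if_neg (by omega)]
    have h2 : c (m - n) = hj q a t n (m - n) := by
      simp only [hc]
      rw [if_neg (by omega)]
    have h3 := hrec (m - n)
    rw [Nat.sub_add_cancel (by omega)] at h3
    rw [if_pos (by omega), h1, h2, ← h3]
    ring
  rw [e4.unique e5, Polynomial.eval_finsetSum]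
  refine Finset.sum_congr rfl fun m hm => ?_
  rw [Finset.mem_range] at hm
  rw [Polynomial.eval_mul, Polynomial.eval_C, Polynomial.eval_pow, Polynomial.eval_X]
  split_ifs with h1
  · have h2 : m - n = 0 := by omega
    rw [h2]
    have h3 : c 0 = 0 := by simp [hc]
    rw [h3]
    ring
  · ring

end Pool.Agent.KS
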