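import Pool.Agent.KS.Defs

/-!
# Example: the Hopf surface of `w ↦ w / 2` is given by Kato's construction
-/

set_option autoImplicit false

namespace Pool.Agent.KS.Exa

open scoped Manifold ContDiff Topology
open Filter

/-- The plane without the origin. -/
def Om : TopologicalSpace.Opens C2 := ⟨{0}ᶜ, isOpen_compl_singleton⟩

theorem mem_Om {w : C2} : w ∈ Om ↔ w ≠ 0 := Iff.rfl

/-- The group. -/
abbrev Gp := Multiplicative ℤ

theorem two_zpow_ne (k : ℤ) : (2 : ℂ) ^ k ≠ 0 := zpow_ne_zero k two_ne_zero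

noncomputable instance : SMul Gp Om :=
  ⟨fun g y => ⟨(2 : ℂ) ^ g.toAdd • y.1, smul_ne_zero (two_zpow_ne _) y.2⟩⟩

theorem smul_val (g : Gp) (y : Om) : (g • y).1 = (2 : ℂ) ^ g.toAdd • y.1 := rfl

noncomputable instance : MulAction Gp Om where
  one_smul y := by
    apply Subtype.ext
    rw [smul_val, toAdd_one, zpow_zero, one_smul]
  mul_smul g g' y := by
    apply Subtype.ext
    rw [smul_val, smul_val, smul_val, toAdd_mul, zpow_add₀ two_ne_zero, smul_smul]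

instance : ContinuousConstSMul Gp Om :=
  ⟨fun g => Continuous.subtype_mk (continuous_subtype_val.const_smul ((2 : ℂ) ^ g.toAdd)) _⟩

theorem norm_two_zpow (k : ℤ) : ‖(2 : ℂ) ^ k‖ = (2 : ℝ) ^ k := by
  rw [norm_zpow, Complex.norm_ofNat]

instance : IsCancelSMul Gp Om where
  left_cancel' g y y' h := by
    apply Subtype.ext
    have h1 := congrArg Subtype.val h
    rw [smul_val, smul_val] at h1
    exact smul_right_injective C2 (two_zpow_ne _) h1
  right_cancel' g g' y h := by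
    have h1 := congrArg Subtype.val h
    rw [smul_val, smul_val] at h1
    have h2 : (2 : ℂ) ^ g.toAdd = (2 : ℂ) ^ g'.toAdd := smul_left_injective ℂ y.2 h1
    have h3 := congrArg norm h2
    rw [norm_two_zpow, norm_two_zpow] at h3
    have h4 : g.toAdd = g'.toAdd := zpow_right_injective₀ (by norm_num) (by norm_num) h3
    exact Multiplicative.toAdd.injective h4

instance : LocallyCompactSpace Om := Om.isOpen.locallyCompactSpace

theorem exists_bounds {K : Set Om} (hK : IsCompact K) : ∃ a b : ℝ, 0 < a ∧ 0 < b ∧ ∀ y ∈ K,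
    a ≤ ‖y.1‖ ∧ ‖y.1‖ ≤ b := by
  rcases K.eq_empty_or_nonempty with rfl | hne
  · exact ⟨1, 1, one_pos, one_pos, fun y hy => absurd hy (Set.notMem_empty y)⟩
  · have hc : ContinuousOn (fun y : Om => ‖y.1‖) K := by fun_prop
    obtain ⟨y0, hy0, hmin⟩ := hK.exists_isMinOn hne hc
    obtain ⟨y1, hy1, hmax⟩ := hK.exists_isMaxOn hne hc
    exact ⟨‖y0.1‖, ‖y1.1‖, norm_pos_iff.2 y0.2, norm_pos_iff.2 y1.2,
      fun y hy => ⟨hmin hy, hmax hy⟩⟩

instance : ProperlyDiscontinuousSMul Gp Om where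
  finite_disjoint_inter_image {K L} hK hL := by
    obtain ⟨a, b, ha, hb, hab⟩ := exists_bounds hK
    obtain ⟨c, d, hc, hd, hcd⟩ := exists_bounds hL
    obtain ⟨N, hN⟩ := pow_unbounded_of_one_lt (max (d / a) (b / c)) (one_lt_two (α := ℝ))
    have hN1 : d / a < 2 ^ N := lt_of_le_of_lt (le_max_left _ _) hN
    have hN2 : b / c < 2 ^ N := lt_of_le_of_lt (le_max_right _ _) hN
    refine ((Set.finite_Icc (-(N : ℤ)) N).preimage
      (f := fun g : Gp => g.toAdd) Multiplicative.toAdd.injective.injOn).subset ?_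
    rintro g ⟨_, ⟨y, hy, rfl⟩, hy'⟩
    have h1 := hab y hy
    have h2 := hcd _ hy'
    simp only [smul_val, norm_smul, norm_two_zpow] at h2
    simp only [Set.mem_preimage, Set.mem_Icc]
    constructor
    · by_contra hcon
      have h3 : (2 : ℝ) ^ g.toAdd ≤ (2 : ℝ) ^ (-(N : ℤ)) :=
        zpow_le_zpow_right₀ one_le_two (by omega)
      rw [zpow_neg, zpow_natCast] at h3
      have h4 : c ≤ ((2 : ℝ) ^ N)⁻¹ * b :=
        h2.1.trans (mul_le_mul h3 h1.2 (norm_nonneg _) (by positivity))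
      rw [div_lt_iff₀ hc] at hN2
      rw [inv_mul_eq_div, le_div_iff₀ (by positivity)] at h4
      linarith
    · by_contra hcon
      have h3 : (2 : ℝ) ^ (N : ℤ) ≤ (2 : ℝ) ^ g.toAdd :=
        zpow_le_zpow_right₀ one_le_two (by omega)
      rw [zpow_natCast] at h3
      have h4 : (2 : ℝ) ^ N * a ≤ d :=
        (mul_le_mul h3 h1.1 ha.le (by positivity)).trans h2.2
      rw [div_lt_iff₀ ha] at hN1
      linarith

/-- The Hopf surface. -/
def Hopf : Type := MulAction.orbitRel.Quotient Gp Om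

instance : TopologicalSpace Hopf :=
  inferInstanceAs (TopologicalSpace (Quotient (MulAction.orbitRel Gp Om)))

instance : T2Space Hopf := inferInstanceAs (T2Space (Quotient (MulAction.orbitRel Gp Om)))

/-- The projection. -/
noncomputable def pr (y : Om) : Hopf := Quotient.mk (MulAction.orbitRel Gp Om) y

theorem pr_surj : Function.Surjective pr := Quotient.mk_surjective

theorem pr_eq {y y' : Om} : pr y = pr y' ↔ ∃ k : ℤ, y'.1 = (2 : ℂ) ^ k • y.1 := by
  constructor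
  · intro h
    obtain ⟨g, hg⟩ := Quotient.exact h.symm
    refine ⟨g.toAdd, ?_⟩
    rw [← smul_val]
    exact congrArg Subtype.val hg.symm
  · rintro ⟨k, hk⟩
    refine (Quotient.sound ?_).symm
    exact ⟨Multiplicative.ofAdd k, Subtype.ext hk.symm⟩

theorem pr_lh : IsLocalHomeomorph pr :=
  (isQuotientCoveringMap_quotientMk_of_properlyDiscontinuousSMul (G := Gp)
    (E := Om)).isCoveringMap.isLocalHomeomorph

/-- The compatible charts. -/
def PP (c : OpenPartialHomeomorph Hopf C2) : Prop :=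
  ∀ x ∈ c.source, ∃ y : Om, pr y = x ∧ c x = y.1

instance : Nonempty Om := ⟨⟨(1, 0), fun h => one_ne_zero (congrArg Prod.fst h)⟩⟩

/-- The inclusion of an open set as a chart. -/
noncomputable def inc (V : TopologicalSpace.Opens C2) [Nonempty V] : OpenPartialHomeomorph V C2 :=
  V.isOpenEmbedding'.toOpenPartialHomeomorph Subtype.val

/-- The charts of the Hopf surface. -/
noncomputable def ch (y : Om) : OpenPartialHomeomorph Hopf C2 :=
  (pr_lh.localInverseAt y).trans (inc Om)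

theorem ch_PP (y : Om) : PP (ch y) := by
  intro x hx
  refine ⟨pr_lh.localInverseAt y x, ?_, rfl⟩
  exact pr_lh.apply_localInverseAt_of_mem hx.1

theorem mem_ch (y : Om) : pr y ∈ (ch y).source := by
  simp [ch, inc]

theorem ch_pr (y : Om) : ∀ᶠ y' in 𝓝 y, pr y' ∈ (ch y).source ∧ ch y (pr y') = y'.1 := by
  have h1 : (pr_lh.localInverseAt y).target ∈ 𝓝 y :=
    (pr_lh.localInverseAt y).open_target.mem_nhds pr_lh.self_mem_localInverseAt_target
  filter_upwards [h1] with y' hy'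
  have h2 : (pr_lh.localInverseAt y).symm y' = pr y' := by
    rw [pr_lh.localInverseAt_symm]
  have h3 := (pr_lh.localInverseAt y).map_target hy'
  have h4 := (pr_lh.localInverseAt y).right_inv hy'
  rw [h2] at h3 h4
  refine ⟨by simp [ch, inc, h3], ?_⟩
  change ((pr_lh.localInverseAt y) (pr y')).1 = y'.1
  rw [h4]

noncomputable instance : ChartedSpace C2 Hopf where
  atlas := {c | PP c}
  chartAt x := ch (pr_surj x).choose
  mem_chart_source x := by
    have h := mem_ch (pr_surj x).choose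
    rwa [(pr_surj x).choose_spec] at h
  chart_mem_atlas x := ch_PP _

theorem near_zpow {k k0 : ℤ} (h1 : (2 : ℝ) ^ k < 2 * (2 : ℝ) ^ k0)
    (h2 : (2 : ℝ) ^ k0 < 2 * (2 : ℝ) ^ k) : k = k0 := by
  have e : ∀ j : ℤ, 2 * (2 : ℝ) ^ j = (2 : ℝ) ^ (j + 1) := by
    intro j
    rw [zpow_add₀ two_ne_zero, zpow_one, mul_comm]
  rw [e] at h1 h2
  have h3 := (zpow_lt_zpow_iff_right₀ (one_lt_two (α := ℝ))).1 h1
  have h4 := (zpow_lt_zpow_iff_right₀ (one_lt_two (α := ℝ))).1 h2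
  omega

theorem compat {c c' : OpenPartialHomeomorph Hopf C2} (h : PP c) (h' : PP c') :
    ContDiffOn ℂ ω (c.symm.trans c') (c.symm.trans c').source := by
  have key : ∀ z ∈ (c.symm.trans c').source, z ≠ 0 ∧ ∃ k : ℤ,
      (c.symm.trans c') z = (2 : ℂ) ^ k • z := by
    intro z hz
    have hz1 : z ∈ c.target := hz.1
    have hz2 : c.symm z ∈ c'.source := hz.2
    obtain ⟨y, hy1, hy2⟩ := h _ (c.map_target hz1)
    obtain ⟨y', hy1', hy2'⟩ := h' _ hz2
    rw [c.right_inv hz1] at hy2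
    rw [hy2]
    refine ⟨y.2, ?_⟩
    obtain ⟨k, hk⟩ := pr_eq.1 (hy1.trans hy1'.symm)
    refine ⟨k, ?_⟩
    rw [← hk, ← hy2', ← hy2]
    rfl
  intro z0 hz0
  obtain ⟨hne, k0, hk0⟩ := key z0 hz0
  have hopen := (c.symm.trans c').open_source
  have hcont : ContinuousAt (c.symm.trans c') z0 :=
    (c.symm.trans c').continuousAt hz0
  have hc1 : Tendsto (fun z => ‖(c.symm.trans c') z‖) (𝓝 z0) (𝓝 ‖(2 : ℂ) ^ k0 • z0‖) := by
    rw [← hk0]
    exact hcont.norm
  have hc2 : Tendsto (fun z => 2 * ‖(2 : ℂ) ^ k0 • z‖) (𝓝 z0) (𝓝 (2 * ‖(2 : ℂ) ^ k0 • z0‖)) :=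
    ((continuous_const_smul ((2 : ℂ) ^ k0)).norm.const_mul 2).tendsto z0
  have hpos : 0 < ‖(2 : ℂ) ^ k0 • z0‖ := norm_pos_iff.2 (smul_ne_zero (two_zpow_ne _) hne)
  have e1 : ∀ᶠ z in 𝓝 z0, ‖(c.symm.trans c') z‖ < 2 * ‖(2 : ℂ) ^ k0 • z‖ :=
    hc1.eventually_lt hc2 (by linarith)
  have e2 : ∀ᶠ z in 𝓝 z0, ‖(2 : ℂ) ^ k0 • z‖ < 2 * ‖(c.symm.trans c') z‖ :=
    ((continuous_const_smul ((2 : ℂ) ^ k0)).norm.tendsto z0).eventually_lt
      (hc1.const_mul 2) (by simpa using (by linarith : ‖(2 : ℂ) ^ k0 • z0‖ <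
        2 * ‖(2 : ℂ) ^ k0 • z0‖))
  refine ContDiffAt.contDiffWithinAt ?_
  have h3 : ContDiffAt ℂ ω (fun z : C2 => (2 : ℂ) ^ k0 • z) z0 :=
    (contDiff_id.const_smul ((2 : ℂ) ^ k0)).contDiffAt
  refine h3.congr_of_eventuallyEq ?_
  filter_upwards [e1, e2, hopen.mem_nhds hz0] with z hz1 hz2 hz3
  obtain ⟨hzne, k, hk⟩ := key z hz3
  rw [hk, norm_smul, norm_smul, norm_two_zpow, norm_two_zpow, ← mul_assoc] at hz1 hz2
  have hzp : 0 < ‖z‖ := norm_pos_iff.2 hzne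
  have h4 := lt_of_mul_lt_mul_right hz1 hzp.le
  have h5 := lt_of_mul_lt_mul_right hz2 hzp.le
  rw [hk, near_zpow h4 h5]

instance : IsManifold 𝓘(ℂ, C2) ω Hopf :=
  isManifold_of_contDiffOn _ _ _ fun e e' he he' => by
    simpa using compat he he'

/-- The Hopf surface as a complex surface. -/
noncomputable def HopfS : Surf where
  carrier := Hopf

/-- A criterion for local biholomorphisms. -/
theorem lbi_of {M N : Type} [TopologicalSpace M] [ChartedSpace C2 M] [TopologicalSpace N]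
    [ChartedSpace C2 N] {f : M → N} {x : M} {c : OpenPartialHomeomorph M C2}
    {e : OpenPartialHomeomorph N C2}
    (hc : ContMDiffOn 𝓘(ℂ, C2) 𝓘(ℂ, C2) ω c c.source)
    (hc' : ContMDiffOn 𝓘(ℂ, C2) 𝓘(ℂ, C2) ω c.symm c.target)
    (he : ContMDiffOn 𝓘(ℂ, C2) 𝓘(ℂ, C2) ω e e.source)
    (he' : ContMDiffOn 𝓘(ℂ, C2) 𝓘(ℂ, C2) ω e.symm e.target) (hx : x ∈ c.source)
    (h : ∀ᶠ y in 𝓝 x, f y ∈ e.source ∧ e (f y) = c y) : LBi f x := by
  obtain ⟨s, hs, hso, hxs⟩ := eventually_nhds_iff.1 h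
  set Φ : OpenPartialHomeomorph M N := (c.restrOpen s hso).trans e.symm with hΦ
  have hsrc : ∀ y ∈ Φ.source, y ∈ c.source ∧ y ∈ s ∧ c y ∈ e.target := by
    intro y hy
    have h1 : y ∈ (c.restrOpen s hso).source := hy.1
    exact ⟨h1.1, h1.2, hy.2⟩
  have hval : ∀ y ∈ Φ.source, f y = Φ y := by
    intro y hy
    obtain ⟨h1, h2, h3⟩ := hsrc y hy
    change f y = e.symm (c y)
    rw [← (hs y h2).2, e.left_inv (hs y h2).1]
  refine ⟨⟨Φ.toPartialEquiv, Φ.open_source, Φ.open_target, ?_, ?_⟩, ?_, hval⟩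
  · exact he'.comp (hc.mono fun y hy => (hsrc y hy).1) fun y hy => (hsrc y hy).2.2
  · have htgt : ∀ z ∈ Φ.target, z ∈ e.source ∧ e z ∈ c.target := by
      intro z hz
      have h1 : z ∈ e.source := hz.1
      have h2 : e z ∈ (c.restrOpen s hso).target := hz.2
      refine ⟨h1, ?_⟩
      have h3 : (c.restrOpen s hso).symm (e z) ∈ (c.restrOpen s hso).source :=
        (c.restrOpen s hso).map_target h2
      have h4 : (c.restrOpen s hso) ((c.restrOpen s hso).symm (e z)) = e z :=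
        (c.restrOpen s hso).right_inv h2
      rw [← h4]
      exact c.map_source h3.1
    exact hc'.comp (he.mono fun z hz => (htgt z hz).1) fun z hz => (htgt z hz).2
  · refine ⟨⟨hx, hxs⟩, ?_⟩
    have h1 := hs x hxs
    change c x ∈ e.target
    rw [← h1.2]
    exact e.map_source h1.1

/-- The unit ball. -/
def Ub : TopologicalSpace.Opens C2 := ⟨Metric.ball 0 1, Metric.isOpen_ball⟩

theorem mem_Ub {w : C2} : w ∈ Ub ↔ ‖w‖ < 1 := mem_ball_zero_iff

theorem half_mem {w : C2} (h : ‖w‖ < 1) : (1 / 2 : ℂ) • w ∈ Ub := by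
  rw [mem_Ub, norm_smul]
  norm_num
  linarith [norm_nonneg w]

theorem zero_mem_Ub : (0 : C2) ∈ Ub := by
  rw [mem_Ub, norm_zero]
  exact one_pos

instance : Nonempty Ub := ⟨⟨0, zero_mem_Ub⟩⟩

open Classical in
/-- The contraction. -/
noncomputable def sg (w : C2) : Ub :=
  if h : ‖w‖ < 1 then ⟨(1 / 2 : ℂ) • w, half_mem h⟩ else ⟨0, zero_mem_Ub⟩

theorem sg_val {w : C2} (h : ‖w‖ < 1) : (sg w).1 = (1 / 2 : ℂ) • w := by
  simp only [sg, dif_pos h]

open Classical in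
/-- The projection. -/
noncomputable def qq (x : Ub) : Hopf := if h : x.1 ≠ 0 then pr ⟨x.1, h⟩ else pr ⟨(1, 0), by
  exact fun h => one_ne_zero (congrArg Prod.fst h)⟩

theorem qq_val {x : Ub} (h : x.1 ≠ 0) : qq x = pr ⟨x.1, h⟩ := by
  simp only [qq, dif_pos h]

theorem inc_smooth (V : TopologicalSpace.Opens C2) [Nonempty V] :
    ContMDiffOn 𝓘(ℂ, C2) 𝓘(ℂ, C2) ω (inc V) (inc V).source ∧
      ContMDiffOn 𝓘(ℂ, C2) 𝓘(ℂ, C2) ω (inc V).symm (inc V).target := by
  refine ⟨contMDiff_subtype_val.contMDiffOn, fun z hz => ?_⟩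
  refine (ChartedSpace.liftPropWithinAt_subtypeVal_comp_iff ..).1 ?_
  have h1 : ∀ w ∈ (inc V).target, (Subtype.val ∘ (inc V).symm) w = w := fun w hw =>
    (inc V).right_inv hw
  have h2 : ContMDiffWithinAt 𝓘(ℂ, C2) 𝓘(ℂ, C2) ω (Subtype.val ∘ (inc V).symm)
      (inc V).target z := contMDiffWithinAt_id.congr h1 (h1 z hz)
  exact h2

theorem iter_val (x : Ub) (k : ℕ) :
    ((sg ∘ fun x : Ub => x.1)^[k] x).1 = (1 / 2 : ℂ) ^ k • x.1 := by
  induction k with
  | zero => simp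
  | succ k ih =>
    rw [Function.iterate_succ_apply', Function.comp_apply, sg_val (mem_Ub.1 (Subtype.mem _)), ih,
      smul_smul, pow_succ, mul_comm]

theorem iter_val' {x : C2} (hx : ‖x‖ < 1) (k : ℕ) :
    ((fun x : Ub => x.1) ∘ sg)^[k] x = (1 / 2 : ℂ) ^ k • x ∧ ‖(1 / 2 : ℂ) ^ k • x‖ < 1 := by
  induction k with
  | zero => simpa using hx
  | succ k ih =>
    have h1 := mem_Ub.1 (half_mem ih.2)
    rw [Function.iterate_succ_apply', ih.1, Function.comp_apply, sg_val ih.2]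
    rw [smul_smul, ← pow_succ'] at h1 ⊢
    exact ⟨rfl, h1⟩

theorem half_pow (k : ℕ) : (1 / 2 : ℂ) ^ k = (2 : ℂ) ^ (-(k : ℤ)) := by
  rw [zpow_neg, zpow_natCast, one_div, inv_pow]

theorem half_ne (k : ℕ) : (1 / 2 : ℂ) ^ k ≠ 0 := pow_ne_zero k (by norm_num)

theorem sg_zero : (sg 0).1 = 0 := by
  rw [sg_val (by simp), smul_zero]

theorem ne_iff {x : Ub} : x ≠ sg 0 ↔ x.1 ≠ 0 := by
  rw [← not_iff_not, not_not, not_not, Subtype.ext_iff, sg_zero]

theorem sg_lbi {x : C2} (hx : ‖x‖ < 1) : LBi sg x := by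
  set c : OpenPartialHomeomorph C2 C2 :=
    (Homeomorph.smulOfNeZero (1 / 2 : ℂ) (by norm_num)).toOpenPartialHomeomorph with hc
  refine lbi_of (c := c) (e := inc Ub) ?_ ?_ (inc_smooth Ub).1 (inc_smooth Ub).2 (by simp [hc]) ?_
  · rw [contMDiffOn_iff_contDiffOn]
    exact (contDiff_id.const_smul (1 / 2 : ℂ)).contDiffOn
  · rw [contMDiffOn_iff_contDiffOn]
    exact (contDiff_id.const_smul ((1 / 2 : ℂ)⁻¹)).contDiffOn
  · have h1 : ∀ᶠ y in 𝓝 x, ‖y‖ < 1 := continuous_norm.continuousAt.eventually (gt_mem_nhds hx)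
    filter_upwards [h1] with y hy
    refine ⟨by simp [inc], ?_⟩
    change (sg y).1 = (1 / 2 : ℂ) • y
    exact sg_val hy

theorem qq_lbi {x : Ub} (hx : x.1 ≠ 0) : LBi (N := Hopf) qq x := by
  have h1 : ch ⟨x.1, hx⟩ ∈ IsManifold.maximalAtlas 𝓘(ℂ, C2) ω Hopf :=
    IsManifold.subset_maximalAtlas (ch_PP _)
  have h2 := (IsManifold.mem_maximalAtlas_iff_contMDiffOn _).1 h1
  refine lbi_of (c := inc Ub) (e := ch ⟨x.1, hx⟩) (inc_smooth Ub).1 (inc_smooth Ub).2 h2.1 h2.2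
    (by simp [inc]) ?_
  have h3 := ch_pr ⟨x.1, hx⟩
  have h4 : ∀ᶠ z in 𝓝 x.1, ∀ hz : z ≠ 0, pr ⟨z, hz⟩ ∈ (ch ⟨x.1, hx⟩).source ∧
      ch ⟨x.1, hx⟩ (pr ⟨z, hz⟩) = z := by
    rw [nhds_subtype_eq_comap, eventually_comap] at h3
    filter_upwards [h3] with z hz hz0
    exact hz ⟨z, hz0⟩ rfl
  have h5 : ∀ᶠ y : Ub in 𝓝 x, y.1 ≠ 0 := continuous_subtype_val.continuousAt.eventually_ne hx
  filter_upwards [h5, continuous_subtype_val.continuousAt.eventually h4] with y hy1 hy2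
  rw [qq_val hy1]
  exact hy2 hy1

theorem qq_surj (p : Hopf) : ∃ x, x ≠ sg 0 ∧ qq x = p := by
  obtain ⟨y, rfl⟩ := pr_surj p
  obtain ⟨k, hk⟩ := pow_unbounded_of_one_lt ‖y.1‖ (one_lt_two (α := ℝ))
  have h1 : ‖(1 / 2 : ℂ) ^ k • y.1‖ < 1 := by
    rw [norm_smul, norm_pow, norm_div, norm_one, Complex.norm_ofNat, div_pow, one_pow,
      one_div, inv_mul_lt_iff₀ (by positivity), mul_one]
    exact hk
  have h2 : (1 / 2 : ℂ) ^ k • y.1 ≠ 0 := smul_ne_zero (half_ne k) y.2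
  refine ⟨⟨(1 / 2 : ℂ) ^ k • y.1, mem_Ub.2 h1⟩, ne_iff.2 h2, ?_⟩
  rw [qq_val (x := ⟨(1 / 2 : ℂ) ^ k • y.1, mem_Ub.2 h1⟩) h2]
  refine pr_eq.2 ⟨k, ?_⟩
  change y.1 = (2 : ℂ) ^ (k : ℤ) • (1 / 2 : ℂ) ^ k • y.1
  rw [smul_smul, half_pow, ← zpow_add₀ two_ne_zero, add_neg_cancel, zpow_zero, one_smul]

theorem qq_iff {x y : Ub} (hx : x.1 ≠ 0) (hy : y.1 ≠ 0) : qq x = qq y ↔
    ∃ k : ℕ, (sg ∘ fun x : Ub => x.1)^[k] x = y ∨ (sg ∘ fun x : Ub => x.1)^[k] y = x := by
  rw [qq_val hx, qq_val hy, pr_eq]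
  constructor
  · rintro ⟨k, hk⟩
    change y.1 = (2 : ℂ) ^ k • x.1 at hk
    rcases le_total k 0 with h | h
    · refine ⟨(-k).toNat, Or.inl (Subtype.ext ?_)⟩
      rw [iter_val, half_pow, Int.toNat_of_nonneg (by omega), neg_neg, hk]
    · refine ⟨k.toNat, Or.inr (Subtype.ext ?_)⟩
      rw [iter_val, half_pow, Int.toNat_of_nonneg h, hk, smul_smul, ← zpow_add₀ two_ne_zero,
        neg_add_cancel, zpow_zero, one_smul]
  · rintro ⟨k, h | h⟩
    · have h1 := congrArg Subtype.val h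
      rw [iter_val, half_pow] at h1
      exact ⟨-(k : ℤ), h1.symm⟩
    · have h1 := congrArg Subtype.val h
      rw [iter_val, half_pow] at h1
      refine ⟨k, ?_⟩
      change y.1 = (2 : ℂ) ^ (k : ℤ) • x.1
      rw [← h1, smul_smul, ← zpow_add₀ two_ne_zero, add_neg_cancel, zpow_zero, one_smul]

/-- The Hopf surface is given by Kato's construction (without blowing up). -/
noncomputable def hopfKato : KatoData HopfS where
  U := Ub
  n := 0
  M := Surf.ofOpen Ub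
  π := fun x : Ub => x.1
  σ := sg
  q := qq
  hM := Modif.base
  zero_mem := zero_mem_Ub
  bdd := Metric.isBounded_ball
  inj := by
    intro w hw w' hw' h
    have h1 := congrArg Subtype.val h
    rw [sg_val (mem_Ub.1 hw), sg_val (mem_Ub.1 hw')] at h1
    exact smul_right_injective C2 (by norm_num : (1 / 2 : ℂ) ≠ 0) h1
  lbi := fun x hx => sg_lbi (mem_Ub.1 hx)
  fix := sg_zero
  contr := by
    intro x hx
    have h1 : Tendsto (fun k : ℕ => (1 / 2 : ℂ) ^ k • x) atTop (𝓝 ((0 : ℂ) • x)) :=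
      (tendsto_pow_atTop_nhds_zero_of_norm_lt_one (by norm_num)).smul_const x
    rw [zero_smul] at h1
    refine h1.congr fun k => ?_
    exact (iter_val' (mem_Ub.1 hx) k).1.symm
  q_lbi := fun x hx => qq_lbi (ne_iff.1 hx)
  q_surj := qq_surj
  q_iff := fun x y hx hy => qq_iff (ne_iff.1 hx) (ne_iff.1 hy)

theorem hopf_gss : IsGSS HopfS := IsGSS.kato hopfKato

end Pool.Agent.KS.Exa
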