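import Pool.Agent.KS.Defs

/-!
# Homogeneous vector fields and Taylor expansion (row JEA)
-/

set_option autoImplicit false

namespace Pool.Agent.KS

open scoped Topology
open Filter Asymptotics

namespace Jea

/-- The moments of a weight on `0, ..., m + 1` are arbitrary. -/
theorem moments (N : ℕ) (μ : ℕ → ℂ) : ∃ c : Fin N → ℂ, ∀ k < N,
    ∑ i : Fin N, c i * ((i : ℕ) : ℂ) ^ k = μ k := by
  have h1 : Function.Injective fun i : Fin N => (((i : ℕ) : ℂ)) := by
    intro i j hij
    exact Fin.ext (Nat.cast_injective hij)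
  have h2 : (Matrix.vandermonde fun i : Fin N => (((i : ℕ) : ℂ))).det ≠ 0 :=
    Matrix.det_vandermonde_ne_zero_iff.2 h1
  have h3 : IsUnit (Matrix.vandermonde fun i : Fin N => (((i : ℕ) : ℂ))).transpose := by
    rw [Matrix.isUnit_iff_isUnit_det, Matrix.det_transpose, isUnit_iff_ne_zero]
    exact h2
  obtain ⟨c, hc⟩ := Matrix.mulVec_surjective_iff_isUnit.2 h3 (fun k => μ k)
  refine ⟨c, fun k hk => ?_⟩
  have h4 := congrFun hc ⟨k, hk⟩
  simp only [Matrix.mulVec, dotProduct, Matrix.transpose_apply, Matrix.vandermonde_apply] at h4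
  rw [← h4]
  exact Finset.sum_congr rfl fun i _ => mul_comm _ _

/-- Expansion of the first family. -/
theorem exp1 (m : ℕ) {N : ℕ} (c : Fin N → ℂ) (e : ℕ) (x y : ℂ) :
    ∑ i : Fin N, c i * (x + (i : ℕ) * y) ^ m * ((i : ℕ) : ℂ) ^ e =
      ∑ k ∈ Finset.range (m + 1), ((m.choose k : ℂ) *
        ∑ i : Fin N, c i * ((i : ℕ) : ℂ) ^ (k + e)) * x ^ (m - k) * y ^ k := by
  have h1 : ∀ i : Fin N, c i * (x + (i : ℕ) * y) ^ m * ((i : ℕ) : ℂ) ^ e =
      ∑ k ∈ Finset.range (m + 1), (m.choose k : ℂ) * (c i * ((i : ℕ) : ℂ) ^ (k + e)) *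
        x ^ (m - k) * y ^ k := by
    intro i
    rw [add_comm x, add_pow, Finset.mul_sum, Finset.sum_mul]
    refine Finset.sum_congr rfl fun k _ => ?_
    rw [mul_pow, pow_add]
    ring
  simp only [h1]
  rw [Finset.sum_comm]
  refine Finset.sum_congr rfl fun k _ => ?_
  rw [Finset.mul_sum, Finset.sum_mul, Finset.sum_mul]

/-- Expansion of the second family. -/
theorem exp2 (m : ℕ) (hm : 1 ≤ m) {N : ℕ} (c : Fin N → ℂ) (e : ℕ) (x y : ℂ) :
    ∑ i : Fin N, c i * ((x + (i : ℕ) * y) ^ (m - 1) * y) * ((i : ℕ) : ℂ) ^ e =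
      ∑ k ∈ Finset.range (m + 1), (if k = 0 then 0 else ((m - 1).choose (k - 1) : ℂ) *
        ∑ i : Fin N, c i * ((i : ℕ) : ℂ) ^ (k - 1 + e)) * x ^ (m - k) * y ^ k := by
  obtain ⟨n, rfl⟩ : ∃ n, m = n + 1 := ⟨m - 1, by omega⟩
  rw [Finset.sum_range_succ']
  simp only [Nat.add_sub_cancel, if_true, zero_mul, add_zero, Nat.add_eq_zero_iff, one_ne_zero,
    and_false, if_false]
  have h1 := exp1 n c e x y
  have h2 : ∑ i : Fin N, c i * ((x + (i : ℕ) * y) ^ n * y) * ((i : ℕ) : ℂ) ^ e =
      (∑ i : Fin N, c i * (x + (i : ℕ) * y) ^ n * ((i : ℕ) : ℂ) ^ e) * y := by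
    rw [Finset.sum_mul]
    exact Finset.sum_congr rfl fun i _ => by ring
  rw [h2, h1, Finset.sum_mul]
  refine Finset.sum_congr rfl fun k _ => ?_
  rw [show n + 1 - (k + 1) = n - k by omega, pow_succ y]
  ring

end Jea

open Jea in
theorem span_fields (m : ℕ) (hm : 1 ≤ m) (A B : ℕ → ℂ) : ∃ c c' : Fin (m + 2) → ℂ, ∀ x y : ℂ,
    (∑ i : Fin (m + 2), (c i * (x + (i : ℕ) * y) ^ m + c' i * ((x + (i : ℕ) * y) ^ (m - 1) * y)) *
        (-((i : ℕ) : ℂ))) = ∑ k ∈ Finset.range (m + 1), A k * x ^ (m - k) * y ^ k ∧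
    (∑ i : Fin (m + 2), (c i * (x + (i : ℕ) * y) ^ m + c' i * ((x + (i : ℕ) * y) ^ (m - 1) * y))) =
      ∑ k ∈ Finset.range (m + 1), B k * x ^ (m - k) * y ^ k := by
  set ν : ℕ → ℂ := fun k => if k < m then (m : ℂ) / (m.choose k : ℂ) *
    (A k + (m.choose k : ℂ) / (m.choose (k + 1) : ℂ) * B (k + 1)) else 0 with hν
  set μ : ℕ → ℂ := fun k => if k ≤ m then (B k - (if k = 0 then 0 else
    ((m - 1).choose (k - 1) : ℂ) * ν (k - 1))) / (m.choose k : ℂ) else -A m with hμ
  obtain ⟨c, hc⟩ := moments (m + 2) μ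
  obtain ⟨c', hc'⟩ := moments (m + 2) ν
  refine ⟨c, c', fun x y => ⟨?_, ?_⟩⟩
  · have h1 : (∑ i : Fin (m + 2), (c i * (x + (i : ℕ) * y) ^ m +
        c' i * ((x + (i : ℕ) * y) ^ (m - 1) * y)) * (-((i : ℕ) : ℂ))) =
        -(∑ i : Fin (m + 2), c i * (x + (i : ℕ) * y) ^ m * ((i : ℕ) : ℂ) ^ 1) -
        ∑ i : Fin (m + 2), c' i * ((x + (i : ℕ) * y) ^ (m - 1) * y) * ((i : ℕ) : ℂ) ^ 1 := by
      rw [← Finset.sum_neg_distrib, ← Finset.sum_sub_distrib]
      refine Finset.sum_congr rfl fun i _ => ?_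
      ring
    rw [h1, exp1, exp2 m hm, ← Finset.sum_neg_distrib, ← Finset.sum_sub_distrib]
    refine Finset.sum_congr rfl fun k hk => ?_
    rw [Finset.mem_range] at hk
    rw [hc (k + 1) (by omega)]
    have h2 : (if k = 0 then (0 : ℂ) else ((m - 1).choose (k - 1) : ℂ) *
        ∑ i : Fin (m + 2), c' i * ((i : ℕ) : ℂ) ^ (k - 1 + 1)) =
        if k = 0 then (0 : ℂ) else ((m - 1).choose (k - 1) : ℂ) * ν k := by
      split_ifs with h
      · rfl
      · rw [Nat.sub_add_cancel (by omega), hc' k (by omega)]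
    rw [h2]
    have h3 : -((m.choose k : ℂ) * μ (k + 1)) -
        (if k = 0 then (0 : ℂ) else ((m - 1).choose (k - 1) : ℂ) * ν k) = A k := by
      rcases Nat.lt_or_ge k m with hkm | hkm
      · have e1 : μ (k + 1) = (B (k + 1) - ((m - 1).choose k : ℂ) * ν k) /
            (m.choose (k + 1) : ℂ) := by
          simp only [hμ]
          rw [if_pos (by omega), if_neg (by omega), Nat.add_sub_cancel]
        have e2 : ν k = (m : ℂ) / (m.choose k : ℂ) *
            (A k + (m.choose k : ℂ) / (m.choose (k + 1) : ℂ) * B (k + 1)) := by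
          simp only [hν]
          rw [if_pos hkm]
        have p0 : (m : ℂ) ≠ 0 := Nat.cast_ne_zero.2 (by omega)
        have p1 : (m.choose k : ℂ) ≠ 0 := Nat.cast_ne_zero.2 (Nat.choose_pos (by omega)).ne'
        have p2 : (m.choose (k + 1) : ℂ) ≠ 0 := Nat.cast_ne_zero.2 (Nat.choose_pos (by omega)).ne'
        have q1 : ((m - 1).choose k : ℂ) = (m.choose (k + 1) : ℂ) * ((k : ℂ) + 1) / m := by
          rw [eq_div_iff p0]
          obtain ⟨n, rfl⟩ : ∃ n, m = n + 1 := ⟨m - 1, by omega⟩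
          have := Nat.add_one_mul_choose_eq n k
          rw [Nat.add_sub_cancel]
          have h4 : ((n + 1 : ℕ) : ℂ) * (n.choose k : ℂ) =
              ((n + 1).choose (k + 1) : ℂ) * ((k + 1 : ℕ) : ℂ) := by exact_mod_cast this
          rw [mul_comm, h4]
          push_cast
          ring
        have q2 : (if k = 0 then (0 : ℂ) else ((m - 1).choose (k - 1) : ℂ) * ν k) =
            (m.choose k : ℂ) * k / m * ν k := by
          split_ifs with h0
          · subst h0
            simp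
          · obtain ⟨j, rfl⟩ : ∃ j, k = j + 1 := ⟨k - 1, by omega⟩
            obtain ⟨n, rfl⟩ : ∃ n, m = n + 1 := ⟨m - 1, by omega⟩
            have := Nat.add_one_mul_choose_eq n j
            rw [Nat.add_sub_cancel, Nat.add_sub_cancel]
            have h4 : ((n + 1 : ℕ) : ℂ) * (n.choose j : ℂ) =
              ((n + 1).choose (j + 1) : ℂ) * ((j + 1 : ℕ) : ℂ) := by exact_mod_cast this
            congr 1
            rw [eq_div_iff p0, mul_comm, h4]
        rw [q2, e1, q1, e2]
        field_simp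
        ring
      · have e1 : k = m := by omega
        subst e1
        have e2 : μ (k + 1) = -A k := by
          simp only [hμ]
          rw [if_neg (by omega)]
        have e3 : ν k = 0 := by
          simp only [hν]
          rw [if_neg (by omega)]
        rw [e2, e3, Nat.choose_self]
        simp
    rw [← h3]
    ring
  · have h1 : (∑ i : Fin (m + 2), (c i * (x + (i : ℕ) * y) ^ m +
        c' i * ((x + (i : ℕ) * y) ^ (m - 1) * y))) =
        (∑ i : Fin (m + 2), c i * (x + (i : ℕ) * y) ^ m * ((i : ℕ) : ℂ) ^ 0) +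
        ∑ i : Fin (m + 2), c' i * ((x + (i : ℕ) * y) ^ (m - 1) * y) * ((i : ℕ) : ℂ) ^ 0 := by
      rw [← Finset.sum_add_distrib]
      refine Finset.sum_congr rfl fun i _ => ?_
      ring
    rw [h1, exp1, exp2 m hm, ← Finset.sum_add_distrib]
    refine Finset.sum_congr rfl fun k hk => ?_
    rw [Finset.mem_range] at hk
    rw [add_zero, add_zero, hc k (by omega)]
    have h2 : (if k = 0 then (0 : ℂ) else ((m - 1).choose (k - 1) : ℂ) *
        ∑ i : Fin (m + 2), c' i * ((i : ℕ) : ℂ) ^ (k - 1)) =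
        if k = 0 then (0 : ℂ) else ((m - 1).choose (k - 1) : ℂ) * ν (k - 1) := by
      split_ifs with h
      · rfl
      · rw [hc' (k - 1) (by omega)]
    rw [h2]
    have p1 : (m.choose k : ℂ) ≠ 0 := Nat.cast_ne_zero.2 (Nat.choose_pos (by omega)).ne'
    have e1 : μ k = (B k - (if k = 0 then 0 else
        ((m - 1).choose (k - 1) : ℂ) * ν (k - 1))) / (m.choose k : ℂ) := by
      simp only [hμ]
      rw [if_pos (by omega)]
    rw [e1, mul_div_cancel₀ _ p1]
    ring

namespace Jea

/-- A homogeneous polynomial map of degree `m` in coordinates. -/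
theorem homog (m : ℕ) (p : C2 [×m]→L[ℂ] C2) : ∃ T : ℕ → C2, ∀ w : C2,
    p (fun _ => w) = ∑ k ∈ Finset.range (m + 1), (w.1 ^ (m - k) * w.2 ^ k) • T k := by
  classical
  set e1 : C2 := (1, 0) with he1
  set e2 : C2 := (0, 1) with he2
  refine ⟨fun k => ∑ s ∈ (Finset.univ : Finset (Finset (Fin m))).filter
    (fun s => m - s.card = k), p (s.piecewise (fun _ => e1) (fun _ => e2)), fun w => ?_⟩
  have h1 : (fun _ : Fin m => w) = (fun _ => w.1 • e1) + (fun _ => w.2 • e2) := by
    funext i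
    simp only [Pi.add_apply, he1, he2]
    ext <;> simp
  have h2 : ∀ s : Finset (Fin m), p (s.piecewise (fun _ => w.1 • e1) (fun _ => w.2 • e2)) =
      (w.1 ^ s.card * w.2 ^ (m - s.card)) • p (s.piecewise (fun _ => e1) (fun _ => e2)) := by
    intro s
    have h3 : s.piecewise (fun _ => w.1 • e1) (fun _ => w.2 • e2) =
        fun i => (if i ∈ s then w.1 else w.2) • s.piecewise (fun _ => e1) (fun _ => e2) i := by
      funext i
      by_cases hi : i ∈ s
      · simp [hi]
      · simp [hi]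
    rw [h3, p.map_smul_univ]
    congr 1
    rw [Finset.prod_ite, Finset.prod_const, Finset.prod_const]
    congr 2
    · congr 1
      ext i
      simp
    · have : (Finset.univ.filter fun i => i ∉ s) = sᶜ := by
        ext i
        simp
      rw [this, Finset.card_compl, Fintype.card_fin]
  rw [h1, p.map_add_univ, Finset.sum_congr rfl fun s _ => h2 s]
  rw [← Finset.sum_fiberwise_of_maps_to (s := (Finset.univ : Finset (Finset (Fin m))))
    (t := Finset.range (m + 1)) (g := fun s => m - s.card)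
    (fun s _ => Finset.mem_range.2 (by omega))]
  refine Finset.sum_congr rfl fun k _ => ?_
  rw [Finset.smul_sum]
  refine Finset.sum_congr rfl fun s hs => ?_
  rw [Finset.mem_filter] at hs
  have h3 : s.card ≤ m := by
    simpa using Finset.card_le_univ s
  have h4 : s.card = m - k := by omega
  rw [h4, show m - (m - k) = k by omega]

end Jea

open Jea in
/-- Taylor expansion. -/
theorem taylor {ψ : C2 → C2} (hψ : AnalyticAt ℂ ψ 0) (m : ℕ)
    (h : ψ =O[𝓝 0] fun w => ‖w‖ ^ m) : ∃ A B : ℕ → ℂ,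
      (fun w : C2 => ψ w - (∑ k ∈ Finset.range (m + 1), A k * w.1 ^ (m - k) * w.2 ^ k,
        ∑ k ∈ Finset.range (m + 1), B k * w.1 ^ (m - k) * w.2 ^ k)) =O[𝓝 0]
      fun w => ‖w‖ ^ (m + 1) := by
  obtain ⟨p, hp⟩ := hψ
  have hb : ∀ n, (fun y => ψ y - p.partialSum n y) =O[𝓝 0] fun y : C2 => ‖y‖ ^ n := by
    intro n
    have := hp.isBigO_sub_partialSum_pow n
    simpa using this
  have hpow : ∀ k, k ≤ m → (fun w : C2 => ‖w‖ ^ m) =O[𝓝 0] fun w : C2 => ‖w‖ ^ k := by
    intro k hk
    refine IsBigO.of_bound 1 ?_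
    filter_upwards [Metric.ball_mem_nhds (0 : C2) one_pos] with w hw
    rw [mem_ball_zero_iff] at hw
    rw [one_mul, norm_pow, norm_pow, norm_norm]
    exact pow_le_pow_of_le_one (norm_nonneg _) hw.le hk
  have hz : ∀ k, k < m → ∀ y : C2, p k (fun _ => y) = 0 := by
    intro k
    induction k using Nat.strong_induction_on with
    | _ k ih =>
      intro hk
      refine Asymptotics.IsBigO.continuousMultilinearMap_apply_eq_zero (n := k) ?_
      have h1 : (fun y : C2 => p k fun _ => y) = fun y => ψ y - (ψ y - p.partialSum (k + 1) y) := by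
        funext y
        rw [sub_sub_cancel]
        unfold FormalMultilinearSeries.partialSum
        rw [Finset.sum_range_succ, Finset.sum_eq_zero, zero_add]
        intro i hi
        rw [Finset.mem_range] at hi
        exact ih i hi (by omega) y
      rw [h1]
      exact (h.trans (hpow (k + 1) hk)).sub (hb (k + 1))
  obtain ⟨T, hT⟩ := homog m (p m)
  refine ⟨fun k => (T k).1, fun k => (T k).2, ?_⟩
  have h2 : (fun w : C2 => ψ w - (∑ k ∈ Finset.range (m + 1), (T k).1 * w.1 ^ (m - k) * w.2 ^ k,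
        ∑ k ∈ Finset.range (m + 1), (T k).2 * w.1 ^ (m - k) * w.2 ^ k)) =
      fun w => ψ w - p.partialSum (m + 1) w := by
    funext w
    have h3 : p.partialSum (m + 1) w = p m fun _ => w := by
      unfold FormalMultilinearSeries.partialSum
      rw [Finset.sum_range_succ, Finset.sum_eq_zero, zero_add]
      intro i hi
      rw [Finset.mem_range] at hi
      exact hz i hi w
    rw [h3, hT]
    congr 1
    refine Prod.ext ?_ ?_
    · rw [Prod.fst_sum]
      show ∑ k ∈ Finset.range (m + 1), (T k).1 * w.1 ^ (m - k) * w.2 ^ k = _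
      refine Finset.sum_congr rfl fun k _ => ?_
      rw [Prod.smul_fst, smul_eq_mul]
      ring
    · rw [Prod.snd_sum]
      show ∑ k ∈ Finset.range (m + 1), (T k).2 * w.1 ^ (m - k) * w.2 ^ k = _
      refine Finset.sum_congr rfl fun k _ => ?_
      rw [Prod.smul_snd, smul_eq_mul]
      ring
  rw [h2]
  exact hb (m + 1)

end Pool.Agent.KS
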