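import Pool.Agent.KS.Defs
import Pool.Agent.KS.Jea
import Pool.Agent.KS.Bia
import Pool.Agent.KS.Div

/-!
# Jets of Cremona germs

Every germ of biholomorphism of the plane at the origin agrees to any given order with a germ of
biholomorphism which is the restriction of a birational map.
-/

set_option autoImplicit false

namespace Pool.Agent.KS

open scoped Manifold ContDiff Topology
open Filter Asymptotics

namespace Jeb

/-- An analytic map with vanishing derivative at the origin has a small Lipschitz constant. -/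
theorem lip2 {k : C2 → C2} (hk : AnalyticAt ℂ k 0) (hd : fderiv ℂ k 0 = 0) :
    ∃ C ε : ℝ, 0 < ε ∧ 0 ≤ C ∧ ∀ r < ε, ∀ x y : C2, ‖x‖ ≤ r → ‖y‖ ≤ r →
      ‖k x - k y‖ ≤ C * r * ‖x - y‖ := by
  have h1 : AnalyticAt ℂ (fderiv ℂ k) 0 := hk.fderiv
  have h2 : (fun w => fderiv ℂ k w) =O[𝓝 0] fun w => ‖w‖ := by
    have := h1.differentiableAt.isBigO_sub
    simpa [hd] using this.norm_right
  obtain ⟨C, hC⟩ := h2.bound
  have h3 : ∀ᶠ w in 𝓝 (0 : C2), AnalyticAt ℂ k w := hk.eventually_analyticAt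
  obtain ⟨ε, hε, hball⟩ := Metric.eventually_nhds_iff_ball.1 (hC.and h3)
  refine ⟨max C 0, ε, hε, le_max_right _ _, ?_⟩
  intro r hr x y hx hy
  have hr0 : 0 ≤ r := (norm_nonneg x).trans hx
  have hconv : Convex ℝ (Metric.closedBall (0 : C2) r) := convex_closedBall _ _
  have := hconv.norm_image_sub_le_of_norm_fderiv_le (𝕜 := ℂ) (f := k) (C := max C 0 * r)
    (x := y) (y := x) ?_ ?_ (by simpa using hy) (by simpa using hx)
  · exact this
  · intro w hw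
    have hw' : w ∈ Metric.ball (0 : C2) ε := by
      simp only [Metric.mem_closedBall, dist_zero_right, Metric.mem_ball] at hw ⊢
      linarith
    exact (hball w hw').2.differentiableAt
  · intro w hw
    have hw' : w ∈ Metric.ball (0 : C2) ε := by
      simp only [Metric.mem_closedBall, dist_zero_right, Metric.mem_ball] at hw ⊢
      linarith
    have h4 := (hball w hw').1
    have h5 : ‖w‖ ≤ r := by simpa using hw
    rw [norm_norm] at h4
    calc ‖fderiv ℂ k w‖ ≤ C * ‖w‖ := h4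
      _ ≤ max C 0 * ‖w‖ := by gcongr; exact le_max_left _ _
      _ ≤ max C 0 * r := by gcongr

/-- An analytic map with vanishing value and derivative at the origin. -/
theorem isBigO_two {k : C2 → C2} (hk : AnalyticAt ℂ k 0) (h0 : k 0 = 0) (hd : fderiv ℂ k 0 = 0) :
    k =O[𝓝 0] fun w => ‖w‖ ^ 2 := by
  obtain ⟨C, ε, hε, hC, h⟩ := lip2 hk hd
  refine IsBigO.of_bound C ?_
  filter_upwards [Metric.ball_mem_nhds (0 : C2) hε] with w hw
  have hw' : ‖w‖ < ε := by simpa using hw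
  have := h ‖w‖ hw' w 0 le_rfl (by simp)
  rw [h0, sub_zero, sub_zero] at this
  simpa [pow_two, mul_assoc] using this

theorem fderiv_eq_zero {k : C2 → C2} (h : k =O[𝓝 0] fun w => ‖w‖ ^ 2) : HasFDerivAt k (0 : C2 →L[ℂ] C2) 0 := by
  have h0 : k 0 = 0 := by
    obtain ⟨C, hC⟩ := h.bound
    have := hC.self_of_nhds
    simpa using this
  rw [hasFDerivAt_iff_isLittleO_nhds_zero]
  simp only [zero_add, h0, sub_zero, _root_.zero_apply]
  refine h.trans_isLittleO ?_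
  have : (fun w : C2 => ‖w‖ ^ 2) =o[𝓝 0] fun w => ‖w‖ ^ 1 :=
    (isLittleO_pow_pow (by norm_num : 1 < 2)).comp_tendsto tendsto_norm_zero
  simp only [pow_one] at this
  exact this.of_norm_right

theorem pow_le_pow {m n : ℕ} (h : m ≤ n) : (fun w : C2 => ‖w‖ ^ n) =O[𝓝 0] fun w => ‖w‖ ^ m := by
  have : (fun x : ℝ => x ^ n) =O[𝓝 0] fun x => x ^ m := by
    obtain rfl | h := h.eq_or_lt
    · exact isBigO_refl _ _
    · exact (isLittleO_pow_pow h).isBigO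
  exact this.comp_tendsto tendsto_norm_zero

/-- A germ close to a local biholomorphism is a local biholomorphism. -/
theorem dif_of_close {φ ψ : C2 → C2} (h : Dif φ) (hψ : AnalyticAt ℂ ψ 0)
    (hc : (fun w => ψ w - φ w) =O[𝓝 0] fun w => ‖w‖ ^ 2) : Dif ψ := by
  have h1 : HasFDerivAt (fun w => ψ w - φ w) (0 : C2 →L[ℂ] C2) 0 := fderiv_eq_zero hc
  have h2 : HasFDerivAt φ (fderiv ℂ φ 0) 0 := h.an.differentiableAt.hasFDerivAt
  have h3 : HasFDerivAt ψ (fderiv ℂ φ 0) 0 := by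
    have := h1.add h2
    rw [zero_add] at this
    refine this.congr_of_eventuallyEq (Eventually.of_forall fun w => ?_)
    simp
  have h0 : ψ 0 = 0 := by
    obtain ⟨C, hC⟩ := hc.bound
    have := hC.self_of_nhds
    simpa [h.zero] using this
  exact ⟨hψ, h0, by rw [h3.fderiv]; exact h.inv⟩

/-- The identity plus `h` is, up to order `m + 1`, the restriction of a birational map. -/
def El (m : ℕ) (h : C2 → C2) : Prop :=
  h =O[𝓝 0] (fun w => ‖w‖ ^ m) ∧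
  ∃ (f : K2 ≃ₐ[ℂ] K2) (J : C2 → C2), Dif J ∧ (∃ V ∈ 𝓝 (0 : C2), Restr f J V) ∧
    (fun w => J w - w - h w) =O[𝓝 0] fun w => ‖w‖ ^ (m + 1)

theorem dif_id : Dif id := ⟨analyticAt_id, rfl, by
  rw [fderiv_id]; exact Function.bijective_id⟩

theorem restr_comp' {f g : K2 ≃ₐ[ℂ] K2} {φ ψ : C2 → C2} (hψ : Dif ψ)
    (h : ∃ V ∈ 𝓝 (0 : C2), Restr f φ V) (h' : ∃ V ∈ 𝓝 (0 : C2), Restr g ψ V) :
    ∃ V ∈ 𝓝 (0 : C2), Restr (f.trans g) (φ ∘ ψ) V := by
  obtain ⟨V, hV, h⟩ := h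
  obtain ⟨V', hV', h'⟩ := h'
  have hc : ContinuousAt ψ 0 := hψ.an.continuousAt
  have : ψ ⁻¹' V ∈ 𝓝 (0 : C2) := by
    apply hc
    rw [hψ.zero]
    exact hV
  refine ⟨V' ∩ ψ ⁻¹' V, inter_mem hV' this, ?_⟩
  exact restr_comp (restr_mono h' Set.inter_subset_left) h (fun w hw => hw.2)

/-- Composition on the right with a germ tangent to the identity. -/
theorem comp_close {k : C2 → C2} (hk : AnalyticAt ℂ k 0) (hd : fderiv ℂ k 0 = 0) {J : C2 → C2}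
    (hJ : Dif J) {m : ℕ} (hJ' : (fun w => J w - w) =O[𝓝 0] fun w => ‖w‖ ^ m) :
    (fun w => k (J w) - k w) =O[𝓝 0] fun w => ‖w‖ ^ (m + 1) := by
  obtain ⟨C, ε, hε, hC, h⟩ := lip2 hk hd
  have hJO : J =O[𝓝 0] fun w => ‖w‖ := by
    have := hJ.an.differentiableAt.isBigO_sub
    simpa [hJ.zero] using this.norm_right
  obtain ⟨D, hD0, hD⟩ := hJO.exists_pos
  obtain ⟨D', hD'0, hD'⟩ := hJ'.exists_pos
  refine IsBigO.of_bound (C * (max D 1) * D') ?_
  have hr : ∀ᶠ w in 𝓝 (0 : C2), (max D 1) * ‖w‖ < ε := by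
    have : Tendsto (fun w : C2 => (max D 1) * ‖w‖) (𝓝 0) (𝓝 ((max D 1) * 0)) :=
      tendsto_norm_zero.const_mul _
    rw [mul_zero] at this
    exact this.eventually (gt_mem_nhds hε)
  filter_upwards [hr, hD.bound, hD'.bound] with w h1 h2 h3
  rw [norm_norm] at h2
  have h4 : ‖J w‖ ≤ max D 1 * ‖w‖ := h2.trans (by gcongr; exact le_max_left _ _)
  have h5 : ‖w‖ ≤ max D 1 * ‖w‖ := by
    have := mul_le_mul_of_nonneg_right (le_max_right D 1) (norm_nonneg w)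
    linarith
  have h6 := h _ h1 (J w) w h4 h5
  rw [Real.norm_of_nonneg (by positivity)] at h3 ⊢
  calc ‖k (J w) - k w‖ ≤ C * (max D 1 * ‖w‖) * ‖J w - w‖ := h6
    _ ≤ C * (max D 1 * ‖w‖) * (D' * ‖w‖ ^ m) := by gcongr
    _ = C * max D 1 * D' * ‖w‖ ^ (m + 1) := by ring

theorem El.zero (m : ℕ) : El m (fun _ => 0) := by
  refine ⟨isBigO_zero _ _, AlgEquiv.refl, id, dif_id, ⟨Set.univ, univ_mem, restr_id⟩, ?_⟩
  simpa using isBigO_zero (E' := C2) (fun w : C2 => ‖w‖ ^ (m + 1)) (𝓝 0)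

theorem El.add {m : ℕ} (hm : 2 ≤ m) {h1 h2 : C2 → C2} (H1 : El m h1) (H2 : El m h2) :
    El m (fun w => h1 w + h2 w) := by
  obtain ⟨e1, f1, J1, d1, r1, o1⟩ := H1
  obtain ⟨e2, f2, J2, d2, r2, o2⟩ := H2
  refine ⟨e1.add e2, f1.trans f2, J1 ∘ J2, dif_comp d1 d2, restr_comp' d2 r1 r2, ?_⟩
  have k1O : (fun w => J1 w - w) =O[𝓝 0] fun w => ‖w‖ ^ m := by
    have := (o1.trans (pow_le_pow (Nat.le_succ m))).add e1
    simpa using this
  have k2O : (fun w => J2 w - w) =O[𝓝 0] fun w => ‖w‖ ^ m := by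
    have := (o2.trans (pow_le_pow (Nat.le_succ m))).add e2
    simpa using this
  have ka : AnalyticAt ℂ (fun w => J1 w - w) 0 := d1.an.sub analyticAt_id
  have kd : fderiv ℂ (fun w => J1 w - w) 0 = 0 :=
    (fderiv_eq_zero (k1O.trans (pow_le_pow hm))).fderiv
  have := comp_close ka kd d2 k2O
  have := (this.add o1).add o2
  refine this.congr_left (fun w => ?_)
  simp only [Function.comp_apply]
  abel

theorem El.sum {m : ℕ} (hm : 2 ≤ m) {ι : Type} (s : Finset ι) {h : ι → C2 → C2}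
    (H : ∀ i ∈ s, El m (h i)) : El m (fun w => ∑ i ∈ s, h i w) := by
  classical
  induction s using Finset.induction_on with
  | empty => simpa using El.zero m
  | insert a s ha ih =>
    simp only [Finset.sum_insert ha]
    exact El.add hm (H a (Finset.mem_insert_self _ _))
      (ih fun i hi => H i (Finset.mem_insert_of_mem hi))

/-- The linear map `(x, y) ↦ (x + s y, y)`. -/
noncomputable def shl (s : ℂ) : C2 ≃L[ℂ] C2 :=
  ContinuousLinearEquiv.equivOfInverse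
    ((ContinuousLinearMap.fst ℂ ℂ ℂ + s • ContinuousLinearMap.snd ℂ ℂ ℂ).prod
      (ContinuousLinearMap.snd ℂ ℂ ℂ))
    ((ContinuousLinearMap.fst ℂ ℂ ℂ - s • ContinuousLinearMap.snd ℂ ℂ ℂ).prod
      (ContinuousLinearMap.snd ℂ ℂ ℂ))
    (fun w => by ext <;> simp) (fun w => by ext <;> simp)

theorem shl_apply (s : ℂ) (w : C2) : shl s w = (w.1 + s * w.2, w.2) := by
  simp [shl, ContinuousLinearEquiv.equivOfInverse]

theorem shl_symm_apply (s : ℂ) (w : C2) : (shl s).symm w = (w.1 - s * w.2, w.2) := by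
  rw [ContinuousLinearEquiv.symm_apply_eq, shl_apply]
  ext <;> simp

theorem restr_conj (s : ℂ) {f : K2 ≃ₐ[ℂ] K2} {E : C2 → C2} (h : Restr f E Set.univ) :
    ∃ f', Restr f' (fun w => (shl s).symm (E (shl s w))) Set.univ := by
  obtain ⟨f1, h1⟩ := restr_lin (shl s)
  obtain ⟨f2, h2⟩ := restr_lin (shl s).symm
  have h3 := restr_comp h1 h (Set.mapsTo_univ _ _)
  have h4 := restr_comp h3 h2 (Set.mapsTo_univ _ _)
  exact ⟨_, h4⟩

theorem norm_fst_le' (w : C2) : ‖w.1‖ ≤ ‖w‖ := norm_fst_le w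
theorem norm_snd_le' (w : C2) : ‖w.2‖ ≤ ‖w‖ := norm_snd_le w

/-- The elementary fields. -/
theorem el_shear {m : ℕ} (hm : 2 ≤ m) (s c : ℂ) :
    El m (fun w => ((c * (w.1 + s * w.2) ^ m) * (-s), c * (w.1 + s * w.2) ^ m)) := by
  set h : C2 → C2 := fun w => ((c * (w.1 + s * w.2) ^ m) * (-s), c * (w.1 + s * w.2) ^ m) with hh
  have hO : h =O[𝓝 0] fun w => ‖w‖ ^ m := by
    refine IsBigO.of_bound (‖c‖ * (1 + ‖s‖) ^ m * (1 + ‖s‖)) (Eventually.of_forall fun w => ?_)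
    have h1 : ‖w.1 + s * w.2‖ ≤ (1 + ‖s‖) * ‖w‖ := by
      calc ‖w.1 + s * w.2‖ ≤ ‖w.1‖ + ‖s‖ * ‖w.2‖ := by
            simpa using norm_add_le w.1 (s * w.2)
        _ ≤ ‖w‖ + ‖s‖ * ‖w‖ := by
            gcongr
            · exact norm_fst_le w
            · exact norm_snd_le w
        _ = _ := by ring
    have h2 : ‖c * (w.1 + s * w.2) ^ m‖ ≤ ‖c‖ * ((1 + ‖s‖) * ‖w‖) ^ m := by
      rw [norm_mul, norm_pow]
      gcongr
    have h3 : 0 ≤ ‖c‖ * ((1 + ‖s‖) * ‖w‖) ^ m := by positivity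
    rw [Real.norm_of_nonneg (by positivity)]
    rw [Prod.norm_def]
    refine max_le ?_ ?_
    · simp only [hh]
      rw [norm_mul, norm_neg]
      calc ‖c * (w.1 + s * w.2) ^ m‖ * ‖s‖ ≤ ‖c‖ * ((1 + ‖s‖) * ‖w‖) ^ m * (1 + ‖s‖) := by
            gcongr
            linarith [norm_nonneg s]
        _ = _ := by rw [mul_pow]; ring
    · calc ‖c * (w.1 + s * w.2) ^ m‖ ≤ ‖c‖ * ((1 + ‖s‖) * ‖w‖) ^ m := h2
        _ ≤ ‖c‖ * ((1 + ‖s‖) * ‖w‖) ^ m * (1 + ‖s‖) := by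
            have : (1 : ℝ) ≤ 1 + ‖s‖ := by linarith [norm_nonneg s]
            nlinarith
        _ = _ := by rw [mul_pow]; ring
  have hform : ∀ w : C2, (shl s).symm ((fun w : C2 => (w.1, w.2 + c * w.1 ^ m)) (shl s w)) =
      w + h w := by
    intro w
    rw [shl_apply, shl_symm_apply]
    simp only [hh]
    ext
    · simp; ring
    · simp
  obtain ⟨f, hf⟩ := restr_shear c m
  obtain ⟨f', hf'⟩ := restr_conj s hf
  have ha : AnalyticAt ℂ (fun w => w + h w) 0 := by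
    simp only [hh]
    have h1 : AnalyticAt ℂ (fun w : C2 => w.1) 0 := analyticAt_fst
    have h2 : AnalyticAt ℂ (fun w : C2 => w.2) 0 := analyticAt_snd
    fun_prop
  refine ⟨hO, f', fun w => w + h w, ?_, ⟨Set.univ, univ_mem, ?_⟩, ?_⟩
  · refine dif_of_close dif_id ha ?_
    simpa using hO.trans (pow_le_pow hm)
  · exact restr_congr hf' (fun w _ => hform w)
  · simpa using isBigO_zero (E' := C2) (fun w : C2 => ‖w‖ ^ (m + 1)) (𝓝 0)

theorem el_jonq {m : ℕ} (hm : 2 ≤ m) (s c : ℂ) :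
    El m (fun w => ((c * ((w.1 + s * w.2) ^ (m - 1) * w.2)) * (-s),
      c * ((w.1 + s * w.2) ^ (m - 1) * w.2))) := by
  set h : C2 → C2 := fun w => ((c * ((w.1 + s * w.2) ^ (m - 1) * w.2)) * (-s),
      c * ((w.1 + s * w.2) ^ (m - 1) * w.2)) with hh
  obtain ⟨n, rfl⟩ : ∃ n, m = n + 1 := ⟨m - 1, by omega⟩
  simp only [Nat.add_sub_cancel] at hh
  have hO : h =O[𝓝 0] fun w => ‖w‖ ^ (n + 1) := by
    refine IsBigO.of_bound (‖c‖ * (1 + ‖s‖) ^ n * (1 + ‖s‖)) (Eventually.of_forall fun w => ?_)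
    have h1 : ‖w.1 + s * w.2‖ ≤ (1 + ‖s‖) * ‖w‖ := by
      calc ‖w.1 + s * w.2‖ ≤ ‖w.1‖ + ‖s‖ * ‖w.2‖ := by
            simpa using norm_add_le w.1 (s * w.2)
        _ ≤ ‖w‖ + ‖s‖ * ‖w‖ := by
            gcongr
            · exact norm_fst_le w
            · exact norm_snd_le w
        _ = _ := by ring
    have h2 : ‖c * ((w.1 + s * w.2) ^ n * w.2)‖ ≤ ‖c‖ * (((1 + ‖s‖) * ‖w‖) ^ n * ‖w‖) := by
      rw [norm_mul, norm_mul, norm_pow]
      gcongr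
      exact norm_snd_le w
    have h3 : 0 ≤ ‖c‖ * (((1 + ‖s‖) * ‖w‖) ^ n * ‖w‖) := by positivity
    rw [Real.norm_of_nonneg (by positivity)]
    rw [Prod.norm_def]
    refine max_le ?_ ?_
    · simp only [hh]
      rw [norm_mul, norm_neg]
      calc ‖c * ((w.1 + s * w.2) ^ n * w.2)‖ * ‖s‖
            ≤ ‖c‖ * (((1 + ‖s‖) * ‖w‖) ^ n * ‖w‖) * (1 + ‖s‖) := by
            gcongr
            linarith [norm_nonneg s]
        _ = _ := by rw [mul_pow]; ring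
    · simp only [hh]
      calc ‖c * ((w.1 + s * w.2) ^ n * w.2)‖ ≤ ‖c‖ * (((1 + ‖s‖) * ‖w‖) ^ n * ‖w‖) := h2
        _ ≤ ‖c‖ * (((1 + ‖s‖) * ‖w‖) ^ n * ‖w‖) * (1 + ‖s‖) := by
            have : (1 : ℝ) ≤ 1 + ‖s‖ := by linarith [norm_nonneg s]
            nlinarith
        _ = _ := by rw [mul_pow]; ring
  have hform : ∀ w : C2, (shl s).symm ((fun w : C2 => (w.1, w.2 * (1 + c * w.1 ^ n))) (shl s w)) =
      w + h w := by
    intro w
    rw [shl_apply, shl_symm_apply]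
    simp only [hh]
    ext
    · simp; ring
    · simp; ring
  obtain ⟨f, hf⟩ := restr_jonq c n (by omega)
  obtain ⟨f', hf'⟩ := restr_conj s hf
  have ha : AnalyticAt ℂ (fun w => w + h w) 0 := by
    simp only [hh]
    have h1 : AnalyticAt ℂ (fun w : C2 => w.1) 0 := analyticAt_fst
    have h2 : AnalyticAt ℂ (fun w : C2 => w.2) 0 := analyticAt_snd
    fun_prop
  refine ⟨hO, f', fun w => w + h w, ?_, ⟨Set.univ, univ_mem, ?_⟩, ?_⟩
  · refine dif_of_close dif_id ha ?_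
    simpa using hO.trans (pow_le_pow hm)
  · exact restr_congr hf' (fun w _ => hform w)
  · simpa using isBigO_zero (E' := C2) (fun w : C2 => ‖w‖ ^ (n + 1 + 1)) (𝓝 0)

/-- All homogeneous fields. -/
theorem el_all {m : ℕ} (hm : 2 ≤ m) (A B : ℕ → ℂ) :
    El m (fun w => (∑ k ∈ Finset.range (m + 1), A k * w.1 ^ (m - k) * w.2 ^ k,
      ∑ k ∈ Finset.range (m + 1), B k * w.1 ^ (m - k) * w.2 ^ k)) := by
  obtain ⟨c, c', hc⟩ := span_fields m (by omega) A B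
  have h1 : El m (fun w => ∑ i ∈ (Finset.univ : Finset (Fin (m + 2))),
      (((c i * (w.1 + (i : ℕ) * w.2) ^ m) * (-((i : ℕ) : ℂ)), c i * (w.1 + (i : ℕ) * w.2) ^ m) +
      ((c' i * ((w.1 + (i : ℕ) * w.2) ^ (m - 1) * w.2)) * (-((i : ℕ) : ℂ)),
        c' i * ((w.1 + (i : ℕ) * w.2) ^ (m - 1) * w.2)))) :=
    El.sum hm _ fun i _ => El.add hm (el_shear hm _ _) (el_jonq hm _ _)
  convert h1 using 2 with w
  obtain ⟨e1, e2⟩ := hc w.1 w.2
  rw [← e1, ← e2]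
  ext
  · simp only [Prod.fst_sum]
    refine Finset.sum_congr rfl fun i _ => ?_
    simp only [Prod.fst_add]
    ring
  · simp only [Prod.snd_sum]
    refine Finset.sum_congr rfl fun i _ => ?_
    simp only [Prod.snd_add]

/-- Lipschitz maps on the left. -/
theorem comp_left {φ : C2 → C2} (hφ : AnalyticAt ℂ φ 0) {a b : C2 → C2}
    (ha : Tendsto a (𝓝 0) (𝓝 0)) (hb : Tendsto b (𝓝 0) (𝓝 0)) {m : ℕ}
    (hab : (fun w => a w - b w) =O[𝓝 0] fun w => ‖w‖ ^ m) :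
    (fun w => φ (a w) - φ (b w)) =O[𝓝 0] fun w => ‖w‖ ^ m := by
  have h1 : HasStrictFDerivAt φ (fderiv ℂ φ 0) 0 := hφ.hasStrictFDerivAt
  have h2 := h1.isBigO_sub
  have h3 : Tendsto (fun w => (a w, b w)) (𝓝 0) (𝓝 ((0 : C2), (0 : C2))) :=
    ha.prodMk_nhds hb
  exact (h2.comp_tendsto h3).trans hab

theorem step {σ : C2 → C2} (hσ : Dif σ) {m : ℕ} (hm : 2 ≤ m)
    (h : ∃ (f : K2 ≃ₐ[ℂ] K2) (σ' : C2 → C2), Dif σ' ∧
    (∃ V ∈ 𝓝 (0 : C2), Restr f σ' V) ∧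
    (fun w => σ w - σ' w) =O[𝓝 0] fun w => ‖w‖ ^ m) :
    ∃ (f : K2 ≃ₐ[ℂ] K2) (σ' : C2 → C2), Dif σ' ∧
    (∃ V ∈ 𝓝 (0 : C2), Restr f σ' V) ∧
    (fun w => σ w - σ' w) =O[𝓝 0] fun w => ‖w‖ ^ (m + 1) := by
  obtain ⟨f, σ', hd, hr, ho⟩ := h
  obtain ⟨τ, hτ, hl, hri⟩ := dif_inv hd
  have tσ : Tendsto σ (𝓝 0) (𝓝 0) := by
    simpa [ContinuousAt, hσ.zero] using hσ.an.continuousAt
  have tσ' : Tendsto σ' (𝓝 0) (𝓝 0) := by
    simpa [ContinuousAt, hd.zero] using hd.an.continuousAt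
  -- `ψ = τ ∘ σ`
  have hψd : Dif (τ ∘ σ) := dif_comp hτ hσ
  have hψO : (fun w => τ (σ w) - w) =O[𝓝 0] fun w => ‖w‖ ^ m := by
    have h1 := comp_left hτ.an tσ tσ' ho
    refine h1.congr' ?_ EventuallyEq.rfl
    filter_upwards [hl] with w hw
    rw [hw]
  have hψa : AnalyticAt ℂ (fun w => τ (σ w) - w) 0 := hψd.an.sub analyticAt_id
  obtain ⟨A, B, hAB⟩ := taylor hψa m hψO
  obtain ⟨-, g, J, hJ, hJr, hJo⟩ := el_all hm A B
  refine ⟨f.trans g, σ' ∘ J, dif_comp hd hJ, restr_comp' hJ hr hJr, ?_⟩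
  have hψJ : (fun w => τ (σ w) - J w) =O[𝓝 0] fun w => ‖w‖ ^ (m + 1) := by
    have := hAB.sub hJo
    refine this.congr_left fun w => ?_
    abel
  have tψ : Tendsto (fun w => τ (σ w)) (𝓝 0) (𝓝 0) := by
    have := hψd.an.continuousAt
    rw [ContinuousAt, hψd.zero] at this
    exact this
  have tJ : Tendsto J (𝓝 0) (𝓝 0) := by
    simpa [ContinuousAt, hJ.zero] using hJ.an.continuousAt
  have h2 := comp_left hd.an tψ tJ hψJ
  refine h2.congr' ?_ EventuallyEq.rfl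
  filter_upwards [tσ.eventually hri] with w hw
  simp only [Function.comp_apply]
  rw [hw]

theorem two {σ : C2 → C2} (hσ : Dif σ) :
    ∃ (f : K2 ≃ₐ[ℂ] K2) (σ' : C2 → C2), Dif σ' ∧
    (∃ V ∈ 𝓝 (0 : C2), Restr f σ' V) ∧
    (fun w => σ w - σ' w) =O[𝓝 0] fun w => ‖w‖ ^ 2 := by
  let L : C2 ≃L[ℂ] C2 := ContinuousLinearEquiv.ofBijective (fderiv ℂ σ 0)
    (LinearMap.ker_eq_bot.2 hσ.inv.1) (LinearMap.range_eq_top.2 hσ.inv.2)
  have hL : ((L : C2 →L[ℂ] C2)) = fderiv ℂ σ 0 := by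
    ext <;> rfl
  obtain ⟨f, hf⟩ := restr_lin L
  refine ⟨f, L, dif_lin L, ⟨Set.univ, univ_mem, hf⟩, ?_⟩
  refine isBigO_two (hσ.an.sub ((L : C2 →L[ℂ] C2).analyticAt 0)) (by simp [hσ.zero]) ?_
  have h1 : HasFDerivAt (fun w => σ w - L w) (fderiv ℂ σ 0 - (L : C2 →L[ℂ] C2)) 0 :=
    hσ.an.differentiableAt.hasFDerivAt.sub (L : C2 →L[ℂ] C2).hasFDerivAt
  rw [h1.fderiv, hL, sub_self]

end Jeb

/-- Every germ of biholomorphism agrees to any given order with a Cremona germ. -/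
theorem jets {σ : C2 → C2} (hσ : Dif σ) (N : ℕ) : ∃ (f : K2 ≃ₐ[ℂ] K2) (σ' : C2 → C2), Dif σ' ∧
    (∃ V ∈ 𝓝 (0 : C2), Restr f σ' V) ∧
    (fun w => σ w - σ' w) =O[𝓝 0] fun w => ‖w‖ ^ N := by
  have key : ∀ n : ℕ, ∃ (f : K2 ≃ₐ[ℂ] K2) (σ' : C2 → C2), Dif σ' ∧
    (∃ V ∈ 𝓝 (0 : C2), Restr f σ' V) ∧
    (fun w => σ w - σ' w) =O[𝓝 0] fun w => ‖w‖ ^ (n + 2) := by
    intro n
    induction n with
    | zero => exact Jeb.two hσ
    | succ n ih => exact Jeb.step hσ (by omega) ih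
  obtain ⟨f, σ', h1, h2, h3⟩ := key N
  exact ⟨f, σ', h1, h2, h3.trans (Jeb.pow_le_pow (by omega))⟩

end Pool.Agent.KS
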