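import Pool.Agent.KS.Defs

/-!
# Row OSG: analyticity of differentiable functions of two complex variables
-/

set_option autoImplicit false

namespace Pool.Agent.KS

open Filter Topology Set Metric MeasureTheory

open scoped Real

namespace Osg

variable {E : Type} [NormedAddCommGroup E] [NormedSpace ℂ E] [CompleteSpace E]

/-- The parametrisation of the circle. -/
noncomputable def cir (z0 : ℂ) (r : ℝ) (hr : 0 ≤ r) (θ : ℝ) : sphere z0 r :=
  ⟨circleMap z0 r θ, circleMap_mem_sphere z0 hr θ⟩

theorem continuous_cir (z0 : ℂ) (r : ℝ) (hr : 0 ≤ r) : Continuous (cir z0 r hr) :=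
  (continuous_circleMap z0 r).subtype_mk _

theorem cont_deriv (z0 : ℂ) (r : ℝ) : Continuous (deriv (circleMap z0 r)) := by
  have h : deriv (circleMap z0 r) = fun θ => circleMap 0 r θ * Complex.I :=
    funext (fun θ => deriv_circleMap z0 r θ)
  rw [h]
  exact (continuous_circleMap 0 r).mul continuous_const

/-- The Cauchy bilinear form. -/
noncomputable def bil (z0 : ℂ) (r : ℝ) (hr : 0 ≤ r) :
    C(sphere z0 r, ℂ) →L[ℂ] C(sphere z0 r, E) →L[ℂ] E :=
  LinearMap.mkContinuous₂ (LinearMap.mk₂ ℂ
    (fun k g => ∫ θ in (0 : ℝ)..2 * π, deriv (circleMap z0 r) θ •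
      (k (cir z0 r hr θ) • g (cir z0 r hr θ)))
    (by
      intro k k' g
      rw [← intervalIntegral.integral_add]
      · congr 1
        funext θ
        simp only [ContinuousMap.add_apply, add_smul, smul_add]
      · apply Continuous.intervalIntegrable
        have h1 := continuous_cir z0 r hr
        have h2 := cont_deriv z0 r
        fun_prop
      · apply Continuous.intervalIntegrable
        have h1 := continuous_cir z0 r hr
        have h2 := cont_deriv z0 r
        fun_prop)
    (by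
      intro c k g
      rw [← intervalIntegral.integral_smul]
      congr 1
      funext θ
      simp only [ContinuousMap.smul_apply, smul_eq_mul, mul_smul]
      rw [smul_comm])
    (by
      intro k g g'
      rw [← intervalIntegral.integral_add]
      · congr 1
        funext θ
        simp only [ContinuousMap.add_apply, smul_add]
      · apply Continuous.intervalIntegrable
        have h1 := continuous_cir z0 r hr
        have h2 := cont_deriv z0 r
        fun_prop
      · apply Continuous.intervalIntegrable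
        have h1 := continuous_cir z0 r hr
        have h2 := cont_deriv z0 r
        fun_prop)
    (by
      intro c k g
      rw [← intervalIntegral.integral_smul]
      congr 1
      funext θ
      simp only [ContinuousMap.smul_apply]
      rw [smul_comm _ c, smul_comm _ c]))
    (2 * π * r)
    (by
      intro k g
      have := intervalIntegral.norm_integral_le_of_norm_le_const
        (a := 0) (b := 2 * π) (C := r * (‖k‖ * ‖g‖))
        (f := fun θ => deriv (circleMap z0 r) θ • (k (cir z0 r hr θ) • g (cir z0 r hr θ)))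
        (by
          intro θ _
          rw [norm_smul, norm_smul]
          gcongr
          · simp [deriv_circleMap, abs_of_nonneg hr]
          · exact k.norm_coe_le_norm _
          · exact g.norm_coe_le_norm _)
      simp only [LinearMap.mk₂_apply]
      refine this.trans (le_of_eq ?_)
      rw [sub_zero, abs_of_pos Real.two_pi_pos]
      ring)

theorem bil_apply (z0 : ℂ) (r : ℝ) (hr : 0 ≤ r) (k : C(sphere z0 r, ℂ))
    (g : C(sphere z0 r, E)) :
    bil z0 r hr k g = ∫ θ in (0 : ℝ)..2 * π, deriv (circleMap z0 r) θ •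
      (k (cir z0 r hr θ) • g (cir z0 r hr θ)) := rfl

/-- The kernel. -/
noncomputable def ker (z0 : ℂ) (r : ℝ) (z : ℂ) : C(sphere z0 r, ℂ) :=
  Ring.inverse ((⟨fun ζ => (ζ : ℂ), continuous_subtype_val⟩ : C(sphere z0 r, ℂ)) -
    algebraMap ℂ C(sphere z0 r, ℂ) z)

theorem ker_unit (z0 : ℂ) (r : ℝ) (z : ℂ) (hz : z ∈ ball z0 r) :
    IsUnit ((⟨fun ζ => (ζ : ℂ), continuous_subtype_val⟩ : C(sphere z0 r, ℂ)) -
    algebraMap ℂ C(sphere z0 r, ℂ) z) := by
  rw [ContinuousMap.isUnit_iff_forall_ne_zero]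
  intro ζ
  have h1 := ζ.2
  rw [mem_sphere] at h1
  rw [mem_ball] at hz
  intro h
  have h2 : (ζ : ℂ) - z = 0 := by simpa using h
  rw [sub_eq_zero] at h2
  rw [h2] at h1
  linarith

theorem ker_apply (z0 : ℂ) (r : ℝ) (z : ℂ) (hz : z ∈ ball z0 r) (ζ : sphere z0 r) :
    ker z0 r z ζ = ((ζ : ℂ) - z)⁻¹ := by
  have h1 := Ring.inverse_mul_cancel _ (ker_unit z0 r z hz)
  have h2 := congrArg (fun k : C(sphere z0 r, ℂ) => k ζ) h1
  simp only [ContinuousMap.mul_apply, ContinuousMap.one_apply] at h2
  have h3 : ker z0 r z ζ * ((ζ : ℂ) - z) = 1 := by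
    simpa [ker] using h2
  exact eq_inv_of_mul_eq_one_left h3

theorem ker_analytic (z0 : ℂ) (r : ℝ) (hr : 0 < r) : AnalyticAt ℂ (ker z0 r) z0 := by
  obtain ⟨u, hu⟩ := ker_unit z0 r z0 (mem_ball_self hr)
  have h1 := analyticAt_inverse (𝕜 := ℂ) u
  rw [hu] at h1
  have h2 : AnalyticAt ℂ (fun z : ℂ =>
      (⟨fun ζ => (ζ : ℂ), continuous_subtype_val⟩ : C(sphere z0 r, ℂ)) -
        algebraMap ℂ C(sphere z0 r, ℂ) z) z0 := by
    apply analyticAt_const.sub
    exact (Algebra.linearMap ℂ C(sphere z0 r, ℂ)).toContinuousLinearMap.analyticAt z0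
  exact AnalyticAt.comp' (g := Ring.inverse) (f := fun z : ℂ =>
      (⟨fun ζ => (ζ : ℂ), continuous_subtype_val⟩ : C(sphere z0 r, ℂ)) -
        algebraMap ℂ C(sphere z0 r, ℂ) z) h1 h2

section par

variable {X : Type} [TopologicalSpace X] [CompactSpace X]

omit [NormedSpace ℂ E] [CompleteSpace E] in
/-- A jointly continuous family is a continuous function with values in a function space. -/
theorem par_cont {Y : Type} [TopologicalSpace Y] {T : Set Y} {Φ : Y → C(X, E)}
    (h : ContinuousOn (fun p : X × Y => Φ p.2 p.1) (univ ×ˢ T)) : ContinuousOn Φ T := by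
  rw [continuousOn_iff_continuous_restrict]
  have h1 : Continuous (fun p : T × X => Φ p.1 p.2) := by
    rw [← continuousOn_univ]
    exact h.comp (f := fun p : T × X => (p.2, (p.1 : Y))) (by fun_prop)
      (fun p _ => ⟨mem_univ _, p.1.2⟩)
  exact (ContinuousMap.curry ⟨fun p : T × X => Φ p.1 p.2, h1⟩).continuous

theorem par_analytic {Φ : ℂ → C(X, E)} {w0 : ℂ} {r : ℝ} (hr : 0 < r)
    (hc : ContinuousOn (fun p : X × ℂ => Φ p.2 p.1) (univ ×ˢ closedBall w0 r))
    (hd : ∀ x, DifferentiableOn ℂ (fun w => Φ w x) (closedBall w0 r)) :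
    AnalyticAt ℂ Φ w0 := by
  have hΦ : ContinuousOn Φ (closedBall w0 r) := par_cont hc
  have hci : CircleIntegrable Φ w0 r :=
    ContinuousOn.circleIntegrable hr.le (hΦ.mono sphere_subset_closedBall)
  have h1 := hasFPowerSeriesOn_cauchy_integral (R := ⟨r, hr.le⟩) hci hr
  apply h1.analyticAt.congr
  filter_upwards [ball_mem_nhds w0 hr] with w hw
  ext x
  have hct : Continuous (fun θ : ℝ => deriv (circleMap w0 r) θ •
      ((circleMap w0 r θ - w)⁻¹ • Φ (circleMap w0 r θ))) := by
    have h3 : Continuous (fun θ : ℝ => Φ (circleMap w0 r θ)) := by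
      apply hΦ.comp_continuous (continuous_circleMap w0 r)
      intro θ
      exact circleMap_mem_closedBall w0 hr.le θ
    have h4 := cont_deriv w0 r
    have h5 : Continuous (fun θ : ℝ => (circleMap w0 r θ - w)⁻¹) := by
      apply Continuous.inv₀ ((continuous_circleMap w0 r).sub continuous_const)
      intro θ h
      have h := sub_eq_zero.1 h
      have h6 := circleMap_mem_sphere w0 hr.le θ
      rw [h, mem_sphere] at h6
      rw [mem_ball] at hw
      linarith
    exact h4.smul (h5.smul h3)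
  have h2 : (∮ z in C(w0, r), (z - w)⁻¹ • Φ z) x = ∮ z in C(w0, r), (z - w)⁻¹ • Φ z x := by
    rw [circleIntegral, circleIntegral]
    have h7 := ContinuousLinearMap.intervalIntegral_comp_comm (μ := volume)
      (ContinuousMap.evalCLM ℂ x : C(X, E) →L[ℂ] E) (hct.intervalIntegrable 0 (2 * π))
    simp only [ContinuousMap.evalCLM_apply] at h7
    rw [← h7]
    rfl
  have h8 := DifferentiableOn.circleIntegral_sub_inv_smul (hd x) hw
  change ((2 * π * Complex.I : ℂ)⁻¹ • ∮ z in C(w0, r), (z - w)⁻¹ • Φ z) x = Φ w x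
  rw [ContinuousMap.smul_apply, h2, h8, smul_smul, inv_mul_cancel₀ Complex.two_pi_I_ne_zero,
    one_smul]

end par

open Classical in
/-- The slice function as a function with values in a function space. -/
noncomputable def sl (f : C2 → E) (z0 w0 : ℂ) (r : ℝ)
    (hf : ContinuousOn f (closedBall z0 r ×ˢ closedBall w0 r)) (w : ℂ) :
    C(sphere z0 r, E) :=
  if h : w ∈ closedBall w0 r then ⟨fun ζ => f (ζ, w), by
    rw [← continuousOn_univ]
    exact hf.comp (f := fun ζ : sphere z0 r => ((ζ : ℂ), w)) (by fun_prop)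
      (fun ζ _ => ⟨sphere_subset_closedBall ζ.2, h⟩)⟩ else 0

omit [NormedSpace ℂ E] [CompleteSpace E] in
theorem sl_apply (f : C2 → E) (z0 w0 : ℂ) (r : ℝ)
    (hf : ContinuousOn f (closedBall z0 r ×ˢ closedBall w0 r)) (w : ℂ)
    (h : w ∈ closedBall w0 r) (ζ : sphere z0 r) :
    sl f z0 w0 r hf w ζ = f (ζ, w) := by
  simp only [sl, dif_pos h]
  rfl

theorem sl_analytic (f : C2 → E) (z0 w0 : ℂ) (r : ℝ) (hr : 0 < r)
    (hf : ContinuousOn f (closedBall z0 r ×ˢ closedBall w0 r))
    (h2 : ∀ z ∈ closedBall z0 r, DifferentiableOn ℂ (fun w => f (z, w)) (closedBall w0 r)) :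
    AnalyticAt ℂ (sl f z0 w0 r hf) w0 := by
  apply par_analytic hr
  · have h1 : ContinuousOn (fun p : sphere z0 r × ℂ => f (p.1, p.2))
        (univ ×ˢ closedBall w0 r) :=
      hf.comp (f := fun p : sphere z0 r × ℂ => ((p.1 : ℂ), p.2)) (by fun_prop)
        (fun p hp => ⟨sphere_subset_closedBall p.1.2, hp.2⟩)
    apply h1.congr
    intro p hp
    exact sl_apply f z0 w0 r hf p.2 hp.2 p.1
  · intro ζ
    apply (h2 ζ (sphere_subset_closedBall ζ.2)).congr
    intro w hw
    exact sl_apply f z0 w0 r hf w hw ζ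

/-- Osgood's lemma. -/
theorem core {U : Set C2} (hU : IsOpen U) {f : C2 → E} (hc : ContinuousOn f U)
    (h1 : ∀ p ∈ U, DifferentiableAt ℂ (fun z => f (z, p.2)) p.1)
    (h2 : ∀ p ∈ U, DifferentiableAt ℂ (fun w => f (p.1, w)) p.2) :
    AnalyticOnNhd ℂ f U := by
  rintro ⟨z0, w0⟩ hp
  obtain ⟨r, hr, hrU⟩ : ∃ r > 0, closedBall z0 r ×ˢ closedBall w0 r ⊆ U := by
    obtain ⟨r, hr, h⟩ := Metric.nhds_basis_closedBall.mem_iff.1 (hU.mem_nhds hp)
    exact ⟨r, hr, by rwa [closedBall_prod_same]⟩
  have hf : ContinuousOn f (closedBall z0 r ×ˢ closedBall w0 r) := hc.mono hrU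
  have h3 : ∀ z ∈ closedBall z0 r,
      DifferentiableOn ℂ (fun w => f (z, w)) (closedBall w0 r) := by
    intro z hz w hw
    exact (h2 (z, w) (hrU ⟨hz, hw⟩)).differentiableWithinAt
  have h4 : ∀ w ∈ closedBall w0 r,
      DifferentiableOn ℂ (fun z => f (z, w)) (closedBall z0 r) := by
    intro w hw z hz
    exact (h1 (z, w) (hrU ⟨hz, hw⟩)).differentiableWithinAt
  have hG := sl_analytic f z0 w0 r hr hf h3
  have hM := ker_analytic z0 r hr
  have hM' : AnalyticAt ℂ (fun p : C2 => ker z0 r p.1) (z0, w0) :=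
    AnalyticAt.comp' (g := ker z0 r) (f := fun p : C2 => p.1) hM analyticAt_fst
  have hG' : AnalyticAt ℂ (fun p : C2 => sl f z0 w0 r hf p.2) (z0, w0) :=
    AnalyticAt.comp' (g := sl f z0 w0 r hf) (f := fun p : C2 => p.2) hG analyticAt_snd
  have hT : AnalyticAt ℂ (fun p : C2 => bil (E := E) z0 r hr.le (ker z0 r p.1)
      (sl f z0 w0 r hf p.2)) (z0, w0) :=
    AnalyticAt.comp' (g := fun q : C(sphere z0 r, ℂ) × C(sphere z0 r, E) =>
      bil (E := E) z0 r hr.le q.1 q.2)
      ((bil (E := E) z0 r hr.le).analyticAt_bilinear _) (hM'.prod hG')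
  have hT' : AnalyticAt ℂ (fun p : C2 => (2 * π * Complex.I : ℂ)⁻¹ •
      bil (E := E) z0 r hr.le (ker z0 r p.1) (sl f z0 w0 r hf p.2)) (z0, w0) :=
    analyticAt_const.smul hT
  apply hT'.congr
  have hn : ball z0 r ×ˢ ball w0 r ∈ 𝓝 (z0, w0) :=
    prod_mem_nhds (ball_mem_nhds z0 hr) (ball_mem_nhds w0 hr)
  filter_upwards [hn] with p hp'
  obtain ⟨hz, hw⟩ := hp'
  have h8 := DifferentiableOn.circleIntegral_sub_inv_smul
    (h4 p.2 (ball_subset_closedBall hw)) hz
  have h9 : bil (E := E) z0 r hr.le (ker z0 r p.1) (sl f z0 w0 r hf p.2) =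
      ∮ z in C(z0, r), (z - p.1)⁻¹ • f (z, p.2) := by
    rw [bil_apply, circleIntegral]
    congr 1
    funext θ
    rw [ker_apply z0 r p.1 hz, sl_apply f z0 w0 r hf _ (ball_subset_closedBall hw)]
    rfl
  rw [h9, h8, smul_smul, inv_mul_cancel₀ Complex.two_pi_I_ne_zero, one_smul]

/-- The integral over the unit interval. -/
noncomputable def intI : C(Icc (0 : ℝ) 1, E) →L[ℂ] E :=
  LinearMap.mkContinuous
    { toFun := fun φ => ∫ t in (0 : ℝ)..1, φ (projIcc 0 1 zero_le_one t)
      map_add' := by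
        intro φ ψ
        rw [← intervalIntegral.integral_add]
        · rfl
        · exact (φ.continuous.comp continuous_projIcc).intervalIntegrable _ _
        · exact (ψ.continuous.comp continuous_projIcc).intervalIntegrable _ _
      map_smul' := by
        intro c φ
        rw [RingHom.id_apply, ← intervalIntegral.integral_smul]
        rfl } 1
    (by
      intro φ
      have := intervalIntegral.norm_integral_le_of_norm_le_const
        (a := 0) (b := 1) (C := ‖φ‖)
        (f := fun t => φ (projIcc 0 1 zero_le_one t))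
        (fun t _ => φ.norm_coe_le_norm _)
      simpa using this)

omit [CompleteSpace E] in
theorem intI_apply (φ : C(Icc (0 : ℝ) 1, E)) :
    intI φ = ∫ t in (0 : ℝ)..1, φ (projIcc 0 1 zero_le_one t) := rfl

open Classical in
/-- The family as a function with values in a function space. -/
noncomputable def fam (U : Set C2) (g : ℝ → C2 → E)
    (hc : ContinuousOn (fun p : ℝ × C2 => g p.1 p.2) (Set.Icc (0 : ℝ) 1 ×ˢ U)) (p : C2) :
    C(Icc (0 : ℝ) 1, E) :=
  if h : p ∈ U then ⟨fun t => g t p, by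
    rw [← continuousOn_univ]
    exact hc.comp (f := fun t : Icc (0 : ℝ) 1 => ((t : ℝ), p)) (by fun_prop)
      (fun t _ => ⟨t.2, h⟩)⟩ else 0

omit [NormedSpace ℂ E] [CompleteSpace E] in
theorem fam_apply (U : Set C2) (g : ℝ → C2 → E)
    (hc : ContinuousOn (fun p : ℝ × C2 => g p.1 p.2) (Set.Icc (0 : ℝ) 1 ×ˢ U)) (p : C2)
    (h : p ∈ U) (t : Icc (0 : ℝ) 1) : fam U g hc p t = g t p := by
  simp only [fam, dif_pos h]
  rfl

end Osg

section OSG

variable {E : Type} [NormedAddCommGroup E] [NormedSpace ℂ E] [CompleteSpace E]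

theorem analytic_of_diff {U : Set C2} (hU : IsOpen U) {f : C2 → E}
    (h : DifferentiableOn ℂ f U) : AnalyticOnNhd ℂ f U := by
  apply Osg.core hU h.continuousOn
  · intro p hp
    have h1 := h.differentiableAt (hU.mem_nhds hp)
    exact DifferentiableAt.comp p.1 (g := f) (f := fun z : ℂ => ((z, p.2) : C2)) h1
      (differentiableAt_id.prodMk (differentiableAt_const _))
  · intro p hp
    have h1 := h.differentiableAt (hU.mem_nhds hp)
    exact DifferentiableAt.comp p.2 (g := f) (f := fun z : ℂ => ((p.1, z) : C2)) h1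
      ((differentiableAt_const _).prodMk differentiableAt_id)

theorem diff_of_limit {U : Set C2} (hU : IsOpen U) {F : ℕ → C2 → E} {f : C2 → E}
    (hF : ∀ k, DifferentiableOn ℂ (F k) U) (h : TendstoLocallyUniformlyOn F f atTop U) :
    DifferentiableOn ℂ f U := by
  have hc : ContinuousOn f U :=
    h.continuousOn (Frequently.of_forall fun k => (hF k).continuousOn)
  refine (Osg.core hU hc ?_ ?_).differentiableOn
  · intro p hp
    have hV : IsOpen {z : ℂ | ((z, p.2) : C2) ∈ U} := hU.preimage (by fun_prop)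
    have h1 := h.comp (t := {z : ℂ | ((z, p.2) : C2) ∈ U}) (fun z : ℂ => ((z, p.2) : C2))
      (fun z hz => hz) (by fun_prop)
    have h2 := h1.differentiableOn (Eventually.of_forall fun k => by
      exact (hF k).comp (f := fun z : ℂ => ((z, p.2) : C2)) (by fun_prop) (fun z hz => hz)) hV
    exact h2.differentiableAt (hV.mem_nhds hp)
  · intro p hp
    have hV : IsOpen {z : ℂ | ((p.1, z) : C2) ∈ U} := hU.preimage (by fun_prop)
    have h1 := h.comp (t := {z : ℂ | ((p.1, z) : C2) ∈ U}) (fun z : ℂ => ((p.1, z) : C2))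
      (fun z hz => hz) (by fun_prop)
    have h2 := h1.differentiableOn (Eventually.of_forall fun k => by
      exact (hF k).comp (f := fun z : ℂ => ((p.1, z) : C2)) (by fun_prop) (fun z hz => hz)) hV
    exact h2.differentiableAt (hV.mem_nhds hp)

theorem diff_integral {U : Set C2} (hU : IsOpen U) {g : ℝ → C2 → E}
    (hc : ContinuousOn (fun p : ℝ × C2 => g p.1 p.2) (Set.Icc (0 : ℝ) 1 ×ˢ U))
    (hd : ∀ t ∈ Set.Icc (0 : ℝ) 1, DifferentiableOn ℂ (g t) U) :
    DifferentiableOn ℂ (fun w => ∫ t in (0 : ℝ)..1, g t w) U := by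
  have hj : ContinuousOn (fun p : Icc (0 : ℝ) 1 × C2 => Osg.fam U g hc p.2 p.1)
      (univ ×ˢ U) := by
    have h1 : ContinuousOn (fun p : Icc (0 : ℝ) 1 × C2 => g p.1 p.2) (univ ×ˢ U) :=
      hc.comp (f := fun p : Icc (0 : ℝ) 1 × C2 => ((p.1 : ℝ), p.2)) (by fun_prop)
        (fun p hp => ⟨p.1.2, hp.2⟩)
    apply h1.congr
    intro p hp
    exact Osg.fam_apply U g hc p.2 hp.2 p.1
  have hΦ : ContinuousOn (Osg.fam U g hc) U := Osg.par_cont hj
  have hA : AnalyticOnNhd ℂ (Osg.fam U g hc) U := by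
    apply Osg.core hU hΦ
    · rintro ⟨z0, w0⟩ hp
      have hV : IsOpen {z : ℂ | ((z, w0) : C2) ∈ U} := hU.preimage (by fun_prop)
      obtain ⟨r, hr, hrU⟩ := Metric.nhds_basis_closedBall.mem_iff.1 (hV.mem_nhds hp)
      apply AnalyticAt.differentiableAt
      apply Osg.par_analytic hr
      · exact hj.comp (f := fun p : Icc (0 : ℝ) 1 × ℂ => (p.1, ((p.2, w0) : C2)))
          (by fun_prop) (fun p hp => ⟨mem_univ _, hrU hp.2⟩)
      · intro t
        have h1 : DifferentiableOn ℂ (fun z => g t (z, w0)) (closedBall z0 r) :=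
          (hd t t.2).comp (f := fun z : ℂ => ((z, w0) : C2)) (by fun_prop)
            (fun z hz => hrU hz)
        apply h1.congr
        intro z hz
        exact Osg.fam_apply U g hc _ (hrU hz) t
    · rintro ⟨z0, w0⟩ hp
      have hV : IsOpen {w : ℂ | ((z0, w) : C2) ∈ U} := hU.preimage (by fun_prop)
      obtain ⟨r, hr, hrU⟩ := Metric.nhds_basis_closedBall.mem_iff.1 (hV.mem_nhds hp)
      apply AnalyticAt.differentiableAt
      apply Osg.par_analytic hr
      · exact hj.comp (f := fun p : Icc (0 : ℝ) 1 × ℂ => (p.1, ((z0, p.2) : C2)))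
          (by fun_prop) (fun p hp => ⟨mem_univ _, hrU hp.2⟩)
      · intro t
        have h1 : DifferentiableOn ℂ (fun w => g t (z0, w)) (closedBall w0 r) :=
          (hd t t.2).comp (f := fun w : ℂ => ((z0, w) : C2)) (by fun_prop)
            (fun w hw => hrU hw)
        apply h1.congr
        intro w hw
        exact Osg.fam_apply U g hc _ (hrU hw) t
  have hL : DifferentiableOn ℂ (fun w => Osg.intI (Osg.fam U g hc w)) U :=
    (Osg.intI (E := E)).differentiable.comp_differentiableOn hA.differentiableOn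
  apply hL.congr
  intro w hw
  rw [Osg.intI_apply]
  apply intervalIntegral.integral_congr
  intro t ht
  rw [uIcc_of_le zero_le_one] at ht
  simp only [projIcc_of_mem zero_le_one ht]
  exact (Osg.fam_apply U g hc w hw ⟨t, ht⟩).symm

end OSG

end Pool.Agent.KS
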