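import Pool.Agent.KS.Defs
import Pool.Agent.KS.Osg

set_option autoImplicit false

namespace Pool.Agent.KS

open scoped Manifold ContDiff Topology
open Filter Asymptotics

namespace Rmv

/-- The mean value property for a continuous function which is holomorphic off the zeros of a
holomorphic function which has no zero on the circle. -/
theorem mean {E : Type} [NormedAddCommGroup E] [NormedSpace ℂ E] [CompleteSpace E]
    {F : ℂ → E} {H : ℂ → ℂ} {r : ℝ} (hr : 0 < r)
    (hF : ContinuousOn F (Metric.closedBall 0 r)) (hH : AnalyticOnNhd ℂ H (Metric.closedBall 0 r))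
    (hne : ∀ z ∈ Metric.sphere (0 : ℂ) r, H z ≠ 0)
    (hd : ∀ z ∈ Metric.closedBall (0 : ℂ) r, H z ≠ 0 → DifferentiableAt ℂ F z) :
    F 0 = ∫ t in (0 : ℝ)..1, F (circleMap 0 r (2 * Real.pi * t)) := by
  set S : Set ℂ := {z | z ∈ Metric.closedBall (0 : ℂ) r ∧ H z = 0} with hS
  have hfin : S.Finite := by
    by_contra hinf
    obtain ⟨x, hx, hacc⟩ := Set.Infinite.exists_accPt_of_subset_isCompact hinf
      (isCompact_closedBall (0 : ℂ) r) (fun z hz => hz.1)
    have h1 : ∃ᶠ y in 𝓝[≠] x, H y = 0 :=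
      (accPt_iff_frequently_nhdsNE.1 hacc).mono fun y hy => hy.2
    have h2 : ∀ᶠ y in 𝓝 x, H y = 0 := (hH x hx).frequently_zero_iff_eventually_zero.1 h1
    have h3 : Set.EqOn H 0 (Metric.closedBall 0 r) :=
      hH.eqOn_zero_of_preconnected_of_eventuallyEq_zero
        (convex_closedBall (0 : ℂ) r).isPreconnected hx h2
    have h4 : ((r : ℂ)) ∈ Metric.sphere (0 : ℂ) r := by
      simp [abs_of_pos hr]
    exact hne _ h4 (h3 (Metric.sphere_subset_closedBall h4))
  have key := Complex.circleIntegral_sub_inv_smul_of_differentiable_on_off_countable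
    (c := (0 : ℂ)) (w := 0) (R := r) (f := F) hfin.countable (Metric.mem_ball_self hr) hF
    (fun z hz => hd z (Metric.ball_subset_closedBall hz.1) fun h0 =>
      hz.2 ⟨Metric.ball_subset_closedBall hz.1, h0⟩)
  have h5 : (∮ z in C(0, r), (z - 0)⁻¹ • F z) =
      Complex.I • ∫ θ in (0 : ℝ)..2 * Real.pi, F (circleMap 0 r θ) := by
    rw [circleIntegral, ← intervalIntegral.integral_smul]
    refine intervalIntegral.integral_congr fun θ _ => ?_
    have hne0 : circleMap 0 r θ ≠ 0 := circleMap_ne_center hr.ne'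
    simp only [deriv_circleMap, sub_zero, smul_smul]
    congr 1
    field_simp
  have h6 : (∫ θ in (0 : ℝ)..2 * Real.pi, F (circleMap 0 r θ)) = (2 * Real.pi : ℂ) • F 0 := by
    rw [h5] at key
    have h7 : (2 * Real.pi * Complex.I : ℂ) • F 0 = Complex.I • ((2 * Real.pi : ℂ) • F 0) := by
      rw [smul_smul]; ring_nf
    rw [h7] at key
    exact smul_right_injective E Complex.I_ne_zero key
  have h8 : (∫ t in (0 : ℝ)..1, F (circleMap 0 r (2 * Real.pi * t))) =
      (2 * Real.pi)⁻¹ • ∫ θ in (0 : ℝ)..2 * Real.pi, F (circleMap 0 r θ) := by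
    have := intervalIntegral.integral_comp_mul_left (a := 0) (b := 1)
      (fun θ => F (circleMap 0 r θ)) (c := 2 * Real.pi) (by positivity)
    simpa using this
  rw [h8, h6]
  have hpi : (Real.pi : ℝ) ≠ 0 := Real.pi_ne_zero
  have : ((2 * Real.pi : ℂ)) • F 0 = (2 * Real.pi : ℝ) • F 0 := by
    rw [← Complex.coe_smul (2 * Real.pi : ℝ) (F 0)]
    push_cast
    rfl
  rw [this, smul_smul, inv_mul_cancel₀ (by positivity), one_smul]

/-- A direction in which `h` is not identically zero. -/
theorem exists_dir {U : Set C2} (hU : IsOpen U) {h : C2 → ℂ} (hh : DifferentiableOn ℂ h U)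
    (hd : ∀ V : Set C2, IsOpen V → V.Nonempty → V ⊆ U → ∃ w ∈ V, h w ≠ 0) {w0 : C2}
    (hw0 : w0 ∈ U) : ∃ v : C2, ¬ ∀ᶠ z in 𝓝 (0 : ℂ), h (w0 + z • v) = 0 := by
  by_contra hcon
  push Not at hcon
  obtain ⟨ρ, hρ, hball⟩ := Metric.isOpen_iff.1 hU w0 hw0
  obtain ⟨w, hw, hne⟩ := hd (Metric.ball w0 ρ) Metric.isOpen_ball
    ⟨w0, Metric.mem_ball_self hρ⟩ hball
  apply hne
  set v : C2 := w - w0 with hv
  have hvn : ‖v‖ < ρ := by simpa [hv, dist_eq_norm] using hw
  set g : ℂ → ℂ := fun z => h (w0 + z • v) with hg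
  set Ω : Set ℂ := (fun z : ℂ => w0 + z • v) ⁻¹' Metric.ball w0 ρ with hΩ
  have hcont : Continuous fun z : ℂ => w0 + z • v := by fun_prop
  have hΩo : IsOpen Ω := Metric.isOpen_ball.preimage hcont
  have hdiff : DifferentiableOn ℂ g Ω := by
    intro z hz
    have h1 : DifferentiableAt ℂ h (w0 + z • v) :=
      (hh _ (hball hz)).differentiableAt (hU.mem_nhds (hball hz))
    have h2 : DifferentiableAt ℂ (fun z : ℂ => w0 + z • v) z := by fun_prop
    exact (h1.comp z h2).differentiableWithinAt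
  have han : AnalyticOnNhd ℂ g Ω := hdiff.analyticOnNhd hΩo
  have hconv : Convex ℝ Ω := by
    have : Convex ℝ (Metric.ball w0 ρ) := convex_ball w0 ρ
    intro x hx y hy a b ha hb hab
    have h3 := this hx hy ha hb hab
    have h4 : a • (w0 + x • v) + b • (w0 + y • v) = w0 + (a • x + b • y) • v := by
      have : w0 = (a + b) • w0 := by rw [hab, one_smul]
      conv_rhs => rw [this]
      simp only [smul_add, add_smul, smul_assoc]
      abel
    simp only at h3
    rw [h4] at h3
    exact h3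
  have h0 : (0 : ℂ) ∈ Ω := by simp [hΩ, hρ]
  have h1 : (1 : ℂ) ∈ Ω := by simpa [hΩ, dist_eq_norm] using hvn
  have heq := han.eqOn_zero_of_preconnected_of_eventuallyEq_zero hconv.isPreconnected h0 (hcon v)
  have := heq h1
  simpa [hg, hv] using this

end Rmv

/-- Row RMV. -/
theorem removable {E : Type} [NormedAddCommGroup E] [NormedSpace ℂ E] [CompleteSpace E]
    {U : Set C2} (hU : IsOpen U) {f : C2 → E} {h : C2 → ℂ}
    (hf : ContinuousOn f U) (hh : DifferentiableOn ℂ h U)
    (hfd : DifferentiableOn ℂ f {w | w ∈ U ∧ h w ≠ 0})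
    (hd : ∀ V : Set C2, IsOpen V → V.Nonempty → V ⊆ U → ∃ w ∈ V, h w ≠ 0) :
    DifferentiableOn ℂ f U := by
  have hopen : IsOpen {w | w ∈ U ∧ h w ≠ 0} := by
    have := hh.continuousOn.isOpen_inter_preimage hU (isOpen_ne (x := (0 : ℂ)))
    exact this
  have hfd' : ∀ w ∈ U, h w ≠ 0 → DifferentiableAt ℂ f w := fun w hw hne =>
    (hfd w ⟨hw, hne⟩).differentiableAt (hopen.mem_nhds ⟨hw, hne⟩)
  intro w0 hw0
  obtain ⟨v, hv⟩ := Rmv.exists_dir hU hh hd hw0
  have hcont : Continuous fun z : ℂ => w0 + z • v := by fun_prop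
  -- radius of a circle without zeros
  have hU0 : ∀ᶠ z in 𝓝 (0 : ℂ), w0 + z • v ∈ U := by
    have : w0 + (0 : ℂ) • v ∈ U := by simpa using hw0
    exact hcont.continuousAt.eventually_mem (hU.mem_nhds this)
  have han0 : AnalyticAt ℂ (fun z : ℂ => h (w0 + z • v)) 0 := by
    have hO : IsOpen ((fun z : ℂ => w0 + z • v) ⁻¹' U) := hU.preimage hcont
    have hdiff : DifferentiableOn ℂ (fun z : ℂ => h (w0 + z • v))
        ((fun z : ℂ => w0 + z • v) ⁻¹' U) := by
      intro z hz
      have h1 : DifferentiableAt ℂ h (w0 + z • v) :=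
        (hh _ hz).differentiableAt (hU.mem_nhds hz)
      have h2 : DifferentiableAt ℂ (fun z : ℂ => w0 + z • v) z := by fun_prop
      exact (h1.comp z h2).differentiableWithinAt
    exact hdiff.analyticOnNhd hO 0 (by simpa using hw0)
  have hne : ∀ᶠ z in 𝓝[≠] (0 : ℂ), h (w0 + z • v) ≠ 0 :=
    han0.eventually_eq_zero_or_eventually_ne_zero.resolve_left hv
  rw [eventually_nhdsWithin_iff] at hne
  obtain ⟨r1, hr1, hr1'⟩ := Metric.eventually_nhds_iff_ball.1 (hU0.and hne)
  set r := r1 / 2 with hr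
  have hrpos : 0 < r := by positivity
  have hrlt : r < r1 := by rw [hr]; linarith
  have hcb : ∀ z ∈ Metric.closedBall (0 : ℂ) r, w0 + z • v ∈ U := fun z hz =>
    (hr1' z (Metric.closedBall_subset_ball hrlt hz)).1
  have hsp : ∀ z ∈ Metric.sphere (0 : ℂ) r, h (w0 + z • v) ≠ 0 := fun z hz =>
    (hr1' z (Metric.closedBall_subset_ball hrlt (Metric.sphere_subset_closedBall hz))).2 (by
      rintro rfl
      simp at hz
      exact hrpos.ne hz)
  -- uniform neighbourhoods
  have hF : Continuous fun p : C2 × ℂ => p.1 + p.2 • v := by fun_prop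
  have hA : ∀ᶠ w in 𝓝 w0, ∀ z ∈ Metric.closedBall (0 : ℂ) r, w + z • v ∈ U := by
    have := (isCompact_closedBall (0 : ℂ) r).eventually_forall_of_forall_eventually
      (x₀ := w0) (P := fun w z => w + z • v ∈ U) (fun z hz =>
        hF.continuousAt.eventually_mem (hU.mem_nhds (hcb z hz)))
    exact this
  have hB : ∀ᶠ w in 𝓝 w0, ∀ z ∈ Metric.sphere (0 : ℂ) r, w + z • v ∈ U ∧ h (w + z • v) ≠ 0 := by
    have := (isCompact_sphere (0 : ℂ) r).eventually_forall_of_forall_eventually
      (x₀ := w0) (P := fun w z => w + z • v ∈ U ∧ h (w + z • v) ≠ 0) (fun z hz =>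
        hF.continuousAt.eventually_mem (hopen.mem_nhds
          ⟨hcb z (Metric.sphere_subset_closedBall hz), hsp z hz⟩))
    exact this
  obtain ⟨s, hs, hs'⟩ := Metric.eventually_nhds_iff_ball.1 (hA.and hB)
  -- the integral formula
  have hcm : ∀ t : ℝ, circleMap 0 r t ∈ Metric.sphere (0 : ℂ) r := fun t =>
    circleMap_mem_sphere 0 hrpos.le t
  have hrep : ∀ w ∈ Metric.ball w0 s,
      f w = ∫ t in (0 : ℝ)..1, f (w + circleMap 0 r (2 * Real.pi * t) • v) := by
    intro w hw
    obtain ⟨hwA, hwB⟩ := hs' w hw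
    have hcw : Continuous fun z : ℂ => w + z • v := by fun_prop
    have h1 := Rmv.mean (F := fun z => f (w + z • v)) (H := fun z => h (w + z • v)) hrpos
      (hf.comp hcw.continuousOn hwA) (by
        have hO : IsOpen ((fun z : ℂ => w + z • v) ⁻¹' U) := hU.preimage hcw
        have hdiff : DifferentiableOn ℂ (fun z : ℂ => h (w + z • v))
            ((fun z : ℂ => w + z • v) ⁻¹' U) := by
          intro z hz
          have h1 : DifferentiableAt ℂ h (w + z • v) :=
            (hh _ hz).differentiableAt (hU.mem_nhds hz)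
          have h2 : DifferentiableAt ℂ (fun z : ℂ => w + z • v) z := by fun_prop
          exact (h1.comp z h2).differentiableWithinAt
        exact (hdiff.analyticOnNhd hO).mono hwA)
      (fun z hz => (hwB z hz).2)
      (fun z hz hne => by
        have h1 : DifferentiableAt ℂ f (w + z • v) := hfd' _ (hwA z hz) hne
        have h2 : DifferentiableAt ℂ (fun z : ℂ => w + z • v) z := by fun_prop
        exact h1.comp z h2)
    simpa using h1
  have hdiff : DifferentiableOn ℂ
      (fun w => ∫ t in (0 : ℝ)..1, f (w + circleMap 0 r (2 * Real.pi * t) • v))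
      (Metric.ball w0 s) := by
    refine diff_integral (g := fun t w => f (w + circleMap 0 r (2 * Real.pi * t) • v))
      Metric.isOpen_ball ?_ ?_
    · have hmap : Continuous fun p : ℝ × C2 => p.2 + circleMap 0 r (2 * Real.pi * p.1) • v := by
        fun_prop
      refine hf.comp hmap.continuousOn ?_
      rintro ⟨t, w⟩ ⟨_, hw⟩
      exact ((hs' w hw).2 _ (hcm _)).1
    · intro t _ w hw
      obtain ⟨hUw, hne⟩ := (hs' w hw).2 _ (hcm (2 * Real.pi * t))
      have h1 : DifferentiableAt ℂ f (w + circleMap 0 r (2 * Real.pi * t) • v) :=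
        hfd' _ hUw hne
      have h2 : DifferentiableAt ℂ (fun w : C2 => w + circleMap 0 r (2 * Real.pi * t) • v) w := by
        fun_prop
      exact (h1.comp w h2).differentiableWithinAt
  have hfin : DifferentiableOn ℂ f (Metric.ball w0 s) := hdiff.congr hrep
  exact ((hfin w0 (Metric.mem_ball_self hs)).differentiableAt
    (Metric.isOpen_ball.mem_nhds (Metric.mem_ball_self hs))).differentiableWithinAt

end Pool.Agent.KS
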