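import Pool.Agent.KS.Osg
import Pool.Agent.KS.Rmv
import Pool.Agent.KS.Div
import Pool.Agent.KS.Pin

/-!
# Birational structures on Kato surfaces: finite determinacy of nilpotent germs
-/

set_option autoImplicit false

namespace Pool.Agent.KS

open scoped Manifold ContDiff Topology
open Filter Asymptotics

namespace Nil

/-- The quadratic remainder. -/
theorem quad {F : C2 → C2} (hF : AnalyticAt ℂ F 0) (h0 : F 0 = 0) :
    ∃ C δ : ℝ, 0 < C ∧ 0 < δ ∧ ∀ w, ‖w‖ < δ → ‖F w - fderiv ℂ F 0 w‖ ≤ C * ‖w‖ ^ 2 := by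
  obtain ⟨p, hp⟩ := hF
  have h1 := hp.isBigO_sub_partialSum_pow 2
  have h2 : ∀ y : C2, p.partialSum 2 y = fderiv ℂ F 0 y := by
    intro y
    simp only [FormalMultilinearSeries.partialSum, Finset.sum_range_succ, Finset.sum_range_zero,
      zero_add]
    rw [hp.fderiv_eq]
    have h3 : p 0 (fun _ => y) = 0 := by
      have := hp.coeff_zero (fun _ => y)
      rw [this, h0]
    rw [h3, zero_add]
    rw [continuousMultilinearCurryFin1_apply]
    congr 1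
  obtain ⟨C, hC, hb⟩ := h1.exists_pos
  rw [isBigOWith_iff] at hb
  obtain ⟨δ, hδ, hb'⟩ := Metric.eventually_nhds_iff.1 hb
  refine ⟨C, δ, hC, hδ, fun w hw => ?_⟩
  have := hb' (y := w) (by simpa [dist_eq_norm] using hw)
  rw [zero_add, h2] at this
  simpa using this

end Nil

theorem gauge {F : C2 → C2} (hF : AnalyticAt ℂ F 0) (h0 : F 0 = 0)
    (hnil : ∀ v, fderiv ℂ F 0 (fderiv ℂ F 0 v) = 0) :
    ∃ (g : C2 → ℝ) (ε K : ℝ), 0 < ε ∧ 0 < K ∧ Continuous g ∧ (∀ w, ‖w‖ ^ 3 ≤ g w) ∧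
      (∀ w, ‖w‖ ≤ 1 → g w ≤ K * ‖w‖ ^ 2) ∧ ∀ w, g w < ε → g (F w) ^ 3 ≤ K * g w ^ 4 := by
  obtain ⟨C, δ, hC, hδ, hq⟩ := Nil.quad hF h0
  set D := fderiv ℂ F 0 with hD
  have hDn : 0 ≤ ‖D‖ := norm_nonneg _
  refine ⟨fun w => max (‖w‖ ^ 3) (‖D w‖ ^ 2), min 1 (δ ^ 3),
    2 ^ 9 * (1 + C ^ 9) + (‖D‖ * C) ^ 6 + 1 + ‖D‖ ^ 2, by positivity, by positivity,
    by fun_prop, fun w => le_max_left _ _, ?_, ?_⟩
  · intro w hw
    have hn : 0 ≤ ‖w‖ := norm_nonneg w
    refine max_le ?_ ?_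
    · have h1 : ‖w‖ ^ 3 ≤ ‖w‖ ^ 2 := pow_le_pow_of_le_one hn hw (by norm_num)
      refine h1.trans ?_
      have : (1 : ℝ) ≤ 2 ^ 9 * (1 + C ^ 9) + (‖D‖ * C) ^ 6 + 1 + ‖D‖ ^ 2 := by
        have := pow_pos hC 9
        have := sq_nonneg ‖D‖
        have : 0 ≤ (‖D‖ * C) ^ 6 := by positivity
        nlinarith
      nlinarith [sq_nonneg ‖w‖]
    · have h1 : ‖D w‖ ≤ ‖D‖ * ‖w‖ := D.le_opNorm w
      have h2 : ‖D w‖ ^ 2 ≤ (‖D‖ * ‖w‖) ^ 2 := pow_le_pow_left₀ (norm_nonneg _) h1 2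
      rw [mul_pow] at h2
      refine h2.trans ?_
      have h3 : ‖D‖ ^ 2 ≤ 2 ^ 9 * (1 + C ^ 9) + (‖D‖ * C) ^ 6 + 1 + ‖D‖ ^ 2 := by
        have : 0 ≤ (‖D‖ * C) ^ 6 := by positivity
        have := pow_pos hC 9
        nlinarith
      exact mul_le_mul_of_nonneg_right h3 (sq_nonneg _)
  · intro w hw
    simp only at hw ⊢
    set a := ‖w‖ with ha
    set b := ‖D w‖ with hb
    have ha0 : 0 ≤ a := norm_nonneg w
    have hb0 : 0 ≤ b := norm_nonneg _
    set γ := max (a ^ 3) (b ^ 2) with hγ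
    have hγ1 : γ < 1 := lt_of_lt_of_le hw (min_le_left _ _)
    have hγδ : γ < δ ^ 3 := lt_of_lt_of_le hw (min_le_right _ _)
    have haγ : a ^ 3 ≤ γ := le_max_left _ _
    have hbγ : b ^ 2 ≤ γ := le_max_right _ _
    have hγ0 : 0 ≤ γ := le_trans (by positivity) haγ
    have haδ : a < δ := lt_of_pow_lt_pow_left₀ 3 hδ.le (lt_of_le_of_lt haγ hγδ)
    have ha1 : a < 1 := lt_of_pow_lt_pow_left₀ 3 zero_le_one (by linarith [one_pow (M := ℝ) 3])
    have hb1 : b < 1 := lt_of_pow_lt_pow_left₀ 2 zero_le_one (by linarith [one_pow (M := ℝ) 2])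
    have hR := hq w haδ
    have hFw : ‖F w‖ ≤ b + C * a ^ 2 := by
      calc ‖F w‖ = ‖D w + (F w - D w)‖ := by congr 1; abel
        _ ≤ ‖D w‖ + ‖F w - D w‖ := norm_add_le _ _
        _ ≤ b + C * a ^ 2 := by linarith
    have hDF : ‖D (F w)‖ ≤ ‖D‖ * C * a ^ 2 := by
      have e1 : D (F w) = D (F w - D w) := by rw [map_sub, hnil w, sub_zero]
      rw [e1]
      calc ‖D (F w - D w)‖ ≤ ‖D‖ * ‖F w - D w‖ := D.le_opNorm _
        _ ≤ ‖D‖ * (C * a ^ 2) := mul_le_mul_of_nonneg_left hR hDn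
        _ = ‖D‖ * C * a ^ 2 := by ring
    have hb9 : b ^ 9 ≤ γ ^ 4 := by
      calc b ^ 9 = (b ^ 2) ^ 4 * b := by ring
        _ ≤ (b ^ 2) ^ 4 * 1 := mul_le_mul_of_nonneg_left hb1.le (by positivity)
        _ = (b ^ 2) ^ 4 := mul_one _
        _ ≤ γ ^ 4 := pow_le_pow_left₀ (by positivity) hbγ 4
    have ha12 : a ^ 12 ≤ γ ^ 4 := by
      calc a ^ 12 = (a ^ 3) ^ 4 := by ring
        _ ≤ γ ^ 4 := pow_le_pow_left₀ (by positivity) haγ 4
    have ha18 : a ^ 18 ≤ γ ^ 4 :=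
      (pow_le_pow_of_le_one ha0 ha1.le (by norm_num : 12 ≤ 18)).trans ha12
    have hF9 : ‖F w‖ ^ 9 ≤ 2 ^ 9 * (1 + C ^ 9) * γ ^ 4 := by
      have h1 : ‖F w‖ ^ 9 ≤ (b + C * a ^ 2) ^ 9 := pow_le_pow_left₀ (norm_nonneg _) hFw 9
      have h2 : b + C * a ^ 2 ≤ 2 * max b (C * a ^ 2) := by
        have := le_max_left b (C * a ^ 2)
        have := le_max_right b (C * a ^ 2)
        linarith
      have h3 : (b + C * a ^ 2) ^ 9 ≤ (2 * max b (C * a ^ 2)) ^ 9 :=
        pow_le_pow_left₀ (by positivity) h2 9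
      have h4 : (max b (C * a ^ 2)) ^ 9 ≤ b ^ 9 + (C * a ^ 2) ^ 9 := by
        rcases max_choice b (C * a ^ 2) with h | h
        · rw [h]; have : 0 ≤ (C * a ^ 2) ^ 9 := by positivity
          linarith
        · rw [h]; have : 0 ≤ b ^ 9 := by positivity
          linarith
      calc ‖F w‖ ^ 9 ≤ (2 * max b (C * a ^ 2)) ^ 9 := h1.trans h3
        _ = 2 ^ 9 * (max b (C * a ^ 2)) ^ 9 := by ring
        _ ≤ 2 ^ 9 * (b ^ 9 + (C * a ^ 2) ^ 9) := mul_le_mul_of_nonneg_left h4 (by norm_num)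
        _ = 2 ^ 9 * (b ^ 9 + C ^ 9 * a ^ 18) := by ring
        _ ≤ 2 ^ 9 * (γ ^ 4 + C ^ 9 * γ ^ 4) := by
            have : C ^ 9 * a ^ 18 ≤ C ^ 9 * γ ^ 4 :=
              mul_le_mul_of_nonneg_left ha18 (by positivity)
            linarith
        _ = 2 ^ 9 * (1 + C ^ 9) * γ ^ 4 := by ring
    have hD6 : ‖D (F w)‖ ^ 6 ≤ (‖D‖ * C) ^ 6 * γ ^ 4 := by
      calc ‖D (F w)‖ ^ 6 ≤ (‖D‖ * C * a ^ 2) ^ 6 := pow_le_pow_left₀ (norm_nonneg _) hDF 6
        _ = (‖D‖ * C) ^ 6 * a ^ 12 := by ring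
        _ ≤ (‖D‖ * C) ^ 6 * γ ^ 4 := mul_le_mul_of_nonneg_left ha12 (by positivity)
    have hγ4 : 0 ≤ γ ^ 4 := by positivity
    have hmax : (max (‖F w‖ ^ 3) (‖D (F w)‖ ^ 2)) ^ 3 ≤
        2 ^ 9 * (1 + C ^ 9) * γ ^ 4 + (‖D‖ * C) ^ 6 * γ ^ 4 := by
      have p1 : 0 ≤ 2 ^ 9 * (1 + C ^ 9) * γ ^ 4 := by positivity
      have p2 : 0 ≤ (‖D‖ * C) ^ 6 * γ ^ 4 := by positivity
      rcases max_choice (‖F w‖ ^ 3) (‖D (F w)‖ ^ 2) with h | h
      · rw [h, ← pow_mul]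
        have h9 : ‖F w‖ ^ (3 * 3) ≤ 2 ^ 9 * (1 + C ^ 9) * γ ^ 4 := hF9
        linarith
      · rw [h, ← pow_mul]
        have h6 : ‖D (F w)‖ ^ (2 * 3) ≤ (‖D‖ * C) ^ 6 * γ ^ 4 := hD6
        linarith
    refine hmax.trans ?_
    have : 0 ≤ γ ^ 4 + ‖D‖ ^ 2 * γ ^ 4 := by positivity
    nlinarith

namespace Nil

theorem small (a : ℝ) {b : ℝ} (hb : 0 < b) : ∀ᶠ δ in 𝓝[>] (0 : ℝ), a * δ ≤ b := by
  have h1 : Tendsto (fun δ : ℝ => a * δ) (𝓝 0) (𝓝 (a * 0)) :=
    (continuous_const.mul continuous_id).tendsto 0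
  rw [mul_zero] at h1
  exact ((h1.eventually_lt_const hb).mono fun _ h => le_of_lt h).filter_mono nhdsWithin_le_nhds

open Classical in
/-- The approximations of the conjugacy. -/
noncomputable def seq (F σ τ I : C2 → C2) : ℕ → C2 → C2
  | 0 => id
  | k + 1 => fun w => if F w = 0 then τ (σ w) else τ (I (seq F σ τ I k (F w)))

end Nil

theorem germ_nilp {Ls : List (C2 ≃L[ℂ] C2)} (hL : Ls ≠ []) {σ : C2 → C2} (hσ : Dif σ)
    (hnil : ∀ v, fderiv ℂ (PiL Ls ∘ σ) 0 (fderiv ℂ (PiL Ls ∘ σ) 0 v) = 0) :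
    ∃ N : ℕ, ∀ σ' : C2 → C2, Dif σ' → ((fun w => σ w - σ' w) =O[𝓝 0] fun w => ‖w‖ ^ N) →
      ∃ φ, Dif φ ∧ ∀ᶠ w in 𝓝 (0 : C2), φ (PiL Ls (σ w)) = PiL Ls (σ' (φ w)) := by
  classical
  obtain ⟨h, hh, hzero, hdense⟩ := pi_zero Ls hL
  obtain ⟨r, c, C, hr, hc, hC, hinv⟩ := pi_inv Ls
  set n := Ls.length with hn
  set F : C2 → C2 := PiL Ls ∘ σ with hF
  have hFan : AnalyticAt ℂ F 0 := (pi_an Ls (σ 0)).comp hσ.an
  have hF0 : F 0 = 0 := by simp [hF, hσ.zero, pi_map_zero]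
  obtain ⟨g, ε, K, hε, hK, hgc, hg3, hg2, hgF⟩ := gauge hFan hF0 hnil
  set M := 4 * n + 3 with hM
  refine ⟨3 * M, fun σ' hσ' hO => ?_⟩
  obtain ⟨τ, hτ, hτ1, hτ2⟩ := dif_inv hσ'
  obtain ⟨e, he0, heq, hean, -, -⟩ := dif_homeo hσ.an hσ.inv
  obtain ⟨C0, hC0, hb⟩ := hO.exists_pos
  rw [isBigOWith_iff] at hb
  obtain ⟨L, s, hs, hLip⟩ := hτ.an.hasStrictFDerivAt.exists_lipschitzOnWith
  -- the radii
  have hτan : ∀ᶠ w in 𝓝 (0 : C2), AnalyticAt ℂ τ w := hτ.an.eventually_analyticAt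
  have hes : ∀ᶠ w in 𝓝 (0 : C2), w ∈ e.source := e.open_source.mem_nhds he0
  obtain ⟨ρ, hρ, hρ1⟩ := Metric.eventually_nhds_iff.1
    (((((eventually_mem_set.2 hs).and hτan).and (hτ1.and hτ2)).and hb).and hes)
  simp only [dist_zero_right] at hρ1
  have hσc : Tendsto σ (𝓝 0) (𝓝 0) := by
    have := hσ.an.continuousAt.tendsto
    rwa [hσ.zero] at this
  have hσc' : Tendsto σ' (𝓝 0) (𝓝 0) := by
    have := hσ'.an.continuousAt.tendsto
    rwa [hσ'.zero] at this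
  have hr1 : ∀ᶠ w in 𝓝 (0 : C2), ‖σ w‖ < min (ρ / 2) r :=
    (tendsto_zero_iff_norm_tendsto_zero.1 hσc).eventually_lt_const (by positivity)
  have hr2 : ∀ᶠ w in 𝓝 (0 : C2), ‖σ' w‖ < ρ :=
    (tendsto_zero_iff_norm_tendsto_zero.1 hσc').eventually_lt_const hρ
  obtain ⟨ρ', hρ', hρ2⟩ := Metric.eventually_nhds_iff.1 (hr1.and hr2)
  simp only [dist_zero_right] at hρ2
  set A : ℝ := L * C0 with hA
  have hA0 : 0 ≤ A := by positivity
  have hKM : 0 < 2 * A * K ^ M + 1 := by positivity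
  have hcube : ∀ b : ℝ, 0 < b → ∀ᶠ δ in 𝓝[>] (0 : ℝ), 1 * δ ≤ b ^ 3 := fun b hb' =>
    Nil.small 1 (by positivity)
  obtain ⟨δ, ⟨⟨⟨⟨⟨⟨⟨⟨hδ1, hδε⟩, hδK⟩, hδL⟩, hδρ⟩, hδρ'⟩, hδρ''⟩, hδc⟩, hδ0⟩⟩ :=
    (((((((((Nil.small 1 one_pos).and (Nil.small 1 hε)).and
      (Nil.small K (by norm_num : (0 : ℝ) < 1 / 8))).and
      (Nil.small (L * C * K ^ (2 * n + 1)) (by norm_num : (0 : ℝ) < 1 / 2))).and
      (Nil.small (2 * C * A * K ^ (2 * n + 1)) (by positivity : 0 < ρ / 3))).and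
      (hcube ρ hρ)).and (hcube ρ' hρ')).and
      (hcube (c / (2 * A * K ^ M + 1)) (by positivity))).and self_mem_nhdsWithin).exists
  rw [one_mul] at hδ1 hδε hδρ' hδρ'' hδc
  replace hδ0 : 0 < δ := hδ0
  have hg0 : ∀ w, 0 ≤ g w := fun w => le_trans (by positivity) (hg3 w)
  have hlt : ∀ b : ℝ, 0 < b → δ ≤ b ^ 3 → ∀ w, g w < δ → ‖w‖ < b := by
    intro b hb' hδb w hw
    exact lt_of_pow_lt_pow_left₀ 3 hb'.le (lt_of_le_of_lt (hg3 w) (hw.trans_le hδb))
  have hw1 : ∀ w, g w < δ → ‖w‖ < 1 := hlt 1 one_pos (by simpa using hδ1)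
  have hwρ : ∀ w, g w < δ → ‖w‖ < ρ := hlt ρ hρ hδρ'
  have hwρ' : ∀ w, g w < δ → ‖w‖ < ρ' := hlt ρ' hρ' hδρ''
  have hwc : ∀ w, g w < δ → (2 * A * K ^ M) * ‖w‖ ≤ c := by
    intro w hw
    have h1 := hlt _ (by positivity) hδc w hw
    rw [lt_div_iff₀ hKM] at h1
    nlinarith [norm_nonneg w]
  have hfw : ∀ w, g w < δ → g (F w) ≤ g w / 2 := by
    intro w hw
    by_contra hcon
    push Not at hcon
    have h1 := hgF w (hw.trans_le hδε)
    have h2 : (g w / 2) ^ 3 < g (F w) ^ 3 := pow_lt_pow_left₀ hcon (by have := hg0 w; linarith)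
      (by norm_num)
    have h3 : K * g w ^ 4 ≤ 1 / 8 * g w ^ 3 := by
      have h4 : K * g w ≤ 1 / 8 := le_trans (mul_le_mul_of_nonneg_left hw.le hK.le) hδK
      calc K * g w ^ 4 = (K * g w) * g w ^ 3 := by ring
        _ ≤ 1 / 8 * g w ^ 3 := mul_le_mul_of_nonneg_right h4 (pow_nonneg (hg0 w) 3)
    have h5 : (g w / 2) ^ 3 = 1 / 8 * g w ^ 3 := by ring
    linarith
  have hfD : ∀ w, g w < δ → g (F w) < δ := fun w hw =>
    lt_of_le_of_lt (hfw w hw) (by have := hg0 w; linarith)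
  have hkey : ∀ w, g w < δ → F w ≠ 0 → ∀ X : ℝ, 0 ≤ X → ∀ d : ℝ,
      d * ‖F w‖ ^ n ≤ X * g (F w) ^ M → d ≤ X * K ^ (2 * n + 1) * g w * g w ^ M := by
    intro w hw hFw X hX d hd
    have hb0 : 0 < ‖F w‖ := norm_pos_iff.2 hFw
    have hb1 : ‖F w‖ ≤ 1 := (hw1 _ (hfD w hw)).le
    have hG := hg0 (F w)
    have h1 : g (F w) ^ n ≤ K ^ n * ‖F w‖ ^ n := by
      calc g (F w) ^ n ≤ (K * ‖F w‖ ^ 2) ^ n := pow_le_pow_left₀ hG (hg2 _ hb1) n
        _ ≤ (K * ‖F w‖) ^ n := by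
            refine pow_le_pow_left₀ (by positivity) ?_ n
            refine mul_le_mul_of_nonneg_left ?_ hK.le
            nlinarith
        _ = K ^ n * ‖F w‖ ^ n := mul_pow _ _ _
    have h2 : g (F w) ^ (3 * (n + 1)) ≤ (K * g w ^ 4) ^ (n + 1) := by
      rw [pow_mul]
      exact pow_le_pow_left₀ (by positivity) (hgF w (hw.trans_le hδε)) (n + 1)
    have h3 : g (F w) ^ M = g (F w) ^ (3 * (n + 1)) * g (F w) ^ n := by
      rw [← pow_add]
      congr 1
      omega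
    have h4 : g (F w) ^ M ≤ (K * g w ^ 4) ^ (n + 1) * (K ^ n * ‖F w‖ ^ n) := by
      rw [h3]
      exact mul_le_mul h2 h1 (by positivity) (by have := hg0 w; positivity)
    have h5 : d * ‖F w‖ ^ n ≤ (X * K ^ (2 * n + 1) * g w * g w ^ M) * ‖F w‖ ^ n := by
      calc d * ‖F w‖ ^ n ≤ X * g (F w) ^ M := hd
        _ ≤ X * ((K * g w ^ 4) ^ (n + 1) * (K ^ n * ‖F w‖ ^ n)) :=
            mul_le_mul_of_nonneg_left h4 hX
        _ = (X * K ^ (2 * n + 1) * g w * g w ^ M) * ‖F w‖ ^ n := by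
            have e1 : (K * g w ^ 4) ^ (n + 1) = K ^ (n + 1) * (g w * g w ^ M) := by
              rw [mul_pow, ← pow_mul, ← pow_succ']
              congr 2
            have e2 : K ^ (2 * n + 1) = K ^ (n + 1) * K ^ n := by
              rw [← pow_add]
              congr 1
              omega
            rw [e1, e2]
            ring
    exact le_of_mul_le_mul_right h5 (by positivity)
  have hy : ∀ x, g x < δ → ∀ y, ‖y - x‖ ≤ 2 * A * g x ^ M → ‖y - x‖ ≤ c * ‖x‖ ^ (n + 1) := by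
    intro x hx y hyx
    refine hyx.trans ?_
    have hx1 : ‖x‖ ≤ 1 := (hw1 x hx).le
    have hx0 := norm_nonneg x
    have h1 : g x ^ M ≤ K ^ M * ‖x‖ ^ (2 * M) := by
      calc g x ^ M ≤ (K * ‖x‖ ^ 2) ^ M := pow_le_pow_left₀ (hg0 x) (hg2 _ hx1) M
        _ = K ^ M * ‖x‖ ^ (2 * M) := by rw [mul_pow, ← pow_mul]
    have h2 : ‖x‖ ^ (2 * M) ≤ ‖x‖ * ‖x‖ ^ (n + 1) := by
      rw [← pow_succ']
      exact pow_le_pow_of_le_one hx0 hx1 (by omega)
    calc 2 * A * g x ^ M ≤ 2 * A * (K ^ M * (‖x‖ * ‖x‖ ^ (n + 1))) := by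
          refine mul_le_mul_of_nonneg_left (h1.trans ?_) (by positivity)
          exact mul_le_mul_of_nonneg_left h2 (by positivity)
      _ = (2 * A * K ^ M * ‖x‖) * ‖x‖ ^ (n + 1) := by ring
      _ ≤ c * ‖x‖ ^ (n + 1) := mul_le_mul_of_nonneg_right (hwc x hx) (by positivity)
  have hσr : ∀ w, g w < δ → ‖σ w‖ < r := fun w hw =>
    lt_of_lt_of_le (hρ2 (hwρ' w hw)).1 (min_le_right _ _)
  have hσρ : ∀ w, g w < δ → ‖σ w‖ < ρ / 2 := fun w hw =>
    lt_of_lt_of_le (hρ2 (hwρ' w hw)).1 (min_le_left _ _)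
  have hnear : ∀ w, g w < δ → F w ≠ 0 → ∀ y, ‖y - F w‖ ≤ 2 * A * g (F w) ^ M →
      PiL Ls (iPi Ls y) = y ∧ DifferentiableAt ℂ (iPi Ls) y ∧
      ‖iPi Ls y - σ w‖ * ‖F w‖ ^ n ≤ C * ‖y - F w‖ ∧
      ∀ y' : C2, ‖y' - F w‖ ≤ 2 * A * g (F w) ^ M →
        ‖iPi Ls y - iPi Ls y'‖ * ‖F w‖ ^ n ≤ C * ‖y - y'‖ := by
    intro w hw hFw y hyw
    obtain ⟨q1, q2, q3, q4⟩ := hinv (σ w) (hσr w hw) hFw y (hy _ (hfD w hw) y hyw)
    exact ⟨q1, q2, q3, fun y' hy' => q4 y' (hy _ (hfD w hw) y' hy')⟩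
  have hball : ∀ w, g w < δ → F w ≠ 0 → ∀ y, ‖y - F w‖ ≤ 2 * A * g (F w) ^ M →
      ‖iPi Ls y‖ < ρ := by
    intro w hw hFw y hyw
    obtain ⟨-, -, q3, -⟩ := hnear w hw hFw y hyw
    have h1 : ‖iPi Ls y - σ w‖ * ‖F w‖ ^ n ≤ (2 * C * A) * g (F w) ^ M :=
      q3.trans (by
        calc C * ‖y - F w‖ ≤ C * (2 * A * g (F w) ^ M) := mul_le_mul_of_nonneg_left hyw hC.le
          _ = (2 * C * A) * g (F w) ^ M := by ring)
    have h2 := hkey w hw hFw (2 * C * A) (by positivity) _ h1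
    have h3 : g w ^ M ≤ 1 := pow_le_one₀ (hg0 w) (hw.le.trans hδ1)
    have h4 : 2 * C * A * K ^ (2 * n + 1) * g w ≤ ρ / 3 :=
      le_trans (mul_le_mul_of_nonneg_left hw.le (by positivity)) hδρ
    have h5 : 2 * C * A * K ^ (2 * n + 1) * g w * g w ^ M ≤ ρ / 3 := by
      have h6 : 0 ≤ 2 * C * A * K ^ (2 * n + 1) * g w := by have := hg0 w; positivity
      calc 2 * C * A * K ^ (2 * n + 1) * g w * g w ^ M
          ≤ 2 * C * A * K ^ (2 * n + 1) * g w * 1 := mul_le_mul_of_nonneg_left h3 h6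
        _ ≤ ρ / 3 := by rw [mul_one]; exact h4
    have h7 : ‖iPi Ls y‖ ≤ ‖iPi Ls y - σ w‖ + ‖σ w‖ := by
      calc ‖iPi Ls y‖ = ‖(iPi Ls y - σ w) + σ w‖ := by rw [sub_add_cancel]
        _ ≤ _ := norm_add_le _ _
    have h8 := hσρ w hw
    linarith
  have hLτ : ∀ x y : C2, ‖x‖ < ρ → ‖y‖ < ρ → ‖τ x - τ y‖ ≤ L * ‖x - y‖ := by
    intro x y hx hy'
    have := hLip.dist_le_mul x (hρ1 hx).1.1.1.1 y (hρ1 hy').1.1.1.1
    simpa [dist_eq_norm] using this
  set S := Nil.seq F σ τ (iPi Ls) with hS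
  have hSz : ∀ k w, F w = 0 → S (k + 1) w = τ (σ w) := by
    intro k w hw
    simp only [hS, Nil.seq]
    rw [if_pos hw]
  have hSs : ∀ k w, F w ≠ 0 → S (k + 1) w = τ (iPi Ls (S k (F w))) := by
    intro k w hw
    simp only [hS, Nil.seq]
    rw [if_neg hw]
  have hS0 : ∀ w, S 0 w = w := fun w => rfl
  have hS1 : ∀ w, g w < δ → S 1 w = τ (σ w) := by
    intro w hw
    by_cases hFw : F w = 0
    · exact hSz 0 w hFw
    · rw [hSs 0 w hFw, hS0]
      have h1 : ‖F w - F w‖ ≤ 2 * A * g (F w) ^ M := by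
        rw [sub_self, norm_zero]
        have := hg0 (F w)
        positivity
      obtain ⟨-, -, q3, -⟩ := hnear w hw hFw (F w) h1
      rw [sub_self, norm_zero, mul_zero] at q3
      have h2 : ‖iPi Ls (F w) - σ w‖ ≤ 0 := by
        by_contra hcon
        push Not at hcon
        have : 0 < ‖iPi Ls (F w) - σ w‖ * ‖F w‖ ^ n :=
          mul_pos hcon (pow_pos (norm_pos_iff.2 hFw) n)
        linarith
      have h3 := norm_le_zero_iff.1 h2
      rw [sub_eq_zero.1 h3]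
  have hI : ∀ k, ∀ w, g w < δ → ‖S (k + 1) w - S k w‖ ≤ A * (1 / 2) ^ k * g w ^ M ∧
      ‖S k w - w‖ ≤ 2 * A * (1 - (1 / 2) ^ k) * g w ^ M := by
    intro k
    induction k with
    | zero =>
      intro w hw
      refine ⟨?_, by simp [hS0]⟩
      rw [hS1 w hw, hS0]
      have h1 := hρ1 (hwρ w hw)
      have h2 := hρ2 (hwρ' w hw)
      have h3 : ‖τ (σ w) - τ (σ' w)‖ ≤ L * ‖σ w - σ' w‖ :=
        hLτ _ _ (by have := hσρ w hw; linarith) h2.2
      rw [h1.1.1.2.1] at h3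
      have h4 : ‖σ w - σ' w‖ ≤ C0 * g w ^ M := by
        have h5 := h1.1.2
        rw [Real.norm_of_nonneg (by positivity), pow_mul] at h5
        exact h5.trans (mul_le_mul_of_nonneg_left
          (pow_le_pow_left₀ (by positivity) (hg3 w) M) hC0.le)
      calc ‖τ (σ w) - w‖ ≤ L * ‖σ w - σ' w‖ := h3
        _ ≤ L * (C0 * g w ^ M) := mul_le_mul_of_nonneg_left h4 L.coe_nonneg
        _ = A * (1 / 2) ^ 0 * g w ^ M := by rw [hA]; ring
    | succ k ih =>
      have hsec : ∀ w, g w < δ → ‖S (k + 1) w - w‖ ≤ 2 * A * (1 - (1 / 2) ^ (k + 1)) * g w ^ M := by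
        intro w hw
        obtain ⟨i1, i2⟩ := ih w hw
        calc ‖S (k + 1) w - w‖ = ‖(S (k + 1) w - S k w) + (S k w - w)‖ := by
              rw [sub_add_sub_cancel]
          _ ≤ ‖S (k + 1) w - S k w‖ + ‖S k w - w‖ := norm_add_le _ _
          _ ≤ A * (1 / 2) ^ k * g w ^ M + 2 * A * (1 - (1 / 2) ^ k) * g w ^ M := add_le_add i1 i2
          _ = 2 * A * (1 - (1 / 2) ^ (k + 1)) * g w ^ M := by ring
      intro w hw
      refine ⟨?_, hsec w hw⟩
      by_cases hFw : F w = 0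
      · rw [hSz (k + 1) w hFw, hSz k w hFw, sub_self, norm_zero]
        have := hg0 w
        positivity
      · rw [hSs (k + 1) w hFw, hSs k w hFw]
        have hD := hfD w hw
        have hG := hg0 (F w)
        have hp : ∀ j : ℕ, (0 : ℝ) ≤ (1 / 2) ^ j := fun j => by positivity
        have hy1 : ‖S (k + 1) (F w) - F w‖ ≤ 2 * A * g (F w) ^ M := by
          refine (hsec _ hD).trans ?_
          refine mul_le_mul_of_nonneg_right ?_ (by positivity)
          have := hp (k + 1)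
          nlinarith
        have hy2 : ‖S k (F w) - F w‖ ≤ 2 * A * g (F w) ^ M := by
          refine (ih _ hD).2.trans ?_
          refine mul_le_mul_of_nonneg_right ?_ (by positivity)
          have := hp k
          nlinarith
        obtain ⟨-, -, -, q4⟩ := hnear w hw hFw _ hy1
        have h1 := q4 _ hy2
        have h2 : ‖iPi Ls (S (k + 1) (F w)) - iPi Ls (S k (F w))‖ * ‖F w‖ ^ n ≤
            (C * (A * (1 / 2) ^ k)) * g (F w) ^ M := by
          refine h1.trans ?_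
          calc C * ‖S (k + 1) (F w) - S k (F w)‖ ≤ C * (A * (1 / 2) ^ k * g (F w) ^ M) :=
                mul_le_mul_of_nonneg_left (ih _ hD).1 hC.le
            _ = _ := by ring
        have h3 := hkey w hw hFw (C * (A * (1 / 2) ^ k)) (by positivity) _ h2
        have h4 := hLτ _ _ (hball w hw hFw _ hy1) (hball w hw hFw _ hy2)
        have h5 : L * C * K ^ (2 * n + 1) * g w ≤ 1 / 2 :=
          le_trans (mul_le_mul_of_nonneg_left hw.le (by positivity)) hδL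
        calc ‖τ (iPi Ls (S (k + 1) (F w))) - τ (iPi Ls (S k (F w)))‖
            ≤ L * ‖iPi Ls (S (k + 1) (F w)) - iPi Ls (S k (F w))‖ := h4
          _ ≤ L * (C * (A * (1 / 2) ^ k) * K ^ (2 * n + 1) * g w * g w ^ M) :=
              mul_le_mul_of_nonneg_left h3 L.coe_nonneg
          _ = (L * C * K ^ (2 * n + 1) * g w) * (A * (1 / 2) ^ k * g w ^ M) := by ring
          _ ≤ (1 / 2) * (A * (1 / 2) ^ k * g w ^ M) :=
              mul_le_mul_of_nonneg_right h5 (by have := hg0 w; positivity)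
          _ = A * (1 / 2) ^ (k + 1) * g w ^ M := by ring
  have hI2 : ∀ k w, g w < δ → ‖S k w - w‖ ≤ 2 * A * g w ^ M := by
    intro k w hw
    refine (hI k w hw).2.trans ?_
    have := hg0 w
    refine mul_le_mul_of_nonneg_right ?_ (by positivity)
    have : (0 : ℝ) ≤ (1 / 2) ^ k := by positivity
    nlinarith
  set D : Set C2 := {w | g w < δ} with hDdef
  have hDo : IsOpen D := isOpen_lt hgc continuous_const
  have hD0 : (0 : C2) ∈ D := by
    have h1 := hg2 0 (by simp)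
    rw [norm_zero] at h1
    have h2 : g 0 ≤ 0 := by simpa using h1
    exact lt_of_le_of_lt h2 hδ0
  have hσan : ∀ w ∈ D, AnalyticAt ℂ σ w := by
    intro w hw
    have h1 : w ∈ e.source := (hρ1 (hwρ w hw)).2
    refine (hean w h1).congr ?_
    filter_upwards [e.open_source.mem_nhds h1] with y hy' using heq y hy'
  have hFan' : ∀ w ∈ D, AnalyticAt ℂ F w := fun w hw => (pi_an Ls (σ w)).comp (hσan w hw)
  have hτσ : ∀ w ∈ D, ContinuousAt (fun w => τ (σ w)) w := by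
    intro w hw
    have h1 : ‖σ w‖ < ρ := by have := hσρ w hw; linarith
    exact ContinuousAt.comp (f := σ) (g := τ) (hρ1 h1).1.1.1.2.continuousAt
      (hσan w hw).continuousAt
  have hI3 : ∀ k, ∀ w ∈ D, ‖S (k + 1) w - τ (σ w)‖ ≤ L * (C * c) * ‖F w‖ := by
    intro k w hw
    by_cases hFw : F w = 0
    · rw [hSz k w hFw, sub_self, norm_zero]
      positivity
    · rw [hSs k w hFw]
      have hy1 := hI2 k (F w) (hfD w hw)
      obtain ⟨-, -, q3, -⟩ := hnear w hw hFw _ hy1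
      have h1 := hy _ (hfD w hw) _ hy1
      have h2 : ‖iPi Ls (S k (F w)) - σ w‖ * ‖F w‖ ^ n ≤ (C * c * ‖F w‖) * ‖F w‖ ^ n := by
        refine q3.trans ?_
        calc C * ‖S k (F w) - F w‖ ≤ C * (c * ‖F w‖ ^ (n + 1)) :=
              mul_le_mul_of_nonneg_left h1 hC.le
          _ = _ := by ring
      have h3 := le_of_mul_le_mul_right h2 (pow_pos (norm_pos_iff.2 hFw) n)
      have h4 := hLτ _ _ (hball w hw hFw _ hy1) (by have := hσρ w hw; linarith : ‖σ w‖ < ρ)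
      calc ‖τ (iPi Ls (S k (F w))) - τ (σ w)‖ ≤ L * ‖iPi Ls (S k (F w)) - σ w‖ := h4
        _ ≤ L * (C * c * ‖F w‖) := mul_le_mul_of_nonneg_left h3 L.coe_nonneg
        _ = _ := by ring
  have hSd : ∀ k, DifferentiableOn ℂ (S k) D := by
    intro k
    induction k with
    | zero => exact differentiableOn_id
    | succ k ih =>
      have hda : ∀ w ∈ D, F w ≠ 0 → DifferentiableAt ℂ (S (k + 1)) w := by
        intro w hw hFw
        have hy1 := hI2 k (F w) (hfD w hw)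
        obtain ⟨-, q2, -, -⟩ := hnear w hw hFw _ hy1
        have h1 : DifferentiableAt ℂ (S k) (F w) :=
          (ih (F w) (hfD w hw)).differentiableAt (hDo.mem_nhds (hfD w hw))
        have h2 : DifferentiableAt ℂ τ (iPi Ls (S k (F w))) :=
          (hρ1 (hball w hw hFw _ hy1)).1.1.1.2.differentiableAt
        have h3 : DifferentiableAt ℂ (fun w => τ (iPi Ls (S k (F w)))) w :=
          DifferentiableAt.comp (f := fun w => iPi Ls (S k (F w))) (g := τ) w h2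
            (DifferentiableAt.comp (f := fun w => S k (F w)) (g := iPi Ls) w q2
              (DifferentiableAt.comp (f := F) (g := S k) w h1 (hFan' w hw).differentiableAt))
        refine h3.congr_of_eventuallyEq ?_
        filter_upwards [(hFan' w hw).continuousAt.eventually_ne hFw] with z hz using hSs k z hz
      refine removable (h := fun w => h (σ w)) hDo ?_ ?_ ?_ ?_
      · intro w hw
        refine ContinuousAt.continuousWithinAt ?_
        by_cases hFw : F w = 0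
        · rw [ContinuousAt, tendsto_iff_norm_sub_tendsto_zero]
          have h1 : Tendsto (fun z => L * (C * c) * ‖F z‖ + ‖τ (σ z) - τ (σ w)‖) (𝓝 w)
              (𝓝 (L * (C * c) * ‖F w‖ + ‖τ (σ w) - τ (σ w)‖)) := by
            refine Tendsto.add (Tendsto.mul tendsto_const_nhds ?_) ?_
            · exact (hFan' w hw).continuousAt.norm.tendsto
            · exact ((hτσ w hw).sub continuousAt_const).norm.tendsto
          rw [hFw, sub_self, norm_zero, mul_zero, add_zero] at h1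
          refine squeeze_zero' (Eventually.of_forall fun _ => norm_nonneg _) ?_ h1
          filter_upwards [hDo.mem_nhds hw] with z hz
          rw [hSz k w hFw]
          calc ‖S (k + 1) z - τ (σ w)‖ = ‖(S (k + 1) z - τ (σ z)) + (τ (σ z) - τ (σ w))‖ := by
                rw [sub_add_sub_cancel]
            _ ≤ ‖S (k + 1) z - τ (σ z)‖ + ‖τ (σ z) - τ (σ w)‖ := norm_add_le _ _
            _ ≤ L * (C * c) * ‖F z‖ + ‖τ (σ z) - τ (σ w)‖ := by
                have := hI3 k z hz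
                linarith
        · exact (hda w hw hFw).continuousAt
      · intro w hw
        exact (DifferentiableAt.comp (f := σ) (g := h) w (hh (σ w))
          (hσan w hw).differentiableAt).differentiableWithinAt
      · rintro w ⟨hw, hw'⟩
        have hFw : F w ≠ 0 := fun h0 => hw' ((hzero (σ w)).1 h0)
        exact (hda w hw hFw).differentiableWithinAt
      · intro V hV hVne hVD
        have hVs : V ⊆ e.source := fun w hw => (hρ1 (hwρ w (hVD hw))).2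
        have h1 : IsOpen (e '' V) := e.isOpen_image_of_subset_source hV hVs
        obtain ⟨x, ⟨w, hw, rfl⟩, hx⟩ := hdense (e '' V) h1 (hVne.image _)
        refine ⟨w, hw, ?_⟩
        rw [← heq w (hVs hw)]
        exact hx
  have hdist : ∀ w ∈ D, ∀ k, dist (S k w) (S (k + 1) w) ≤ A * g w ^ M * (1 / 2) ^ k := by
    intro w hw k
    rw [dist_comm, dist_eq_norm]
    refine (hI k w hw).1.trans (le_of_eq (by ring))
  have hlim : ∀ w, ∃ l, w ∈ D → Tendsto (fun k => S k w) atTop (𝓝 l) := by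
    intro w
    by_cases hw : w ∈ D
    · obtain ⟨l, hl⟩ := cauchySeq_tendsto_of_complete
        (cauchySeq_of_le_geometric (1 / 2) (A * g w ^ M) (by norm_num) (hdist w hw))
      exact ⟨l, fun _ => hl⟩
    · exact ⟨0, fun h => absurd h hw⟩
  choose φ hφ using hlim
  have hφS : ∀ w ∈ D, ∀ k, dist (S k w) (φ w) ≤ 2 * A * (1 / 2) ^ k := by
    intro w hw k
    have h1 := dist_le_of_le_geometric_of_tendsto (1 / 2) (A * g w ^ M) (by norm_num)
      (hdist w hw) (hφ w hw) k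
    refine h1.trans ?_
    have h3 : g w ^ M ≤ 1 := pow_le_one₀ (hg0 w) (le_of_lt (lt_of_lt_of_le hw hδ1))
    have h4 : A * g w ^ M * (1 / 2) ^ k / (1 - 1 / 2) = 2 * A * (1 / 2) ^ k * g w ^ M := by ring
    rw [h4]
    calc 2 * A * (1 / 2) ^ k * g w ^ M ≤ 2 * A * (1 / 2) ^ k * 1 :=
          mul_le_mul_of_nonneg_left h3 (by positivity)
      _ = _ := mul_one _
  have hunif : TendstoUniformlyOn S φ atTop D := by
    rw [Metric.tendstoUniformlyOn_iff]
    intro η hη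
    have h1 : Tendsto (fun k : ℕ => 2 * A * (1 / 2 : ℝ) ^ k) atTop (𝓝 (2 * A * 0)) :=
      tendsto_const_nhds.mul (tendsto_pow_atTop_nhds_zero_of_lt_one (by norm_num) (by norm_num))
    rw [mul_zero] at h1
    filter_upwards [h1.eventually_lt_const hη] with k hk w hw
    rw [dist_comm]
    exact lt_of_le_of_lt (hφS w hw k) hk
  have hφd : DifferentiableOn ℂ φ D := diff_of_limit hDo hSd hunif.tendstoLocallyUniformlyOn
  have hφan : AnalyticAt ℂ φ 0 := analytic_of_diff hDo hφd 0 hD0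
  have hφid : ∀ w ∈ D, ‖φ w - w‖ ≤ 2 * A * g w ^ M := by
    intro w hw
    have h1 : Tendsto (fun k => ‖S k w - w‖) atTop (𝓝 ‖φ w - w‖) :=
      ((hφ w hw).sub tendsto_const_nhds).norm
    exact le_of_tendsto h1 (Eventually.of_forall fun k => hI2 k w hw)
  have hφ0 : φ 0 = 0 := by
    have h1 := hφid 0 hD0
    have h2 : g 0 = 0 := le_antisymm (by simpa using hg2 0 (by simp)) (hg0 0)
    rw [h2, zero_pow (by omega), mul_zero, sub_zero] at h1
    exact norm_le_zero_iff.1 h1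
  have hφf : HasFDerivAt φ (ContinuousLinearMap.id ℂ C2) 0 := by
    rw [hasFDerivAt_iff_isLittleO_nhds_zero]
    simp only [zero_add, hφ0, sub_zero, ContinuousLinearMap.id_apply]
    have h1 : (fun w => φ w - w) =O[𝓝 0] fun w : C2 => ‖w‖ ^ 2 := by
      refine IsBigO.of_bound (2 * A * K ^ M) ?_
      filter_upwards [hDo.mem_nhds hD0] with w hw
      have hw1' : ‖w‖ ≤ 1 := (hw1 w hw).le
      refine (hφid w hw).trans ?_
      rw [Real.norm_of_nonneg (by positivity)]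
      have h2 : g w ^ M ≤ K ^ M * ‖w‖ ^ 2 := by
        calc g w ^ M ≤ (K * ‖w‖ ^ 2) ^ M := pow_le_pow_left₀ (hg0 w) (hg2 _ hw1') M
          _ = K ^ M * ‖w‖ ^ (2 * M) := by rw [mul_pow, ← pow_mul]
          _ ≤ K ^ M * ‖w‖ ^ 2 := by
              refine mul_le_mul_of_nonneg_left ?_ (by positivity)
              exact pow_le_pow_of_le_one (norm_nonneg _) hw1' (by omega)
      calc 2 * A * g w ^ M ≤ 2 * A * (K ^ M * ‖w‖ ^ 2) :=
            mul_le_mul_of_nonneg_left h2 (by positivity)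
        _ = _ := by ring
    refine h1.trans_isLittleO ?_
    have h2 := isLittleO_norm_pow_id (E' := C2) (n := 2) (by norm_num)
    exact h2
  have hσ'an : ∀ᶠ w in 𝓝 (0 : C2), AnalyticAt ℂ σ' (φ w) := by
    have h1 : Tendsto φ (𝓝 0) (𝓝 0) := by
      have := hφan.continuousAt.tendsto
      rwa [hφ0] at this
    exact h1.eventually hσ'.an.eventually_analyticAt
  refine ⟨φ, ⟨hφan, hφ0, ?_⟩, ?_⟩
  · rw [hφf.fderiv]
    exact Function.bijective_id
  · filter_upwards [hσ'an, hDo.mem_nhds hD0] with w hw hwD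
    by_cases hFw : F w = 0
    · have h1 : φ w = τ (σ w) := by
        refine tendsto_nhds_unique ((tendsto_add_atTop_iff_nat 1).2 (hφ w hwD)) ?_
        have h2 : (fun k => S (k + 1) w) = fun _ => τ (σ w) := funext fun k => hSz k w hFw
        rw [h2]
        exact tendsto_const_nhds
      have h3 : σ' (τ (σ w)) = σ w :=
        (hρ1 (by have := hσρ w hwD; linarith : ‖σ w‖ < ρ)).1.1.2.2
      rw [h1, h3]
      show φ (F w) = F w
      rw [hFw, hφ0]
    · have h1 : ∀ k, PiL Ls (σ' (S (k + 1) w)) = S k (F w) := by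
        intro k
        have hy1 := hI2 k (F w) (hfD w hwD)
        obtain ⟨q1, -, -, -⟩ := hnear w hwD hFw _ hy1
        rw [hSs k w hFw, (hρ1 (hball w hwD hFw _ hy1)).1.1.2.2, q1]
      have h2 : Tendsto (fun k => PiL Ls (σ' (S (k + 1) w))) atTop (𝓝 (PiL Ls (σ' (φ w)))) := by
        have h3 : ContinuousAt (fun w => PiL Ls (σ' w)) (φ w) :=
          ContinuousAt.comp (f := σ') (g := PiL Ls) (pi_an Ls _).continuousAt hw.continuousAt
        exact h3.tendsto.comp ((tendsto_add_atTop_iff_nat 1).2 (hφ w hwD))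
      refine tendsto_nhds_unique ?_ h2
      simp only [h1]
      exact hφ (F w) (hfD w hwD)

end Pool.Agent.KS
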