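import Pool.Agent.KS.Pin
import Pool.Agent.KS.Jeb
import Pool.Agent.KS.Bia
import Pool.Agent.KS.Div
import Pool.Agent.KS.Ena
import Pool.Agent.KS.Enb
import Pool.Agent.KS.Enc
import Pool.Agent.KS.End
import Pool.Agent.KS.Nil

/-!
# Germs of Kato surfaces are conjugate to restrictions of birational maps
-/

set_option autoImplicit false

namespace Pool.Agent.KS

open scoped Manifold ContDiff Topology
open Filter Asymptotics

/-- A change of the first coordinate. -/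
lemma Ger.dif_fibre {ψ : C2 → ℂ} {h : ℂ → ℂ} (hψ : AnalyticAt ℂ ψ 0) (hψ0 : ψ 0 = 0)
    (hd : fderiv ℂ ψ 0 (1, 0) ≠ 0) (hh : AnalyticAt ℂ h 0) (hh0 : h 0 = 0) :
    Dif (fun w : C2 => (ψ w + h w.2, w.2)) := by
  have hsnd : AnalyticAt ℂ (fun w : C2 => w.2) 0 := analyticAt_snd
  have hh' : AnalyticAt ℂ (fun w : C2 => h w.2) 0 :=
    AnalyticAt.fun_comp (f := fun w : C2 => w.2) (g := h) (x := 0) hh hsnd
  have hsum : AnalyticAt ℂ (fun w : C2 => ψ w + h w.2) 0 := hψ.add hh'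
  have han : AnalyticAt ℂ (fun w : C2 => (ψ w + h w.2, w.2)) 0 := hsum.prod hsnd
  refine ⟨han, by simp [hψ0, hh0], ?_⟩
  have hD : HasFDerivAt (fun w : C2 => (ψ w + h w.2, w.2))
      ((fderiv ℂ (fun w : C2 => ψ w + h w.2) 0).prod (ContinuousLinearMap.snd ℂ ℂ ℂ)) 0 :=
    hsum.differentiableAt.hasFDerivAt.prodMk hasFDerivAt_snd
  rw [hD.fderiv]
  set L : C2 →L[ℂ] C2 := (fderiv ℂ (fun w : C2 => ψ w + h w.2) 0).prod
    (ContinuousLinearMap.snd ℂ ℂ ℂ) with hL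
  have hinj : Function.Injective L := by
    rw [injective_iff_map_eq_zero]
    rintro ⟨x, y⟩ hxy
    have h2 : y = 0 := congrArg Prod.snd hxy
    subst h2
    have h1 : fderiv ℂ (fun w : C2 => ψ w + h w.2) 0 (x, 0) = 0 := congrArg Prod.fst hxy
    have h3 : fderiv ℂ (fun w : C2 => ψ w + h w.2) 0 (x, 0) = x * fderiv ℂ ψ 0 (1, 0) := by
      rw [fderiv_fun_add hψ.differentiableAt hh'.differentiableAt, add_apply]
      have h4 : fderiv ℂ (fun w : C2 => h w.2) 0 (x, 0) = 0 := by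
        have h5 : HasFDerivAt (fun w : C2 => h w.2)
            ((fderiv ℂ h 0).comp (ContinuousLinearMap.snd ℂ ℂ ℂ)) 0 :=
          HasFDerivAt.comp (f := fun w : C2 => w.2) (g := h) (0 : C2)
            hh.differentiableAt.hasFDerivAt hasFDerivAt_snd
        rw [h5.fderiv, ContinuousLinearMap.comp_apply]
        simp
      rw [h4, add_zero]
      have h6 : ((x, 0) : C2) = x • ((1, 0) : C2) := by ext <;> simp
      rw [h6, map_smul, smul_eq_mul]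
    rw [h3] at h1
    rcases mul_eq_zero.mp h1 with h | h
    · rw [h]
      rfl
    · exact absurd h hd
  have hsurj : Function.Surjective (L : C2 →ₗ[ℂ] C2) :=
    LinearMap.injective_iff_surjective.mp hinj
  exact ⟨hinj, hsurj⟩

theorem germ_all {Ls : List (C2 ≃L[ℂ] C2)} (hL : Ls ≠ []) {σ : C2 → C2} (hσ : Dif σ)
    (hD : ∃ m : ℕ, ‖(fderiv ℂ (PiL Ls ∘ σ) 0) ^ m‖ < 1) : ConjBir (PiL Ls ∘ σ) := by
  by_cases hnil : ∀ v, fderiv ℂ (PiL Ls ∘ σ) 0 (fderiv ℂ (PiL Ls ∘ σ) 0 v) = 0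
  · obtain ⟨N, hN⟩ := germ_nilp hL hσ hnil
    obtain ⟨f, σ', hσ', ⟨V, hV, hf⟩, hO⟩ := jets hσ N
    obtain ⟨φ, hφ, h⟩ := hN σ' hσ' hO
    obtain ⟨g, hg⟩ := restr_PiL Ls
    refine ⟨φ, PiL Ls ∘ σ', g.trans f, hφ, ⟨V, hV, restr_comp hf hg (fun _ _ => trivial)⟩, ?_, h⟩
    exact ContinuousAt.comp (pi_an Ls (σ' 0)).continuousAt hσ'.an.continuousAt
  · obtain ⟨s, θ, J, t, n, hn, ht0, hs, hs0, hds, hθ, hθt, hJ, hJ0, h1, h2, h3⟩ :=
      enoki_struct hL hσ hnil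
    have hF : AnalyticAt ℂ (PiL Ls ∘ σ) 0 := (pi_an Ls (σ 0)).comp hσ.an
    have hF0 : (PiL Ls ∘ σ) 0 = 0 := by
      rw [Function.comp_apply, hσ.zero, pi_map_zero]
    obtain ⟨ht, Φ, f, g, hΦ, hf, hg, hg0, hf0, hd, hΦF⟩ :=
      enoki_form hF hF0 hD hn ht0 hs hs0 hds hθ hθt hJ hJ0 h1 h2 h3
    obtain ⟨ψ, Q, a, hψ, hψ0, hdψ, hQ, hQ0, ha, hψQ⟩ := aff_form hn ht0 ht hf hg hg0 hf0 hd
    obtain ⟨h, P, hh, hh0, hP⟩ := tail hQ hQ0 hn ha ht0 ht
    obtain ⟨e, he⟩ := restr_enoki a t ha ht0 n P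
    have hΨ := Ger.dif_fibre hψ hψ0 hdψ hh hh0
    refine ⟨(fun w : C2 => (ψ w + h w.2, w.2)) ∘ Φ,
      fun w => (a * w.2 ^ n * w.1 + P.eval w.2, t * w.2), e, dif_comp hΨ hΦ,
      ⟨Set.univ, univ_mem, he⟩, ?_, ?_⟩
    · have : Continuous (fun w : C2 => (a * w.2 ^ n * w.1 + P.eval w.2, t * w.2)) := by
        have hP' : Continuous fun w : C2 => P.eval w.2 := P.continuous.comp continuous_snd
        fun_prop
      exact this.continuousAt
    · have hΦc : Tendsto Φ (𝓝 0) (𝓝 0) := by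
        have := hΦ.an.continuousAt.tendsto
        rwa [hΦ.zero] at this
      have e1 := hΦc.eventually hψQ
      have e2 : ∀ᶠ w in 𝓝 (0 : C2), Q (Φ w).2 + h (t * (Φ w).2) - a * (Φ w).2 ^ n * h (Φ w).2 =
          P.eval (Φ w).2 := by
        have h4 : Tendsto (fun w : C2 => (Φ w).2) (𝓝 0) (𝓝 0) :=
          (continuous_snd.tendsto (0 : C2)).comp hΦc
        exact h4.eventually hP
      filter_upwards [hΦF, e1, e2] with w w1 w2 w3
      simp only [Function.comp_apply] at w1 ⊢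
      rw [w1]
      refine Prod.ext ?_ rfl
      change ψ (f (Φ w), t * (Φ w).2) + h (t * (Φ w).2) =
        a * (Φ w).2 ^ n * (ψ (Φ w) + h (Φ w).2) + P.eval (Φ w).2
      rw [w2, ← w3]
      ring

end Pool.Agent.KS
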