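import Pool.Agent.KS.Osg
import Pool.Agent.KS.Contr
import Pool.Agent.KS.Div
import Pool.Agent.KS.Jeb
import Pool.Agent.KS.Ger

/-!
# Birational structures on Kato surfaces: invertible contractions

An invertible contraction is conjugate to every germ with the same jet of high order, so to a germ
of a birational map.
-/

set_option autoImplicit false

namespace Pool.Agent.KS

open scoped Manifold ContDiff Topology
open Filter Asymptotics

namespace Hop

/-- The approximations of the conjugacy. -/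
def seq (F τ : C2 → C2) : ℕ → C2 → C2
  | 0 => id
  | k + 1 => fun w => τ (seq F τ k (F w))

/-- Germs with the same first jet have the same derivative. -/
theorem same_fderiv {σ σ' : C2 → C2} (hσ : Dif σ) (hσ' : Dif σ') {N : ℕ} (hN : 2 ≤ N)
    (hO : (fun w => σ w - σ' w) =O[𝓝 0] fun w => ‖w‖ ^ N) : fderiv ℂ σ' 0 = fderiv ℂ σ 0 := by
  have h1 : HasFDerivAt (fun w => σ w - σ' w) (0 : C2 →L[ℂ] C2) 0 := by
    rw [hasFDerivAt_iff_isLittleO_nhds_zero]
    simp only [zero_add, hσ.zero, hσ'.zero, sub_zero, ContinuousLinearMap.zero_apply]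
    exact hO.trans_isLittleO (isLittleO_norm_pow_id (E' := C2) (n := N) (by omega))
  have h2 := hσ.an.differentiableAt.hasFDerivAt.sub hσ'.an.differentiableAt.hasFDerivAt
  have h3 := h1.unique h2
  exact (sub_eq_zero.1 h3.symm).symm

/-- Finite determinacy of an invertible contraction. -/
theorem determ {F : C2 → C2} (hF : Dif F) (hD : ∃ m : ℕ, ‖(fderiv ℂ F 0) ^ m‖ < 1) :
    ∃ N : ℕ, ∀ G : C2 → C2, Dif G → ((fun w => F w - G w) =O[𝓝 0] fun w => ‖w‖ ^ N) →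
      ∃ φ, Dif φ ∧ ∀ᶠ w in 𝓝 (0 : C2), φ (F w) = G (φ w) := by
  obtain ⟨⟨ε, C, κ, hε, hC, hκ, hκ1, hcon⟩, hnb⟩ := contr_est hF.an hF.zero hD
  -- the inverse of the derivative
  obtain ⟨τ0, hτ0, h01, h02⟩ := dif_inv hF
  set L : NNReal := ‖fderiv ℂ τ0 0‖₊ + 1 with hL
  have hL0 : (0 : ℝ) ≤ L := L.coe_nonneg
  obtain ⟨N0, hN0⟩ : ∃ N0 : ℕ, (L : ℝ) * κ ^ N0 ≤ 1 / 2 := by
    have h1 : Tendsto (fun k : ℕ => (L : ℝ) * κ ^ k) atTop (𝓝 (L * 0)) :=
      tendsto_const_nhds.mul (tendsto_pow_atTop_nhds_zero_of_lt_one hκ.le hκ1)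
    rw [mul_zero] at h1
    obtain ⟨N0, h⟩ := (h1.eventually_lt_const (by norm_num : (0 : ℝ) < 1 / 2)).exists
    exact ⟨N0, h.le⟩
  set N := N0 + 2 with hN
  have hLκ : (L : ℝ) * κ ^ N ≤ 1 / 2 := by
    refine le_trans ?_ hN0
    refine mul_le_mul_of_nonneg_left ?_ hL0
    exact pow_le_pow_of_le_one hκ.le hκ1.le (by omega)
  refine ⟨N, fun G hG hO => ?_⟩
  have hsame := same_fderiv hF hG (by omega) hO
  obtain ⟨τ, hτ, hτ1, hτ2⟩ := dif_inv hG
  have hinv : ∀ {φ ψ : C2 → C2}, Dif φ → Dif ψ → (∀ᶠ w in 𝓝 (0 : C2), φ (ψ w) = w) →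
      (fderiv ℂ φ 0).comp (fderiv ℂ ψ 0) = ContinuousLinearMap.id ℂ C2 := by
    intro φ ψ hφ hψ h
    have h1 : HasFDerivAt (φ ∘ ψ) ((fderiv ℂ φ 0).comp (fderiv ℂ ψ 0)) 0 := by
      refine HasFDerivAt.comp 0 ?_ hψ.an.differentiableAt.hasFDerivAt
      rw [hψ.zero]
      exact hφ.an.differentiableAt.hasFDerivAt
    have h2 : HasFDerivAt (φ ∘ ψ) (ContinuousLinearMap.id ℂ C2) 0 :=
      (hasFDerivAt_id (0 : C2)).congr_of_eventuallyEq (by
        filter_upwards [h] with w hw using hw)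
    exact h1.unique h2
  have hfd : fderiv ℂ τ 0 = fderiv ℂ τ0 0 := by
    have h1 := hinv hτ hG hτ1
    have h2 := hinv hF hτ0 h02
    rw [hsame] at h1
    calc fderiv ℂ τ 0 = (fderiv ℂ τ 0).comp ((fderiv ℂ F 0).comp (fderiv ℂ τ0 0)) := by
          rw [h2, ContinuousLinearMap.comp_id]
      _ = ((fderiv ℂ τ 0).comp (fderiv ℂ F 0)).comp (fderiv ℂ τ0 0) := rfl
      _ = fderiv ℂ τ0 0 := by rw [h1, ContinuousLinearMap.id_comp]
  obtain ⟨s, hs, hLip⟩ := hτ.an.hasStrictFDerivAt.exists_lipschitzOnWith_of_nnnorm_lt L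
    (by rw [hfd, hL]; exact lt_add_one _)
  obtain ⟨C0, hC0, hb⟩ := hO.exists_pos
  rw [isBigOWith_iff] at hb
  have hτan : ∀ᶠ w in 𝓝 (0 : C2), AnalyticAt ℂ τ w := hτ.an.eventually_analyticAt
  have hFan : ∀ᶠ w in 𝓝 (0 : C2), AnalyticAt ℂ F w := hF.an.eventually_analyticAt
  obtain ⟨ρ, hρ, hρ1⟩ := Metric.eventually_nhds_iff.1
    (((((eventually_mem_set.2 hs).and hτan).and (hτ1.and hτ2)).and hb).and hFan)
  simp only [dist_zero_right] at hρ1
  have hGc : Tendsto G (𝓝 0) (𝓝 0) := by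
    have := hG.an.continuousAt.tendsto
    rwa [hG.zero] at this
  have hr2 : ∀ᶠ w in 𝓝 (0 : C2), ‖G w‖ < ρ :=
    (tendsto_zero_iff_norm_tendsto_zero.1 hGc).eventually_lt_const hρ
  set A : ℝ := L * C0 with hA
  have hA0 : 0 ≤ A := by positivity
  set B : ℝ := 2 * A * C ^ N with hB
  have hB0 : 0 ≤ B := by positivity
  -- a small forward invariant neighbourhood
  have hsm : ∀ᶠ w in 𝓝 (0 : C2), ‖w‖ < ε ∧ ‖w‖ < ρ ∧ ‖w‖ < ρ / 2 ∧ ‖w‖ < 1 ∧
      B * ‖w‖ < ρ / 2 := by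
    have h1 : Tendsto (fun w : C2 => ‖w‖) (𝓝 0) (𝓝 0) := tendsto_norm_zero
    have h2 : Tendsto (fun w : C2 => B * ‖w‖) (𝓝 0) (𝓝 (B * 0)) := tendsto_const_nhds.mul h1
    rw [mul_zero] at h2
    filter_upwards [h1.eventually_lt_const hε, h1.eventually_lt_const hρ,
      h1.eventually_lt_const (half_pos hρ), h1.eventually_lt_const one_pos,
      h2.eventually_lt_const (half_pos hρ)] with w q1 q2 q3 q4 q5
    exact ⟨q1, q2, q3, q4, q5⟩
  obtain ⟨W, hWo, hW0, hWs, hWm⟩ := hnb _ (hsm.and hr2)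
  have hWε : ∀ w ∈ W, ‖w‖ < ε := fun w hw => (hWs hw).1.1
  have hWρ : ∀ w ∈ W, ‖w‖ < ρ := fun w hw => (hWs hw).1.2.1
  have hWρ2 : ∀ w ∈ W, ‖w‖ < ρ / 2 := fun w hw => (hWs hw).1.2.2.1
  have hW1 : ∀ w ∈ W, ‖w‖ < 1 := fun w hw => (hWs hw).1.2.2.2.1
  have hWB : ∀ w ∈ W, B * ‖w‖ < ρ / 2 := fun w hw => (hWs hw).1.2.2.2.2
  have hWG : ∀ w ∈ W, ‖G w‖ < ρ := fun w hw => (hWs hw).2
  have hLτ : ∀ x y : C2, ‖x‖ < ρ → ‖y‖ < ρ → ‖τ x - τ y‖ ≤ L * ‖x - y‖ := by
    intro x y hx hy'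
    have := hLip.dist_le_mul x (hρ1 hx).1.1.1.1 y (hρ1 hy').1.1.1.1
    simpa [dist_eq_norm] using this
  have hball : ∀ w ∈ W, ∀ y, ‖y - w‖ ≤ B * ‖w‖ ^ N → ‖y‖ < ρ := by
    intro w hw y hy
    have h1 : ‖w‖ ^ N ≤ ‖w‖ := pow_le_of_le_one (norm_nonneg _) (hW1 w hw).le (by omega)
    have h2 : B * ‖w‖ ^ N ≤ B * ‖w‖ := mul_le_mul_of_nonneg_left h1 hB0
    have h3 : ‖y‖ ≤ ‖y - w‖ + ‖w‖ := by
      calc ‖y‖ = ‖(y - w) + w‖ := by rw [sub_add_cancel]
        _ ≤ _ := norm_add_le _ _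
    have h4 := hWB w hw
    have h5 := hWρ2 w hw
    linarith
  set S := seq F τ with hS
  have hS0 : ∀ w, S 0 w = w := fun w => rfl
  have hSs : ∀ k w, S (k + 1) w = τ (S k (F w)) := fun k w => rfl
  have hiter : ∀ w ∈ W, ∀ k : ℕ, (L : ℝ) ^ k * ‖F^[k] w‖ ^ N ≤ C ^ N * (1 / 2) ^ k * ‖w‖ ^ N := by
    intro w hw k
    have h1 := hcon w (hWε w hw) k
    calc (L : ℝ) ^ k * ‖F^[k] w‖ ^ N ≤ (L : ℝ) ^ k * (C * κ ^ k * ‖w‖) ^ N :=
          mul_le_mul_of_nonneg_left (pow_le_pow_left₀ (norm_nonneg _) h1 N) (by positivity)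
      _ = C ^ N * ((L : ℝ) * κ ^ N) ^ k * ‖w‖ ^ N := by
          rw [mul_pow, mul_pow, mul_pow, ← pow_mul, ← pow_mul, mul_comm k N]
          ring
      _ ≤ C ^ N * (1 / 2) ^ k * ‖w‖ ^ N := by
          refine mul_le_mul_of_nonneg_right ?_ (by positivity)
          refine mul_le_mul_of_nonneg_left ?_ (by positivity)
          exact pow_le_pow_left₀ (by positivity) hLκ k
  have hI : ∀ k, ∀ w ∈ W, ‖S (k + 1) w - S k w‖ ≤ A * ((L : ℝ) ^ k * ‖F^[k] w‖ ^ N) ∧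
      ‖S k w - w‖ ≤ B * (1 - (1 / 2) ^ k) * ‖w‖ ^ N := by
    intro k
    induction k with
    | zero =>
      intro w hw
      refine ⟨?_, by simp [hS0]⟩
      rw [hSs, hS0, hS0]
      have h1 := hρ1 (hWρ w hw)
      have h3 : ‖τ (F w) - τ (G w)‖ ≤ L * ‖F w - G w‖ :=
        hLτ _ _ (hWρ _ (hWm hw)) (hWG w hw)
      rw [h1.1.1.2.1] at h3
      have h4 : ‖F w - G w‖ ≤ C0 * ‖w‖ ^ N := by
        have h5 := h1.1.2
        rwa [Real.norm_of_nonneg (by positivity)] at h5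
      calc ‖τ (F w) - w‖ ≤ L * ‖F w - G w‖ := h3
        _ ≤ L * (C0 * ‖w‖ ^ N) := mul_le_mul_of_nonneg_left h4 hL0
        _ = A * ((L : ℝ) ^ 0 * ‖F^[0] w‖ ^ N) := by
            rw [hA, Function.iterate_zero, id_eq]
            ring
    | succ k ih =>
      have hsec : ∀ w ∈ W, ‖S (k + 1) w - w‖ ≤ B * (1 - (1 / 2) ^ (k + 1)) * ‖w‖ ^ N := by
        intro w hw
        obtain ⟨i1, i2⟩ := ih w hw
        have h6 := mul_le_mul_of_nonneg_left (hiter w hw k) hA0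
        calc ‖S (k + 1) w - w‖ = ‖(S (k + 1) w - S k w) + (S k w - w)‖ := by
              rw [sub_add_sub_cancel]
          _ ≤ ‖S (k + 1) w - S k w‖ + ‖S k w - w‖ := norm_add_le _ _
          _ ≤ A * (C ^ N * (1 / 2) ^ k * ‖w‖ ^ N) + B * (1 - (1 / 2) ^ k) * ‖w‖ ^ N :=
              add_le_add (i1.trans h6) i2
          _ = B * (1 - (1 / 2) ^ (k + 1)) * ‖w‖ ^ N := by rw [hB]; ring
      intro w hw
      refine ⟨?_, hsec w hw⟩
      have hFw : F w ∈ W := hWm hw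
      have hp : ∀ j : ℕ, (0 : ℝ) ≤ (1 / 2) ^ j := fun j => by positivity
      have hy1 : ‖S (k + 1) (F w) - F w‖ ≤ B * ‖F w‖ ^ N := by
        refine (hsec _ hFw).trans ?_
        refine mul_le_mul_of_nonneg_right ?_ (by positivity)
        have := hp (k + 1)
        nlinarith
      have hy2 : ‖S k (F w) - F w‖ ≤ B * ‖F w‖ ^ N := by
        refine (ih _ hFw).2.trans ?_
        refine mul_le_mul_of_nonneg_right ?_ (by positivity)
        have := hp k
        nlinarith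
      rw [hSs (k + 1), hSs k]
      calc ‖τ (S (k + 1) (F w)) - τ (S k (F w))‖ ≤ L * ‖S (k + 1) (F w) - S k (F w)‖ :=
            hLτ _ _ (hball _ hFw _ hy1) (hball _ hFw _ hy2)
        _ ≤ L * (A * ((L : ℝ) ^ k * ‖F^[k] (F w)‖ ^ N)) :=
            mul_le_mul_of_nonneg_left (ih _ hFw).1 hL0
        _ = A * ((L : ℝ) ^ (k + 1) * ‖F^[k + 1] w‖ ^ N) := by
            rw [Function.iterate_succ_apply]
            ring
  have hI2 : ∀ k, ∀ w ∈ W, ‖S k w - w‖ ≤ B * ‖w‖ ^ N := by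
    intro k w hw
    refine (hI k w hw).2.trans ?_
    refine mul_le_mul_of_nonneg_right ?_ (by positivity)
    have : (0 : ℝ) ≤ (1 / 2) ^ k := by positivity
    nlinarith
  have hSd : ∀ k, DifferentiableOn ℂ (S k) W := by
    intro k
    induction k with
    | zero => exact differentiableOn_id
    | succ k ih =>
      intro w hw
      have hFw : F w ∈ W := hWm hw
      have h1 : DifferentiableAt ℂ (S k) (F w) := (ih (F w) hFw).differentiableAt
        (hWo.mem_nhds hFw)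
      have h2 : DifferentiableAt ℂ τ (S k (F w)) :=
        (hρ1 (hball _ hFw _ (hI2 k _ hFw))).1.1.1.2.differentiableAt
      have h3 : DifferentiableAt ℂ (fun w => τ (S k (F w))) w :=
        DifferentiableAt.comp (f := fun w => S k (F w)) (g := τ) w h2
          (DifferentiableAt.comp (f := F) (g := S k) w h1 (hρ1 (hWρ w hw)).2.differentiableAt)
      exact h3.differentiableWithinAt
  have hdist : ∀ w ∈ W, ∀ k, dist (S k w) (S (k + 1) w) ≤
      A * C ^ N * ‖w‖ ^ N * (1 / 2) ^ k := by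
    intro w hw k
    rw [dist_comm, dist_eq_norm]
    refine (hI k w hw).1.trans ((mul_le_mul_of_nonneg_left (hiter w hw k) hA0).trans
      (le_of_eq (by ring)))
  have hlim : ∀ w, ∃ l, w ∈ W → Tendsto (fun k => S k w) atTop (𝓝 l) := by
    intro w
    by_cases hw : w ∈ W
    · obtain ⟨l, hl⟩ := cauchySeq_tendsto_of_complete
        (cauchySeq_of_le_geometric (1 / 2) _ (by norm_num) (hdist w hw))
      exact ⟨l, fun _ => hl⟩
    · exact ⟨0, fun h => absurd h hw⟩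
  choose φ hφ using hlim
  have hφS : ∀ w ∈ W, ∀ k, dist (S k w) (φ w) ≤ B * (1 / 2) ^ k := by
    intro w hw k
    have h1 := dist_le_of_le_geometric_of_tendsto (1 / 2) _ (by norm_num)
      (hdist w hw) (hφ w hw) k
    refine h1.trans ?_
    have h3 : ‖w‖ ^ N ≤ 1 := pow_le_one₀ (norm_nonneg _) (hW1 w hw).le
    have h4 : A * C ^ N * ‖w‖ ^ N * (1 / 2) ^ k / (1 - 1 / 2) = B * (1 / 2) ^ k * ‖w‖ ^ N := by
      rw [hB]; ring
    rw [h4]
    calc B * (1 / 2) ^ k * ‖w‖ ^ N ≤ B * (1 / 2) ^ k * 1 :=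
          mul_le_mul_of_nonneg_left h3 (by positivity)
      _ = _ := mul_one _
  have hunif : TendstoUniformlyOn S φ atTop W := by
    rw [Metric.tendstoUniformlyOn_iff]
    intro η hη
    have h1 : Tendsto (fun k : ℕ => B * (1 / 2 : ℝ) ^ k) atTop (𝓝 (B * 0)) :=
      tendsto_const_nhds.mul (tendsto_pow_atTop_nhds_zero_of_lt_one (by norm_num) (by norm_num))
    rw [mul_zero] at h1
    filter_upwards [h1.eventually_lt_const hη] with k hk w hw
    rw [dist_comm]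
    exact lt_of_le_of_lt (hφS w hw k) hk
  have hφd : DifferentiableOn ℂ φ W := diff_of_limit hWo hSd hunif.tendstoLocallyUniformlyOn
  have hφan : AnalyticAt ℂ φ 0 := analytic_of_diff hWo hφd 0 hW0
  have hφid : ∀ w ∈ W, ‖φ w - w‖ ≤ B * ‖w‖ ^ N := by
    intro w hw
    have h1 : Tendsto (fun k => ‖S k w - w‖) atTop (𝓝 ‖φ w - w‖) :=
      ((hφ w hw).sub tendsto_const_nhds).norm
    exact le_of_tendsto h1 (Eventually.of_forall fun k => hI2 k w hw)
  have hφ0 : φ 0 = 0 := by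
    have h1 := hφid 0 hW0
    rw [norm_zero, zero_pow (by omega), mul_zero, sub_zero] at h1
    exact norm_le_zero_iff.1 h1
  have hφf : HasFDerivAt φ (ContinuousLinearMap.id ℂ C2) 0 := by
    rw [hasFDerivAt_iff_isLittleO_nhds_zero]
    simp only [zero_add, hφ0, sub_zero, ContinuousLinearMap.id_apply]
    have h1 : (fun w => φ w - w) =O[𝓝 0] fun w : C2 => ‖w‖ ^ N := by
      refine IsBigO.of_bound B ?_
      filter_upwards [hWo.mem_nhds hW0] with w hw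
      rw [Real.norm_of_nonneg (by positivity)]
      exact hφid w hw
    exact h1.trans_isLittleO (isLittleO_norm_pow_id (E' := C2) (n := N) (by omega))
  have hGan : ∀ᶠ w in 𝓝 (0 : C2), AnalyticAt ℂ G (φ w) := by
    have h1 : Tendsto φ (𝓝 0) (𝓝 0) := by
      have := hφan.continuousAt.tendsto
      rwa [hφ0] at this
    exact h1.eventually hG.an.eventually_analyticAt
  refine ⟨φ, ⟨hφan, hφ0, ?_⟩, ?_⟩
  · rw [hφf.fderiv]
    exact Function.bijective_id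
  · filter_upwards [hGan, hWo.mem_nhds hW0] with w hw hwW
    have h1 : ∀ k, G (S (k + 1) w) = S k (F w) := by
      intro k
      rw [hSs k w]
      exact (hρ1 (hball _ (hWm hwW) _ (hI2 k _ (hWm hwW)))).1.1.2.2
    have h2 : Tendsto (fun k => G (S (k + 1) w)) atTop (𝓝 (G (φ w))) :=
      hw.continuousAt.tendsto.comp ((tendsto_add_atTop_iff_nat 1).2 (hφ w hwW))
    refine tendsto_nhds_unique ?_ h2
    simp only [h1]
    exact hφ (F w) (hWm hwW)

end Hop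

/-- An invertible contraction is conjugate to the germ of a birational map. -/
theorem germ_hopf {σ : C2 → C2} (hσ : Dif σ) (hD : ∃ m : ℕ, ‖(fderiv ℂ σ 0) ^ m‖ < 1) :
    ConjBir σ := by
  obtain ⟨N, hN⟩ := Hop.determ hσ hD
  obtain ⟨f, σ', hσ', hV, hO⟩ := jets hσ N
  obtain ⟨φ, hφ, he⟩ := hN σ' hσ' hO
  exact ⟨φ, σ', f, hφ, hV, hσ'.an.continuousAt, he⟩

/-- The germs of all Kato data are conjugate to germs of birational maps. -/
theorem germ_any {Ls : List (C2 ≃L[ℂ] C2)} {σ : C2 → C2} (hσ : Dif σ)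
    (hD : ∃ m : ℕ, ‖(fderiv ℂ (PiL Ls ∘ σ) 0) ^ m‖ < 1) : ConjBir (PiL Ls ∘ σ) := by
  rcases Ls with _ | ⟨L, Ls⟩
  · exact germ_hopf hσ hD
  · exact germ_all (List.cons_ne_nil _ _) hσ hD

end Pool.Agent.KS
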