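import Pool.Agent.KS.Mod
import Pool.Agent.KS.Cha
import Pool.Agent.KS.Div
import Pool.Agent.KS.Bia
import Pool.Agent.KS.Bib
import Pool.Agent.KS.Contr
import Pool.Agent.KS.Hop

/-!
# Kato's construction: the local birational structure
-/

set_option autoImplicit false

namespace Pool.Agent.KS

open scoped Manifold ContDiff Topology
open Filter Asymptotics

namespace Glu

theorem dif_id : Dif id where
  an := analyticAt_id
  zero := rfl
  inv := by
    rw [fderiv_id]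
    exact Function.bijective_id

theorem b1_an (w : C2) : AnalyticAt ℂ b1 w := by
  have h1 : AnalyticAt ℂ (fun w : C2 => w.1) w := (ContinuousLinearMap.fst ℂ ℂ ℂ).analyticAt w
  have h2 : AnalyticAt ℂ (fun w : C2 => w.2) w := (ContinuousLinearMap.snd ℂ ℂ ℂ).analyticAt w
  exact h1.prod (h1.mul h2)

theorem PiL_an (Ls : List (C2 ≃L[ℂ] C2)) (w : C2) : AnalyticAt ℂ (PiL Ls) w := by
  induction Ls with
  | nil => exact analyticAt_id
  | cons L Ls ih =>
    have h1 : AnalyticAt ℂ (fun w => b1 (PiL Ls w)) w := (b1_an _).comp ih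
    exact ((L : C2 →L[ℂ] C2).analyticAt _).comp h1

theorem lbi_contAt {M N : Type} [TopologicalSpace M] [ChartedSpace C2 M] [TopologicalSpace N]
    [ChartedSpace C2 N] {f : M → N} {x : M} (h : LBi f x) : ContinuousAt f x := by
  have h' : IsLocalDiffeomorphAt 𝓘(ℂ, C2) 𝓘(ℂ, C2) ω f x := h
  exact h'.contMDiffAt.continuousAt

/-- The projection in a chart. -/
theorem pi_chart {U : TopologicalSpace.Opens C2} {n : ℕ} {M : Surf} {π : M.carrier → C2}
    (h : Modif U n M π) {φ : C2 → C2} (hφ : Dif φ) (eφ : OpenPartialHomeomorph C2 C2)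
    (he : ∀ w ∈ eφ.source, eφ w = φ w) (ha : AnalyticOnNhd ℂ eφ eφ.source)
    (ha' : AnalyticOnNhd ℂ eφ.symm eφ.target) (y : M.carrier) (hy : π y ∈ eφ.source) :
    ∃ (Ls : List (C2 ≃L[ℂ] C2)), ∃ c ∈ Hol M, y ∈ c.source ∧
      ∀ y1 ∈ c.source, φ (π y1) = PiL Ls (c y1) := by
  by_cases h0 : π y = 0
  · obtain ⟨Ls, -, c, hc, hyc, -, hcc⟩ := modif_chart h hφ y h0
    exact ⟨Ls, c, hc, hyc, hcc⟩
  · obtain ⟨e, heM, hye, hee⟩ := lbi_chart (modif_lbi h y h0)
    refine ⟨[], e.trans eφ, hol_trans heM eφ ha ha', ?_, ?_⟩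
    · rw [OpenPartialHomeomorph.trans_source]
      refine ⟨hye, ?_⟩
      change e y ∈ eφ.source
      rw [hee y hye]
      exact hy
    · intro y1 hy1
      rw [OpenPartialHomeomorph.trans_source] at hy1
      have h1 : e y1 = π y1 := hee y1 hy1.1
      have h2 : e y1 ∈ eφ.source := hy1.2
      change φ (π y1) = eφ (e y1)
      rw [← h1]
      exact (he _ h2).symm

variable {X : Surf} (K : KatoData X)

/-- The germ. -/
def F (w : C2) : C2 := K.π (K.σ w)

/-- The map of the complement. -/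
def g (y : K.M.carrier) : K.M.carrier := K.σ (K.π y)

theorem F_an (w : C2) (hw : w ∈ K.U) : AnalyticAt ℂ (F K) w := by
  obtain ⟨Ls, c, hc, hy, hcc⟩ := pi_chart K.hM dif_id (OpenPartialHomeomorph.refl C2)
    (fun _ _ => rfl) (fun _ _ => analyticAt_id) (fun _ _ => analyticAt_id) (K.σ w)
    (Set.mem_univ _)
  have h1 := (lbi_plane (K.lbi w hw) hc hy).1
  have h2 : AnalyticAt ℂ (PiL Ls ∘ (c ∘ K.σ)) w := (PiL_an Ls _).comp h1
  refine h2.congr ?_
  have h3 : ContinuousAt K.σ w := lbi_contAt (K.lbi w hw)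
  have h4 : ∀ᶠ v in 𝓝 w, K.σ v ∈ c.source := h3 (c.open_source.mem_nhds hy)
  filter_upwards [h4] with v hv
  exact (hcc _ hv).symm

theorem F_maps : Set.MapsTo (F K) K.U K.U := fun _ _ => modif_mem K.hM _

theorem F_zero : F K 0 = 0 := K.fix

theorem F_contr (w : C2) (hw : w ∈ K.U) : Tendsto (fun k : ℕ => (F K)^[k] w) atTop (𝓝 0) :=
  K.contr w hw

theorem F_small : ∃ m : ℕ, ‖(fderiv ℂ (F K) 0) ^ m‖ < 1 :=
  deriv_small K.U.isOpen K.zero_mem K.bdd
    (fun w hw => (F_an K w hw).differentiableAt.differentiableWithinAt) (F_maps K) (F_zero K)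
    (F_contr K)

theorem g_cont : Continuous (g K) := by
  rw [continuous_iff_continuousAt]
  intro y
  have h1 : ContinuousAt K.σ (K.π y) := lbi_contAt (K.lbi _ (modif_mem K.hM y))
  exact h1.comp (modif_cont K.hM).continuousAt

theorem pi_iter (k : ℕ) (y : K.M.carrier) : K.π ((g K)^[k] y) = (F K)^[k] (K.π y) := by
  induction k generalizing y with
  | zero => rfl
  | succ k ih =>
    rw [Function.iterate_succ_apply, ih, Function.iterate_succ_apply]
    rfl

/-- Normal form near the origin. -/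
theorem setup : ∃ (φ G : C2 → C2) (f : K2 ≃ₐ[ℂ] K2) (eφ : OpenPartialHomeomorph C2 C2)
    (W : Set C2), Dif φ ∧ (∀ w ∈ eφ.source, eφ w = φ w) ∧ AnalyticOnNhd ℂ eφ eφ.source ∧
      AnalyticOnNhd ℂ eφ.symm eφ.target ∧ IsOpen W ∧ 0 ∈ W ∧ W ⊆ eφ.source ∧
      Set.MapsTo (F K) W W ∧ (∀ w ∈ W, φ (F K w) = G (φ w)) ∧ Restr f G (φ '' W) := by
  obtain ⟨Ls, -, c, hc, hO, hc0, hcc⟩ := modif_chart K.hM dif_id (K.σ 0) K.fix
  have h1 := lbi_plane (K.lbi 0 K.zero_mem) hc hO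
  have hσ : Dif (c ∘ K.σ) := ⟨h1.1, hc0, h1.2⟩
  have h3 : ContinuousAt K.σ 0 := lbi_contAt (K.lbi 0 K.zero_mem)
  have h4 : ∀ᶠ v in 𝓝 (0 : C2), K.σ v ∈ c.source := h3 (c.open_source.mem_nhds hO)
  have h5 : F K =ᶠ[𝓝 0] PiL Ls ∘ (c ∘ K.σ) := by
    filter_upwards [h4] with v hv
    exact hcc _ hv
  have hD : ∃ m : ℕ, ‖(fderiv ℂ (PiL Ls ∘ (c ∘ K.σ)) 0) ^ m‖ < 1 := by
    rw [← h5.fderiv_eq]
    exact F_small K
  obtain ⟨φ, G, f, hφ, ⟨V, hV, hfV⟩, -, hconj⟩ := germ_any hσ hD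
  obtain ⟨eφ, h0e, hee, hea, hea', -⟩ := dif_homeo hφ.an hφ.inv
  have hφc : ContinuousAt φ 0 := hφ.an.continuousAt
  have hN : {w : C2 | w ∈ eφ.source ∧ φ (F K w) = G (φ w) ∧ φ w ∈ V} ∈ 𝓝 (0 : C2) := by
    have ha : ∀ᶠ w in 𝓝 (0 : C2), w ∈ eφ.source := eφ.open_source.mem_nhds h0e
    have hb : ∀ᶠ w in 𝓝 (0 : C2), φ w ∈ V := by
      apply hφc
      rw [hφ.zero]
      exact hV
    filter_upwards [ha, hb, hconj, h5] with w h1 h2 h3 h4
    refine ⟨h1, ?_, h2⟩
    rw [h4]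
    exact h3
  obtain ⟨W, hW, h0W, hWN, hWF⟩ := (contr_est (F_an K 0 K.zero_mem) (F_zero K)
    (F_small K)).2 _ hN
  refine ⟨φ, G, f, eφ, W, hφ, hee, hea, hea', hW, h0W, fun w hw => (hWN hw).1, hWF,
    fun w hw => (hWN hw).2.1, ?_⟩
  refine restr_mono hfV ?_
  rintro _ ⟨w, hw, rfl⟩
  exact (hWN hw).2.2

/-- Every point of the surface is represented near the origin. -/
theorem repr {W : Set C2} (hW : IsOpen W) (h0 : 0 ∈ W) (x : X.carrier) :
    ∃ y, y ≠ K.σ 0 ∧ K.q y = x ∧ K.π y ∈ W := by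
  have key : ∀ (k : ℕ) (y0 : K.M.carrier), y0 ≠ K.σ 0 → (F K)^[k] (K.π y0) ∈ W →
      ∃ y, y ≠ K.σ 0 ∧ K.q y = K.q y0 ∧ K.π y ∈ W := by
    intro k
    induction k with
    | zero => exact fun y0 hy0 h => ⟨y0, hy0, rfl, h⟩
    | succ k ih =>
      intro y0 hy0 h
      by_cases hg : g K y0 = K.σ 0
      · have h1 : K.π y0 = 0 := K.inj (modif_mem K.hM y0) K.zero_mem hg
        exact ⟨y0, hy0, rfl, by rw [h1]; exact h0⟩
      · obtain ⟨y, hy, hqy, hπ⟩ := ih (g K y0) hg (by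
          rw [Function.iterate_succ_apply] at h
          exact h)
        refine ⟨y, hy, ?_, hπ⟩
        rw [hqy, (K.q_iff _ _ hg hy0)]
        exact ⟨1, Or.inr rfl⟩
  obtain ⟨y0, hy0, rfl⟩ := K.q_surj x
  have h1 := F_contr K (K.π y0) (modif_mem K.hM y0)
  obtain ⟨k, hk⟩ := (h1.eventually (hW.mem_nhds h0)).exists
  exact key k y0 hy0 hk

/-- The charts of the birational structure. -/
def Gd (φ : C2 → C2) (W : Set C2) (e : OpenPartialHomeomorph X.carrier C2)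
    (s : Set K.M.carrier) (c : OpenPartialHomeomorph K.M.carrier C2)
    (Ls : List (C2 ≃L[ℂ] C2)) : Prop :=
  IsOpen s ∧ s ⊆ c.source ∧ Set.InjOn K.q s ∧ e.source = K.q '' s ∧
    (∀ y ∈ s, e (K.q y) = c y) ∧
    ∀ y ∈ s, y ≠ K.σ 0 ∧ K.π y ∈ W ∧ φ (K.π y) = PiL Ls (c y)

theorem iter_W {φ G : C2 → C2} {W : Set C2} (hWF : Set.MapsTo (F K) W W)
    (hconj : ∀ w ∈ W, φ (F K w) = G (φ w)) (k : ℕ) (w : C2) (hw : w ∈ W) :
    (F K)^[k] w ∈ W ∧ φ ((F K)^[k] w) = G^[k] (φ w) := by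
  induction k with
  | zero => exact ⟨hw, rfl⟩
  | succ k ih =>
    rw [Function.iterate_succ_apply', Function.iterate_succ_apply']
    exact ⟨hWF ih.1, by rw [hconj _ ih.1, ih.2]⟩

theorem iter_restr {φ G : C2 → C2} {W : Set C2} {f : K2 ≃ₐ[ℂ] K2}
    (hWF : Set.MapsTo (F K) W W)
    (hconj : ∀ w ∈ W, φ (F K w) = G (φ w)) (hf : Restr f G (φ '' W)) (k : ℕ) :
    ∃ fk, Restr fk (G^[k]) (φ '' W) := by
  induction k with
  | zero => exact ⟨AlgEquiv.refl, restr_mono restr_id (Set.subset_univ _)⟩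
  | succ k ih =>
    obtain ⟨fk, hfk⟩ := ih
    have hm : Set.MapsTo (G^[k]) (φ '' W) (φ '' W) := by
      rintro _ ⟨w, hw, rfl⟩
      have := iter_W K hWF hconj k w hw
      rw [← this.2]
      exact ⟨_, this.1, rfl⟩
    rw [Function.iterate_succ']
    exact ⟨_, restr_comp hfk hf hm⟩

end Glu

theorem kato_loc {X : Surf} (K : KatoData X) : LocBir X := by
  obtain ⟨φ, G, f, eφ, W, hφ, hee, hea, hea', hW, h0W, hWe, hWF, hconj, hf⟩ := Glu.setup K
  refine ⟨{e | e ∈ Hol X ∧ ∃ s c Ls, Glu.Gd K φ W e s c Ls}, fun e he => he.1, ?_, ?_⟩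
  · intro x
    obtain ⟨y, hy, hqy, hπ⟩ := Glu.repr K hW h0W x
    obtain ⟨Ls, c, hc, hyc, hcc⟩ := Glu.pi_chart K.hM hφ eφ hee hea hea' y (hWe hπ)
    have hs0 : IsOpen ({y1 : K.M.carrier | y1 ≠ K.σ 0} ∩ K.π ⁻¹' W) :=
      isOpen_ne.inter (hW.preimage (modif_cont K.hM))
    have hc' := hol_restr hc hs0
    have hyc' : y ∈ (c.restrOpen _ hs0).source := by
      rw [OpenPartialHomeomorph.restrOpen_source]
      exact ⟨hyc, hy, hπ⟩
    obtain ⟨s, e, hs, hys, hsc, hinj, heX, hes, heq⟩ := lbi_push (K.q_lbi y hy) hc' hyc'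
    rw [OpenPartialHomeomorph.restrOpen_source] at hsc
    refine ⟨e, ⟨heX, s, c, Ls, hs, fun y1 h1 => (hsc h1).1, hinj, hes, ?_, ?_⟩, ?_⟩
    · intro y1 h1
      rw [heq y1 h1]
      rfl
    · intro y1 h1
      exact ⟨(hsc h1).2.1, (hsc h1).2.2, hcc y1 (hsc h1).1⟩
    · rw [hes, ← hqy]
      exact ⟨y, hys, rfl⟩
  · rintro e ⟨heX, s, c, Ls, hs, hsc, hinj, hes, heq, hall⟩ e' ⟨heX', s', c', Ls', hs', hsc',
      hinj', hes', heq', hall'⟩ x ⟨hxe, hxe'⟩
    have hx1 := hxe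
    rw [hes] at hx1
    obtain ⟨y, hy, rfl⟩ := hx1
    have hx2 := hxe'
    rw [hes'] at hx2
    obtain ⟨y', hy', hyy'⟩ := hx2
    obtain ⟨fB, hB⟩ := restr_PiL Ls
    obtain ⟨fB', hB'⟩ := restr_PiL Ls'
    obtain ⟨k, hk⟩ := (K.q_iff y y' (hall y hy).1 (hall' y' hy').1).1 hyy'.symm
    obtain ⟨fk, hfk⟩ := Glu.iter_restr K hWF hconj hf k
    have hgc : Continuous ((Glu.g K)^[k]) := (Glu.g_cont K).iterate k
    rcases hk with hk | hk
    · -- `y' = g^k y`
      have hk' : (Glu.g K)^[k] y = y' := hk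
      set s1 := s ∩ (Glu.g K)^[k] ⁻¹' s' with hs1
      have hs1o : IsOpen s1 := hs.inter (hs'.preimage hgc)
      have hy1 : y ∈ s1 := ⟨hy, by rw [Set.mem_preimage, hk']; exact hy'⟩
      have hVo : IsOpen (c '' s1) :=
        c.isOpen_image_of_subset_source hs1o fun z hz => hsc hz.1
      -- the transition on `V`
      have htr : ∀ z ∈ s1, (e' ∘ e.symm) (c z) = c' ((Glu.g K)^[k] z) ∧
          e.symm (c z) ∈ e'.source ∧ c z ∈ e.target := by
        intro z hz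
        have hqz : K.q z ∈ e.source := by rw [hes]; exact ⟨z, hz.1, rfl⟩
        have h1 : e.symm (c z) = K.q z := by
          rw [← heq z hz.1]
          exact e.left_inv hqz
        have h2 : K.q z = K.q ((Glu.g K)^[k] z) :=
          (K.q_iff _ _ (hall z hz.1).1 (hall' _ hz.2).1).2 ⟨k, Or.inl rfl⟩
        refine ⟨?_, ?_, ?_⟩
        · change e' (e.symm (c z)) = _
          rw [h1, h2]
          exact heq' _ hz.2
        · rw [h1, h2, hes']
          exact ⟨_, hz.2, rfl⟩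
        · rw [← heq z hz.1]
          exact e.map_source hqz
      refine ⟨fB'.symm.trans (fk.trans fB), c '' s1, ?_, ?_⟩
      · rw [heq y hy]
        exact hVo.mem_nhds ⟨y, hy1, rfl⟩
      · refine restr_solve (g := fB') (h := G^[k] ∘ PiL Ls) (B := PiL Ls') (V' := Set.univ)
          hVo ?_ (Set.mapsTo_univ _ _) hB' ?_ ?_
        · rintro _ ⟨z, hz, rfl⟩
          have h := htr z hz
          have h1 : ContinuousAt e.symm (c z) := e.continuousAt_symm h.2.2
          have h2 : ContinuousAt e' (e.symm (c z)) := e'.continuousAt h.2.1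
          exact (ContinuousAt.comp h2 h1).continuousWithinAt
        · refine restr_comp (restr_mono hB (Set.subset_univ _)) hfk ?_
          rintro _ ⟨z, hz, rfl⟩
          rw [← (hall z hz.1).2.2]
          exact ⟨_, (hall z hz.1).2.1, rfl⟩
        · rintro _ ⟨z, hz, rfl⟩
          rw [(htr z hz).1, ← (hall' _ hz.2).2.2]
          change φ (K.π ((Glu.g K)^[k] z)) = G^[k] (PiL Ls (c z))
          rw [Glu.pi_iter, (Glu.iter_W K hWF hconj k _ (hall z hz.1).2.1).2,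
            (hall z hz.1).2.2]
    · -- `y = g^k y'`
      have hk' : (Glu.g K)^[k] y' = y := hk
      set s1 := s' ∩ (Glu.g K)^[k] ⁻¹' s with hs1
      have hs1o : IsOpen s1 := hs'.inter (hs.preimage hgc)
      have hy1 : y' ∈ s1 := ⟨hy', by rw [Set.mem_preimage, hk']; exact hy⟩
      have hV0 : IsOpen (c' '' s1) :=
        c'.isOpen_image_of_subset_source hs1o fun z hz => hsc' hz.1
      have hV1 : IsOpen (e'.source ∩ e' ⁻¹' (c' '' s1)) := e'.isOpen_inter_preimage hV0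
      have hV2 : IsOpen (e.target ∩ e.symm ⁻¹' (e'.source ∩ e' ⁻¹' (c' '' s1))) :=
        e.isOpen_inter_preimage_symm hV1
      set V := e.target ∩ e.symm ⁻¹' (e'.source ∩ e' ⁻¹' (c' '' s1)) with hV
      have htr : ∀ w ∈ V, ∃ z ∈ s1, e' (e.symm w) = c' z ∧ w = c ((Glu.g K)^[k] z) ∧
          e.symm w ∈ e'.source ∧ w ∈ e.target := by
        rintro w ⟨hwt, hws, z, hz, hzw⟩
        have h1 := hws
        rw [hes'] at h1
        obtain ⟨z', hz', hqz'⟩ := h1
        have h2 : c' z' = c' z := by rw [← heq' z' hz', hqz', hzw]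
        have h3 : z' = z := c'.injOn (hsc' hz') (hsc' hz.1) h2
        subst h3
        have h4 : K.q z' = K.q ((Glu.g K)^[k] z') :=
          (K.q_iff _ _ (hall' z' hz').1 (hall _ hz.2).1).2 ⟨k, Or.inl rfl⟩
        refine ⟨z', hz, hzw.symm, ?_, hws, hwt⟩
        rw [← heq _ hz.2, ← h4, hqz', e.right_inv hwt]
      obtain ⟨fq, hfq⟩ : ∃ fq, Restr fq (G^[k] ∘ PiL Ls') (c' '' s1) := by
        refine ⟨_, restr_comp (restr_mono hB' (Set.subset_univ _)) hfk ?_⟩
        rintro _ ⟨z, hz, rfl⟩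
        rw [← (hall' z hz.1).2.2]
        exact ⟨_, (hall' z hz.1).2.1, rfl⟩
      refine ⟨fq.symm.trans fB, V, ?_, ?_⟩
      · refine hV2.mem_nhds ⟨e.map_source hxe, ?_⟩
        rw [Set.mem_preimage, e.left_inv hxe]
        refine ⟨hxe', ?_⟩
        rw [Set.mem_preimage, ← hyy', heq' y' hy']
        exact ⟨y', hy1, rfl⟩
      · refine restr_solve (g := fq) (h := PiL Ls) (B := G^[k] ∘ PiL Ls') (V' := c' '' s1)
          hV2 ?_ ?_ hfq (restr_mono hB (Set.subset_univ _)) ?_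
        · intro w hw
          obtain ⟨z, hz, h1, h2, h3, h4⟩ := htr w hw
          exact (ContinuousAt.comp (e'.continuousAt h3) (e.continuousAt_symm
            h4)).continuousWithinAt
        · intro w hw
          obtain ⟨z, hz, h1, -⟩ := htr w hw
          exact ⟨z, hz, h1.symm⟩
        · intro w hw
          obtain ⟨z, hz, h1, h2, h3, h4⟩ := htr w hw
          change G^[k] (PiL Ls' (e' (e.symm w))) = PiL Ls w
          rw [h1, ← (hall' z hz.1).2.2, ← (Glu.iter_W K hWF hconj k _ (hall' z hz.1).2.1).2,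
            ← Glu.pi_iter, h2, (hall _ hz.2).2.2]

end Pool.Agent.KS
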