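import Pool.Agent.KS.Blw

/-!
# Project KS, row MOD: modifications
-/

set_option autoImplicit false

namespace Pool.Agent.KS

open scoped Manifold ContDiff Topology
open Filter Asymptotics

namespace Mod

/-- A holomorphic chart is a local biholomorphism. -/
theorem lbi_of_chart {M : Surf} {e : OpenPartialHomeomorph M.carrier C2} (he : e ∈ Hol M)
    {x : M.carrier} (hx : x ∈ e.source) {π : M.carrier → C2} (h : ∀ y ∈ e.source, e y = π y) :
    LBi π x := by
  rw [Cha.mem_hol] at he
  refine ⟨{ toPartialEquiv := e.toPartialEquiv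
            open_source := e.open_source
            open_target := e.open_target
            contMDiffOn_toFun := he.1
            contMDiffOn_invFun := he.2 }, hx, ?_⟩
  intro y hy
  exact (h y hy).symm

/-- The inclusion of an open set of the plane is a chart. -/
theorem base_chart (U : TopologicalSpace.Opens C2) (x : (Surf.ofOpen U).carrier) :
    ∃ e ∈ Hol (Surf.ofOpen U), x ∈ e.source ∧ ∀ y ∈ e.source, e y = (y : U).1 := by
  refine ⟨chartAt C2 x, IsManifold.chart_mem_maximalAtlas x, mem_chart_source C2 x, ?_⟩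
  intro y _
  rfl

theorem base_lbi (U : TopologicalSpace.Opens C2) (x : (Surf.ofOpen U).carrier) :
    LBi (fun y : (Surf.ofOpen U).carrier => (y : U).1) x := by
  obtain ⟨e, he, hx, h⟩ := base_chart U x
  exact lbi_of_chart he hx h

theorem piL_append (Ls : List (C2 ≃L[ℂ] C2)) (L : C2 ≃L[ℂ] C2) (w : C2) :
    PiL (Ls ++ [L]) w = PiL Ls (L (b1 w)) := by
  induction Ls with
  | nil => rfl
  | cons L' Ls ih =>
    simp only [List.cons_append, PiL]
    rw [ih]

end Mod

theorem modif_mem {U : TopologicalSpace.Opens C2} {n : ℕ} {M : Surf} {π : M.carrier → C2}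
    (h : Modif U n M π) (x : M.carrier) : π x ∈ U := by
  induction h with
  | base => exact x.2
  | step ρ p _ _ _ ih => exact ih (ρ x)

theorem modif_cont {U : TopologicalSpace.Opens C2} {n : ℕ} {M : Surf} {π : M.carrier → C2}
    (h : Modif U n M π) : Continuous π := by
  induction h with
  | base => exact continuous_subtype_val
  | step ρ p _ _ hb ih => exact ih.comp (blow_cont hb)

theorem modif_lbi {U : TopologicalSpace.Opens C2} {n : ℕ} {M : Surf} {π : M.carrier → C2}
    (h : Modif U n M π) (x : M.carrier) (hx : π x ≠ 0) : LBi π x := by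
  induction h with
  | base => exact Mod.base_lbi U x
  | step ρ p _ hp hb ih =>
    have hx' : ρ x ≠ p := by
      intro he
      apply hx
      simp only [Function.comp_apply, he, hp]
    exact IsLocalDiffeomorphAt.comp (K := 𝓘(ℂ, C2)) (hf := hb.loc x hx') (hg := ih (ρ x) hx)

/-- Over the origin there is only one point if nothing has been blown up. -/
theorem Mod.base_inj {U : TopologicalSpace.Opens C2} {n : ℕ} {M : Surf} {π : M.carrier → C2}
    (h : Modif U n M π) (hn : n = 0) : Function.Injective π := by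
  cases h with
  | base => exact Subtype.val_injective
  | step ρ p _ _ _ => exact absurd hn (Nat.succ_ne_zero _)

theorem modif_chart {U : TopologicalSpace.Opens C2} {n : ℕ} {M : Surf} {π : M.carrier → C2}
    (h : Modif U n M π) {φ : C2 → C2} (hφ : Dif φ) (x : M.carrier) (hx : π x = 0) :
    ∃ Ls : List (C2 ≃L[ℂ] C2), (0 < n → Ls ≠ []) ∧ ∃ c ∈ Hol M, x ∈ c.source ∧ c x = 0 ∧
      ∀ y ∈ c.source, φ (π y) = PiL Ls (c y) := by
  induction h with
  | base =>
    obtain ⟨e, he, hxe, hey⟩ := Mod.base_chart U x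
    obtain ⟨e', h0, he', ha, ha', -⟩ := dif_homeo hφ.an hφ.inv
    refine ⟨[], fun h => absurd h (lt_irrefl 0), e.trans e', hol_trans he e' ha ha', ?_, ?_, ?_⟩
    · refine ⟨hxe, ?_⟩
      change e x ∈ e'.source
      rw [hey x hxe]
      simp only at hx
      rw [hx]
      exact h0
    · change e' (e x) = 0
      have h1 : e x = 0 := by
        rw [hey x hxe]
        exact hx
      rw [h1, he' 0 h0, hφ.zero]
    · rintro y ⟨hy1, hy2⟩
      have hy2' : e y ∈ e'.source := hy2
      change φ (y : U).1 = e' (e y)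
      rw [he' _ hy2', hey y hy1]
  | @step n M M' π ρ p hM hp hb ih =>
    by_cases hxp : ρ x = p
    · obtain ⟨Ls, -, c, hc, hpc, hc0, hcy⟩ := ih p hp
      obtain ⟨L, e, he, hxe, he0, hey⟩ := blow_chart hb hc hpc hc0 x hxp
      refine ⟨Ls ++ [L], fun _ => by simp, e, he, hxe, he0, fun y hy => ?_⟩
      rw [Mod.piL_append, ← (hey y hy).2, ← hcy _ (hey y hy).1]
      rfl
    · have hx' : π (ρ x) = 0 := hx
      obtain ⟨Ls, hLs, c, hc, hxc, hc0, hcy⟩ := ih (ρ x) hx'
      have hn : 0 < n := by
        rcases Nat.eq_zero_or_pos n with h0 | h0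
        · exact absurd (Mod.base_inj hM h0 (hx'.trans hp.symm)) hxp
        · exact h0
      obtain ⟨e, he, hxe, hey⟩ := lbi_pull (hb.loc x hxp) hc hxc
      refine ⟨Ls, fun _ => hLs hn, e, he, hxe, ?_, fun y hy => ?_⟩
      · rw [(hey x hxe).2, hc0]
      · rw [(hey y hy).2, ← hcy _ (hey y hy).1]
        rfl

end Pool.Agent.KS
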