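import Pool.Agent.KS.Bia
import Pool.Agent.KS.Cha

/-!
# From local birational transitions to birational transitions
-/

set_option autoImplicit false

namespace Pool.Agent.KS

open scoped Manifold ContDiff Topology Uniformity
open Filter

namespace Str

/-- on a connected set the local automorphisms agree -/
lemma glue {X : Surf} {c c' : OpenPartialHomeomorph X.carrier C2} {U : Set X.carrier}
    (hU : IsPreconnected U) (hUc : U ⊆ c.source)
    (h : ∀ x ∈ U, ∃ f, ∃ V ∈ 𝓝 (c x), Restr f (c' ∘ c.symm) V) :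
    ∃ f, Restr f (c' ∘ c.symm) (c '' U) := by
  classical
  rcases U.eq_empty_or_nonempty with rfl | ⟨x0, hx0⟩
  · exact ⟨AlgEquiv.refl, fun w hw => by
      rw [Set.image_empty] at hw
      exact absurd hw (Set.notMem_empty w)⟩
  choose! f V hV hf using h
  letI : TopologicalSpace (K2 ≃ₐ[ℂ] K2) := ⊥
  haveI : DiscreteTopology (K2 ≃ₐ[ℂ] K2) := ⟨rfl⟩
  have hcont : ContinuousOn f U := by
    intro x hx
    have h1 : ∀ᶠ x' in 𝓝[U] x, f x' = f x := by
      have h2 : ∀ᶠ x' in 𝓝[U] x, c x' ∈ interior (V x) :=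
        ((c.continuousAt (hUc hx)).continuousWithinAt.eventually
          (isOpen_interior.mem_nhds (mem_interior_iff_mem_nhds.2 (hV x hx))))
      filter_upwards [h2, self_mem_nhdsWithin] with x' h3 h4
      have h5 : c x' ∈ interior (V x) ∩ interior (V x') :=
        ⟨h3, mem_interior_iff_mem_nhds.2 (hV x' h4)⟩
      exact restr_unique (isOpen_interior.inter isOpen_interior) ⟨_, h5⟩
        (fun w hw => hf x' h4 w (interior_subset hw.2))
        (fun w hw => hf x hx w (interior_subset hw.1))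
    exact continuousWithinAt_const.congr_of_eventuallyEq h1 rfl
  refine ⟨f x0, ?_⟩
  rintro _ ⟨x, hx, rfl⟩
  rw [hU.constant hcont hx0 hx]
  exact hf x hx (c x) (mem_of_mem_nhds (hV x hx))

end Str

theorem strong {X : Surf} [CompactSpace X.carrier] (h : LocBir X) : BirStr X := by
  classical
  obtain ⟨A, hA, hcov, hloc⟩ := h
  letI : UniformSpace X.carrier := uniformSpaceOfCompactR1
  haveI : LocallyConnectedSpace X.carrier := ChartedSpace.locallyConnectedSpace C2 X.carrier
  obtain ⟨V, hV, hVc⟩ : ∃ V ∈ 𝓤 X.carrier, ∀ x, ∃ c : A, UniformSpace.ball x V ⊆ c.1.source := by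
    obtain ⟨V, hV, h1⟩ := lebesgue_number_lemma (K := (Set.univ : Set X.carrier))
      (U := fun c : A => c.1.source) isCompact_univ (fun c => c.1.open_source) (fun x _ => by
        obtain ⟨c, hc, hx⟩ := hcov x
        exact Set.mem_iUnion.2 ⟨⟨c, hc⟩, hx⟩)
    exact ⟨V, hV, fun x => h1 x (Set.mem_univ x)⟩
  choose c hc using hVc
  obtain ⟨W, hW, hWs, hWV⟩ := comp_comp_symm_mem_uniformity_sets hV
  have hWV' : ∀ a b d e : X.carrier, (a, b) ∈ W → (b, d) ∈ W → (d, e) ∈ W → (a, e) ∈ V := by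
    intro a b d e h1 h2 h3
    exact hWV ⟨d, ⟨b, h1, h2⟩, h3⟩
  have hsymm : ∀ a b : X.carrier, (a, b) ∈ W → (b, a) ∈ W := fun a b h1 => hWs.symm a b h1
  let U : X.carrier → Set X.carrier := fun y =>
    connectedComponentIn (interior (UniformSpace.ball y W)) y
  have hUo : ∀ y, IsOpen (U y) := fun y => isOpen_interior.connectedComponentIn
  have hUy : ∀ y, y ∈ U y := fun y => mem_connectedComponentIn
    (mem_interior_iff_mem_nhds.2 (UniformSpace.ball_mem_nhds y hW))
  have hUc : ∀ y, IsPreconnected (U y) := fun y => isPreconnected_connectedComponentIn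
  have hUb : ∀ y, ∀ x ∈ U y, (y, x) ∈ W := by
    intro y x hx
    have h1 : x ∈ UniformSpace.ball y W := interior_subset (connectedComponentIn_subset _ _ hx)
    exact h1
  have hUs : ∀ y z x, x ∈ U y → x ∈ U z → U z ⊆ (c y).1.source := by
    intro y z x hy hz q hq
    exact hc y (hWV' y x z q (hUb y x hy) (hsymm _ _ (hUb z x hz)) (hUb z q hq))
  refine ⟨Set.range fun y => (c y).1.restrOpen (U y) (hUo y), ?_, fun y => ⟨_, ⟨y, rfl⟩, ?_⟩, ?_⟩
  · rintro _ ⟨y, rfl⟩
    exact hol_restr (hA (c y).2) (hUo y)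
  · exact ⟨hUs y y y (hUy y) (hUy y) (hUy y), hUy y⟩
  · rintro _ ⟨y, rfl⟩ _ ⟨z, rfl⟩
    by_cases h1 : ∃ x, x ∈ U y ∧ x ∈ U z
    · obtain ⟨x, hy, hz⟩ := h1
      have h2 : U z ⊆ (c y).1.source := hUs y z x hy hz
      have h3 : U z ⊆ (c z).1.source := hUs z z z (hUy z) (hUy z)
      obtain ⟨f, hf⟩ := Str.glue (c := (c y).1) (c' := (c z).1) (hUc z) h2 fun q hq =>
        hloc _ (c y).2 _ (c z).2 q ⟨h2 hq, h3 hq⟩
      refine ⟨f, fun w hw => hf w ?_⟩
      rw [OpenPartialHomeomorph.trans_source] at hw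
      obtain ⟨h4, h5⟩ := hw
      have h6 : w ∈ (c y).1.target := h4.1
      have h7 : (c y).1.symm w ∈ U z := h5.2
      exact ⟨_, h7, (c y).1.right_inv h6⟩
    · refine ⟨AlgEquiv.refl, fun w hw => absurd ?_ h1⟩
      rw [OpenPartialHomeomorph.trans_source] at hw
      obtain ⟨h4, h5⟩ := hw
      have h7 : (c y).1.symm w ∈ U z := h5.2
      have h8 : (c y).1.symm w ∈ U y := h4.2
      exact ⟨_, h8, h7⟩

end Pool.Agent.KS
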